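import Mathlib

set_option autoImplicit false

/-!
Quantum integers and q-round elements of a field.
-/

namespace Pool.Agent.Work.MP_8ad3a8_al

/-- quantum integer `[n]` -/
noncomputable def qint {K : Type*} [Field K] (v : K) (n : ℤ) : K := (v ^ n - v ^ (-n)) / (v - v⁻¹)

/-- quotient of two finite products of quantum integers `[n]`, `n ≠ 0` -/
def IsQRound {K : Type*} [Field K] (v x : K) : Prop :=
  ∃ a b : List ℤ, (∀ n ∈ a, n ≠ 0) ∧ (∀ n ∈ b, n ≠ 0) ∧
    x = (a.map (qint v)).prod / (b.map (qint v)).prod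

end Pool.Agent.Work.MP_8ad3a8_al
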