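import Mathlib
import Pool.Agent.Work.MP_8ad3a8_al.QDef
set_option autoImplicit false
namespace Pool.Agent.Work.MP_8ad3a8_al

/-- the subring generated by `v, v⁻¹, (v+1)⁻¹` and all `[n]⁻¹` -/
def RR {K : Type*} [Field K] (v : K) : Subring K :=
  Subring.closure ({v, v⁻¹, (v + 1)⁻¹} ∪ {x | ∃ n : ℤ, n ≠ 0 ∧ x = (qint v n)⁻¹})

open Polynomial

section QR

variable {K : Type*} [Field K]

/-- the value of the cyclotomic polynomial -/
noncomputable def cy (v : K) (n : ℕ) : K := aeval v (cyclotomic n ℤ)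

theorem cy_eq (v : K) (n : ℕ) : cy v n = eval v (cyclotomic n K) := by
  unfold cy
  rw [aeval_def, ← eval_map, ← map_cyclotomic_int n K]
  rfl

theorem prod_cy (v : K) {n : ℕ} (hn : 0 < n) : ∏ d ∈ n.divisors, cy v d = v ^ n - 1 := by
  have h := congrArg (eval v) (prod_cyclotomic_eq_X_pow_sub_one hn K)
  rw [eval_prod] at h
  simpa [cy_eq] using h

theorem cy_one (v : K) : cy v 1 = v - 1 := by simp [cy_eq]

theorem cy_sq_odd (v : K) {n : ℕ} (hn : ¬ 2 ∣ n) : cy (v ^ 2) n = cy v n * cy v (2 * n) := by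
  have h := congrArg (eval v) (cyclotomic_expand_eq_cyclotomic_mul Nat.prime_two hn K)
  rw [expand_eval, eval_mul, mul_comm n 2] at h
  rw [cy_eq, cy_eq, cy_eq, h, mul_comm]

theorem cy_sq_even (v : K) {n : ℕ} (hn : 2 ∣ n) : cy (v ^ 2) n = cy v (2 * n) := by
  have h := congrArg (eval v) (cyclotomic_expand_eq_cyclotomic Nat.prime_two hn K)
  rw [expand_eval, mul_comm n 2] at h
  rw [cy_eq, cy_eq, h]

theorem IsQRound.one (v : K) : IsQRound v 1 := ⟨[], [], by simp, by simp, by simp⟩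

theorem IsQRound.mul {v x y : K} (hx : IsQRound v x) (hy : IsQRound v y) : IsQRound v (x * y) := by
  obtain ⟨a, b, ha, hb, rfl⟩ := hx
  obtain ⟨a', b', ha', hb', rfl⟩ := hy
  refine ⟨a ++ a', b ++ b', ?_, ?_, ?_⟩
  · intro n hn
    rcases List.mem_append.1 hn with h | h
    exacts [ha n h, ha' n h]
  · intro n hn
    rcases List.mem_append.1 hn with h | h
    exacts [hb n h, hb' n h]
  · simp only [List.map_append, List.prod_append]
    rw [div_mul_div_comm]

theorem IsQRound.inv {v x : K} (hx : IsQRound v x) : IsQRound v x⁻¹ := by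
  obtain ⟨a, b, ha, hb, rfl⟩ := hx
  exact ⟨b, a, hb, ha, by rw [inv_div]⟩

theorem IsQRound.div {v x y : K} (hx : IsQRound v x) (hy : IsQRound v y) : IsQRound v (x / y) := by
  rw [div_eq_mul_inv]; exact hx.mul hy.inv

theorem IsQRound.qint (v : K) {n : ℤ} (hn : n ≠ 0) : IsQRound v (qint v n) :=
  ⟨[n], [], by simpa using hn, by simp, by simp⟩

theorem IsQRound.prod {ι : Type*} {v : K} (s : Finset ι) (g : ι → K)
    (h : ∀ i ∈ s, IsQRound v (g i)) : IsQRound v (∏ i ∈ s, g i) := by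
  classical
  induction s using Finset.induction_on with
  | empty => simpa using IsQRound.one v
  | insert a s ha ih =>
    rw [Finset.prod_insert ha]
    exact (h a (Finset.mem_insert_self _ _)).mul
      (ih fun i hi => h i (Finset.mem_insert_of_mem hi))

theorem qint_neg (v : K) (n : ℤ) : qint v (-n) = - qint v n := by
  unfold Pool.Agent.Work.MP_8ad3a8_al.qint
  rw [neg_neg, ← neg_div, neg_sub]

theorem IsQRound.neg {v x : K} (hv : v - v⁻¹ ≠ 0) (hx : IsQRound v x) : IsQRound v (-x) := by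
  have h1 : Pool.Agent.Work.MP_8ad3a8_al.qint v (-1) = -1 := by
    rw [qint_neg]
    unfold Pool.Agent.Work.MP_8ad3a8_al.qint
    rw [zpow_one, zpow_neg_one, div_self hv]
  have h2 := (IsQRound.qint v (n := -1) (by norm_num)).mul hx
  rwa [h1, neg_one_mul] at h2

/-- symmetrized value at `v ^ 2` -/
noncomputable def CC (v : K) (n : ℕ) : K := cy (v ^ 2) n * (v ^ (Nat.totient n))⁻¹

theorem prod_CC {v : K} (hv0 : v ≠ 0) (hv : v - v⁻¹ ≠ 0) {n : ℕ} (hn : 0 < n) :
    ∏ d ∈ n.divisors.erase 1, CC v d = qint v n := by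
  have h1 : ∏ d ∈ n.divisors, CC v d = v ^ (n : ℤ) - v ^ (-(n : ℤ)) := by
    unfold CC
    rw [Finset.prod_mul_distrib, prod_cy _ hn, Finset.prod_inv_distrib,
      Finset.prod_pow_eq_pow_sum, Nat.sum_totient, zpow_neg, zpow_natCast, ← pow_mul,
      mul_comm 2 n, pow_mul]
    field_simp
  have h2 : CC v 1 * ∏ d ∈ n.divisors.erase 1, CC v d = ∏ d ∈ n.divisors, CC v d :=
    Finset.mul_prod_erase _ _ (Nat.one_mem_divisors.2 hn.ne')
  have h3 : CC v 1 = v - v⁻¹ := by
    unfold CC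
    rw [cy_one, Nat.totient_one, pow_one]
    field_simp
  unfold qint
  rw [← h1, ← h2, h3, mul_div_cancel_left₀ _ hv]

/-- `v` is not a root of an integer polynomial -/
def Tr (v : K) : Prop := ∀ P : ℤ[X], aeval v P = 0 → P = 0

theorem Tr.inj {v : K} (hv : Tr v) {P Q : ℤ[X]} (h : aeval v P = aeval v Q) : P = Q := by
  have := hv (P - Q) (by rw [map_sub, h, sub_self])
  exact sub_eq_zero.1 this

theorem Tr.ne_zero {v : K} (hv : Tr v) : v ≠ 0 := by
  intro h
  have := hv X (by rw [aeval_X, h])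
  exact X_ne_zero this

theorem Tr.pow_ne {v : K} (hv : Tr v) {n : ℕ} (hn : 0 < n) : v ^ n ≠ 1 := by
  intro h
  have := hv (X ^ n - 1) (by rw [map_sub, map_pow, aeval_X, map_one, h, sub_self])
  exact X_pow_sub_C_ne_zero hn (1 : ℤ) (by simpa using this)

theorem Tr.sub_inv_ne {v : K} (hv : Tr v) : v - v⁻¹ ≠ 0 := by
  intro h
  have h0 := hv.ne_zero
  have h1 := hv.pow_ne (n := 2) two_pos
  apply h1
  rw [sub_eq_zero] at h
  rw [pow_two]
  nth_rewrite 1 [h]
  exact inv_mul_cancel₀ h0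

theorem Tr.cy_ne {v : K} (hv : Tr v) (n : ℕ) : cy v n ≠ 0 := fun h =>
  cyclotomic_ne_zero n ℤ (hv _ h)

theorem Tr.sq {v : K} (hv : Tr v) : Tr (v ^ 2) := by
  intro P hP
  have h1 : aeval v (expand ℤ 2 P) = 0 := by rw [expand_aeval, hP]
  have h2 := hv _ h1
  exact (expand_eq_zero two_pos).1 h2

theorem Tr.CC_ne {v : K} (hv : Tr v) (n : ℕ) : CC v n ≠ 0 :=
  mul_ne_zero (hv.sq.cy_ne n) (inv_ne_zero (pow_ne_zero _ hv.ne_zero))

theorem CC_round {v : K} (hv : Tr v) : ∀ n : ℕ, 2 ≤ n → IsQRound v (CC v n) := by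
  intro n
  induction n using Nat.strong_induction_on with
  | _ n ih =>
    intro hn
    have h1 := prod_CC hv.ne_zero hv.sub_inv_ne (n := n) (by omega)
    have hmem : n ∈ n.divisors.erase 1 := by
      rw [Finset.mem_erase]
      exact ⟨by omega, Nat.mem_divisors_self _ (by omega)⟩
    rw [← Finset.mul_prod_erase _ _ hmem] at h1
    have h2 : IsQRound v (∏ d ∈ (n.divisors.erase 1).erase n, CC v d) := by
      apply IsQRound.prod
      intro d hd
      rw [Finset.mem_erase, Finset.mem_erase] at hd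
      have hdn := Nat.divisor_le hd.2.2
      have hd0 := Nat.pos_of_mem_divisors hd.2.2
      exact ih d (lt_of_le_of_ne hdn hd.1) (by omega)
    have h3 : ∏ d ∈ (n.divisors.erase 1).erase n, CC v d ≠ 0 :=
      Finset.prod_ne_zero_iff.2 fun d _ => hv.CC_ne d
    have h4 : CC v n = qint v n / ∏ d ∈ (n.divisors.erase 1).erase n, CC v d := by
      rw [← h1, mul_div_cancel_right₀ _ h3]
    rw [h4]
    exact (IsQRound.qint v (by omega)).div h2

/-- normal form modulo q-round elements -/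
def Good (v x : K) : Prop := ∃ (k : ℤ) (h : K) (f : ℕ →₀ ℤ), IsQRound v h ∧
  x = v ^ k * h * f.prod (fun j e => cy v (2 * (2 * j + 1)) ^ e)

theorem Good.mul {v x y : K} (hv : Tr v) (hx : Good v x) (hy : Good v y) : Good v (x * y) := by
  obtain ⟨k, h, f, hh, rfl⟩ := hx
  obtain ⟨k', h', f', hh', rfl⟩ := hy
  refine ⟨k + k', h * h', f + f', hh.mul hh', ?_⟩
  rw [zpow_add₀ hv.ne_zero, Finsupp.prod_add_index']
  · ring
  · intro; exact zpow_zero _
  · intro a b c
    exact zpow_add₀ (hv.cy_ne _) _ _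

theorem Good.inv {v x : K} (_hv : Tr v) (hx : Good v x) : Good v x⁻¹ := by
  obtain ⟨k, h, f, hh, rfl⟩ := hx
  refine ⟨-k, h⁻¹, -f, hh.inv, ?_⟩
  rw [zpow_neg, Finsupp.prod_neg_index, mul_inv, mul_inv]
  · congr 1
    rw [Finsupp.prod, Finsupp.prod, ← Finset.prod_inv_distrib]
    exact Finset.prod_congr rfl fun i _ => (zpow_neg _ _).symm
  · intro; exact zpow_zero _

theorem Good.of_round {v x : K} (hx : IsQRound v x) : Good v x :=
  ⟨0, x, 0, hx, by simp⟩

theorem Good.of_v {v : K} : Good v v :=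
  ⟨1, 1, 0, IsQRound.one v, by simp⟩

theorem Good.zpow_v {v : K} (k : ℤ) : Good v (v ^ k) :=
  ⟨k, 1, 0, IsQRound.one v, by simp⟩

theorem Good.of_gen {v : K} (j : ℕ) : Good v (cy v (2 * (2 * j + 1))) :=
  ⟨0, 1, Finsupp.single j 1, IsQRound.one v, by simp⟩

theorem Good.cy_sq {v : K} (hv : Tr v) {n : ℕ} (hn : 2 ≤ n) : Good v (cy (v ^ 2) n) := by
  have h1 : cy (v ^ 2) n = CC v n * v ^ (Nat.totient n : ℤ) := by
    unfold CC
    rw [zpow_natCast, mul_assoc, inv_mul_cancel₀ (pow_ne_zero _ hv.ne_zero), mul_one]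
  rw [h1]
  exact (Good.of_round (CC_round hv n hn)).mul hv (Good.zpow_v _)

theorem Good.cy {v : K} (hv : Tr v) {n : ℕ} (hn : 2 ≤ n) : Good v (cy v n) := by
  by_cases h2 : 2 ∣ n
  · obtain ⟨m, rfl⟩ := h2
    by_cases h3 : 2 ∣ m
    · rw [← cy_sq_even v h3]
      exact Good.cy_sq hv (by omega)
    · obtain ⟨j, rfl⟩ : ∃ j, m = 2 * j + 1 := ⟨m / 2, by omega⟩
      exact Good.of_gen j
  · obtain ⟨j, rfl⟩ : ∃ j, n = 2 * j + 1 := ⟨n / 2, by omega⟩
    have h3 := cy_sq_odd v h2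
    have h4 : MP_8ad3a8_al.cy v (2 * j + 1) =
        MP_8ad3a8_al.cy (v ^ 2) (2 * j + 1) * (MP_8ad3a8_al.cy v (2 * (2 * j + 1)))⁻¹ := by
      rw [h3, mul_assoc, mul_inv_cancel₀ (hv.cy_ne _), mul_one]
    rw [h4]
    exact (Good.cy_sq hv hn).mul hv ((Good.of_gen j).inv hv)

/-- admissible denominators -/
noncomputable def DD : Submonoid ℤ[X] :=
  Submonoid.closure ({X} ∪ {p | ∃ m : ℕ, 2 ≤ m ∧ p = cyclotomic m ℤ})

theorem X_mem_DD : (X : ℤ[X]) ∈ DD := Submonoid.subset_closure (Or.inl rfl)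

theorem cyc_mem_DD {m : ℕ} (hm : 2 ≤ m) : cyclotomic m ℤ ∈ DD :=
  Submonoid.subset_closure (Or.inr ⟨m, hm, rfl⟩)

theorem DD_ne_zero {s : ℤ[X]} (hs : s ∈ DD) : s ≠ 0 := by
  unfold DD at hs
  induction hs using Submonoid.closure_induction with
  | mem x hx =>
    rcases hx with hx | ⟨m, -, rfl⟩
    · rw [Set.mem_singleton_iff.1 hx]
      exact X_ne_zero
    · exact cyclotomic_ne_zero m ℤ
  | one => exact one_ne_zero
  | mul x y _ _ hx hy => exact mul_ne_zero hx hy

theorem DD_good {v : K} (hv : Tr v) {s : ℤ[X]} (hs : s ∈ DD) : Good v (aeval v s) := by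
  unfold DD at hs
  induction hs using Submonoid.closure_induction with
  | mem x hx =>
    rcases hx with hx | ⟨m, hm, rfl⟩
    · rw [Set.mem_singleton_iff.1 hx, aeval_X]
      exact Good.of_v
    · exact Good.cy hv hm
  | one =>
    rw [map_one]
    exact Good.of_round (IsQRound.one v)
  | mul x y _ _ hx hy =>
    rw [map_mul]
    exact hx.mul hv hy

theorem DD_dvd {s : ℤ[X]} (hs : s ∈ DD) : ∀ P : ℤ[X], P ∣ s → ∃ d ∈ DD, P = d ∨ P = -d := by
  unfold DD at hs
  induction hs using Submonoid.closure_induction_left with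
  | one =>
    intro P hP
    have h1 : IsUnit P := isUnit_of_dvd_one hP
    obtain ⟨c, hc, rfl⟩ := Polynomial.isUnit_iff.1 h1
    refine ⟨1, one_mem _, ?_⟩
    rcases Int.isUnit_iff.1 hc with rfl | rfl
    · left; simp
    · right; simp
  | mul_left p hp t ht ih =>
    intro P hP
    have hpp : Prime p := by
      rcases hp with hp | ⟨m, hm, rfl⟩
      · rw [Set.mem_singleton_iff.1 hp]
        exact prime_X
      · exact (cyclotomic.irreducible (by omega)).prime
    have hpD : p ∈ DD := Submonoid.subset_closure hp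
    obtain ⟨Q, hQ⟩ := hP
    have h1 : p ∣ P * Q := ⟨t, hQ.symm⟩
    rcases hpp.dvd_or_dvd h1 with ⟨P', rfl⟩ | ⟨Q', rfl⟩
    · have h2 : t = P' * Q := by
        apply mul_left_cancel₀ hpp.ne_zero
        rw [hQ]; ring
      obtain ⟨d, hd, hd'⟩ := ih P' ⟨Q, h2⟩
      refine ⟨p * d, mul_mem hpD hd, ?_⟩
      rcases hd' with rfl | rfl
      · exact Or.inl rfl
      · right; ring
    · have h2 : t = P * Q' := by
        apply mul_left_cancel₀ hpp.ne_zero
        rw [hQ]; ring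
      exact ih P ⟨Q', h2⟩

theorem exists_qint_poly {v : K} (hv : Tr v) {n : ℕ} (hn : 0 < n) :
    ∃ s ∈ DD, aeval v s = v ^ (n - 1) * qint v n := by
  have hcy : ∀ d : ℕ, 2 ≤ d → ∃ s ∈ DD, aeval v s = cy (v ^ 2) d := by
    intro d hd
    by_cases h2 : 2 ∣ d
    · exact ⟨cyclotomic (2 * d) ℤ, cyc_mem_DD (by omega), (cy_sq_even v h2).symm⟩
    · refine ⟨cyclotomic d ℤ * cyclotomic (2 * d) ℤ,
        mul_mem (cyc_mem_DD hd) (cyc_mem_DD (by omega)), ?_⟩
      rw [map_mul, cy_sq_odd v h2]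
      rfl
  have hprod : ∀ T : Finset ℕ, (∀ d ∈ T, 2 ≤ d) → ∃ s ∈ DD, aeval v s = ∏ d ∈ T, cy (v ^ 2) d := by
    intro T
    induction T using Finset.induction_on with
    | empty => exact fun _ => ⟨1, one_mem _, by simp⟩
    | insert a T ha ih =>
      intro hT
      obtain ⟨s, hs, hs'⟩ := ih fun d hd => hT d (Finset.mem_insert_of_mem hd)
      obtain ⟨r, hr, hr'⟩ := hcy a (hT a (Finset.mem_insert_self _ _))
      exact ⟨r * s, mul_mem hr hs, by rw [map_mul, hs', hr', Finset.prod_insert ha]⟩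
  obtain ⟨s, hs, hs'⟩ := hprod (n.divisors.erase 1) (by
    intro d hd
    rw [Finset.mem_erase] at hd
    have := Nat.pos_of_mem_divisors hd.2
    omega)
  refine ⟨s, hs, ?_⟩
  rw [hs', ← prod_CC hv.ne_zero hv.sub_inv_ne hn]
  unfold CC
  rw [Finset.prod_mul_distrib, Finset.prod_inv_distrib, Finset.prod_pow_eq_pow_sum]
  have h1 : ∑ d ∈ n.divisors.erase 1, Nat.totient d = n - 1 := by
    have h2 := Finset.add_sum_erase n.divisors Nat.totient (Nat.one_mem_divisors.2 hn.ne')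
    rw [Nat.sum_totient, Nat.totient_one] at h2
    omega
  rw [h1, mul_comm, mul_assoc, inv_mul_cancel₀ (pow_ne_zero _ hv.ne_zero), mul_one]

theorem RR_frac {v : K} (hv : Tr v) {x : K} (hx : x ∈ RR v) :
    ∃ P : ℤ[X], ∃ s ∈ DD, x * aeval v s = aeval v P := by
  unfold RR at hx
  induction hx using Subring.closure_induction with
  | mem x hx =>
    rcases hx with hx | ⟨n, hn, rfl⟩
    · rcases hx with rfl | rfl | hx
      · exact ⟨X, 1, one_mem _, by simp⟩
      · exact ⟨1, X, X_mem_DD, by simp [hv.ne_zero]⟩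
      · rw [Set.mem_singleton_iff.1 hx]
        refine ⟨1, cyclotomic 2 ℤ, cyc_mem_DD le_rfl, ?_⟩
        have h1 : v + 1 ≠ 0 := by
          intro h
          have := hv (X + 1) (by simp [h])
          exact X_add_C_ne_zero (1 : ℤ) (by simpa using this)
        rw [cyclotomic_two]
        simp [h1]
    · have key : ∀ m : ℕ, 0 < m → ∃ P : ℤ[X], ∃ s ∈ DD, (qint v m)⁻¹ * aeval v s = aeval v P := by
        intro m hm
        obtain ⟨s, hs, hs'⟩ := exists_qint_poly hv hm
        refine ⟨X ^ (m - 1), s, hs, ?_⟩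
        have h0 : aeval v s ≠ 0 := fun h => DD_ne_zero hs (hv _ h)
        rw [hs'] at h0
        rw [hs', mul_comm, mul_assoc, mul_inv_cancel₀ (right_ne_zero_of_mul h0), mul_one]
        simp
      rcases lt_or_gt_of_ne hn with h | h
      · obtain ⟨P, s, hs, h1⟩ := key (-n).toNat (by omega)
        have h2 : (((-n).toNat : ℕ) : ℤ) = -n := by omega
        rw [h2, qint_neg] at h1
        refine ⟨-P, s, hs, ?_⟩
        rw [map_neg, ← h1, inv_neg]
        ring
      · obtain ⟨P, s, hs, h1⟩ := key n.toNat (by omega)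
        have h2 : ((n.toNat : ℕ) : ℤ) = n := by omega
        rw [h2] at h1
        exact ⟨P, s, hs, h1⟩
  | zero => exact ⟨0, 1, one_mem _, by simp⟩
  | one => exact ⟨1, 1, one_mem _, by simp⟩
  | add x y _ _ hx hy =>
    obtain ⟨P, s, hs, h1⟩ := hx
    obtain ⟨Q, t, ht, h2⟩ := hy
    refine ⟨P * t + Q * s, s * t, mul_mem hs ht, ?_⟩
    rw [map_mul, map_add, map_mul, map_mul, ← h1, ← h2]
    ring
  | neg x _ hx =>
    obtain ⟨P, s, hs, h1⟩ := hx
    exact ⟨-P, s, hs, by rw [map_neg, ← h1]; ring⟩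
  | mul x y _ _ hx hy =>
    obtain ⟨P, s, hs, h1⟩ := hx
    obtain ⟨Q, t, ht, h2⟩ := hy
    refine ⟨P * Q, s * t, mul_mem hs ht, ?_⟩
    rw [map_mul, map_mul, ← h1, ← h2]
    ring

theorem Good.neg {v x : K} (hv : Tr v) (hx : Good v x) : Good v (-x) := by
  have h1 := (Good.of_round ((IsQRound.one v).neg hv.sub_inv_ne)).mul hv hx
  rwa [neg_one_mul] at h1

theorem good_of_unit {v : K} (hv : Tr v) {u : K} (hu0 : u ≠ 0) (hu : u ∈ RR v)
    (hu' : u⁻¹ ∈ RR v) : Good v u := by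
  obtain ⟨P, s, hs, h1⟩ := RR_frac hv hu
  obtain ⟨Q, t, ht, h2⟩ := RR_frac hv hu'
  have h3 : P * Q = s * t := by
    apply hv.inj
    rw [map_mul, map_mul, ← h1, ← h2]
    field_simp
  obtain ⟨d, hd, hd'⟩ := DD_dvd (mul_mem hs ht) P ⟨Q, h3.symm⟩
  have hs0 : aeval v s ≠ 0 := fun h => DD_ne_zero hs (hv _ h)
  have h4 : u = aeval v P * (aeval v s)⁻¹ := by
    rw [← h1, mul_assoc, mul_inv_cancel₀ hs0, mul_one]
  have hP : Good v (aeval v P) := by
    rcases hd' with rfl | rfl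
    · exact DD_good hv hd
    · rw [map_neg]
      exact (DD_good hv hd).neg hv
  rw [h4]
  exact hP.mul hv ((DD_good hv hs).inv hv)

/-- multiplicative independence of cyclotomic values -/
theorem indep {v : K} (hv : Tr v) (e : ℕ →₀ ℤ) (he : e 0 = 0)
    (h : (e.prod fun m k => cy v m ^ k) ^ 2 = 1) : e = 0 := by
  set P : ℤ[X] := ∏ m ∈ e.support, cyclotomic m ℤ ^ (e m).toNat with hP
  set Q : ℤ[X] := ∏ m ∈ e.support, cyclotomic m ℤ ^ (-e m).toNat with hQ
  have h1 : aeval v P = (e.prod fun m k => cy v m ^ k) * aeval v Q := by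
    rw [hP, hQ, map_prod, map_prod, Finsupp.prod, ← Finset.prod_mul_distrib]
    apply Finset.prod_congr rfl
    intro m _
    rw [map_pow, map_pow]
    change cy v m ^ (e m).toNat = cy v m ^ e m * cy v m ^ (-e m).toNat
    rw [← zpow_natCast, ← zpow_natCast (cy v m), ← zpow_add₀ (hv.cy_ne m)]
    congr 1
    omega
  have h2 : P ^ 2 = Q ^ 2 := by
    apply hv.inj
    rw [map_pow, map_pow, h1, mul_pow, h, one_mul]
  have key : ∀ g : ℕ → ℤ, (∏ m ∈ e.support, cyclotomic m ℤ ^ (g m).toNat) ^ 2 =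
      (∏ m ∈ e.support, cyclotomic m ℤ ^ (-g m).toNat) ^ 2 → ∀ m ∈ e.support, ¬ 0 < g m := by
    intro g hg m hm hpos
    have hm0 : m ≠ 0 := by
      rintro rfl
      exact (Finsupp.mem_support_iff.1 hm) he
    have hpr : Prime (cyclotomic m ℤ) := (cyclotomic.irreducible (by omega)).prime
    have h3 : cyclotomic m ℤ ∣ (∏ m ∈ e.support, cyclotomic m ℤ ^ (-g m).toNat) ^ 2 := by
      rw [← hg]
      apply Dvd.dvd.trans _ (dvd_pow_self _ two_ne_zero)
      exact (dvd_pow_self _ (by omega)).trans (Finset.dvd_prod_of_mem _ hm)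
    obtain ⟨k, hk, hk'⟩ := (Prime.dvd_finsetProd_iff hpr _).1 (hpr.dvd_of_dvd_pow h3)
    have hk0 : k ≠ 0 := by
      rintro rfl
      exact (Finsupp.mem_support_iff.1 hk) he
    have hkne : (-g k).toNat ≠ 0 := by
      intro h0
      rw [h0, pow_zero] at hk'
      exact hpr.not_isUnit (isUnit_of_dvd_one hk')
    have h4 := hpr.dvd_of_dvd_pow hk'
    have h5 : cyclotomic m ℤ = cyclotomic k ℤ :=
      eq_of_monic_of_associated (cyclotomic.monic m ℤ) (cyclotomic.monic k ℤ)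
        ((cyclotomic.irreducible (by omega)).associated_of_dvd
          (cyclotomic.irreducible (by omega)) h4)
    have h6 : m = k := cyclotomic_injective h5
    subst h6
    omega
  ext m
  by_contra hne
  have hm : m ∈ e.support := Finsupp.mem_support_iff.2 hne
  have h3 := key (fun m => e m) h2 m hm
  have h4 := key (fun m => -e m) (by simpa using h2.symm) m hm
  simp only [Finsupp.coe_zero, Pi.zero_apply] at hne
  omega

theorem prod_cy_two (v : K) (hv : Tr v) {n : ℕ} (hn : ¬ 2 ∣ n) :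
    ∏ d ∈ n.divisors, cy v (2 * d) = v ^ n + 1 := by
  have hn0 : 0 < n := by omega
  have h1 := prod_cy (v ^ 2) hn0
  have h2 : ∏ d ∈ n.divisors, cy (v ^ 2) d =
      (∏ d ∈ n.divisors, cy v d) * ∏ d ∈ n.divisors, cy v (2 * d) := by
    rw [← Finset.prod_mul_distrib]
    apply Finset.prod_congr rfl
    intro d hd
    exact cy_sq_odd v fun h => hn (h.trans (Nat.dvd_of_mem_divisors hd))
  rw [h2, prod_cy v hn0] at h1
  have h3 : v ^ n - 1 ≠ 0 := sub_ne_zero.2 (hv.pow_ne hn0)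
  apply mul_left_cancel₀ h3
  rw [h1]
  ring

theorem sig_cy {v : K} (hv : Tr v) (sig : K ≃+* K) (hsig : sig v = -v) :
    ∀ n : ℕ, ¬ 2 ∣ n → (sig (cy v (2 * n))) ^ 2 = (cy v n) ^ 2 := by
  intro n
  induction n using Nat.strong_induction_on with
  | _ n ih =>
    intro hn
    have hn0 : 0 < n := by omega
    have h1 := congrArg sig (prod_cy_two v hv hn)
    rw [map_prod, map_add, map_pow, map_one, hsig,
      (Nat.odd_iff.2 (by omega) : Odd n).neg_pow] at h1
    have h2 := prod_cy v hn0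
    have h3 : ∏ d ∈ n.divisors, (sig (cy v (2 * d))) ^ 2 = ∏ d ∈ n.divisors, (cy v d) ^ 2 := by
      rw [Finset.prod_pow, Finset.prod_pow, h1, h2]
      ring
    have hmem : n ∈ n.divisors := Nat.mem_divisors_self _ hn0.ne'
    rw [← Finset.mul_prod_erase _ _ hmem, ← Finset.mul_prod_erase _ _ hmem] at h3
    have h4 : ∏ d ∈ n.divisors.erase n, (sig (cy v (2 * d))) ^ 2 =
        ∏ d ∈ n.divisors.erase n, (cy v d) ^ 2 := by
      apply Finset.prod_congr rfl
      intro d hd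
      rw [Finset.mem_erase] at hd
      have hdn := Nat.divisor_le hd.2
      exact ih d (lt_of_le_of_ne hdn hd.1) fun h => hn (h.trans (Nat.dvd_of_mem_divisors hd.2))
    rw [h4] at h3
    refine mul_right_cancel₀ ?_ h3
    exact Finset.prod_ne_zero_iff.2 fun d _ => pow_ne_zero _ (hv.cy_ne d)

theorem map_list_prod_sq (v : K) (sig : K ≃+* K) (a : List ℤ)
    (h : ∀ n : ℤ, (sig (qint v n)) ^ 2 = (qint v n) ^ 2) :
    (sig ((a.map (qint v)).prod)) ^ 2 = ((a.map (qint v)).prod) ^ 2 := by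
  induction a with
  | nil => simp
  | cons n a ih =>
    rw [List.map_cons, List.prod_cons, map_mul, mul_pow, mul_pow, ih, h]

theorem IsQRound.map_sq {v x : K} (sig : K ≃+* K)
    (h : ∀ n : ℤ, (sig (MP_8ad3a8_al.qint v n)) ^ 2 = (MP_8ad3a8_al.qint v n) ^ 2)
    (hx : IsQRound v x) : (sig x) ^ 2 = x ^ 2 := by
  obtain ⟨a, b, -, -, rfl⟩ := hx
  rw [map_div₀, div_pow, div_pow, map_list_prod_sq v sig a h, map_list_prod_sq v sig b h]

theorem sig_qint (v : K) (sig : K ≃+* K) (hsig : sig v = -v) (n : ℤ) :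
    (sig (qint v n)) ^ 2 = (qint v n) ^ 2 := by
  unfold qint
  rw [map_div₀, map_sub, map_sub, map_zpow₀, map_zpow₀, map_inv₀, hsig, div_pow, div_pow]
  have h1 : ((-v) ^ n - (-v) ^ (-n)) ^ 2 = (v ^ n - v ^ (-n)) ^ 2 := by
    rcases Int.even_or_odd n with h | h
    · rw [h.neg_zpow, h.neg.neg_zpow]
    · rw [h.neg_zpow, h.neg.neg_zpow]
      ring
  have h2 : (-v - (-v)⁻¹) ^ 2 = (v - v⁻¹) ^ 2 := by
    rw [inv_neg]
    ring
  rw [h1, h2]

theorem bar_qint (v : K) (bar : K ≃+* K) (hbar : bar v = v⁻¹) (n : ℤ) :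
    (bar (qint v n)) ^ 2 = (qint v n) ^ 2 := by
  unfold qint
  rw [map_div₀, map_sub, map_sub, map_zpow₀, map_zpow₀, map_inv₀, hbar, inv_inv, inv_zpow',
    inv_zpow', neg_neg, div_pow, div_pow]
  congr 1 <;> ring

theorem IsQRound.ne_zero {v x : K} (hv : Tr v) (hx : IsQRound v x) : x ≠ 0 := by
  have hq : ∀ n : ℤ, n ≠ 0 → MP_8ad3a8_al.qint v n ≠ 0 := by
    have key : ∀ m : ℕ, 0 < m → MP_8ad3a8_al.qint v m ≠ 0 := by
      intro m hm
      rw [← prod_CC hv.ne_zero hv.sub_inv_ne hm]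
      exact Finset.prod_ne_zero_iff.2 fun d _ => hv.CC_ne d
    intro n hn
    rcases lt_or_gt_of_ne hn with h | h
    · have h2 : (((-n).toNat : ℕ) : ℤ) = -n := by omega
      have h3 := key (-n).toNat (by omega)
      rw [h2, qint_neg] at h3
      exact neg_ne_zero.1 h3
    · have h2 : ((n.toNat : ℕ) : ℤ) = n := by omega
      have h3 := key n.toNat (by omega)
      rwa [h2] at h3
  have hl : ∀ a : List ℤ, (∀ n ∈ a, n ≠ 0) → (a.map (MP_8ad3a8_al.qint v)).prod ≠ 0 := by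
    intro a ha
    apply List.prod_ne_zero
    intro h0
    obtain ⟨n, hn, hn0⟩ := List.mem_map.1 h0
    exact hq n (ha n hn) hn0
  obtain ⟨a, b, ha, hb, rfl⟩ := hx
  exact div_ne_zero (hl a ha) (hl b hb)

end QR

theorem tr_of_transcendental {K : Type*} [Field K] [CharZero K] {v : K}
    (hv : Transcendental ℚ v) : Tr v := by
  intro P hP
  by_contra hne
  apply hv
  refine ⟨P.map (Int.castRingHom ℚ), ?_, ?_⟩
  · rwa [Ne, Polynomial.map_eq_zero_iff (RingHom.injective_int _)]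
  · have h1 : (algebraMap ℚ K).comp (Int.castRingHom ℚ) = Int.castRingHom K :=
      RingHom.ext_int _ _
    rw [← hP, aeval_def, aeval_def, eval₂_map, h1]
    rfl

theorem isQRound_of_unit {K : Type*} [Field K] [CharZero K] (v : K) (hv : Transcendental ℚ v)
    (bar sig : K ≃+* K) (hbar : bar v = v⁻¹) (hsig : sig v = -v)
    (u : K) (hu0 : u ≠ 0) (hu : u ∈ RR v) (hu' : u⁻¹ ∈ RR v)
    (h1 : bar u = u ∨ bar u = -u) (h2 : sig u = u ∨ sig u = -u) : IsQRound v u := by
  have ht : Tr v := tr_of_transcendental hv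
  have hb2 : (bar u) ^ 2 = u ^ 2 := by
    rcases h1 with h | h <;> rw [h]
    ring
  have hs2 : (sig u) ^ 2 = u ^ 2 := by
    rcases h2 with h | h <;> rw [h]
    ring
  obtain ⟨k, h, f, hh, rfl⟩ := good_of_unit ht hu0 hu hu'
  have hh0 : h ≠ 0 := hh.ne_zero ht
  have hvk : v ^ k ≠ 0 := zpow_ne_zero _ ht.ne_zero
  -- the odd part
  have hsv : (sig (v ^ k)) ^ 2 = (v ^ k) ^ 2 := by
    rw [map_zpow₀, hsig]
    rcases Int.even_or_odd k with h | h
    · rw [h.neg_zpow]
    · rw [h.neg_zpow]; ring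
  rw [map_mul, map_mul, mul_pow, mul_pow, hsv, hh.map_sq sig (sig_qint v sig hsig), mul_pow,
    mul_pow] at hs2
  have hs3 := mul_left_cancel₀ (mul_ne_zero (pow_ne_zero 2 hvk) (pow_ne_zero 2 hh0)) hs2
  have hs4 : (sig (f.prod fun j e => cy v (2 * (2 * j + 1)) ^ e)) ^ 2 =
      (f.prod fun j e => cy v (2 * j + 1) ^ e) ^ 2 := by
    rw [Finsupp.prod, Finsupp.prod, map_prod, ← Finset.prod_pow, ← Finset.prod_pow]
    apply Finset.prod_congr rfl
    intro j _
    have hsq : ∀ x : K, (x ^ f j) ^ 2 = (x ^ 2) ^ f j := by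
      intro x
      rw [← zpow_natCast, ← zpow_natCast, ← zpow_mul, ← zpow_mul, mul_comm]
    rw [map_zpow₀, hsq, hsq, sig_cy ht sig hsig _ (by omega)]
  rw [hs4] at hs3
  have hne : (f.prod fun j e => cy v (2 * (2 * j + 1)) ^ e) ≠ 0 :=
    Finset.prod_ne_zero_iff.2 fun j _ => zpow_ne_zero _ (ht.cy_ne _)
  set e1 : ℕ →₀ ℤ := f.mapDomain (fun j => 2 * j + 1) with he1
  set e2 : ℕ →₀ ℤ := f.mapDomain (fun j => 2 * (2 * j + 1)) with he2
  have hi1 : Function.Injective (fun j : ℕ => 2 * j + 1) := fun a b hab => by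
    simp only at hab; omega
  have hi2 : Function.Injective (fun j : ℕ => 2 * (2 * j + 1)) := fun a b hab => by
    simp only at hab; omega
  have hp1 : (e1.prod fun m k => cy v m ^ k) = f.prod fun j e => cy v (2 * j + 1) ^ e :=
    Finsupp.prod_mapDomain_index_inj hi1
  have hp2 : (e2.prod fun m k => cy v m ^ k) = f.prod fun j e => cy v (2 * (2 * j + 1)) ^ e :=
    Finsupp.prod_mapDomain_index_inj hi2
  have hp3 : ((e1 - e2).prod fun m k => cy v m ^ k) =
      (e1.prod fun m k => cy v m ^ k) * (e2.prod fun m k => cy v m ^ k)⁻¹ := by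
    rw [sub_eq_add_neg, Finsupp.prod_add_index', Finsupp.prod_neg_index]
    · congr 1
      rw [Finsupp.prod, Finsupp.prod, ← Finset.prod_inv_distrib]
      exact Finset.prod_congr rfl fun i _ => zpow_neg _ _
    · intro; exact zpow_zero _
    · intro; exact zpow_zero _
    · intro a b c
      exact zpow_add₀ (ht.cy_ne _) _ _
  have he10 : ∀ m : ℕ, m % 2 = 0 → e1 m = 0 := by
    intro m hm
    apply Finsupp.mapDomain_of_notMem_range
    rintro ⟨j, hj⟩
    simp only at hj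
    omega
  have he20 : ∀ m : ℕ, m % 2 = 1 → e2 m = 0 := by
    intro m hm
    apply Finsupp.mapDomain_of_notMem_range
    rintro ⟨j, hj⟩
    simp only at hj
    omega
  have he200 : e2 0 = 0 := by
    apply Finsupp.mapDomain_of_notMem_range
    rintro ⟨j, hj⟩
    simp only at hj
    omega
  have hz : e1 - e2 = 0 := by
    apply indep ht
    · rw [Finsupp.sub_apply, he10 0 rfl, he200, sub_zero]
    · rw [hp3, hp1, hp2, mul_pow, hs3, inv_pow, mul_inv_cancel₀ (pow_ne_zero 2 hne)]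
  have hf : f = 0 := by
    ext j
    have h3 : (e1 - e2) (2 * j + 1) = 0 := by rw [hz]; rfl
    rw [Finsupp.sub_apply, he20 _ (by omega), sub_zero] at h3
    have h4 : e1 (2 * j + 1) = f j := Finsupp.mapDomain_apply hi1 f j
    rw [← h4, h3]
    rfl
  subst hf
  rw [Finsupp.prod_zero_index, mul_one] at hb2 ⊢
  rw [map_mul, mul_pow, mul_pow, hh.map_sq bar (bar_qint v bar hbar)] at hb2
  have hb3 := mul_right_cancel₀ (pow_ne_zero 2 hh0) hb2
  rw [map_zpow₀, hbar] at hb3
  have hb4 : v ^ (4 * k) = 1 := by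
    have h5 : v ^ (2 * k) = v ^ (-(2 * k)) := by
      calc v ^ (2 * k) = (v ^ k) ^ 2 := by
            rw [mul_comm, zpow_mul, ← zpow_natCast (v ^ k)]; rfl
        _ = (v⁻¹ ^ k) ^ 2 := hb3.symm
        _ = v ^ (-(2 * k)) := by
          rw [inv_zpow', ← zpow_natCast, ← zpow_mul]
          congr 1
          push_cast
          ring
    calc v ^ (4 * k) = v ^ (2 * k) * v ^ (2 * k) := by
          rw [← zpow_add₀ ht.ne_zero]; congr 1; ring
      _ = v ^ (2 * k) * v ^ (-(2 * k)) := by rw [← h5]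
      _ = 1 := by rw [← zpow_add₀ ht.ne_zero, add_neg_cancel, zpow_zero]
  have hk : k = 0 := by
    by_contra hk
    rcases lt_or_gt_of_ne hk with h3 | h3
    · apply ht.pow_ne (n := (4 * (-k)).toNat) (by omega)
      rw [← zpow_natCast]
      have h6 : (((4 * (-k)).toNat : ℕ) : ℤ) = -(4 * k) := by omega
      rw [h6, zpow_neg, hb4, inv_one]
    · apply ht.pow_ne (n := (4 * k).toNat) (by omega)
      rw [← zpow_natCast]
      have h6 : (((4 * k).toNat : ℕ) : ℤ) = 4 * k := by omega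
      rw [h6, hb4]
  rw [hk, zpow_zero, one_mul]
  exact hh

end Pool.Agent.Work.MP_8ad3a8_al
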