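import Mathlib
import Pool.Agent.Work.MP_8ad3a8_al.QRound

set_option autoImplicit false

/-!
Definitions used in the statement: representations of the quantum group of a Cartan matrix of
finite type, canonical bases of irreducible representations and of triple tensor products, the
duality pairing.
-/

namespace Pool.Agent.Work.MP_8ad3a8_al

open TensorProduct

/-- A Cartan matrix of finite type with a symmetriser `d`. -/
structure Cartan (I : Type) [Fintype I] where
  a : I → I → ℤ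
  d : I → ℤ
  d_pos : ∀ i, 0 < d i
  diag : ∀ i, a i i = 2
  off : ∀ i j, i ≠ j → a i j ≤ 0
  symm : ∀ i j, d i * a i j = d j * a j i
  pos : ∀ x : I → ℤ, x ≠ 0 → 0 < ∑ i, ∑ j, x i * (d i * a i j) * x j

/-- quantum factorial -/
noncomputable def qfact {K : Type} [Field K] (u : K) (n : ℕ) : K :=
  ∏ m ∈ Finset.range n, qint u ((m : ℤ) + 1)

/-- A family of operators `E i, F i, K i, (K i)⁻¹` on a vector space. -/
structure Ops (I : Type) (K : Type) [Field K] (V : Type) [AddCommGroup V] [Module K V] where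
  E : I → Module.End K V
  F : I → Module.End K V
  Kp : I → Module.End K V
  Km : I → Module.End K V

section

variable {I : Type} [Fintype I] [DecidableEq I] {K : Type} [Field K]
variable {V : Type} [AddCommGroup V] [Module K V]
variable {V' : Type} [AddCommGroup V'] [Module K V']

/-- divided power -/
noncomputable def dpow (u : K) (T : Module.End K V) (n : ℕ) : Module.End K V :=
  (qfact u n)⁻¹ • T ^ n

/-- The defining relations of the quantum group, without the Serre relations. -/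
structure IsRel (C : Cartan I) (v : K) (X : Ops I K V) : Prop where
  Kp_Km : ∀ i, X.Kp i * X.Km i = 1
  Km_Kp : ∀ i, X.Km i * X.Kp i = 1
  K_comm : ∀ i j, X.Kp i * X.Kp j = X.Kp j * X.Kp i
  K_E : ∀ i j, X.Kp i * X.E j = v ^ (C.d i * C.a i j) • (X.E j * X.Kp i)
  K_F : ∀ i j, X.Kp i * X.F j = v ^ (-(C.d i * C.a i j)) • (X.F j * X.Kp i)
  E_F : ∀ i j, X.E i * X.F j - X.F j * X.E i =
    if i = j then (v ^ C.d i - v ^ (-C.d i))⁻¹ • (X.Kp i - X.Km i) else 0

/-- A representation of the quantum group `U_v(g)`. -/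
structure IsURep (C : Cartan I) (v : K) (X : Ops I K V) : Prop extends IsRel C v X where
  serre_E : ∀ i j, i ≠ j → ∑ k ∈ Finset.range ((1 - C.a i j).toNat + 1), (-1 : K) ^ k •
    (dpow (v ^ C.d i) (X.E i) ((1 - C.a i j).toNat - k) * X.E j *
      dpow (v ^ C.d i) (X.E i) k) = 0
  serre_F : ∀ i j, i ≠ j → ∑ k ∈ Finset.range ((1 - C.a i j).toNat + 1), (-1 : K) ^ k •
    (dpow (v ^ C.d i) (X.F i) ((1 - C.a i j).toNat - k) * X.F j *
      dpow (v ^ C.d i) (X.F i) k) = 0

/-- Tensor product of two representations, for the coproduct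
`E ↦ E ⊗ K + 1 ⊗ E`, `F ↦ F ⊗ 1 + K⁻¹ ⊗ F`, `K ↦ K ⊗ K`. -/
noncomputable def Ops.tens (X : Ops I K V) (Y : Ops I K V') : Ops I K (V ⊗[K] V') where
  E i := TensorProduct.map (X.E i) (Y.Kp i) + TensorProduct.map LinearMap.id (Y.E i)
  F i := TensorProduct.map (X.F i) LinearMap.id + TensorProduct.map (X.Km i) (Y.F i)
  Kp i := TensorProduct.map (X.Kp i) (Y.Kp i)
  Km i := TensorProduct.map (X.Km i) (Y.Km i)

/-- The invariant vectors. -/
def Ops.inv (X : Ops I K V) : Submodule K V where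
  carrier := {x | ∀ i, X.E i x = 0 ∧ X.F i x = 0 ∧ X.Kp i x = x}
  add_mem' := by
    intro x y hx hy i
    simp only [map_add, (hx i).1, (hy i).1, (hx i).2.1, (hy i).2.1, (hx i).2.2, (hy i).2.2,
      add_zero, and_self]
  zero_mem' := by intro i; simp
  smul_mem' := by
    intro r x hx i
    simp only [map_smul, (hx i).1, (hx i).2.1, (hx i).2.2, smul_zero, and_self]

/-- The subring `ℤ[v,v⁻¹]`. -/
def Av (v : K) : Subring K := Subring.closure {v, v⁻¹}

/-- The subring `ℤ[v⁻¹]`. -/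
def Zm (v : K) : Subring K := Subring.closure {v⁻¹}

/-- Monomials in divided powers of the `F i` applied to a vector. -/
noncomputable def mon (C : Cartan I) (v : K) (X : Ops I K V) (x : V) : List (I × ℕ) → V
  | [] => x
  | p :: w => dpow (v ^ C.d p.1) (X.F p.1) p.2 (mon C v X x w)

/-- `psi` is a bar involution on a representation: semilinear for `bar : v ↦ v⁻¹`, an involution,
commuting with `E i` and `F i` and exchanging `K i` and `(K i)⁻¹`. -/
structure IsBar (bar : K ≃+* K) (X : Ops I K V) (psi : V →+ V) : Prop where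
  smul : ∀ (r : K) (x : V), psi (r • x) = bar r • psi x
  invol : ∀ x, psi (psi x) = x
  E : ∀ i x, psi (X.E i x) = X.E i (psi x)
  F : ∀ i x, psi (X.F i x) = X.F i (psi x)
  Kp : ∀ i x, psi (X.Kp i x) = X.Km i (psi x)

/-- `form` is symmetric and contravariant for the antiautomorphism
`E ↦ v_i K F`, `F ↦ v_i K⁻¹ E`, `K ↦ K`. -/
structure IsForm (C : Cartan I) (v : K) (X : Ops I K V) (form : LinearMap.BilinForm K V) :
    Prop where
  symm : ∀ x y, form x y = form y x
  E : ∀ i x y, form (X.E i x) y = form x (v ^ C.d i • X.Kp i (X.F i y))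
  F : ∀ i x y, form (X.F i x) y = form x (v ^ C.d i • X.Km i (X.E i y))
  Kp : ∀ i x y, form (X.Kp i x) y = form x (X.Kp i y)

/-- exponent of `v` in the action of `K i` on a vector of weight `L - ∑ κ_k α_k`. -/
def wex (C : Cartan I) (L κ : I → ℤ) (i : I) : ℤ :=
  C.d i * L i - ∑ k, C.d i * C.a i k * κ k

end

/-- The irreducible representation of highest weight `lam` with its (signed) canonical basis,
bar involution and contravariant form. -/
structure Canon {I : Type} [Fintype I] [DecidableEq I] {K : Type} [Field K] (C : Cartan I)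
    (v : K) (bar : K ≃+* K) (lam : I → ℕ) (V : Type) [AddCommGroup V] [Module K V]
    (J : Type) [DecidableEq J] where
  X : Ops I K V
  rep : IsURep C v X
  B : Module.Basis J K V
  top : J
  top_E : ∀ i, X.E i (B top) = 0
  top_K : ∀ i, X.Kp i (B top) = v ^ (C.d i * (lam i : ℤ)) • B top
  irr : ∀ N : Submodule K V, (∀ i, ∀ x ∈ N, X.E i x ∈ N ∧ X.F i x ∈ N ∧ X.Kp i x ∈ N ∧
    X.Km i x ∈ N) → N = ⊥ ∨ N = ⊤
  dep : J → I → ℕ
  wt : ∀ i j, X.Kp i (B j) =
    v ^ wex C (fun k => (lam k : ℤ)) (fun k => (dep j k : ℤ)) i • B j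
  psi : V →+ V
  isBar : IsBar bar X psi
  form : LinearMap.BilinForm K V
  isForm : IsForm C v X form
  form_top : form (B top) (B top) = 1
  psi_B : ∀ j, psi (B j) = B j
  lattice : Submodule.span (Av v) (Set.range B) =
    Submodule.span (Av v) (Set.range (mon C v X (B top)))
  orth : ∀ j k, ∃ r ∈ Zm v, form (B j) (B k) = (if j = k then 1 else 0) + v⁻¹ * r

section

variable {I : Type} [Fintype I] [DecidableEq I] {K : Type} [Field K]
variable {C : Cartan I} {v : K} {bar : K ≃+* K}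
variable {l1 l2 l3 : I → ℕ}
variable {V1 : Type} [AddCommGroup V1] [Module K V1] {J1 : Type} [DecidableEq J1]
variable {V2 : Type} [AddCommGroup V2] [Module K V2] {J2 : Type} [DecidableEq J2]
variable {V3 : Type} [AddCommGroup V3] [Module K V3] {J3 : Type} [DecidableEq J3]

/-- tensor product basis -/
noncomputable def tb (c1 : Canon C v bar l1 V1 J1) (c2 : Canon C v bar l2 V2 J2)
    (c3 : Canon C v bar l3 V3 J3) (j : J1 × J2 × J3) : V1 ⊗[K] (V2 ⊗[K] V3) :=
  c1.B j.1 ⊗ₜ[K] (c2.B j.2.1 ⊗ₜ[K] c3.B j.2.2)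

/-- The canonical basis of a triple tensor product. -/
structure TCanon (c1 : Canon C v bar l1 V1 J1) (c2 : Canon C v bar l2 V2 J2)
    (c3 : Canon C v bar l3 V3 J3) where
  psi23 : V2 ⊗[K] V3 →+ V2 ⊗[K] V3
  isBar23 : IsBar bar (c2.X.tens c3.X) psi23
  psi23_top : ∀ y, psi23 (c2.B c2.top ⊗ₜ[K] y) = c2.B c2.top ⊗ₜ[K] c3.psi y
  psi : V1 ⊗[K] (V2 ⊗[K] V3) →+ V1 ⊗[K] (V2 ⊗[K] V3)
  isBar : IsBar bar (c1.X.tens (c2.X.tens c3.X)) psi
  psi_top : ∀ y, psi (c1.B c1.top ⊗ₜ[K] y) = c1.B c1.top ⊗ₜ[K] psi23 y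
  B : Module.Basis (J1 × J2 × J3) K (V1 ⊗[K] (V2 ⊗[K] V3))
  psi_B : ∀ j, psi (B j) = B j
  lattice : Submodule.span (Zm v) (Set.range B) = Submodule.span (Zm v) (Set.range (tb c1 c2 c3))
  cong : ∀ j, ∃ x ∈ Submodule.span (Zm v) (Set.range (tb c1 c2 c3)),
    B j - tb c1 c2 c3 j = v⁻¹ • x

/-- The product form on a triple tensor product. -/
noncomputable def form3 (c1 : Canon C v bar l1 V1 J1) (c2 : Canon C v bar l2 V2 J2)
    (c3 : Canon C v bar l3 V3 J3) : LinearMap.BilinForm K (V1 ⊗[K] (V2 ⊗[K] V3)) :=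
  LinearMap.BilinForm.tmul c1.form (LinearMap.BilinForm.tmul c2.form c3.form)

/-- `x` is an element of the dual canonical basis of the triple tensor product. -/
def IsDualCanon {c1 : Canon C v bar l1 V1 J1} {c2 : Canon C v bar l2 V2 J2}
    {c3 : Canon C v bar l3 V3 J3} (t : TCanon c1 c2 c3) (x : V1 ⊗[K] (V2 ⊗[K] V3)) : Prop :=
  ∃ j0, ∀ j, form3 c1 c2 c3 x (t.B j) = if j = j0 then 1 else 0

end

/-- The identification of `V'` with the dual of `V`: an isomorphism of representations (for the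
antipode `E ↦ - E K⁻¹`, `F ↦ - K F`) sending the canonical basis vector killed by all `F i` to
the functional dual to the highest weight vector. -/
structure IsDuality {I : Type} [Fintype I] [DecidableEq I] {K : Type} [Field K] {C : Cartan I}
    {v : K} {bar : K ≃+* K} {lam' lam : I → ℕ}
    {V' : Type} [AddCommGroup V'] [Module K V'] {J' : Type} [DecidableEq J']
    {V : Type} [AddCommGroup V] [Module K V] {J : Type} [DecidableEq J]
    (c' : Canon C v bar lam' V' J') (c : Canon C v bar lam V J)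
    (D : V' ≃ₗ[K] Module.Dual K V) : Prop where
  E : ∀ i x y, D (c'.X.E i x) y = - D x (c.X.E i (c.X.Km i y))
  F : ∀ i x y, D (c'.X.F i x) y = - D x (c.X.Kp i (c.X.F i y))
  Kp : ∀ i x y, D (c'.X.Kp i x) y = D x (c.X.Km i y)
  low : ∃ j, (∀ i, c'.X.F i (c'.B j) = 0) ∧ D (c'.B j) = c.B.coord c.top

/-- The identification of `V'` with the dual of `V` for the inverse antipode
`E ↦ - K⁻¹ E`, `F ↦ - F K`, with the same normalisation as in `IsDuality`. -/
structure IsDualityInv {I : Type} [Fintype I] [DecidableEq I] {K : Type} [Field K] {C : Cartan I}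
    {v : K} {bar : K ≃+* K} {lam' lam : I → ℕ}
    {V' : Type} [AddCommGroup V'] [Module K V'] {J' : Type} [DecidableEq J']
    {V : Type} [AddCommGroup V] [Module K V] {J : Type} [DecidableEq J]
    (c' : Canon C v bar lam' V' J') (c : Canon C v bar lam V J)
    (D : V' ≃ₗ[K] Module.Dual K V) : Prop where
  E : ∀ i x y, D (c'.X.E i x) y = - D x (c.X.Km i (c.X.E i y))
  F : ∀ i x y, D (c'.X.F i x) y = - D x (c.X.F i (c.X.Kp i y))
  Kp : ∀ i x y, D (c'.X.Kp i x) y = D x (c.X.Km i y)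
  low : ∃ j, (∀ i, c'.X.F i (c'.B j) = 0) ∧ D (c'.B j) = c.B.coord c.top

section

variable {K : Type} [Field K]
variable {V1 : Type} [AddCommGroup V1] [Module K V1] {V1' : Type} [AddCommGroup V1'] [Module K V1']
variable {V2 : Type} [AddCommGroup V2] [Module K V2] {V2' : Type} [AddCommGroup V2'] [Module K V2']
variable {V3 : Type} [AddCommGroup V3] [Module K V3] {V3' : Type} [AddCommGroup V3'] [Module K V3']

/-- The pairing `(z ⊗ y ⊗ x)(a ⊗ b ⊗ c) = x(a) y(b) z(c)`. -/
noncomputable def pairing (D1 : V1' ≃ₗ[K] Module.Dual K V1) (D2 : V2' ≃ₗ[K] Module.Dual K V2)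
    (D3 : V3' ≃ₗ[K] Module.Dual K V3) :
    V3' ⊗[K] (V2' ⊗[K] V1') →ₗ[K] Module.Dual K (V1 ⊗[K] (V2 ⊗[K] V3)) :=
  TensorProduct.dualDistrib K V1 (V2 ⊗[K] V3) ∘ₗ
    TensorProduct.map D1.toLinearMap
      (TensorProduct.dualDistrib K V2 V3 ∘ₗ
        TensorProduct.map D2.toLinearMap D3.toLinearMap) ∘ₗ
    (TensorProduct.assoc K V1' V2' V3').toLinearMap ∘ₗ
    TensorProduct.map (TensorProduct.comm K V2' V1').toLinearMap LinearMap.id ∘ₗ
    (TensorProduct.comm K V3' (V2' ⊗[K] V1')).toLinearMap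

theorem pairing_tmul (D1 : V1' ≃ₗ[K] Module.Dual K V1) (D2 : V2' ≃ₗ[K] Module.Dual K V2)
    (D3 : V3' ≃ₗ[K] Module.Dual K V3) (z : V3') (y : V2') (x : V1') (a : V1) (b : V2) (c : V3) :
    pairing D1 D2 D3 (z ⊗ₜ[K] (y ⊗ₜ[K] x)) (a ⊗ₜ[K] (b ⊗ₜ[K] c)) =
      D1 x a * (D2 y b * D3 z c) := by
  simp [pairing]

end

end Pool.Agent.Work.MP_8ad3a8_al
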