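import Mathlib
import Pool.Agent.Work.MP_8ad3a8_al.Defs

set_option autoImplicit false
set_option linter.unusedSectionVars false

/-!
Basic facts on weight spaces, forms and tensor products.
-/

namespace Pool.Agent.Work.MP_8ad3a8_al

open TensorProduct

variable {I : Type} [Fintype I] [DecidableEq I] {K : Type} [Field K]
variable {V : Type} [AddCommGroup V] [Module K V]
variable {V' : Type} [AddCommGroup V'] [Module K V']
variable {C : Cartan I} {v : K} {bar : K ≃+* K}

/-- inner product on the root lattice -/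
def ip (C : Cartan I) (κ κ' : I → ℤ) : ℤ := ∑ i, ∑ j, κ i * (C.d i * C.a i j) * κ' j

/-- `(L, κ)` for a weight `L` (given by its values on coroots) -/
def lp (C : Cartan I) (L κ : I → ℤ) : ℤ := ∑ i, C.d i * L i * κ i

/-- `2ρ` -/
def rho2 (C : Cartan I) (κ : I → ℤ) : ℤ := ∑ i, 2 * C.d i * κ i

/-- `c(κ) = 2 (L, κ) + 2ρ(κ) - (κ, κ)` -/
def cex (C : Cartan I) (L κ : I → ℤ) : ℤ := 2 * lp C L κ + rho2 C κ - ip C κ κ

/-- `h(κ) = (κ, κ) - 2 (L, κ)` -/
def hex (C : Cartan I) (L κ : I → ℤ) : ℤ := ip C κ κ - 2 * lp C L κ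

/-- height -/
def hgt (κ : I → ℤ) : ℤ := ∑ i, κ i

/-- simple root -/
def sr (i : I) : I → ℤ := Pi.single i 1

theorem ip_comm (κ κ' : I → ℤ) : ip C κ κ' = ip C κ' κ := by
  unfold ip
  rw [Finset.sum_comm]
  refine Finset.sum_congr rfl fun i _ => Finset.sum_congr rfl fun j _ => ?_
  rw [C.symm j i]
  ring

theorem ip_add_left (κ κ' μ : I → ℤ) : ip C (κ + κ') μ = ip C κ μ + ip C κ' μ := by
  unfold ip
  rw [← Finset.sum_add_distrib]
  refine Finset.sum_congr rfl fun i _ => ?_
  rw [← Finset.sum_add_distrib]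
  refine Finset.sum_congr rfl fun j _ => ?_
  rw [Pi.add_apply]
  ring

theorem ip_add_right (κ κ' μ : I → ℤ) : ip C μ (κ + κ') = ip C μ κ + ip C μ κ' := by
  rw [ip_comm, ip_add_left, ip_comm κ, ip_comm κ']

theorem ip_sr_sr (i : I) : ip C (sr i) (sr i) = 2 * C.d i := by
  unfold ip sr
  simp only [Pi.single_apply, ite_mul, one_mul, zero_mul, mul_ite, mul_one, mul_zero,
    Finset.sum_ite_eq', Finset.mem_univ, if_true]
  simp [C.diag i, mul_comm]

theorem wex_eq (L κ : I → ℤ) (i : I) : wex C L κ i = lp C L (sr i) - ip C (sr i) κ := by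
  unfold wex lp ip sr
  simp [Pi.single_apply, Finset.sum_ite_eq', ite_mul]

theorem wex_add_sr (L κ : I → ℤ) (i j : I) :
    wex C L (κ + sr j) i = wex C L κ i - C.d i * C.a i j := by
  unfold wex sr
  simp [Pi.single_apply, mul_add, Finset.sum_add_distrib]
  ring

theorem wex_sub_sr (L κ : I → ℤ) (i j : I) :
    wex C L (κ - sr j) i = wex C L κ i + C.d i * C.a i j := by
  unfold wex sr
  simp [Pi.single_apply, mul_sub, Finset.sum_sub_distrib]
  ring

theorem wex_add (L L' κ κ' : I → ℤ) (i : I) :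
    wex C (L + L') (κ + κ') i = wex C L κ i + wex C L' κ' i := by
  unfold wex
  simp [mul_add, Finset.sum_add_distrib]
  ring

theorem wex_inj {L κ κ' : I → ℤ} (h : ∀ i, wex C L κ i = wex C L κ' i) : κ = κ' := by
  by_contra hne
  have h1 : κ - κ' ≠ 0 := sub_ne_zero.2 hne
  have h2 := C.pos _ h1
  have h3 : ∀ i, ∑ j, C.d i * C.a i j * (κ - κ') j = 0 := by
    intro i
    have h4 := h i
    unfold wex at h4
    have h5 : ∑ j, C.d i * C.a i j * (κ - κ') j =
        ∑ j, C.d i * C.a i j * κ j - ∑ j, C.d i * C.a i j * κ' j := by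
      rw [← Finset.sum_sub_distrib]
      refine Finset.sum_congr rfl fun j _ => ?_
      rw [Pi.sub_apply]
      ring
    rw [h5]
    linarith
  have h6 : ∑ i, ∑ j, (κ - κ') i * (C.d i * C.a i j) * (κ - κ') j = 0 := by
    refine Finset.sum_eq_zero fun i _ => ?_
    have h7 : ∑ j, (κ - κ') i * (C.d i * C.a i j) * (κ - κ') j =
        (κ - κ') i * ∑ j, C.d i * C.a i j * (κ - κ') j := by
      rw [Finset.mul_sum]
      refine Finset.sum_congr rfl fun j _ => ?_
      ring
    rw [h7, h3 i, mul_zero]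
  rw [h6] at h2
  exact lt_irrefl _ h2

theorem ba_lp_add_right (L κ κ' : I → ℤ) : lp C L (κ + κ') = lp C L κ + lp C L κ' := by
  simp [lp, mul_add, Finset.sum_add_distrib]

theorem ba_rho2_sr (i : I) : rho2 C (sr i) = 2 * C.d i := by
  simp [rho2, sr, Pi.single_apply]

/-- `c(κ + α_i) = c(κ) + 2 (α_i, L - κ)` -/
theorem cex_add_sr (L κ : I → ℤ) (i : I) :
    cex C L (κ + sr i) = cex C L κ + 2 * wex C L κ i := by
  have h1 : rho2 C (κ + sr i) = rho2 C κ + rho2 C (sr i) := by
    simp [rho2, mul_add, Finset.sum_add_distrib]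
  unfold cex
  rw [ba_lp_add_right, h1, ba_rho2_sr, ip_add_left, ip_add_right, ip_add_right, ip_sr_sr, wex_eq,
    ip_comm κ (sr i)]
  ring

/-- `h(κ + α_i) = h(κ) - 2 (α_i, L - κ) + 2 d_i` -/
theorem hex_add_sr (L κ : I → ℤ) (i : I) :
    hex C L (κ + sr i) = hex C L κ - 2 * wex C L κ i + 2 * C.d i := by
  unfold hex
  rw [ba_lp_add_right, ip_add_left, ip_add_right, ip_add_right, ip_sr_sr, wex_eq,
    ip_comm κ (sr i)]
  ring

theorem cex_add_hex (L κ : I → ℤ) : cex C L κ + hex C L κ = rho2 C κ := by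
  unfold cex hex; ring

@[simp] theorem cex_zero (L : I → ℤ) : cex C L 0 = 0 := by
  simp [cex, lp, rho2, ip]
@[simp] theorem hex_zero (L : I → ℤ) : hex C L 0 = 0 := by
  simp [hex, lp, ip]
@[simp] theorem rho2_zero : rho2 C 0 = 0 := by
  simp [rho2]

theorem rho2_add (κ κ' : I → ℤ) : rho2 C (κ + κ') = rho2 C κ + rho2 C κ' := by
  simp [rho2, mul_add, Finset.sum_add_distrib]

theorem hgt_add (κ κ' : I → ℤ) : hgt (κ + κ') = hgt κ + hgt κ' := by
  simp [hgt, Finset.sum_add_distrib]

@[simp] theorem hgt_sr (i : I) : hgt (sr i) = 1 := by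
  simp [hgt, sr]

/-- weight space of depth `κ` -/
def wsp (C : Cartan I) (v : K) (X : Ops I K V) (L κ : I → ℤ) : Submodule K V where
  carrier := {x | ∀ i, X.Kp i x = v ^ wex C L κ i • x}
  add_mem' := by
    intro x y hx hy i
    rw [map_add, hx i, hy i, smul_add]
  zero_mem' := by intro i; simp
  smul_mem' := by
    intro r x hx i
    rw [map_smul, hx i, smul_comm]

theorem mem_wsp {X : Ops I K V} {L κ : I → ℤ} {x : V} :
    x ∈ wsp C v X L κ ↔ ∀ i, X.Kp i x = v ^ wex C L κ i • x := Iff.rfl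

/-- vectors killed by all `E i` -/
def Ops.sing (X : Ops I K V) : Submodule K V where
  carrier := {x | ∀ i, X.E i x = 0}
  add_mem' := by
    intro x y hx hy i
    rw [map_add, hx i, hy i, add_zero]
  zero_mem' := by intro i; simp
  smul_mem' := by
    intro r x hx i
    rw [map_smul, hx i, smul_zero]

theorem Ops.mem_sing {X : Ops I K V} {x : V} : x ∈ X.sing ↔ ∀ i, X.E i x = 0 := Iff.rfl

theorem Ops.mem_inv {X : Ops I K V} {x : V} :
    x ∈ X.inv ↔ ∀ i, X.E i x = 0 ∧ X.F i x = 0 ∧ X.Kp i x = x := Iff.rfl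

section rel

variable {X : Ops I K V} (h : IsRel C v X) (hv0 : v ≠ 0)

include h

theorem IsRel.Kp_Km_apply (i : I) (x : V) : X.Kp i (X.Km i x) = x := by
  have := LinearMap.congr_fun (h.Kp_Km i) x
  simpa using this

theorem IsRel.Km_Kp_apply (i : I) (x : V) : X.Km i (X.Kp i x) = x := by
  have := LinearMap.congr_fun (h.Km_Kp i) x
  simpa using this

include hv0

theorem IsRel.Km_wsp {L κ : I → ℤ} {x : V} (hx : x ∈ wsp C v X L κ) (i : I) :
    X.Km i x = v ^ (-wex C L κ i) • x := by
  have h1 := h.Km_Kp_apply i x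
  rw [hx i, map_smul] at h1
  rw [zpow_neg]
  calc X.Km i x = (v ^ wex C L κ i)⁻¹ • (v ^ wex C L κ i • X.Km i x) := by
        rw [smul_smul, inv_mul_cancel₀ (zpow_ne_zero _ hv0), one_smul]
    _ = (v ^ wex C L κ i)⁻¹ • x := by rw [h1]

theorem IsRel.E_wsp {L κ : I → ℤ} {x : V} (hx : x ∈ wsp C v X L κ) (i : I) :
    X.E i x ∈ wsp C v X L (κ - sr i) := by
  intro j
  have h1 := LinearMap.congr_fun (h.K_E j i) x
  simp only [Module.End.mul_apply, LinearMap.smul_apply] at h1
  rw [h1, hx j, map_smul, smul_smul, ← zpow_add₀ hv0, wex_sub_sr, add_comm]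

theorem IsRel.F_wsp {L κ : I → ℤ} {x : V} (hx : x ∈ wsp C v X L κ) (i : I) :
    X.F i x ∈ wsp C v X L (κ + sr i) := by
  intro j
  have h1 := LinearMap.congr_fun (h.K_F j i) x
  simp only [Module.End.mul_apply, LinearMap.smul_apply] at h1
  rw [h1, hx j, map_smul, smul_smul, ← zpow_add₀ hv0, wex_add_sr]
  congr 2
  ring

/-- `E_i F_j x = F_j E_i x + δ_ij [⟨L - κ, α_i^∨⟩]_i x` -/
theorem IsRel.EF_wsp (hv : ∀ n : ℤ, n ≠ 0 → v ^ n ≠ 1) {L κ : I → ℤ} {x : V}
    (hx : x ∈ wsp C v X L κ) (i j : I) :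
    X.E i (X.F j x) = X.F j (X.E i x) + if i = j then
      ((v ^ wex C L κ i - v ^ (-wex C L κ i)) / (v ^ C.d i - v ^ (-C.d i))) • x else 0 := by
  have h1 := LinearMap.congr_fun (h.E_F i j) x
  simp only [Module.End.mul_apply, LinearMap.sub_apply] at h1
  rw [sub_eq_iff_eq_add] at h1
  rw [h1, add_comm]
  congr 1
  split_ifs with hij
  · rw [LinearMap.smul_apply, LinearMap.sub_apply, hx i, h.Km_wsp hv0 hx i, ← sub_smul, smul_smul,
      div_eq_inv_mul]
  · rfl

theorem IsRel.ba_Km_E_apply (i j : I) (x : V) :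
    X.Km i (X.E j x) = v ^ (-(C.d i * C.a i j)) • X.E j (X.Km i x) := by
  have h1 := LinearMap.congr_fun (h.K_E i j) (X.Km i x)
  simp only [Module.End.mul_apply, LinearMap.smul_apply] at h1
  rw [h.Kp_Km_apply] at h1
  have h2 : X.E j (X.Km i x) = v ^ (C.d i * C.a i j) • X.Km i (X.E j x) := by
    rw [← map_smul, ← h1, h.Km_Kp_apply]
  rw [h2, smul_smul, ← zpow_add₀ hv0]
  simp

theorem IsRel.ba_Km_F_apply (i j : I) (x : V) :
    X.Km i (X.F j x) = v ^ (C.d i * C.a i j) • X.F j (X.Km i x) := by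
  have h1 := LinearMap.congr_fun (h.K_F i j) (X.Km i x)
  simp only [Module.End.mul_apply, LinearMap.smul_apply] at h1
  rw [h.Kp_Km_apply] at h1
  have h2 : X.F j (X.Km i x) = v ^ (-(C.d i * C.a i j)) • X.Km i (X.F j x) := by
    rw [← map_smul, ← h1, h.Km_Kp_apply]
  rw [h2, smul_smul, ← zpow_add₀ hv0]
  simp

omit hv0 in
theorem IsRel.ba_Kp_Km_comm (i j : I) (x : V) :
    X.Kp i (X.Km j x) = X.Km j (X.Kp i x) := by
  have h1 := LinearMap.congr_fun (h.K_comm i j) (X.Km j x)
  simp only [Module.End.mul_apply] at h1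
  rw [h.Kp_Km_apply] at h1
  rw [h1, h.Km_Kp_apply]

end rel

/-- `K i` inverse is self adjoint -/
theorem IsForm.ba_Km {X : Ops I K V} (h : IsRel C v X) {form : LinearMap.BilinForm K V}
    (hf : IsForm C v X form) (i : I) (x y : V) : form (X.Km i x) y = form x (X.Km i y) := by
  have h1 := hf.Kp i (X.Km i x) (X.Km i y)
  rw [h.Kp_Km_apply, h.Kp_Km_apply] at h1
  exact h1.symm

theorem IsBar.wsp {X : Ops I K V} (h : IsRel C v X) (hv0 : v ≠ 0) (hbar : bar v = v⁻¹)
    {psi : V →+ V} (hp : IsBar bar X psi)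
    {L κ : I → ℤ} {x : V} (hx : x ∈ wsp C v X L κ) : psi x ∈ wsp C v X L κ := by
  intro i
  have h1 := hp.Kp i x
  rw [hx i, hp.smul, map_zpow₀, hbar, inv_zpow] at h1
  have h2 := h.Kp_Km_apply i (psi x)
  rw [← h1, map_smul] at h2
  calc X.Kp i (psi x) = v ^ wex C L κ i • ((v ^ wex C L κ i)⁻¹ • X.Kp i (psi x)) := by
        rw [smul_smul, mul_inv_cancel₀ (zpow_ne_zero _ hv0), one_smul]
    _ = v ^ wex C L κ i • psi x := by rw [h2]

theorem ba_zpow_inj_of (hv0 : v ≠ 0) (hv : ∀ n : ℤ, n ≠ 0 → v ^ n ≠ 1) {a b : ℤ}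
    (h : v ^ a = v ^ b) : a = b := by
  by_contra hne
  apply hv (a - b) (sub_ne_zero.2 hne)
  rw [zpow_sub₀ hv0, h, div_self (zpow_ne_zero _ hv0)]

theorem form_wsp (hv0 : v ≠ 0) (hv : ∀ n : ℤ, n ≠ 0 → v ^ n ≠ 1) {X : Ops I K V}
    {form : LinearMap.BilinForm K V} (hf : IsForm C v X form)
    {L κ κ' : I → ℤ} (hne : κ ≠ κ') {x y : V} (hx : x ∈ wsp C v X L κ) (hy : y ∈ wsp C v X L κ') :
    form x y = 0 := by
  obtain ⟨i, hi⟩ : ∃ i, wex C L κ i ≠ wex C L κ' i := by
    by_contra hcon
    push Not at hcon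
    exact hne (wex_inj hcon)
  have h1 := hf.Kp i x y
  rw [hx i, hy i, map_smul, map_smul, LinearMap.smul_apply, smul_eq_mul, smul_eq_mul] at h1
  have h2 : v ^ wex C L κ i - v ^ wex C L κ' i ≠ 0 := by
    intro h3
    exact hi (ba_zpow_inj_of hv0 hv (sub_eq_zero.1 h3))
  have h4 : (v ^ wex C L κ i - v ^ wex C L κ' i) * form x y = 0 := by
    rw [sub_mul, h1, sub_self]
  exact (mul_eq_zero.1 h4).resolve_left h2

/-- product of the `F i` along a word -/
def Fw (X : Ops I K V) (w : List I) : Module.End K V := (w.map X.F).prod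
/-- product of the `E i` along a word -/
def Ew (X : Ops I K V) (w : List I) : Module.End K V := (w.map X.E).prod

@[simp] theorem Fw_nil (X : Ops I K V) (x : V) : Fw X [] x = x := by simp [Fw]
@[simp] theorem Fw_cons (X : Ops I K V) (i : I) (w : List I) (x : V) :
    Fw X (i :: w) x = X.F i (Fw X w x) := by simp [Fw]
@[simp] theorem Ew_nil (X : Ops I K V) (x : V) : Ew X [] x = x := by simp [Ew]
@[simp] theorem Ew_cons (X : Ops I K V) (i : I) (w : List I) (x : V) :
    Ew X (i :: w) x = X.E i (Ew X w x) := by simp [Ew]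

/-- content of a word, as an element of the root lattice -/
def cw (w : List I) : I → ℤ := fun i => (w.count i : ℤ)

@[simp] theorem cw_nil : cw ([] : List I) = 0 := by ext i; simp [cw]
theorem cw_cons (i : I) (w : List I) : cw (i :: w) = cw w + sr i := by
  ext j
  simp only [cw, List.count_cons, Pi.add_apply, sr, Pi.single_apply]
  by_cases h : i = j
  · subst h; simp
  · simp [h, Ne.symm h]

section tens

variable {X : Ops I K V} {Y : Ops I K V'}

theorem tens_E (i : I) (x : V) (y : V') :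
    (X.tens Y).E i (x ⊗ₜ y) = X.E i x ⊗ₜ Y.Kp i y + x ⊗ₜ Y.E i y := by
  simp [Ops.tens]
theorem tens_F (i : I) (x : V) (y : V') :
    (X.tens Y).F i (x ⊗ₜ y) = X.F i x ⊗ₜ y + X.Km i x ⊗ₜ Y.F i y := by
  simp [Ops.tens]
theorem tens_Kp (i : I) (x : V) (y : V') :
    (X.tens Y).Kp i (x ⊗ₜ y) = X.Kp i x ⊗ₜ Y.Kp i y := by
  simp [Ops.tens]
theorem tens_Km (i : I) (x : V) (y : V') :
    (X.tens Y).Km i (x ⊗ₜ y) = X.Km i x ⊗ₜ Y.Km i y := by
  simp [Ops.tens]

theorem IsRel.tens (hv0 : v ≠ 0) (h : IsRel C v X) (h' : IsRel C v Y) :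
    IsRel C v (X.tens Y) := by
  constructor
  · intro i
    apply TensorProduct.ext'
    intro x y
    simp only [Module.End.mul_apply, tens_Kp, tens_Km, h.Kp_Km_apply, h'.Kp_Km_apply,
      Module.End.one_apply]
  · intro i
    apply TensorProduct.ext'
    intro x y
    simp only [Module.End.mul_apply, tens_Kp, tens_Km, h.Km_Kp_apply, h'.Km_Kp_apply,
      Module.End.one_apply]
  · intro i j
    apply TensorProduct.ext'
    intro x y
    have h1 := LinearMap.congr_fun (h.K_comm i j) x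
    have h2 := LinearMap.congr_fun (h'.K_comm i j) y
    simp only [Module.End.mul_apply] at h1 h2
    simp only [Module.End.mul_apply, tens_Kp, h1, h2]
  · intro i j
    apply TensorProduct.ext'
    intro x y
    have h1 := LinearMap.congr_fun (h.K_E i j) x
    have h2 := LinearMap.congr_fun (h'.K_E i j) y
    have h3 := LinearMap.congr_fun (h'.K_comm i j) y
    simp only [Module.End.mul_apply, LinearMap.smul_apply] at h1 h2 h3
    simp only [Module.End.mul_apply, LinearMap.smul_apply, tens_E, tens_Kp, map_add, h1, h2, h3,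
      TensorProduct.smul_tmul', TensorProduct.tmul_smul, smul_add]
  · intro i j
    apply TensorProduct.ext'
    intro x y
    have h1 := LinearMap.congr_fun (h.K_F i j) x
    have h2 := LinearMap.congr_fun (h'.K_F i j) y
    simp only [Module.End.mul_apply, LinearMap.smul_apply] at h1 h2
    simp only [Module.End.mul_apply, LinearMap.smul_apply, tens_F, tens_Kp, map_add, h1, h2,
      h.ba_Kp_Km_comm, TensorProduct.smul_tmul', TensorProduct.tmul_smul, smul_add]
  · intro i j
    apply TensorProduct.ext'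
    intro x y
    have h1 := LinearMap.congr_fun (h.E_F i j) x
    have h2 := LinearMap.congr_fun (h'.E_F i j) y
    have h3 := LinearMap.congr_fun (h'.K_F i j) y
    have h4 := h.ba_Km_E_apply hv0 j i x
    simp only [Module.End.mul_apply, LinearMap.smul_apply, LinearMap.sub_apply] at h1 h2 h3
    rw [C.symm j i] at h4
    have h5 : X.E i (X.F j x) = (if i = j then (v ^ C.d i - v ^ (-C.d i))⁻¹ •
        (X.Kp i - X.Km i) else 0) x + X.F j (X.E i x) := by
      rw [← h1]
      abel
    have h6 : Y.E i (Y.F j y) = (if i = j then (v ^ C.d i - v ^ (-C.d i))⁻¹ •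
        (Y.Kp i - Y.Km i) else 0) y + Y.F j (Y.E i y) := by
      rw [← h2]
      abel
    simp only [Module.End.mul_apply, LinearMap.sub_apply, tens_F, tens_E, map_add, h5, h6, h3, h4]
    split_ifs with hij
    · subst hij
      simp only [LinearMap.smul_apply, LinearMap.sub_apply, tens_Kp, tens_Km,
        TensorProduct.add_tmul, TensorProduct.tmul_add, TensorProduct.sub_tmul,
        TensorProduct.tmul_sub, TensorProduct.smul_tmul', TensorProduct.tmul_smul, smul_sub]
      abel
    · simp only [LinearMap.zero_apply, zero_add, TensorProduct.smul_tmul', TensorProduct.tmul_smul]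
      abel

theorem form_tens_apply (f : LinearMap.BilinForm K V) (f' : LinearMap.BilinForm K V')
    (x x' : V) (y y' : V') :
    LinearMap.BilinForm.tmul f f' (x ⊗ₜ y) (x' ⊗ₜ y') = f x x' * f' y y' := by
  simp [LinearMap.BilinForm.tmul, mul_comm]

/-- bilinear maps on a tensor product agree when they agree on pure tensors -/
theorem ba_tens_ext2 {A B : (V ⊗[K] V') →ₗ[K] (V ⊗[K] V') →ₗ[K] K}
    (h : ∀ x y x' y', A (x ⊗ₜ y) (x' ⊗ₜ y') = B (x ⊗ₜ y) (x' ⊗ₜ y')) : A = B := by
  apply TensorProduct.ext'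
  intro x y
  apply TensorProduct.ext'
  intro x' y'
  exact h x y x' y'

theorem IsForm.tens (hv0 : v ≠ 0) (h : IsRel C v X) (h' : IsRel C v Y)
    {f : LinearMap.BilinForm K V} {f' : LinearMap.BilinForm K V'}
    (hf : IsForm C v X f) (hf' : IsForm C v Y f') :
    IsForm C v (X.tens Y) (LinearMap.BilinForm.tmul f f') := by
  constructor
  · intro x y
    have h1 : (LinearMap.BilinForm.tmul f f' : (V ⊗[K] V') →ₗ[K] (V ⊗[K] V') →ₗ[K] K) =
        LinearMap.flip (LinearMap.BilinForm.tmul f f') := by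
      apply ba_tens_ext2
      intro x y x' y'
      rw [LinearMap.flip_apply, form_tens_apply, form_tens_apply, hf.symm x x', hf'.symm y y']
    exact LinearMap.congr_fun₂ h1 x y
  · intro i x y
    have h1 : (LinearMap.BilinForm.tmul f f' : (V ⊗[K] V') →ₗ[K] (V ⊗[K] V') →ₗ[K] K).comp
        ((X.tens Y).E i) = (LinearMap.BilinForm.tmul f f').compl₂
          (v ^ C.d i • ((X.tens Y).Kp i * (X.tens Y).F i)) := by
      apply ba_tens_ext2
      intro x y x' y'
      simp only [LinearMap.comp_apply, LinearMap.compl₂_apply, LinearMap.smul_apply,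
        Module.End.mul_apply, tens_E, tens_F, tens_Kp, map_add, LinearMap.add_apply, map_smul,
        form_tens_apply, hf.E, hf'.E, hf'.Kp, h.Kp_Km_apply, smul_eq_mul]
      ring
    exact LinearMap.congr_fun₂ h1 x y
  · intro i x y
    have h1 : (LinearMap.BilinForm.tmul f f' : (V ⊗[K] V') →ₗ[K] (V ⊗[K] V') →ₗ[K] K).comp
        ((X.tens Y).F i) = (LinearMap.BilinForm.tmul f f').compl₂
          (v ^ C.d i • ((X.tens Y).Km i * (X.tens Y).E i)) := by
      apply ba_tens_ext2
      intro x y x' y'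
      simp only [LinearMap.comp_apply, LinearMap.compl₂_apply, LinearMap.smul_apply,
        Module.End.mul_apply, tens_E, tens_F, tens_Km, map_add, LinearMap.add_apply, map_smul,
        form_tens_apply, hf.F, hf'.F, hf.ba_Km h, h'.Km_Kp_apply, smul_eq_mul]
      ring
    exact LinearMap.congr_fun₂ h1 x y
  · intro i x y
    have h1 : (LinearMap.BilinForm.tmul f f' : (V ⊗[K] V') →ₗ[K] (V ⊗[K] V') →ₗ[K] K).comp
        ((X.tens Y).Kp i) = (LinearMap.BilinForm.tmul f f').compl₂ ((X.tens Y).Kp i) := by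
      apply ba_tens_ext2
      intro x y x' y'
      simp only [LinearMap.comp_apply, LinearMap.compl₂_apply, tens_Kp, form_tens_apply, hf.Kp,
        hf'.Kp]
    exact LinearMap.congr_fun₂ h1 x y

theorem wsp_tens {L L' κ κ' : I → ℤ} (hv0 : v ≠ 0) {x : V} {y : V'} (hx : x ∈ wsp C v X L κ)
    (hy : y ∈ wsp C v Y L' κ') : x ⊗ₜ[K] y ∈ wsp C v (X.tens Y) (L + L') (κ + κ') := by
  intro i
  rw [tens_Kp, hx i, hy i, wex_add, zpow_add₀ hv0, TensorProduct.tmul_smul,
    ← TensorProduct.smul_tmul', smul_smul, mul_comm]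

/-- nondegeneracy of a product of two nondegenerate forms on spaces with finite bases -/
theorem nondeg_tens {J J' : Type} [Fintype J] [Fintype J'] [DecidableEq J] [DecidableEq J']
    (b : Module.Basis J K V) (b' : Module.Basis J' K V')
    {f : LinearMap.BilinForm K V} {f' : LinearMap.BilinForm K V'}
    (hf : ∀ x, (∀ y, f x y = 0) → x = 0) (hf' : ∀ x, (∀ y, f' x y = 0) → x = 0)
    (x : V ⊗[K] V') (hx : ∀ y y', LinearMap.BilinForm.tmul f f' x (y ⊗ₜ y') = 0) : x = 0 := by
  -- contraction in the second variable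
  let cz : J → (V ⊗[K] V') →ₗ[K] V' := fun j =>
    (TensorProduct.lid K V').toLinearMap ∘ₗ TensorProduct.map (b.coord j) LinearMap.id
  have hcz : ∀ j x y, cz j (x ⊗ₜ y) = b.coord j x • y := by
    intro j x y
    simp [cz]
  have hx1 : x = ∑ j, b j ⊗ₜ[K] cz j x := by
    have h1 : (LinearMap.id : (V ⊗[K] V') →ₗ[K] (V ⊗[K] V')) =
        ∑ j, (TensorProduct.mk K V V' (b j)) ∘ₗ cz j := by
      apply TensorProduct.ext'
      intro x y
      simp only [LinearMap.id_apply, LinearMap.sum_apply, LinearMap.comp_apply, hcz,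
        TensorProduct.mk_apply, TensorProduct.tmul_smul]
      conv_lhs => rw [← b.sum_repr x]
      rw [TensorProduct.sum_tmul]
      refine Finset.sum_congr rfl fun j _ => ?_
      rw [TensorProduct.smul_tmul']
      rfl
    have h2 := LinearMap.congr_fun h1 x
    simpa only [LinearMap.id_apply, LinearMap.sum_apply, LinearMap.comp_apply,
      TensorProduct.mk_apply] using h2
  have hy1 : ∀ y', ∑ j, f' (cz j x) y' • b j = 0 := by
    intro y'
    apply hf
    intro y
    have h3 := hx y y'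
    rw [hx1, map_sum, LinearMap.sum_apply] at h3
    rw [map_sum, LinearMap.sum_apply, ← h3]
    refine Finset.sum_congr rfl fun j _ => ?_
    rw [form_tens_apply, map_smul, LinearMap.smul_apply, smul_eq_mul, mul_comm]
  have hz : ∀ j, cz j x = 0 := by
    intro j
    apply hf'
    intro y'
    have h4 := b.linearIndependent
    rw [Fintype.linearIndependent_iff] at h4
    exact h4 _ (hy1 y') j
  rw [hx1]
  refine Finset.sum_eq_zero fun j _ => ?_
  rw [hz j, TensorProduct.tmul_zero]

end tens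

/-- `K i` is diagonal in a weight basis -/
theorem ba_repr_Kp {J : Type} (b : Module.Basis J K V) {X : Ops I K V} {L : I → ℤ}
    {dep : J → I → ℤ} (hb : ∀ j, b j ∈ wsp C v X L (dep j)) (i : I) (x : V) (j : J) :
    b.repr (X.Kp i x) j = v ^ wex C L (dep j) i * b.repr x j := by
  have h1 : (b.coord j) ∘ₗ X.Kp i = v ^ wex C L (dep j) i • b.coord j := by
    apply b.ext
    intro k
    rw [LinearMap.comp_apply, hb k i, map_smul, LinearMap.smul_apply, smul_eq_mul, smul_eq_mul,
      Module.Basis.coord_apply, b.repr_self]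
    by_cases hjk : k = j
    · rw [hjk]
    · rw [Finsupp.single_eq_of_ne (Ne.symm hjk), mul_zero, mul_zero]
  exact LinearMap.congr_fun h1 x

/-- weight spaces via a weight basis -/
theorem mem_wsp_iff_repr {J : Type} (b : Module.Basis J K V) {X : Ops I K V} {L : I → ℤ}
    (hv0 : v ≠ 0) (hv : ∀ n : ℤ, n ≠ 0 → v ^ n ≠ 1)
    {dep : J → I → ℤ} (hb : ∀ j, b j ∈ wsp C v X L (dep j)) (κ : I → ℤ) (x : V) :
    x ∈ wsp C v X L κ ↔ ∀ j, b.repr x j ≠ 0 → dep j = κ := by
  constructor
  · intro hx j hj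
    apply wex_inj (C := C) (L := L)
    intro i
    apply ba_zpow_inj_of hv0 hv
    have h1 := ba_repr_Kp b hb i x j
    rw [hx i, map_smul, Finsupp.smul_apply, smul_eq_mul] at h1
    exact (mul_right_cancel₀ hj h1).symm
  · intro h i
    apply b.ext_elem
    intro j
    rw [ba_repr_Kp b hb, map_smul, Finsupp.smul_apply, smul_eq_mul]
    by_cases hj : b.repr x j = 0
    · rw [hj, mul_zero, mul_zero]
    · rw [h j hj]

section canon

variable {lam : I → ℕ} {J : Type} [DecidableEq J] (c : Canon C v bar lam V J)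

/-- highest weight, integer valued -/
def Canon.L (_c : Canon C v bar lam V J) : I → ℤ := fun k => (lam k : ℤ)

/-- depth, integer valued -/
def Canon.dp (c : Canon C v bar lam V J) (j : J) : I → ℤ := fun k => (c.dep j k : ℤ)

/-- weight spaces of `V` -/
def Canon.wsp (c : Canon C v bar lam V J) (κ : I → ℤ) : Submodule K V :=
  Pool.Agent.Work.MP_8ad3a8_al.wsp C v c.X c.L κ

/-- highest weight vector -/
noncomputable def Canon.hw (c : Canon C v bar lam V J) : V := c.B c.top

theorem Canon.rel : IsRel C v c.X := c.rep.toIsRel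

theorem Canon.B_wsp (j : J) : c.B j ∈ c.wsp (c.dp j) := fun i => c.wt i j

theorem Canon.hw_wsp : c.hw ∈ c.wsp 0 := by
  intro i
  have h1 : wex C c.L 0 i = C.d i * (lam i : ℤ) := by
    simp [wex, Canon.L]
  rw [h1]
  exact c.top_K i

theorem Canon.dp_top (hv0 : v ≠ 0) (hv : ∀ n : ℤ, n ≠ 0 → v ^ n ≠ 1) : c.dp c.top = 0 := by
  apply wex_inj (C := C) (L := c.L)
  intro i
  apply ba_zpow_inj_of hv0 hv
  have h1 := c.B_wsp c.top i
  have h2 := c.hw_wsp i
  unfold Canon.hw at h2
  rw [h1] at h2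
  exact smul_left_injective K (c.B.ne_zero c.top) h2

theorem Canon.Fw_wsp (hv0 : v ≠ 0) (w : List I) : Fw c.X w c.hw ∈ c.wsp (cw w) := by
  induction w with
  | nil =>
    rw [Fw_nil, cw_nil]
    exact c.hw_wsp
  | cons i w ih =>
    rw [Fw_cons, cw_cons]
    exact c.rel.F_wsp hv0 ih i

theorem Canon.eq_top (N : Submodule K V) (h1 : c.hw ∈ N)
    (h2 : ∀ i, ∀ x ∈ N, c.X.F i x ∈ N) : N = ⊤ := by
  have hpow : ∀ i (n : ℕ), ∀ x ∈ N, ((c.X.F i) ^ n) x ∈ N := by
    intro i n
    induction n with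
    | zero => intro x hx; simpa using hx
    | succ n ih =>
      intro x hx
      rw [pow_succ, Module.End.mul_apply]
      exact ih _ (h2 i x hx)
  have hmon : ∀ w, mon C v c.X (c.B c.top) w ∈ N := by
    intro w
    induction w with
    | nil => exact h1
    | cons p w ih =>
      rw [mon, dpow, LinearMap.smul_apply]
      exact N.smul_mem _ (hpow _ _ _ ih)
  have hB : ∀ j, c.B j ∈ N := by
    intro j
    have h3 : c.B j ∈ Submodule.span (Av v) (Set.range (mon C v c.X (c.B c.top))) := by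
      rw [← c.lattice]
      exact Submodule.subset_span ⟨j, rfl⟩
    have h4 : Submodule.span (Av v) (Set.range (mon C v c.X (c.B c.top))) ≤
        N.restrictScalars (Av v) := by
      rw [Submodule.span_le]
      rintro _ ⟨w, rfl⟩
      exact hmon w
    exact h4 h3
  rw [eq_top_iff, ← c.B.span_eq, Submodule.span_le]
  rintro _ ⟨j, rfl⟩
  exact hB j

theorem Canon.span_Fw : Submodule.span K (Set.range fun w => Fw c.X w c.hw) = ⊤ := by
  apply c.eq_top
  · exact Submodule.subset_span ⟨[], by simp⟩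
  · intro i x hx
    induction hx using Submodule.span_induction with
    | mem y hy =>
      obtain ⟨w, rfl⟩ := hy
      exact Submodule.subset_span ⟨i :: w, by simp⟩
    | zero => rw [map_zero]; exact Submodule.zero_mem _
    | add y z _ _ hy hz => rw [map_add]; exact Submodule.add_mem _ hy hz
    | smul r y _ hy => rw [map_smul]; exact Submodule.smul_mem _ _ hy

/-- a vector of depth `κ` is a combination of monomials of content `κ` -/
theorem Canon.mem_span_Fw (hv0 : v ≠ 0) (hv : ∀ n : ℤ, n ≠ 0 → v ^ n ≠ 1) {κ : I → ℤ} {x : V}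
    (hx : x ∈ c.wsp κ) :
    x ∈ Submodule.span K {y | ∃ w : List I, cw w = κ ∧ y = Fw c.X w c.hw} := by
  set S : Submodule K V := Submodule.span K {y | ∃ w : List I, cw w = κ ∧ y = Fw c.X w c.hw}
    with hS
  let P : V →ₗ[K] V := c.B.constr K (fun j => if c.dp j = κ then c.B j else 0)
  have hPB : ∀ j, P (c.B j) = if c.dp j = κ then c.B j else 0 := fun j => c.B.constr_basis K _ j
  have hP : ∀ κ' : I → ℤ, ∀ y ∈ c.wsp κ', P y = if κ' = κ then y else 0 := by
    intro κ' y hy
    have h1 := (mem_wsp_iff_repr c.B hv0 hv c.B_wsp κ' y).1 hy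
    conv_lhs => rw [← c.B.linearCombination_repr y]
    conv_rhs => rw [← c.B.linearCombination_repr y]
    rw [Finsupp.linearCombination_apply, Finsupp.sum, map_sum]
    by_cases hκ : κ' = κ
    · rw [if_pos hκ]
      refine Finset.sum_congr rfl fun j hj => ?_
      rw [map_smul, hPB, if_pos ((h1 j (Finsupp.mem_support_iff.1 hj)).trans hκ)]
    · rw [if_neg hκ]
      refine Finset.sum_eq_zero fun j hj => ?_
      have h2 := h1 j (Finsupp.mem_support_iff.1 hj)
      rw [map_smul, hPB, if_neg (by rw [h2]; exact hκ), smul_zero]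
  have hPS : ∀ y : V, P y ∈ S := by
    intro y
    have hy : y ∈ Submodule.span K (Set.range fun w => Fw c.X w c.hw) := by
      rw [c.span_Fw]; trivial
    induction hy using Submodule.span_induction with
    | mem y hy =>
      obtain ⟨w, rfl⟩ := hy
      show P (Fw c.X w c.hw) ∈ S
      rw [hP _ _ (c.Fw_wsp hv0 w)]
      split_ifs with hw
      · exact Submodule.subset_span ⟨w, hw, rfl⟩
      · exact Submodule.zero_mem _
    | zero => rw [map_zero]; exact Submodule.zero_mem _
    | add y z _ _ hy hz => rw [map_add]; exact Submodule.add_mem _ hy hz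
    | smul r y _ hy => rw [map_smul]; exact Submodule.smul_mem _ _ hy
  have h3 := hPS x
  rw [hP κ x hx, if_pos rfl] at h3
  exact h3

/-- the weight space of depth `0` is spanned by the highest weight vector -/
theorem Canon.wsp_zero (hv0 : v ≠ 0) (hv : ∀ n : ℤ, n ≠ 0 → v ^ n ≠ 1) {x : V}
    (hx : x ∈ c.wsp 0) : ∃ r : K, x = r • c.hw := by
  have h1 := c.mem_span_Fw hv0 hv hx
  have h2 : {y | ∃ w : List I, cw w = 0 ∧ y = Fw c.X w c.hw} ⊆ {c.hw} := by
    rintro y ⟨w, hw, rfl⟩
    cases w with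
    | nil => simp
    | cons i w =>
      exfalso
      have h3 := congrFun hw i
      simp only [cw, List.count_cons_self, Pi.zero_apply] at h3
      omega
  have h4 := Submodule.span_mono h2 h1
  rw [Submodule.mem_span_singleton] at h4
  obtain ⟨r, hr⟩ := h4
  exact ⟨r, hr.symm⟩

/-- depths are nonnegative -/
theorem Canon.nonneg_of_wsp (hv0 : v ≠ 0) (hv : ∀ n : ℤ, n ≠ 0 → v ^ n ≠ 1) {κ : I → ℤ} {x : V}
    (hx : x ∈ c.wsp κ) (hx0 : x ≠ 0) : ∀ i, 0 ≤ κ i := by
  obtain ⟨j, hj⟩ : ∃ j, c.B.repr x j ≠ 0 := by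
    by_contra hcon
    push Not at hcon
    apply hx0
    apply c.B.ext_elem
    intro j
    rw [hcon j]
    simp
  have h1 := (mem_wsp_iff_repr c.B hv0 hv c.B_wsp κ x).1 hx j hj
  intro i
  rw [← h1]
  exact Int.natCast_nonneg _

/-- elements of `ℤ[v⁻¹]` are values of polynomials -/
theorem ba_Zm_aeval {r : K} (hr : r ∈ Zm v) : ∃ p : Polynomial ℤ, Polynomial.aeval v⁻¹ p = r := by
  unfold Zm at hr
  induction hr using Subring.closure_induction with
  | mem x hx =>
    rw [Set.mem_singleton_iff] at hx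
    exact ⟨Polynomial.X, by rw [Polynomial.aeval_X, hx]⟩
  | zero => exact ⟨0, map_zero _⟩
  | one => exact ⟨1, map_one _⟩
  | add x y _ _ hx hy =>
    obtain ⟨p, hp⟩ := hx
    obtain ⟨q, hq⟩ := hy
    exact ⟨p + q, by rw [map_add, hp, hq]⟩
  | mul x y _ _ hx hy =>
    obtain ⟨p, hp⟩ := hx
    obtain ⟨q, hq⟩ := hy
    exact ⟨p * q, by rw [map_mul, hp, hq]⟩
  | neg x _ hx =>
    obtain ⟨p, hp⟩ := hx
    exact ⟨-p, by rw [map_neg, hp]⟩

theorem ba_aeval_inv_ne_zero [CharZero K] (hvt : Transcendental ℚ v) {p : Polynomial ℤ} (hp : p ≠ 0) :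
    Polynomial.aeval v⁻¹ p ≠ 0 := by
  intro h
  apply hvt
  have h1 : IsAlgebraic ℚ v⁻¹ := by
    refine ⟨p.map (algebraMap ℤ ℚ), ?_, ?_⟩
    · intro h2
      exact hp ((Polynomial.map_eq_zero_iff (RingHom.injective_int _)).1 h2)
    · rw [Polynomial.aeval_map_algebraMap]
      exact h
  have h2 := h1.inv
  rwa [inv_inv] at h2

theorem Canon.nondeg [CharZero K] (hvt : Transcendental ℚ v) [Fintype J] (x : V)
    (hx : ∀ y, c.form x y = 0) : x = 0 := by
  choose r hr1 hr2 using c.orth
  choose p hp using fun j k => ba_Zm_aeval (hr1 j k)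
  let M : Matrix J J (Polynomial ℤ) := 1 + (Polynomial.X : Polynomial ℤ) • Matrix.of p
  have hM : (Polynomial.aeval v⁻¹ : Polynomial ℤ →ₐ[ℤ] K).toRingHom.mapMatrix M =
      Matrix.of fun j k => c.form (c.B j) (c.B k) := by
    ext j k
    rw [RingHom.mapMatrix_apply, Matrix.map_apply, Matrix.of_apply, hr2 j k]
    simp only [M, Matrix.add_apply, Matrix.smul_apply, Matrix.of_apply, smul_eq_mul,
      AlgHom.toRingHom_eq_coe, RingHom.coe_coe, map_add, map_mul, Polynomial.aeval_X, hp,
      Matrix.one_apply]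
    split_ifs <;> simp
  have hM0 : M.det ≠ 0 := by
    intro h0
    have h1 : (Polynomial.evalRingHom (0 : ℤ)).mapMatrix M = 1 := by
      ext j k
      rw [RingHom.mapMatrix_apply, Matrix.map_apply]
      simp only [M, Matrix.add_apply, Matrix.smul_apply, Matrix.of_apply, smul_eq_mul,
        Polynomial.coe_evalRingHom, Polynomial.eval_add, Polynomial.eval_mul, Polynomial.eval_X,
        zero_mul, add_zero, Matrix.one_apply]
      split_ifs <;> simp
    have h2 := congrArg Matrix.det h1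
    rw [← RingHom.map_det, h0, map_zero, Matrix.det_one] at h2
    exact zero_ne_one h2
  have hdet : (Matrix.of fun j k => c.form (c.B j) (c.B k)).det ≠ 0 := by
    rw [← hM, ← RingHom.map_det]
    exact ba_aeval_inv_ne_zero hvt hM0
  by_contra hne
  apply hdet
  rw [← Matrix.exists_vecMul_eq_zero_iff]
  refine ⟨fun j => c.B.repr x j, ?_, ?_⟩
  · intro h0
    apply hne
    apply c.B.ext_elem
    intro j
    have := congrFun h0 j
    simpa using this
  · ext k
    have h3 := hx (c.B k)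
    rw [← c.B.sum_repr x, map_sum, LinearMap.sum_apply] at h3
    simp only [Matrix.vecMul, dotProduct, Matrix.of_apply, Pi.zero_apply]
    rw [← h3]
    refine Finset.sum_congr rfl fun j _ => ?_
    rw [map_smul, LinearMap.smul_apply, smul_eq_mul]

theorem Canon.sing_eq [CharZero K] (hvt : Transcendental ℚ v) [Fintype J] {x : V}
    (hx : x ∈ c.X.sing) : ∃ r : K, x = r • c.hw := by
  refine ⟨c.form x c.hw, ?_⟩
  rw [← sub_eq_zero]
  apply c.nondeg hvt
  set z := x - c.form x c.hw • c.hw with hz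
  have hzs : ∀ i, c.X.E i z = 0 := by
    intro i
    have h1 : c.X.E i c.hw = 0 := c.top_E i
    rw [hz, map_sub, map_smul, hx i, h1, smul_zero, sub_zero]
  have hN : (LinearMap.ker (c.form z) : Submodule K V) = ⊤ := by
    apply c.eq_top
    · rw [LinearMap.mem_ker, hz, map_sub, map_smul, LinearMap.sub_apply, LinearMap.smul_apply]
      have h1 : c.form c.hw c.hw = 1 := c.form_top
      rw [h1, smul_eq_mul, mul_one, sub_self]
    · intro i y _
      rw [LinearMap.mem_ker, c.isForm.symm, c.isForm.F, hzs i, map_zero, smul_zero, map_zero]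
  intro y
  have : y ∈ (LinearMap.ker (c.form z) : Submodule K V) := by rw [hN]; trivial
  exact this

/-- `V ⊗ M` is generated by `hw ⊗ M` under the `F i` -/
theorem Canon.tens_eq_top (c : Canon C v bar lam V J) (Y : Ops I K V')
    (hv0 : v ≠ 0) (N : Submodule K (V ⊗[K] V'))
    (h1 : ∀ m, c.hw ⊗ₜ m ∈ N) (h2 : ∀ i, ∀ x ∈ N, (c.X.tens Y).F i x ∈ N) : N = ⊤ := by
  have hw : ∀ w m, Fw c.X w c.hw ⊗ₜ[K] m ∈ N := by
    intro w
    induction w with
    | nil => intro m; rw [Fw_nil]; exact h1 m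
    | cons i w ih =>
      intro m
      have h3 := h2 i _ (ih m)
      rw [tens_F, c.rel.Km_wsp hv0 (c.Fw_wsp hv0 w) i, ← TensorProduct.smul_tmul'] at h3
      have h4 := N.sub_mem h3 (N.smul_mem (v ^ (-wex C c.L (cw w) i)) (ih (Y.F i m)))
      rw [add_sub_cancel_right] at h4
      rw [Fw_cons]
      exact h4
  have hp : ∀ x m, x ⊗ₜ[K] m ∈ N := by
    intro x m
    have hx : x ∈ Submodule.span K (Set.range fun w => Fw c.X w c.hw) := by
      rw [c.span_Fw]; trivial
    induction hx using Submodule.span_induction with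
    | mem y hy =>
      obtain ⟨w, rfl⟩ := hy
      exact hw w m
    | zero => rw [TensorProduct.zero_tmul]; exact Submodule.zero_mem _
    | add y z _ _ hy hz => rw [TensorProduct.add_tmul]; exact Submodule.add_mem _ hy hz
    | smul r y _ hy => rw [← TensorProduct.smul_tmul']; exact Submodule.smul_mem _ _ hy
  rw [eq_top_iff]
  intro x _
  induction x using TensorProduct.induction_on with
  | zero => exact N.zero_mem
  | tmul x y => exact hp x y
  | add x y hx hy => exact N.add_mem (hx trivial) (hy trivial)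

end canon

/-- `v` transcendental is not a root of unity -/
theorem zpow_ne_one_of_tr [CharZero K] (hvt : Transcendental ℚ v) :
    ∀ n : ℤ, n ≠ 0 → v ^ n ≠ 1 := by
  have key : ∀ n : ℕ, n ≠ 0 → v ^ n ≠ 1 := by
    intro n hn h
    apply hvt
    refine ⟨Polynomial.X ^ n - Polynomial.C 1, ?_, ?_⟩
    · exact Polynomial.X_pow_sub_C_ne_zero (Nat.pos_of_ne_zero hn) 1
    · simp [h]
  intro n hn h
  rcases Int.natAbs_eq n with h1 | h1
  · rw [h1, zpow_natCast] at h
    exact key _ (Int.natAbs_ne_zero.2 hn) h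
  · rw [h1, zpow_neg, zpow_natCast, inv_eq_one] at h
    exact key _ (Int.natAbs_ne_zero.2 hn) h

theorem ne_zero_of_tr [CharZero K] (hvt : Transcendental ℚ v) : v ≠ 0 := by
  intro h
  apply hvt
  rw [h]
  exact isAlgebraic_zero

end Pool.Agent.Work.MP_8ad3a8_al
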