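import Mathlib
import Pool.Agent.Work.MP_8ad3a8_al.Basic

set_option autoImplicit false
set_option linter.unusedSectionVars false

/-!
The operator `T = ψ ψ'`, where `ψ'` is the adjoint of the bar involution: basic properties.
-/

namespace Pool.Agent.Work.MP_8ad3a8_al

open TensorProduct

variable {I : Type} [Fintype I] [DecidableEq I] {K : Type} [Field K]
variable {C : Cartan I} {v : K} {bar : K ≃+* K}

/-- `T = ψ ψ'` where `ψ'` is the adjoint of `ψ`. -/
def IsT {V : Type} [AddCommGroup V] [Module K V] (bar : K ≃+* K) (psi : V →+ V)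
    (form : LinearMap.BilinForm K V) (T : V →ₗ[K] V) : Prop :=
  ∀ x y, form (psi (T x)) y = bar (form x (psi y))

variable {V : Type} [AddCommGroup V] [Module K V] {J : Type} [Fintype J] [DecidableEq J]

theorem exists_T (hbb : ∀ r, bar (bar r) = r) (b : Module.Basis J K V) {X : Ops I K V}
    {psi : V →+ V} (hp : IsBar bar X psi) {form : LinearMap.BilinForm K V}
    (hf : IsForm C v X form) (hn : ∀ x, (∀ y, form x y = 0) → x = 0) :
    ∃ T : V →ₗ[K] V, IsT bar psi form T := by
  have hfd : FiniteDimensional K V := b.finiteDimensional_of_finite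
  -- every functional is of the form `form z`
  have hinj : Function.Injective (form : V →ₗ[K] Module.Dual K V) := by
    rw [injective_iff_map_eq_zero]
    intro x hx
    exact hn x fun y => by rw [hx]; rfl
  have hsurj : Function.Surjective (form : V →ₗ[K] Module.Dual K V) :=
    (LinearMap.injective_iff_surjective_of_finrank_eq_finrank
      (Subspace.dual_finrank_eq).symm).1 hinj
  -- the functional `y ↦ bar (form x (psi y))`
  let G : V → Module.Dual K V := fun x =>
    { toFun := fun y => bar (form x (psi y))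
      map_add' := by intro y z; simp [map_add]
      map_smul' := by
        intro r y
        simp only [hp.smul, map_smul, smul_eq_mul, map_mul, hbb, RingHom.id_apply] }
  choose P hP using fun x => hsurj (G x)
  have hP' : ∀ x y, form (P x) y = bar (form x (psi y)) := by
    intro x y
    rw [hP]
    rfl
  have huniq : ∀ a b : V, (∀ y, form a y = form b y) → a = b := by
    intro a b h
    rw [← sub_eq_zero]
    apply hn
    intro y
    rw [map_sub, LinearMap.sub_apply, h y, sub_self]
  refine ⟨{ toFun := fun x => psi (P x)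
            map_add' := ?_
            map_smul' := ?_ }, ?_⟩
  · intro x y
    have : P (x + y) = P x + P y := by
      apply huniq
      intro z
      rw [hP', map_add, LinearMap.add_apply, map_add, ← hP', ← hP', ← LinearMap.add_apply,
        ← map_add]
    rw [this, map_add]
  · intro r x
    have : P (r • x) = bar r • P x := by
      apply huniq
      intro z
      rw [hP', map_smul, LinearMap.smul_apply, smul_eq_mul, map_mul, ← hP', map_smul,
        LinearMap.smul_apply, smul_eq_mul]
    rw [this, hp.smul, hbb]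
    rfl
  · intro x y
    change form (psi (psi (P x))) y = _
    rw [hp.invol, hP']

theorem IsT.symm (hbb : ∀ r, bar (bar r) = r) {X : Ops I K V}
    {psi : V →+ V} (hp : IsBar bar X psi) {form : LinearMap.BilinForm K V}
    (hf : IsForm C v X form) (hn : ∀ x, (∀ y, form x y = 0) → x = 0)
    {T : V →ₗ[K] V} (hT : IsT bar psi form T) (x y : V) : form (T x) y = form x (T y) := by
  have h1 := hT x (psi (T y))
  have h2 := hT y (psi (T x))
  rw [hp.invol] at h1 h2
  rw [hf.symm, h2] at h1
  have h3 := bar.injective h1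
  rw [hf.symm y] at h3
  exact h3

section

variable (hv0 : v ≠ 0) (hbb : ∀ r, bar (bar r) = r) (hbar : bar v = v⁻¹) {X : Ops I K V}
    (hr : IsRel C v X)
    {psi : V →+ V} (hp : IsBar bar X psi) {form : LinearMap.BilinForm K V}
    (hf : IsForm C v X form) (hn : ∀ x, (∀ y, form x y = 0) → x = 0)
    {T : V →ₗ[K] V} (hT : IsT bar psi form T)

include hr hp in
theorem IsBar.Km (i : I) (x : V) : psi (X.Km i x) = X.Kp i (psi x) := by
  have h1 := hp.Kp i (psi (X.Km i x))
  have h2 : X.Km i x = psi (X.Kp i (psi x)) := by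
    rw [hp.Kp, hp.invol]
  rw [h2, hp.invol]

include hr hf in
theorem IsForm.Km (i : I) (x y : V) : form (X.Km i x) y = form x (X.Km i y) := by
  have h1 := hf.Kp i (X.Km i x) (X.Km i y)
  rw [hr.Kp_Km_apply, hr.Kp_Km_apply] at h1
  exact h1.symm

include hn in
theorem form_uniq {a b : V} (h : ∀ y, form a y = form b y) : a = b := by
  rw [← sub_eq_zero]
  apply hn
  intro y
  rw [map_sub, LinearMap.sub_apply, h y, sub_self]

include hp hn hT in
/-- an element is determined by the adjoint pairing -/
theorem IsT.uniq {a x : V} (h : ∀ y, form a y = bar (form x (psi y))) : T x = psi a := by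
  have : psi (T x) = a := form_uniq hn fun y => by rw [hT, h]
  rw [← this, hp.invol]

include hv0 hr in
theorem IsRel.K_E_apply (i j : I) (x : V) :
    X.Kp i (X.E j x) = v ^ (C.d i * C.a i j) • X.E j (X.Kp i x) := by
  have := LinearMap.congr_fun (hr.K_E i j) x
  simpa using this

include hv0 hr in
theorem IsRel.K_F_apply (i j : I) (x : V) :
    X.Kp i (X.F j x) = v ^ (-(C.d i * C.a i j)) • X.F j (X.Kp i x) := by
  have := LinearMap.congr_fun (hr.K_F i j) x
  simpa using this

include hv0 hr in
theorem IsRel.Km_E_apply (i j : I) (x : V) :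
    X.Km i (X.E j x) = v ^ (-(C.d i * C.a i j)) • X.E j (X.Km i x) := by
  have h1 := congrArg (X.Km i) (hr.K_E_apply hv0 i j (X.Km i x))
  rw [hr.Kp_Km_apply, hr.Km_Kp_apply, map_smul] at h1
  rw [h1, smul_smul, ← zpow_add₀ hv0, neg_add_cancel, zpow_zero, one_smul]

include hv0 hr in
theorem IsRel.Km_F_apply (i j : I) (x : V) :
    X.Km i (X.F j x) = v ^ (C.d i * C.a i j) • X.F j (X.Km i x) := by
  have h1 := congrArg (X.Km i) (hr.K_F_apply hv0 i j (X.Km i x))
  rw [hr.Kp_Km_apply, hr.Km_Kp_apply, map_smul] at h1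
  rw [h1, smul_smul, ← zpow_add₀ hv0, add_neg_cancel, zpow_zero, one_smul]

include hv0 hbb hbar hr hp hf hn hT

theorem IsT.F (i : I) (x : V) :
    T (X.F i x) = X.Km i (X.F i (X.Km i (T x))) := by
  have key : T (X.F i x) = psi (X.Kp i (X.F i (X.Kp i (psi (T x))))) := by
    apply hT.uniq hp hn
    intro y
    have h1 : v ^ C.d i • X.Km i (X.E i (psi y)) = psi (v ^ (-C.d i) • X.Kp i (X.E i y)) := by
      rw [hp.smul, hp.Kp, hp.E, map_zpow₀, hbar, inv_zpow', neg_neg]
    rw [hf.F, h1, ← hT, hf.Kp, hf.F, hf.Kp, map_smul, hr.Kp_Km_apply,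
      hr.K_E_apply hv0 i i y, C.diag, smul_smul, ← zpow_add₀ hv0]
    congr 3
    ring
  rw [key, hp.Kp, hp.F, hp.Kp, hp.invol]

theorem IsT.E (i : I) (x : V) :
    T (X.E i x) = X.Kp i (X.E i (X.Kp i (T x))) := by
  have key : T (X.E i x) = psi (X.Km i (X.E i (X.Km i (psi (T x))))) := by
    apply hT.uniq hp hn
    intro y
    have h1 : v ^ C.d i • X.Kp i (X.F i (psi y)) = psi (v ^ (-C.d i) • X.Km i (X.F i y)) := by
      rw [hp.smul, hp.Km hr, hp.F, map_zpow₀, hbar, inv_zpow', neg_neg]
    rw [hf.E, h1, ← hT, hf.Km hr, hf.E, hf.Km hr, map_smul, hr.Km_Kp_apply,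
      hr.Km_F_apply hv0 i i y, C.diag, smul_smul, ← zpow_add₀ hv0]
    congr 3
    ring
  rw [key, hp.Km hr, hp.E, hp.Km hr, hp.invol]

theorem IsT.Kp (i : I) (x : V) :
    T (X.Kp i x) = X.Kp i (T x) := by
  have key : T (X.Kp i x) = psi (X.Km i (psi (T x))) := by
    apply hT.uniq hp hn
    intro y
    have h1 : X.Kp i (psi y) = psi (X.Km i y) := by
      rw [hp.Km hr]
    rw [hf.Kp, h1, ← hT, hf.Km hr]
  rw [key, hp.Km hr, hp.invol]

end

end Pool.Agent.Work.MP_8ad3a8_al
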