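import Mathlib
import Pool.Agent.Work.MP_8ad3a8_al.TBasic

set_option autoImplicit false
set_option linter.unusedSectionVars false

/-!
The operator `T = ψ ψ'`, where `ψ'` is the adjoint of the bar involution `ψ` for the contravariant
form, and its action on singular and on invariant vectors of tensor products.
-/

namespace Pool.Agent.Work.MP_8ad3a8_al

open TensorProduct

section T

variable {I : Type} [Fintype I] [DecidableEq I] {K : Type} [Field K]
variable {C : Cartan I} {v : K} {bar : K ≃+* K}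

variable {V : Type} [AddCommGroup V] [Module K V] {J : Type} [Fintype J] [DecidableEq J]

theorem form_surj (b : Module.Basis J K V) {form : LinearMap.BilinForm K V}
    (hn : ∀ x, (∀ y, form x y = 0) → x = 0) (φ : Module.Dual K V) : ∃ z, form z = φ := by
  have : Module.Finite K V := Module.Finite.of_basis b
  have hinj : Function.Injective form := (injective_iff_map_eq_zero _).2
    (fun x hx => hn x (fun y => by rw [hx]; rfl))
  exact (LinearMap.injective_iff_surjective_of_finrank_eq_finrank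
    (Subspace.dual_finrank_eq).symm).1 hinj φ

theorem bar_zpow (hbar : bar v = v⁻¹) (n : ℤ) : bar (v ^ n) = v ^ (-n) := by
  rw [map_zpow₀, hbar, inv_zpow, zpow_neg]

theorem ext_form {form : LinearMap.BilinForm K V}
    (hn : ∀ x, (∀ y, form x y = 0) → x = 0) {a a' : V} (h : ∀ y, form a y = form a' y) :
    a = a' := by
  rw [← sub_eq_zero]
  refine hn _ fun y => ?_
  rw [map_sub, LinearMap.sub_apply, h, sub_self]

/-- `T` preserves weight spaces -/
theorem IsT.mem_wsp (hv0 : v ≠ 0) (hbb : ∀ r, bar (bar r) = r) (hbar : bar v = v⁻¹) {X : Ops I K V}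
    (hr : IsRel C v X)
    {psi : V →+ V} (hp : IsBar bar X psi) {form : LinearMap.BilinForm K V}
    (hf : IsForm C v X form) (hn : ∀ x, (∀ y, form x y = 0) → x = 0)
    {T : V →ₗ[K] V} (hT : IsT bar psi form T) {L κ : I → ℤ} {x : V}
    (hx : x ∈ wsp C v X L κ) : T x ∈ wsp C v X L κ := by
  intro i
  rw [← hT.Kp hv0 hbb hbar hr hp hf hn, hx i, map_smul]

theorem Canon.psi_hw {lam : I → ℕ} (c : Canon C v bar lam V J) : c.psi c.hw = c.hw :=
  c.psi_B c.top

theorem Canon.form_hw_F {lam : I → ℕ} (c : Canon C v bar lam V J) (i : I) (x : V) :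
    c.form c.hw (c.X.F i x) = 0 := by
  rw [c.isForm.symm, c.isForm.F, Canon.hw, c.top_E, map_zero, smul_zero, map_zero]

theorem Canon.T_hw [CharZero K] (hvt : Transcendental ℚ v) (hbb : ∀ r, bar (bar r) = r)
    {lam : I → ℕ} (c : Canon C v bar lam V J) {T : V →ₗ[K] V} (hT : IsT bar c.psi c.form T) :
    T c.hw = c.hw := by
  have h1 : ∀ y, c.form c.hw (c.psi y) = bar (c.form c.hw y) := by
    intro y
    let N : Submodule K V :=
      { carrier := {y | c.form c.hw (c.psi y) = bar (c.form c.hw y)}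
        add_mem' := by
          intro a b ha hb
          simp only [Set.mem_ofPred_eq] at *
          rw [map_add, map_add, ha, hb, map_add, map_add]
        zero_mem' := by simp
        smul_mem' := by
          intro r a ha
          simp only [Set.mem_ofPred_eq] at *
          rw [c.isBar.smul, map_smul, map_smul, ha, smul_eq_mul, smul_eq_mul, map_mul] }

    have hN : N = ⊤ := by
      refine c.eq_top N ?_ ?_
      · change c.form c.hw (c.psi c.hw) = bar (c.form c.hw c.hw)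
        rw [c.psi_hw, Canon.hw, c.form_top, map_one]
      · intro i x _
        change c.form c.hw (c.psi (c.X.F i x)) = bar (c.form c.hw (c.X.F i x))
        rw [c.isBar.F, c.form_hw_F, c.form_hw_F, map_zero]
    have : y ∈ N := by rw [hN]; trivial
    exact this
  have h2 : c.psi (T c.hw) = c.hw := by
    refine ext_form (c.nondeg hvt) fun y => ?_
    rw [hT, h1, hbb]
  rw [← c.isBar.invol (T c.hw), h2, c.psi_hw]

/-- on an irreducible module, `T = v^{h(κ)}` on depth `κ` -/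
theorem Canon.T_eq [CharZero K] (hvt : Transcendental ℚ v) (hbb : ∀ r, bar (bar r) = r)
    (hbar : bar v = v⁻¹)
    {lam : I → ℕ} (c : Canon C v bar lam V J) {T : V →ₗ[K] V} (hT : IsT bar c.psi c.form T)
    {κ : I → ℤ} {x : V} (hx : x ∈ c.wsp κ) : T x = v ^ hex C c.L κ • x := by
  have hv0 := ne_zero_of_tr hvt
  have hv := zpow_ne_one_of_tr hvt
  have hw : ∀ w : List I, T (Fw c.X w c.hw) = v ^ hex C c.L (cw w) • Fw c.X w c.hw := by
    intro w
    induction w with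
    | nil => simp [c.T_hw hvt hbb hT]
    | cons i w ih =>
      have hm := c.Fw_wsp hv0 w
      have hm' := c.Fw_wsp hv0 (i :: w)
      rw [Fw_cons] at hm' ⊢
      rw [hT.F hv0 hbb hbar c.rel c.isBar c.isForm (c.nondeg hvt), ih, map_smul,
        c.rel.Km_wsp hv0 hm, map_smul, map_smul, map_smul, map_smul, c.rel.Km_wsp hv0 hm',
        smul_smul, smul_smul, ← zpow_add₀ hv0, ← zpow_add₀ hv0, cw_cons, hex_add_sr,
        wex_add_sr]
      congr 2
      rw [C.diag]
      ring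
  have h1 := c.mem_span_Fw hv0 hv hx
  clear hx
  induction h1 using Submodule.span_induction with
  | mem y hy =>
    obtain ⟨w, hwκ, rfl⟩ := hy
    rw [← hwκ]; exact hw w
  | zero => simp
  | add y y' _ _ hy hy' => rw [map_add, hy, hy', smul_add]
  | smul r y _ hy => rw [map_smul, hy, smul_comm]

/-! ### The tensor step -/

section step

variable {lam : I → ℕ} (c : Canon C v bar lam V J)
variable {M : Type} [AddCommGroup M] [Module K M]

/-- contraction of the first factor -/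
noncomputable def contr (a : V) : V ⊗[K] M →ₗ[K] M :=
  (TensorProduct.lid K M).toLinearMap ∘ₗ TensorProduct.map (c.form.flip a) LinearMap.id

@[simp] theorem contr_tmul (a x : V) (m : M) : contr c a (x ⊗ₜ m) = c.form x a • m := by
  simp [contr]

theorem form_contr (fM : LinearMap.BilinForm K M) (a : V) (f : V ⊗[K] M) (m : M) :
    fM (contr c a f) m = LinearMap.BilinForm.tmul c.form fM f (a ⊗ₜ m) := by
  induction f using TensorProduct.induction_on with
  | zero => simp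
  | tmul x m' => rw [contr_tmul, form_tens_apply, LinearMap.map_smul₂, smul_eq_mul]
  | add f f' h h' => rw [map_add, LinearMap.map_add₂, LinearMap.map_add₂, h, h']

theorem contr_add_left (a a' : V) (f : V ⊗[K] M) :
    contr c (a + a') f = contr c a f + contr c a' f := by
  induction f using TensorProduct.induction_on with
  | zero => simp
  | tmul x m' => simp [add_smul]
  | add f f' h h' => rw [map_add, h, h', map_add, map_add]; abel

theorem contr_smul_left (r : K) (a : V) (f : V ⊗[K] M) :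
    contr c (r • a) f = r • contr c a f := by
  induction f using TensorProduct.induction_on with
  | zero => simp
  | tmul x m' => simp [mul_smul]
  | add f f' h h' => rw [map_add, h, h', map_add, smul_add]

/-- `f` has no components of height at least `h` -/
def filt (fM : LinearMap.BilinForm K M) (h : ℤ) : Submodule K (V ⊗[K] M) where
  carrier := {f | ∀ κ, h ≤ hgt κ → ∀ a ∈ c.wsp κ, ∀ m,
    LinearMap.BilinForm.tmul c.form fM f (a ⊗ₜ m) = 0}
  add_mem' := by
    intro f f' hf hf' κ hκ a ha m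
    rw [LinearMap.map_add₂, hf κ hκ a ha m, hf' κ hκ a ha m, add_zero]
  zero_mem' := by intro κ _ a _ m; simp
  smul_mem' := by
    intro r f hf κ hκ a ha m
    rw [LinearMap.map_smul₂, hf κ hκ a ha m, smul_zero]

variable {c} {fM : LinearMap.BilinForm K M}

theorem mem_filt {h : ℤ} {f : V ⊗[K] M} : f ∈ filt c fM h ↔ ∀ κ, h ≤ hgt κ → ∀ a ∈ c.wsp κ, ∀ m,
    LinearMap.BilinForm.tmul c.form fM f (a ⊗ₜ m) = 0 := Iff.rfl

theorem filt_mono {h h' : ℤ} (hh : h ≤ h') {f : V ⊗[K] M} (hf : f ∈ filt c fM h) :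
    f ∈ filt c fM h' := fun κ hκ => hf κ (hh.trans hκ)

theorem tmul_mem_filt (hv0 : v ≠ 0) (hv : ∀ n : ℤ, n ≠ 0 → v ^ n ≠ 1) {h : ℤ} {κ : I → ℤ} {x : V}
    (hx : x ∈ c.wsp κ) (hκ : hgt κ < h) (m : M) : x ⊗ₜ m ∈ filt c fM h := by
  intro κ' hκ' a ha m'
  have hne : κ ≠ κ' := by rintro rfl; omega
  rw [form_tens_apply, form_wsp hv0 hv c.isForm hne hx ha, zero_mul]

/-- vectors of `V` of depth `κ` -/
theorem Canon.mem_wsp_repr (hv0 : v ≠ 0) (hv : ∀ n : ℤ, n ≠ 0 → v ^ n ≠ 1) {κ : I → ℤ} {x : V}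
    (hx : x ∈ c.wsp κ) {j : J} (hj : c.B.repr x j ≠ 0) : c.dp j = κ :=
  (mem_wsp_iff_repr c.B hv0 hv (fun j => c.B_wsp j) κ x).1 hx j hj

theorem mem_filt_iff (hv0 : v ≠ 0) (hv : ∀ n : ℤ, n ≠ 0 → v ^ n ≠ 1)
    (hn : ∀ x, (∀ y, fM x y = 0) → x = 0) {h : ℤ} {f : V ⊗[K] M} :
    f ∈ filt c fM h ↔ ∀ j, h ≤ hgt (c.dp j) → contr c (c.B j) f = 0 := by
  constructor
  · intro hf j hj
    refine hn _ fun m => ?_
    rw [form_contr]
    exact hf _ hj _ (c.B_wsp j) m
  · intro hf κ hκ a ha m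
    rw [← form_contr, ← c.B.sum_repr a]
    have h1 : ∀ (s : Finset J), contr c (∑ j ∈ s, c.B.repr a j • c.B j) f =
        ∑ j ∈ s, c.B.repr a j • contr c (c.B j) f := by
      intro s
      induction s using Finset.induction_on with
      | empty =>
        simp only [Finset.sum_empty]
        have := contr_smul_left c (0 : K) (0 : V) f
        rwa [zero_smul, zero_smul] at this
      | insert j s hj ih =>
        rw [Finset.sum_insert hj, Finset.sum_insert hj, contr_add_left, contr_smul_left, ih]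
    rw [h1, Finset.sum_eq_zero, map_zero, LinearMap.zero_apply]
    intro j _
    by_cases hj : c.B.repr a j = 0
    · rw [hj, zero_smul]
    · rw [hf j (by rw [c.mem_wsp_repr hv0 hv ha hj]; exact hκ), smul_zero]

/-- data on the second tensor factor -/
structure MD (C : Cartan I) (v : K) (bar : K ≃+* K) (M : Type) [AddCommGroup M] [Module K M] where
  Y : Ops I K M
  L : I → ℤ
  psi : M →+ M
  form : LinearMap.BilinForm K M
  rel : IsRel C v Y
  isBar : IsBar bar Y psi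
  isForm : IsForm C v Y form
  nondeg : ∀ x, (∀ y, form x y = 0) → x = 0
  T : M →ₗ[K] M
  isT : IsT bar psi form T
  sing : ∀ κ, ∀ z ∈ wsp C v Y L κ, z ∈ Y.sing → T z = v ^ rho2 C κ • z

variable (D : MD C v bar M)

theorem F_filt (hv0 : v ≠ 0) {h : ℤ} {f : V ⊗[K] M} (hf : f ∈ filt c D.form h) (i : I) :
    (c.X.tens D.Y).F i f ∈ filt c D.form (h + 1) := by
  intro κ hκ a ha m
  have hF := (IsForm.tens hv0 c.rel D.rel c.isForm D.isForm).F i f (a ⊗ₜ m)
  rw [hF, tens_E, map_add, tens_Km, tens_Km, smul_add, map_add, map_smul, map_smul]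
  have hE := c.rel.E_wsp hv0 ha i
  have h1 : LinearMap.BilinForm.tmul c.form D.form f
      (c.X.Km i (c.X.E i a) ⊗ₜ D.Y.Km i (D.Y.Kp i m)) = 0 := by
    rw [c.rel.Km_wsp hv0 hE, ← smul_tmul', map_smul, hf _ _ _ hE, smul_zero]
    have : hgt (κ - sr i) = hgt κ - 1 := by
      have := hgt_add (κ - sr i) (sr i)
      rw [sub_add_cancel, hgt_sr] at this
      omega
    omega
  have h2 : LinearMap.BilinForm.tmul c.form D.form f
      (c.X.Km i a ⊗ₜ D.Y.Km i (D.Y.E i m)) = 0 := by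
    rw [c.rel.Km_wsp hv0 ha, ← smul_tmul', map_smul, hf κ (by omega) a ha, smul_zero]
  rw [h1, h2, smul_zero, add_zero]

variable {psiN : V ⊗[K] M →+ V ⊗[K] M}

/-- singular vectors are orthogonal to the images of the `F i` -/
theorem sing_F {X : Ops I K V} {form : LinearMap.BilinForm K V}
    (hf : IsForm C v X form) {f : V} (hs : f ∈ X.sing) (i : I) (x : V) :
    form f (X.F i x) = 0 := by
  rw [hf.symm, hf.F, Ops.mem_sing.1 hs i, map_zero, smul_zero, map_zero]

theorem stepN1 [CharZero K] (hvt : Transcendental ℚ v)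
    (hbar : bar v = v⁻¹) (hpN : IsBar bar (c.X.tens D.Y) psiN)
    (htop : ∀ m, psiN (c.hw ⊗ₜ m) = c.hw ⊗ₜ D.psi m) {f : V ⊗[K] M}
    (hs : f ∈ (c.X.tens D.Y).sing) {κ : I → ℤ} {a : V} (ha : a ∈ c.wsp κ) (m : M) :
    LinearMap.BilinForm.tmul c.form D.form f (psiN (a ⊗ₜ m)) =
      v ^ cex C c.L κ * LinearMap.BilinForm.tmul c.form D.form f (c.psi a ⊗ₜ D.psi m) := by
  have hv0 := ne_zero_of_tr hvt
  have hv := zpow_ne_one_of_tr hvt
  have hfN := IsForm.tens hv0 c.rel D.rel c.isForm D.isForm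
  have hw : ∀ (w : List I) (m : M),
      LinearMap.BilinForm.tmul c.form D.form f (psiN (Fw c.X w c.hw ⊗ₜ m)) =
      v ^ cex C c.L (cw w) *
        LinearMap.BilinForm.tmul c.form D.form f (c.psi (Fw c.X w c.hw) ⊗ₜ D.psi m) := by
    intro w
    induction w with
    | nil => intro m; simp [htop, c.psi_hw]
    | cons i w ih =>
      intro m
      have hm := c.Fw_wsp hv0 w
      set x := Fw c.X w c.hw with hxdef
      have hpx : c.psi x ∈ c.wsp (cw w) := IsBar.wsp c.rel hv0 hbar c.isBar hm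
      rw [Fw_cons, ← hxdef]
      have e1 : c.X.F i x ⊗ₜ[K] m = (c.X.tens D.Y).F i (x ⊗ₜ m) -
          v ^ (-wex C c.L (cw w) i) • (x ⊗ₜ D.Y.F i m) := by
        rw [tens_F, c.rel.Km_wsp hv0 hm, ← smul_tmul', add_sub_cancel_right]
      have e2 : c.psi x ⊗ₜ[K] D.Y.F i (D.psi m) = v ^ wex C c.L (cw w) i •
          ((c.X.tens D.Y).F i (c.psi x ⊗ₜ D.psi m) - c.X.F i (c.psi x) ⊗ₜ D.psi m) := by
        rw [tens_F, add_sub_cancel_left, c.rel.Km_wsp hv0 hpx, ← smul_tmul', smul_smul,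
          ← zpow_add₀ hv0, add_neg_cancel, zpow_zero, one_smul]
      rw [e1, map_sub, hpN.F, hpN.smul, map_sub, sing_F hfN hs, map_smul, ih, D.isBar.F, e2,
        map_smul, map_sub, sing_F hfN hs, bar_zpow hbar, c.isBar.F, cw_cons, cex_add_sr,
        smul_eq_mul, smul_eq_mul, neg_neg, zpow_add₀ hv0, two_mul, zpow_add₀ hv0]
      ring
  have h1 := c.mem_span_Fw hv0 hv ha
  clear ha
  induction h1 using Submodule.span_induction with
  | mem y hy =>
    obtain ⟨w, hwκ, rfl⟩ := hy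
    rw [← hwκ]; exact hw w m
  | zero => simp
  | add y y' _ _ hy hy' =>
    rw [add_tmul, map_add, map_add, hy, hy', map_add, add_tmul, map_add, mul_add]
  | smul r y _ hy =>
    rw [← smul_tmul', hpN.smul, map_smul, hy, c.isBar.smul, ← smul_tmul', map_smul, smul_eq_mul,
      smul_eq_mul]
    ring

theorem stepN2 [CharZero K] (hvt : Transcendental ℚ v)
    (hbar : bar v = v⁻¹) (hpN : IsBar bar (c.X.tens D.Y) psiN)
    (htop : ∀ m, psiN (c.hw ⊗ₜ m) = c.hw ⊗ₜ D.psi m)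
    {κ : I → ℤ} {a : V} (ha : a ∈ c.wsp κ) (m : M) :
    psiN (a ⊗ₜ m) - c.psi a ⊗ₜ D.psi m ∈ filt c D.form (hgt κ) := by
  have hv0 := ne_zero_of_tr hvt
  have hv := zpow_ne_one_of_tr hvt
  have hw : ∀ (w : List I) (m : M),
      psiN (Fw c.X w c.hw ⊗ₜ m) - c.psi (Fw c.X w c.hw) ⊗ₜ D.psi m ∈
        filt c D.form (hgt (cw w)) := by
    intro w
    induction w with
    | nil => intro m; simp [htop, c.psi_hw]
    | cons i w ih =>
      intro m
      have hm := c.Fw_wsp hv0 w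
      set x := Fw c.X w c.hw with hxdef
      have hpx : c.psi x ∈ c.wsp (cw w) := IsBar.wsp c.rel hv0 hbar c.isBar hm
      rw [Fw_cons, ← hxdef]
      have e1 : c.X.F i x ⊗ₜ[K] m = (c.X.tens D.Y).F i (x ⊗ₜ m) -
          v ^ (-wex C c.L (cw w) i) • (x ⊗ₜ D.Y.F i m) := by
        rw [tens_F, c.rel.Km_wsp hv0 hm, ← smul_tmul', add_sub_cancel_right]
      have e2 : c.X.F i (c.psi x) ⊗ₜ[K] D.psi m = (c.X.tens D.Y).F i (c.psi x ⊗ₜ D.psi m) -
          v ^ (-wex C c.L (cw w) i) • (c.psi x ⊗ₜ D.Y.F i (D.psi m)) := by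
        rw [tens_F, c.rel.Km_wsp hv0 hpx, ← smul_tmul', add_sub_cancel_right]
      have e3 : psiN (c.X.F i x ⊗ₜ m) - c.psi (c.X.F i x) ⊗ₜ D.psi m =
          (c.X.tens D.Y).F i (psiN (x ⊗ₜ m) - c.psi x ⊗ₜ D.psi m) -
          v ^ wex C c.L (cw w) i • (psiN (x ⊗ₜ D.Y.F i m) - c.psi x ⊗ₜ D.psi (D.Y.F i m)) -
          v ^ wex C c.L (cw w) i • (c.psi x ⊗ₜ D.psi (D.Y.F i m)) +
          v ^ (-wex C c.L (cw w) i) • (c.psi x ⊗ₜ D.Y.F i (D.psi m)) := by
        rw [e1, map_sub, hpN.F, hpN.smul, c.isBar.F, e2, bar_zpow hbar, neg_neg, map_sub,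
          smul_sub]
        abel
      have hlt : hgt (cw w) < hgt (cw (i :: w)) := by rw [cw_cons, hgt_add, hgt_sr]; omega
      have heq : hgt (cw (i :: w)) = hgt (cw w) + 1 := by rw [cw_cons, hgt_add, hgt_sr]
      rw [e3]
      refine Submodule.add_mem _ (Submodule.sub_mem _ (Submodule.sub_mem _ ?_ ?_) ?_) ?_
      · rw [heq]; exact F_filt D hv0 (ih m) i
      · exact Submodule.smul_mem _ _ (filt_mono hlt.le (ih _))
      · exact Submodule.smul_mem _ _ (tmul_mem_filt hv0 hv hpx hlt _)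
      · exact Submodule.smul_mem _ _ (tmul_mem_filt hv0 hv hpx hlt _)
  have h1 := c.mem_span_Fw hv0 hv ha
  clear ha
  induction h1 using Submodule.span_induction with
  | mem y hy =>
    obtain ⟨w, hwκ, rfl⟩ := hy
    rw [← hwκ]; exact hw w m
  | zero => simp
  | add y y' _ _ hy hy' =>
    rw [add_tmul, map_add, map_add, add_tmul]
    have := Submodule.add_mem _ hy hy'
    convert this using 1
    abel
  | smul r y _ hy =>
    rw [← smul_tmul', hpN.smul, c.isBar.smul, ← smul_tmul', ← smul_sub]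
    exact Submodule.smul_mem _ _ hy

/-- the dual basis of the canonical basis -/
theorem Canon.exists_dual [CharZero K] (hvt : Transcendental ℚ v) (hbb : ∀ r, bar (bar r) = r)
    (hbar : bar v = v⁻¹) (c : Canon C v bar lam V J) :
    ∃ Bs : J → V, (∀ j k, c.form (Bs j) (c.B k) = if k = j then 1 else 0) ∧
      (∀ j, Bs j ∈ c.wsp (c.dp j)) ∧ (∀ j, c.psi (Bs j) = v ^ hex C c.L (c.dp j) • Bs j) := by
  have hv0 := ne_zero_of_tr hvt
  have hv := zpow_ne_one_of_tr hvt
  have hnd := c.nondeg hvt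
  have h1 : ∀ j, ∃ z, ∀ k, c.form z (c.B k) = if k = j then 1 else 0 := by
    intro j
    obtain ⟨z, hz⟩ := form_surj c.B hnd (c.B.coord j)
    refine ⟨z, fun k => ?_⟩
    rw [hz, Module.Basis.coord_apply, Module.Basis.repr_self, Finsupp.single_apply]
  choose Bs hBs using h1
  have hext : ∀ a a' : V, (∀ k, c.form a (c.B k) = c.form a' (c.B k)) → a = a' := by
    intro a a' h
    refine ext_form hnd fun y => ?_
    rw [← c.B.sum_repr y, map_sum, map_sum]
    refine Finset.sum_congr rfl fun k _ => ?_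
    rw [map_smul, map_smul, h]
  have hw : ∀ j, Bs j ∈ c.wsp (c.dp j) := by
    intro j i
    refine hext _ _ fun k => ?_
    have hk : c.X.Kp i (c.B k) = v ^ wex C c.L (c.dp k) i • c.B k := c.B_wsp k i
    rw [c.isForm.Kp, hk, map_smul, LinearMap.map_smul₂, hBs]
    by_cases hkj : k = j
    · rw [hkj]
    · rw [if_neg hkj, smul_zero, smul_zero]
  refine ⟨Bs, hBs, hw, fun j => ?_⟩
  obtain ⟨T, hT⟩ := exists_T hbb c.B c.isBar c.isForm hnd
  have h2 : c.psi (T (Bs j)) = Bs j := by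
    refine hext _ _ fun k => ?_
    rw [hT, c.psi_B, hBs]
    split_ifs <;> simp
  have h3 : T (Bs j) = c.psi (Bs j) := by
    conv_rhs => rw [← h2]
    rw [c.isBar.invol]
  rw [← h3, c.T_eq hvt hbb hbar hT (hw j)]

theorem expand [CharZero K] (hvt : Transcendental ℚ v) {Bs : J → V}
    (hBs : ∀ j k, c.form (Bs j) (c.B k) = if k = j then 1 else 0) (f : V ⊗[K] M) :
    f = ∑ j, Bs j ⊗ₜ contr c (c.B j) f := by
  have hnd := c.nondeg hvt
  induction f using TensorProduct.induction_on with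
  | zero => simp
  | tmul x m =>
    have h1 : x = ∑ j, c.form x (c.B j) • Bs j := by
      refine ext_form hnd fun y => ?_
      rw [← c.B.sum_repr y, map_sum, map_sum]
      refine Finset.sum_congr rfl fun k _ => ?_
      rw [map_smul, map_smul, LinearMap.BilinForm.sum_left]
      congr 1
      rw [Finset.sum_eq_single k]
      · rw [LinearMap.map_smul₂, hBs, if_pos rfl, smul_eq_mul, mul_one]
      · intro j _ hj
        rw [LinearMap.map_smul₂, hBs, if_neg (Ne.symm hj), smul_zero]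
      · intro h; exact absurd (Finset.mem_univ k) h
    conv_lhs => rw [h1]
    rw [sum_tmul]
    refine Finset.sum_congr rfl fun j _ => ?_
    rw [contr_tmul, smul_tmul]
  | add f f' h h' =>
    conv_lhs => rw [h, h']
    rw [← Finset.sum_add_distrib]
    refine Finset.sum_congr rfl fun j _ => ?_
    rw [map_add, tmul_add]

theorem contr_psi [CharZero K] (hvt : Transcendental ℚ v)
    (hbar : bar v = v⁻¹) (hpN : IsBar bar (c.X.tens D.Y) psiN)
    (htop : ∀ m, psiN (c.hw ⊗ₜ m) = c.hw ⊗ₜ D.psi m) {TN : V ⊗[K] M →ₗ[K] V ⊗[K] M}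
    (hTN : IsT bar psiN (LinearMap.BilinForm.tmul c.form D.form) TN) {f : V ⊗[K] M}
    (hs : f ∈ (c.X.tens D.Y).sing) (j : J) :
    contr c (c.B j) (psiN (TN f)) =
      v ^ (-cex C c.L (c.dp j)) • D.psi (D.T (contr c (c.B j) f)) := by
  refine ext_form D.nondeg fun m => ?_
  rw [form_contr, hTN, stepN1 D hvt hbar hpN htop hs (c.B_wsp j) m, map_mul, bar_zpow hbar,
    c.psi_B, LinearMap.map_smul₂, smul_eq_mul, D.isT, form_contr]

theorem contr_wsp (hv0 : v ≠ 0) {f : V ⊗[K] M} {η : I → ℤ}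
    (hf : f ∈ wsp C v (c.X.tens D.Y) (c.L + D.L) η) (j : J) :
    contr c (c.B j) f ∈ wsp C v D.Y D.L (η - c.dp j) := by
  intro i
  refine ext_form D.nondeg fun m => ?_
  have hfN := (IsForm.tens hv0 c.rel D.rel c.isForm D.isForm).Kp i f (c.B j ⊗ₜ m)
  have hj : c.X.Kp i (c.B j) = v ^ wex C c.L (c.dp j) i • c.B j := c.B_wsp j i
  rw [hf i, LinearMap.map_smul₂, tens_Kp, hj, ← smul_tmul', map_smul, ← form_contr,
    ← form_contr, smul_eq_mul, smul_eq_mul] at hfN
  rw [D.isForm.Kp, LinearMap.map_smul₂, smul_eq_mul]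
  have h1 : wex C (c.L + D.L) η i = wex C c.L (c.dp j) i + wex C D.L (η - c.dp j) i := by
    rw [← wex_add, add_sub_cancel]
  rw [h1, zpow_add₀ hv0, mul_assoc] at hfN
  exact (mul_left_cancel₀ (zpow_ne_zero _ hv0) hfN).symm

theorem hgt_sub_sr (κ : I → ℤ) (i : I) : hgt (κ - sr i) = hgt κ - 1 := by
  have := hgt_add (κ - sr i) (sr i)
  rw [sub_add_cancel, hgt_sr] at this
  omega

theorem contr_sing (hv0 : v ≠ 0) {f : V ⊗[K] M} (hs : f ∈ (c.X.tens D.Y).sing) {h : ℤ}
    (hf : f ∈ filt c D.form (h + 1)) {j : J} (hj : hgt (c.dp j) = h) :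
    contr c (c.B j) f ∈ D.Y.sing := by
  intro i
  refine ext_form D.nondeg fun m => ?_
  have hE := (IsForm.tens hv0 c.rel D.rel c.isForm D.isForm).E i f (c.B j ⊗ₜ m)
  have hFB := c.rel.F_wsp hv0 (c.B_wsp j) i
  have h1 : LinearMap.BilinForm.tmul c.form D.form f
      (c.X.Kp i (c.X.F i (c.B j)) ⊗ₜ D.Y.Kp i m) = 0 := by
    rw [hFB i, ← smul_tmul', map_smul, hf _ _ _ hFB, smul_zero]
    rw [hgt_add, hgt_sr, hj]
  rw [Ops.mem_sing.1 hs i, tens_F, map_add, tens_Kp, tens_Kp, smul_add, map_add, map_smul,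
    map_smul, h1, smul_zero, zero_add, c.rel.Kp_Km_apply, map_zero, LinearMap.zero_apply,
    ← form_contr] at hE
  rw [D.isForm.E, map_smul, ← hE, map_zero, LinearMap.zero_apply]

theorem stepN4 [CharZero K] (hvt : Transcendental ℚ v) (hbb : ∀ r, bar (bar r) = r)
    (hbar : bar v = v⁻¹) (hpN : IsBar bar (c.X.tens D.Y) psiN)
    (htop : ∀ m, psiN (c.hw ⊗ₜ m) = c.hw ⊗ₜ D.psi m) {TN : V ⊗[K] M →ₗ[K] V ⊗[K] M}
    (hTN : IsT bar psiN (LinearMap.BilinForm.tmul c.form D.form) TN) {f : V ⊗[K] M}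
    (hs : f ∈ (c.X.tens D.Y).sing) {η : I → ℤ}
    (hη : f ∈ wsp C v (c.X.tens D.Y) (c.L + D.L) η) {h : ℤ}
    (hf : f ∈ filt c D.form (h + 1)) : TN f - v ^ rho2 C η • f ∈ filt c D.form h := by
  have hv0 := ne_zero_of_tr hvt
  have hv := zpow_ne_one_of_tr hvt
  obtain ⟨Bs, hBs, hBw, hBp⟩ := c.exists_dual hvt hbb hbar
  have e1 : TN f = ∑ j, psiN (Bs j ⊗ₜ contr c (c.B j) (psiN (TN f))) := by
    rw [← map_sum, ← expand hvt hBs, hpN.invol]
  have e2 : v ^ rho2 C η • f = ∑ j, v ^ rho2 C η • (Bs j ⊗ₜ[K] contr c (c.B j) f) := by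
    rw [← Finset.smul_sum, ← expand hvt hBs]
  rw [e1, e2, ← Finset.sum_sub_distrib]
  refine Submodule.sum_mem _ fun j _ => ?_
  have e3 := contr_psi D hvt hbar hpN htop hTN hs j
  rcases lt_trichotomy (hgt (c.dp j)) h with hlt | heq | hgt'
  · refine Submodule.sub_mem _ ?_ (Submodule.smul_mem _ _ (tmul_mem_filt hv0 hv (hBw j) hlt _))
    have h2 := stepN2 D hvt hbar hpN htop (hBw j) (contr c (c.B j) (psiN (TN f)))
    have h3 : c.psi (Bs j) ⊗ₜ D.psi (contr c (c.B j) (psiN (TN f))) ∈ filt c D.form h :=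
      tmul_mem_filt hv0 hv (IsBar.wsp c.rel hv0 hbar c.isBar (hBw j)) hlt _
    have := Submodule.add_mem _ (filt_mono hlt.le h2) h3
    rwa [sub_add_cancel] at this
  · have h2 := stepN2 D hvt hbar hpN htop (hBw j) (contr c (c.B j) (psiN (TN f)))
    rw [heq] at h2
    have h4 : c.psi (Bs j) ⊗ₜ D.psi (contr c (c.B j) (psiN (TN f))) =
        v ^ rho2 C η • (Bs j ⊗ₜ[K] contr c (c.B j) f) := by
      have h5 := D.sing _ _ (contr_wsp D hv0 hη j) (contr_sing D hv0 hs hf heq)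
      rw [e3, D.isBar.smul, D.isBar.invol, h5, hBp, bar_zpow hbar, neg_neg, ← smul_tmul',
        tmul_smul, tmul_smul, smul_smul, smul_smul, ← zpow_add₀ hv0, ← zpow_add₀ hv0]
      congr 2
      have h6 := cex_add_hex (C := C) c.L (c.dp j)
      have h7 : rho2 C η = rho2 C (c.dp j) + rho2 C (η - c.dp j) := by
        rw [← rho2_add, add_sub_cancel]
      rw [h7, ← h6]; ring
    rw [← h4]; exact h2
  · have h0 : contr c (c.B j) f = 0 :=
      (mem_filt_iff hv0 hv D.nondeg).1 hf j (by omega)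
    rw [e3, h0]
    simp

theorem IsT.sing' (hv0 : v ≠ 0) (hbb : ∀ r, bar (bar r) = r) (hbar : bar v = v⁻¹) {X : Ops I K V}
    (hr : IsRel C v X)
    {psi : V →+ V} (hp : IsBar bar X psi) {form : LinearMap.BilinForm K V}
    (hf : IsForm C v X form) (hn : ∀ x, (∀ y, form x y = 0) → x = 0)
    {T : V →ₗ[K] V} (hT : IsT bar psi form T) {L κ : I → ℤ} {x : V}
    (hx : x ∈ wsp C v X L κ) (hs : x ∈ X.sing) : T x ∈ X.sing := by
  intro i
  have h1 := hT.E hv0 hbb hbar hr hp hf hn i x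
  have h2 := hT.mem_wsp hv0 hbb hbar hr hp hf hn hx i
  rw [Ops.mem_sing.1 hs i, map_zero, h2, map_smul, map_smul] at h1
  have h3 : X.Kp i (X.E i (T x)) = 0 :=
    (smul_eq_zero.1 h1.symm).resolve_left (zpow_ne_zero _ hv0)
  rw [← hr.Km_Kp_apply i (X.E i (T x)), h3, map_zero]

theorem IsT.inv' (hv0 : v ≠ 0) (hbb : ∀ r, bar (bar r) = r) (hbar : bar v = v⁻¹) {X : Ops I K V}
    (hr : IsRel C v X)
    {psi : V →+ V} (hp : IsBar bar X psi) {form : LinearMap.BilinForm K V}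
    (hf : IsForm C v X form) (hn : ∀ x, (∀ y, form x y = 0) → x = 0)
    {T : V →ₗ[K] V} (hT : IsT bar psi form T) {x : V} (hs : x ∈ X.inv) : T x ∈ X.inv := by
  intro i
  obtain ⟨h1, h2, h3⟩ := Ops.mem_inv.1 hs i
  have hK : X.Kp i (T x) = T x := by rw [← hT.Kp hv0 hbb hbar hr hp hf hn, h3]
  have hKm : X.Km i (T x) = T x := by
    conv_lhs => rw [← hK]
    rw [hr.Km_Kp_apply]
  have hE := hT.E hv0 hbb hbar hr hp hf hn i x
  have hF := hT.F hv0 hbb hbar hr hp hf hn i x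
  rw [h1, map_zero, hK] at hE
  rw [h2, map_zero, hKm] at hF
  refine ⟨?_, ?_, hK⟩
  · rw [← hr.Km_Kp_apply i (X.E i (T x)), ← hE, map_zero]
  · rw [← hr.Kp_Km_apply i (X.F i (T x)), ← hF, map_zero]

theorem filt_zero [CharZero K] (hvt : Transcendental ℚ v) (hbb : ∀ r, bar (bar r) = r)
    (hbar : bar v = v⁻¹) {f : V ⊗[K] M} (hf : f ∈ filt c D.form 0) : f = 0 := by
  have hv0 := ne_zero_of_tr hvt
  have hv := zpow_ne_one_of_tr hvt
  obtain ⟨Bs, hBs, hBw, hBp⟩ := c.exists_dual hvt hbb hbar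
  rw [expand hvt hBs f]
  refine Finset.sum_eq_zero fun j _ => ?_
  rw [(mem_filt_iff hv0 hv D.nondeg).1 hf j, tmul_zero]
  exact Finset.sum_nonneg fun k _ => Int.natCast_nonneg _

theorem filt_large [CharZero K] (hvt : Transcendental ℚ v) (c : Canon C v bar lam V J) :
    ∃ H : ℕ, ∀ h : ℤ, (H : ℤ) ≤ h → ∀ f : V ⊗[K] M, f ∈ filt c D.form h := by
  have hv0 := ne_zero_of_tr hvt
  have hv := zpow_ne_one_of_tr hvt
  refine ⟨∑ j, (hgt (c.dp j)).toNat + 1, fun h hh f => ?_⟩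
  rw [mem_filt_iff hv0 hv D.nondeg]
  intro j hj
  exfalso
  have h1 : (hgt (c.dp j)).toNat ≤ ∑ j, (hgt (c.dp j)).toNat :=
    Finset.single_le_sum (f := fun j => (hgt (c.dp j)).toNat) (fun _ _ => Nat.zero_le _)
      (Finset.mem_univ j)
  have h2 := Int.self_le_toNat (hgt (c.dp j))
  push_cast at hh
  have h3 : ((hgt (c.dp j)).toNat : ℤ) ≤ ∑ j, ((hgt (c.dp j)).toNat : ℤ) := by
    exact_mod_cast h1
  omega

theorem step_sing [CharZero K] (hvt : Transcendental ℚ v) (hbb : ∀ r, bar (bar r) = r)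
    (hbar : bar v = v⁻¹) (hnN : ∀ x, (∀ y, LinearMap.BilinForm.tmul c.form D.form x y = 0) → x = 0)
    (hpN : IsBar bar (c.X.tens D.Y) psiN)
    (htop : ∀ m, psiN (c.hw ⊗ₜ m) = c.hw ⊗ₜ D.psi m) {TN : V ⊗[K] M →ₗ[K] V ⊗[K] M}
    (hTN : IsT bar psiN (LinearMap.BilinForm.tmul c.form D.form) TN) {η : I → ℤ} (n : ℕ) :
    ∀ f ∈ (c.X.tens D.Y).sing, f ∈ wsp C v (c.X.tens D.Y) (c.L + D.L) η →
      f ∈ filt c D.form n →
      ((TN - (v ^ rho2 C η) • 1 : Module.End K (V ⊗[K] M)) ^ n) f = 0 := by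
  have hv0 := ne_zero_of_tr hvt
  have hrN := IsRel.tens hv0 c.rel D.rel
  have hfN := IsForm.tens hv0 c.rel D.rel c.isForm D.isForm
  induction n with
  | zero =>
    intro f _ _ hf
    rw [filt_zero (c := c) D hvt hbb hbar (f := f) (by simpa using hf), map_zero]
  | succ n ih =>
    intro f hs hη hf
    rw [pow_succ, Module.End.mul_apply]
    have h1 : (TN - (v ^ rho2 C η) • 1 : Module.End K (V ⊗[K] M)) f =
        TN f - v ^ rho2 C η • f := rfl
    rw [h1]
    refine ih _ ?_ ?_ ?_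
    · exact Submodule.sub_mem _ (hTN.sing' hv0 hbb hbar hrN hpN hfN hnN hη hs)
        (Submodule.smul_mem _ _ hs)
    · exact Submodule.sub_mem _ (hTN.mem_wsp hv0 hbb hbar hrN hpN hfN hnN hη)
        (Submodule.smul_mem _ _ hη)
    · exact stepN4 D hvt hbb hbar hpN htop hTN hs hη (by exact_mod_cast hf)

theorem descend {P : ℤ → Prop} (b : ℤ) (n : ℕ) (h0 : P (b + n))
    (h : ∀ k, b ≤ k → k < b + n → P (k + 1) → P k) : P b := by
  induction n with
  | zero => simpa using h0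
  | succ n ih =>
    have h1 : P (b + n) := by
      refine h (b + n) (by omega) (by push_cast; omega) ?_
      have : b + ((n + 1 : ℕ) : ℤ) = b + n + 1 := by push_cast; ring
      rwa [this] at h0
    exact ih h1 fun k hk hk' => h k hk (by push_cast; omega)

/-- if all singular vectors of `M` have depth zero then singular vectors of `V ⊗ M` have
components of one height only -/
theorem sing_filt [CharZero K] (hvt : Transcendental ℚ v)
    (hD : ∀ κ, ∀ z ∈ wsp C v D.Y D.L κ, z ∈ D.Y.sing → z ≠ 0 → κ = 0) {f : V ⊗[K] M}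
    (hs : f ∈ (c.X.tens D.Y).sing) {η : I → ℤ}
    (hη : f ∈ wsp C v (c.X.tens D.Y) (c.L + D.L) η) {h : ℤ} (hh : h ≠ hgt η)
    (hf : f ∈ filt c D.form (h + 1)) : f ∈ filt c D.form h := by
  have hv0 := ne_zero_of_tr hvt
  have hv := zpow_ne_one_of_tr hvt
  rw [mem_filt_iff hv0 hv D.nondeg]
  intro j hj
  by_cases hj' : hgt (c.dp j) = h
  · by_contra hne
    have h1 := hD _ _ (contr_wsp D hv0 hη j) (contr_sing D hv0 hs hf hj') hne
    rw [sub_eq_zero] at h1
    rw [h1] at hh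
    exact hh hj'.symm
  · exact (mem_filt_iff hv0 hv D.nondeg).1 hf j (by omega)

theorem step_eq [CharZero K] (hvt : Transcendental ℚ v) (hbb : ∀ r, bar (bar r) = r)
    (hbar : bar v = v⁻¹) (hnN : ∀ x, (∀ y, LinearMap.BilinForm.tmul c.form D.form x y = 0) → x = 0)
    (hpN : IsBar bar (c.X.tens D.Y) psiN)
    (htop : ∀ m, psiN (c.hw ⊗ₜ m) = c.hw ⊗ₜ D.psi m) {TN : V ⊗[K] M →ₗ[K] V ⊗[K] M}
    (hTN : IsT bar psiN (LinearMap.BilinForm.tmul c.form D.form) TN)
    (hD : ∀ κ, ∀ z ∈ wsp C v D.Y D.L κ, z ∈ D.Y.sing → z ≠ 0 → κ = 0) {f : V ⊗[K] M}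
    (hs : f ∈ (c.X.tens D.Y).sing) {η : I → ℤ}
    (hη : f ∈ wsp C v (c.X.tens D.Y) (c.L + D.L) η) : TN f = v ^ rho2 C η • f := by
  have hv0 := ne_zero_of_tr hvt
  have hrN := IsRel.tens hv0 c.rel D.rel
  have hfN := IsForm.tens hv0 c.rel D.rel c.isForm D.isForm
  obtain ⟨H, hH⟩ := filt_large D hvt c
  have h1 : f ∈ filt c D.form (hgt η + 1) := by
    refine descend (P := fun h => f ∈ filt c D.form h) (hgt η + 1)
      ((H : ℤ) - (hgt η + 1)).toNat (hH _ ?_ f) ?_
    · have := Int.self_le_toNat ((H : ℤ) - (hgt η + 1))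
      omega
    · intro k hk _ hf
      exact sing_filt D hvt hD hs hη (by omega) hf
  have h2 := stepN4 D hvt hbb hbar hpN htop hTN hs hη h1
  have hs' : TN f - v ^ rho2 C η • f ∈ (c.X.tens D.Y).sing :=
    Submodule.sub_mem _ (hTN.sing' hv0 hbb hbar hrN hpN hfN hnN hη hs)
        (Submodule.smul_mem _ _ hs)
  have hη' : TN f - v ^ rho2 C η • f ∈ wsp C v (c.X.tens D.Y) (c.L + D.L) η :=
    Submodule.sub_mem _ (hTN.mem_wsp hv0 hbb hbar hrN hpN hfN hnN hη)
        (Submodule.smul_mem _ _ hη)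
  have h3 : TN f - v ^ rho2 C η • f ∈ filt c D.form (min 0 (hgt η)) := by
    refine descend (P := fun h => TN f - v ^ rho2 C η • f ∈ filt c D.form h)
      (min 0 (hgt η)) (hgt η - min 0 (hgt η)).toNat ?_ ?_
    · have h4 : min 0 (hgt η) + ((hgt η - min 0 (hgt η)).toNat : ℤ) = hgt η := by
        rw [Int.toNat_of_nonneg (by have := min_le_right 0 (hgt η); omega)]
        ring
      rw [h4]; exact h2
    · intro k hk hk' hf
      refine sing_filt D hvt hD hs' hη' ?_ hf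
      rw [Int.toNat_of_nonneg (by have := min_le_right 0 (hgt η); omega)] at hk'
      omega
  have h5 := filt_zero D hvt hbb hbar (filt_mono (min_le_left 0 (hgt η)) h3)
  exact sub_eq_zero.1 h5

theorem zpow_inj (hv0 : v ≠ 0) (hv : ∀ n : ℤ, n ≠ 0 → v ^ n ≠ 1) {a b : ℤ}
    (h : v ^ a = v ^ b) : a = b := by
  by_contra hne
  refine hv (a - b) (sub_ne_zero.2 hne) ?_
  rw [zpow_sub₀ hv0, h, div_self (zpow_ne_zero _ hv0)]

theorem wsp_unique (hv0 : v ≠ 0) (hv : ∀ n : ℤ, n ≠ 0 → v ^ n ≠ 1) {X : Ops I K V}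
    {L κ κ' : I → ℤ} {x : V} (hx0 : x ≠ 0) (hx : x ∈ wsp C v X L κ) (hx' : x ∈ wsp C v X L κ') :
    κ = κ' := by
  refine wex_inj (C := C) (L := L) fun i => zpow_inj hv0 hv ?_
  have h := (hx i).symm.trans (hx' i)
  exact smul_left_injective K hx0 h

theorem Canon.sing_depth [CharZero K] (hvt : Transcendental ℚ v) (c : Canon C v bar lam V J)
    {κ : I → ℤ} {z : V} (hz : z ∈ c.wsp κ) (hs : z ∈ c.X.sing) (h0 : z ≠ 0) : κ = 0 := by
  have hv0 := ne_zero_of_tr hvt
  have hv := zpow_ne_one_of_tr hvt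
  obtain ⟨r, rfl⟩ := c.sing_eq hvt hs
  exact wsp_unique hv0 hv h0 hz (Submodule.smul_mem _ _ c.hw_wsp)

/-- an irreducible representation as a second factor -/
noncomputable def MD.ofCanon [CharZero K] (hvt : Transcendental ℚ v)
    (hbb : ∀ r, bar (bar r) = r) (c : Canon C v bar lam V J) : MD C v bar V where
  Y := c.X
  L := c.L
  psi := c.psi
  form := c.form
  rel := c.rel
  isBar := c.isBar
  isForm := c.isForm
  nondeg := c.nondeg hvt
  T := (exists_T hbb c.B c.isBar c.isForm (c.nondeg hvt)).choose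
  isT := (exists_T hbb c.B c.isBar c.isForm (c.nondeg hvt)).choose_spec
  sing := by
    intro κ z hz hs
    by_cases h0 : z = 0
    · rw [h0, map_zero, smul_zero]
    · have h1 := c.sing_depth hvt hz hs h0
      obtain ⟨r, rfl⟩ := c.sing_eq hvt hs
      rw [map_smul, c.T_hw hvt hbb
        (exists_T hbb c.B c.isBar c.isForm (c.nondeg hvt)).choose_spec, h1, rho2_zero, zpow_zero,
        one_smul]

/-- projection to the part of height `h` -/
noncomputable def prh (c : Canon C v bar lam V J) (h : ℤ) : V →ₗ[K] V :=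
  c.B.constr K fun j => if hgt (c.dp j) = h then c.B j else 0

theorem prh_apply (c : Canon C v bar lam V J) (h : ℤ) (a : V) :
    prh c h a = ∑ j, c.B.repr a j • (if hgt (c.dp j) = h then c.B j else 0) := by
  rw [prh, Module.Basis.constr_apply_fintype]
  rfl

theorem prh_eq (hv0 : v ≠ 0) (hv : ∀ n : ℤ, n ≠ 0 → v ^ n ≠ 1) {h : ℤ} {κ : I → ℤ} {a : V}
    (ha : a ∈ c.wsp κ) (hκ : hgt κ = h) : prh c h a = a := by
  rw [prh_apply]
  conv_rhs => rw [← c.B.sum_repr a]
  refine Finset.sum_congr rfl fun j _ => ?_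
  by_cases hj : c.B.repr a j = 0
  · rw [hj, zero_smul, zero_smul]
  · rw [if_pos]
    rw [c.mem_wsp_repr hv0 hv ha hj, hκ]

theorem prh_zero (hv0 : v ≠ 0) (hv : ∀ n : ℤ, n ≠ 0 → v ^ n ≠ 1) {h : ℤ} {κ : I → ℤ} {a : V}
    (ha : a ∈ c.wsp κ) (hκ : hgt κ ≠ h) : prh c h a = 0 := by
  rw [prh_apply]
  refine Finset.sum_eq_zero fun j _ => ?_
  by_cases hj : c.B.repr a j = 0
  · rw [hj, zero_smul]
  · rw [if_neg, smul_zero]
    rw [c.mem_wsp_repr hv0 hv ha hj]
    exact hκ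

section dual

variable {V' : Type} [AddCommGroup V'] [Module K V'] {J' : Type} [Fintype J'] [DecidableEq J']
variable {lam' : I → ℕ} {c' : Canon C v bar lam' V' J'} {Dl : V' ≃ₗ[K] Module.Dual K V}

theorem exists_low [CharZero K] (hvt : Transcendental ℚ v) (hDl : IsDuality c' c Dl) :
    ∃ nl : I → ℤ, ∀ κ, κ ≠ nl → ∀ a ∈ c.wsp κ, Dl c'.hw a = 0 := by
  have hv0 := ne_zero_of_tr hvt
  have hv := zpow_ne_one_of_tr hvt
  have hne : Dl c'.hw ≠ 0 := by
    intro h
    rw [map_eq_zero_iff _ Dl.injective] at h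
    exact c'.B.ne_zero c'.top h
  obtain ⟨j, hj⟩ : ∃ j, Dl c'.hw (c.B j) ≠ 0 := by
    by_contra hcon
    push Not at hcon
    exact hne (c.B.ext fun j => by rw [hcon j]; rfl)
  have key : ∀ κ, ∀ a ∈ c.wsp κ, Dl c'.hw a ≠ 0 → ∀ i, wex C c.L κ i = -(C.d i * (lam' i : ℤ)) := by
    intro κ a ha hne i
    have h1 := hDl.Kp i c'.hw a
    have h2 : c'.X.Kp i c'.hw = v ^ (C.d i * (lam' i : ℤ)) • c'.hw := c'.top_K i
    have ha' : a ∈ wsp C v c.X c.L κ := ha
    rw [h2, map_smul, LinearMap.smul_apply, c.rel.Km_wsp hv0 ha', map_smul, smul_eq_mul,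
      smul_eq_mul] at h1
    have h3 := zpow_inj hv0 hv (mul_right_cancel₀ hne h1)
    omega
  refine ⟨c.dp j, fun κ hκ a ha => ?_⟩
  by_contra hcon
  refine hκ (wex_inj (C := C) (L := c.L) fun i => ?_)
  rw [key κ a ha hcon i, key _ _ (c.B_wsp j) hj i]

theorem inv_filt [CharZero K] (hvt : Transcendental ℚ v) (hDl : IsDuality c' c Dl)
    {nl : I → ℤ} (hnl : ∀ κ, κ ≠ nl → ∀ a ∈ c.wsp κ, Dl c'.hw a = 0) {f : V ⊗[K] M}
    (hs : f ∈ (c.X.tens D.Y).inv) {h : ℤ} (hh : h ≠ hgt nl)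
    (hf : f ∈ filt c D.form (h + 1)) : f ∈ filt c D.form h := by
  have hv0 := ne_zero_of_tr hvt
  have hv := zpow_ne_one_of_tr hvt
  intro κ hκ a ha m
  by_cases hκ' : h + 1 ≤ hgt κ
  · exact hf κ hκ' a ha m
  have hκ2 : hgt κ = h := by omega
  let φ : Module.Dual K V :=
    (LinearMap.BilinForm.tmul c.form D.form f) ∘ₗ ((TensorProduct.mk K V M).flip m) ∘ₗ prh c h
  have hφ : ∀ b, φ b = LinearMap.BilinForm.tmul c.form D.form f (prh c h b ⊗ₜ m) := fun b => rfl
  have hE : ∀ i b, φ (c.X.E i b) = 0 := by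
    intro i b
    have h1 : φ ∘ₗ c.X.E i = 0 := by
      refine c.B.ext fun j => ?_
      change φ (c.X.E i (c.B j)) = 0
      have hEj := c.rel.E_wsp hv0 (c.B_wsp j) i
      rw [hφ]
      by_cases hj : hgt (c.dp j) = h + 1
      · rw [prh_eq hv0 hv hEj (by rw [hgt_sub_sr]; omega)]
        have hF := (IsForm.tens hv0 c.rel D.rel c.isForm D.isForm).F i f (c.B j ⊗ₜ m)
        have hB : c.B j ∈ wsp C v c.X c.L (c.dp j) := c.B_wsp j
        have h2 : LinearMap.BilinForm.tmul c.form D.form f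
            (c.X.Km i (c.B j) ⊗ₜ D.Y.Km i (D.Y.E i m)) = 0 := by
          rw [c.rel.Km_wsp hv0 hB, ← smul_tmul', map_smul, hf _ hj.ge _ (c.B_wsp j), smul_zero]
        rw [(Ops.mem_inv.1 hs i).2.1, map_zero, LinearMap.zero_apply, tens_E, map_add, tens_Km,
          tens_Km, smul_add, map_add, map_smul, map_smul, h2, smul_zero, add_zero,
          D.rel.Km_Kp_apply, c.rel.Km_wsp hv0 hEj, ← smul_tmul', map_smul, smul_smul] at hF
        refine (smul_eq_zero.1 hF.symm).resolve_left ?_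
        exact mul_ne_zero (zpow_ne_zero _ hv0) (zpow_ne_zero _ hv0)
      · rw [prh_zero hv0 hv hEj (by rw [hgt_sub_sr]; omega), zero_tmul, map_zero]
    exact LinearMap.congr_fun h1 b
  obtain ⟨x', hx'⟩ := Dl.surjective φ
  have hs' : x' ∈ c'.X.sing := by
    intro i
    rw [← map_eq_zero_iff _ Dl.injective]
    ext y
    rw [hDl.E, hx', hE, neg_zero]
    rfl
  obtain ⟨r, hr⟩ := c'.sing_eq hvt hs'
  have h5 : φ a = 0 := by
    rw [← hx', hr, map_smul, LinearMap.smul_apply, hnl κ (by rintro rfl; exact hh hκ2.symm) a ha,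
      smul_zero]
  rw [hφ, prh_eq hv0 hv ha hκ2] at h5
  exact h5

theorem step_inv [CharZero K] (hvt : Transcendental ℚ v) (hbb : ∀ r, bar (bar r) = r)
    (hbar : bar v = v⁻¹) (hnN : ∀ x, (∀ y, LinearMap.BilinForm.tmul c.form D.form x y = 0) → x = 0)
    (hpN : IsBar bar (c.X.tens D.Y) psiN)
    (htop : ∀ m, psiN (c.hw ⊗ₜ m) = c.hw ⊗ₜ D.psi m) {TN : V ⊗[K] M →ₗ[K] V ⊗[K] M}
    (hTN : IsT bar psiN (LinearMap.BilinForm.tmul c.form D.form) TN)
    (hDl : IsDuality c' c Dl) {f : V ⊗[K] M}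
    (hs : f ∈ (c.X.tens D.Y).inv) {η : I → ℤ}
    (hη : f ∈ wsp C v (c.X.tens D.Y) (c.L + D.L) η) : TN f = v ^ rho2 C η • f := by
  have hv0 := ne_zero_of_tr hvt
  have hrN := IsRel.tens hv0 c.rel D.rel
  have hfN := IsForm.tens hv0 c.rel D.rel c.isForm D.isForm
  obtain ⟨H, hH⟩ := filt_large D hvt c
  obtain ⟨nl, hnl⟩ := exists_low (c := c) hvt hDl
  have h1 : f ∈ filt c D.form (hgt nl + 1) := by
    refine descend (P := fun h => f ∈ filt c D.form h) (hgt nl + 1)
      ((H : ℤ) - (hgt nl + 1)).toNat (hH _ ?_ f) ?_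
    · have := Int.self_le_toNat ((H : ℤ) - (hgt nl + 1))
      omega
    · intro k hk _ hf
      exact inv_filt D hvt hDl hnl hs (by omega) hf
  have h2 := stepN4 D hvt hbb hbar hpN htop hTN (fun i => (Ops.mem_inv.1 hs i).1) hη h1
  have hs' : TN f - v ^ rho2 C η • f ∈ (c.X.tens D.Y).inv :=
    Submodule.sub_mem _ (hTN.inv' hv0 hbb hbar hrN hpN hfN hnN hs)
        (Submodule.smul_mem _ _ hs)
  have h3 : TN f - v ^ rho2 C η • f ∈ filt c D.form (min 0 (hgt nl)) := by
    refine descend (P := fun h => TN f - v ^ rho2 C η • f ∈ filt c D.form h)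
      (min 0 (hgt nl)) (hgt nl - min 0 (hgt nl)).toNat ?_ ?_
    · have h4 : min 0 (hgt nl) + ((hgt nl - min 0 (hgt nl)).toNat : ℤ) = hgt nl := by
        rw [Int.toNat_of_nonneg (by have := min_le_right 0 (hgt nl); omega)]
        ring
      rw [h4]; exact h2
    · intro k hk hk' hf
      refine inv_filt D hvt hDl hnl hs' ?_ hf
      rw [Int.toNat_of_nonneg (by have := min_le_right 0 (hgt nl); omega)] at hk'
      omega
  have h5 := filt_zero D hvt hbb hbar (filt_mono (min_le_left 0 (hgt nl)) h3)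
  exact sub_eq_zero.1 h5

end dual

end step

variable {l1 l2 l3 : I → ℕ}
variable {V1 : Type} [AddCommGroup V1] [Module K V1] {J1 : Type} [Fintype J1] [DecidableEq J1]
variable {V2 : Type} [AddCommGroup V2] [Module K V2] {J2 : Type} [Fintype J2] [DecidableEq J2]
variable {V3 : Type} [AddCommGroup V3] [Module K V3] {J3 : Type} [Fintype J3] [DecidableEq J3]

/-- operators on the triple tensor product -/
noncomputable def X3 (c1 : Canon C v bar l1 V1 J1) (c2 : Canon C v bar l2 V2 J2)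
    (c3 : Canon C v bar l3 V3 J3) : Ops I K (V1 ⊗[K] (V2 ⊗[K] V3)) :=
  c1.X.tens (c2.X.tens c3.X)

/-- highest weight of the triple tensor product -/
def L3 (c1 : Canon C v bar l1 V1 J1) (c2 : Canon C v bar l2 V2 J2)
    (c3 : Canon C v bar l3 V3 J3) : I → ℤ := c1.L + (c2.L + c3.L)

theorem nondeg23 [CharZero K] (hvt : Transcendental ℚ v) (c2 : Canon C v bar l2 V2 J2)
    (c3 : Canon C v bar l3 V3 J3) (x : V2 ⊗[K] V3)
    (hx : ∀ y, LinearMap.BilinForm.tmul c2.form c3.form x y = 0) : x = 0 :=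
  nondeg_tens c2.B c3.B (c2.nondeg hvt) (c3.nondeg hvt) x fun _ _ => hx _

/-- the tensor product of two irreducible representations as a second factor -/
noncomputable def MD.of23 [CharZero K] (hvt : Transcendental ℚ v)
    (hbb : ∀ r, bar (bar r) = r) (hbar : bar v = v⁻¹) {c1 : Canon C v bar l1 V1 J1}
    {c2 : Canon C v bar l2 V2 J2}
    {c3 : Canon C v bar l3 V3 J3} (t : TCanon c1 c2 c3) : MD C v bar (V2 ⊗[K] V3) where
  Y := c2.X.tens c3.X
  L := c2.L + c3.L
  psi := t.psi23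
  form := LinearMap.BilinForm.tmul c2.form c3.form
  rel := IsRel.tens (ne_zero_of_tr hvt) c2.rel c3.rel
  isBar := t.isBar23
  isForm := IsForm.tens (ne_zero_of_tr hvt) c2.rel c3.rel c2.isForm c3.isForm
  nondeg := nondeg23 hvt c2 c3
  T := (exists_T hbb (c2.B.tensorProduct c3.B) t.isBar23
    (IsForm.tens (ne_zero_of_tr hvt) c2.rel c3.rel c2.isForm c3.isForm)
    (nondeg23 hvt c2 c3)).choose
  isT := (exists_T hbb (c2.B.tensorProduct c3.B) t.isBar23
    (IsForm.tens (ne_zero_of_tr hvt) c2.rel c3.rel c2.isForm c3.isForm)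
    (nondeg23 hvt c2 c3)).choose_spec
  sing := by
    intro κ z hz hs
    exact step_eq (c := c2) (MD.ofCanon hvt hbb c3) hvt hbb hbar (nondeg23 hvt c2 c3) t.isBar23
      (fun m => t.psi23_top m)
      (exists_T hbb (c2.B.tensorProduct c3.B) t.isBar23
        (IsForm.tens (ne_zero_of_tr hvt) c2.rel c3.rel c2.isForm c3.isForm)
        (nondeg23 hvt c2 c3)).choose_spec
      (fun κ z hz hs h0 => c3.sing_depth hvt hz hs h0) hs hz

theorem nondeg123 [CharZero K] (hvt : Transcendental ℚ v) (c1 : Canon C v bar l1 V1 J1)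
    (c2 : Canon C v bar l2 V2 J2)
    (c3 : Canon C v bar l3 V3 J3) (x : V1 ⊗[K] (V2 ⊗[K] V3))
    (hx : ∀ y, form3 c1 c2 c3 x y = 0) : x = 0 :=
  nondeg_tens c1.B (c2.B.tensorProduct c3.B) (c1.nondeg hvt) (nondeg23 hvt c2 c3) x
    fun _ _ => hx _

theorem T_sing [CharZero K] (hvt : Transcendental ℚ v) (hbb : ∀ r, bar (bar r) = r)
    (hbar : bar v = v⁻¹) {c1 : Canon C v bar l1 V1 J1} {c2 : Canon C v bar l2 V2 J2}
    {c3 : Canon C v bar l3 V3 J3} (t : TCanon c1 c2 c3)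
    {T : V1 ⊗[K] (V2 ⊗[K] V3) →ₗ[K] V1 ⊗[K] (V2 ⊗[K] V3)}
    (hT : IsT bar t.psi (form3 c1 c2 c3) T) {η : I → ℤ} {x : V1 ⊗[K] (V2 ⊗[K] V3)}
    (hx : x ∈ wsp C v (X3 c1 c2 c3) (L3 c1 c2 c3) η) (hs : x ∈ (X3 c1 c2 c3).sing) :
    ∃ n : ℕ, ((T - (v ^ rho2 C η) • 1 : Module.End K (V1 ⊗[K] (V2 ⊗[K] V3))) ^ n) x = 0 := by
  obtain ⟨H, hH⟩ := filt_large (MD.of23 hvt hbb hbar t) hvt c1
  exact ⟨H, step_sing (c := c1) (MD.of23 hvt hbb hbar t) hvt hbb hbar (nondeg123 hvt c1 c2 c3)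
    t.isBar (fun m => t.psi_top m) hT H x hs hx (hH H le_rfl x)⟩

theorem T_inv [CharZero K] (hvt : Transcendental ℚ v) (hbb : ∀ r, bar (bar r) = r)
    (hbar : bar v = v⁻¹) {c1 : Canon C v bar l1 V1 J1} {c2 : Canon C v bar l2 V2 J2}
    {c3 : Canon C v bar l3 V3 J3} (t : TCanon c1 c2 c3)
    {V1' : Type} [AddCommGroup V1'] [Module K V1'] {J1' : Type} [Fintype J1'] [DecidableEq J1']
    {l1' : I → ℕ} {c1' : Canon C v bar l1' V1' J1'} {D1 : V1' ≃ₗ[K] Module.Dual K V1}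
    (hD1 : IsDuality c1' c1 D1)
    {T : V1 ⊗[K] (V2 ⊗[K] V3) →ₗ[K] V1 ⊗[K] (V2 ⊗[K] V3)}
    (hT : IsT bar t.psi (form3 c1 c2 c3) T) {η : I → ℤ} {x : V1 ⊗[K] (V2 ⊗[K] V3)}
    (hx : x ∈ wsp C v (X3 c1 c2 c3) (L3 c1 c2 c3) η) (hs : x ∈ (X3 c1 c2 c3).inv) :
    T x = v ^ rho2 C η • x :=
  step_inv (c := c1) (MD.of23 hvt hbb hbar t) hvt hbb hbar (nondeg123 hvt c1 c2 c3)
    t.isBar (fun m => t.psi_top m) hT hD1 hs hx

end T

end Pool.Agent.Work.MP_8ad3a8_al
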