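import Mathlib
import Pool.Agent.Work.MP_8ad3a8_al.TOp

set_option autoImplicit false
set_option linter.unusedSectionVars false

/-!
Bar invariance of the pairing of dual canonical invariants.
-/

namespace Pool.Agent.Work.MP_8ad3a8_al

open TensorProduct

section arith

variable {K : Type} [Field K] {v : K} {bar : K ≃+* K}

theorem Zm_poly {r : K} (hr : r ∈ Zm v) :
    ∃ P : Polynomial ℤ, Polynomial.eval₂ (algebraMap ℤ K) v⁻¹ P = r := by
  induction hr using Subring.closure_induction with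
  | mem x hx => exact ⟨Polynomial.X, by simp [Set.mem_singleton_iff.mp hx]⟩
  | zero => exact ⟨0, by simp⟩
  | one => exact ⟨1, by simp⟩
  | add x y _ _ hx hy =>
    obtain ⟨P, rfl⟩ := hx
    obtain ⟨Q, rfl⟩ := hy
    exact ⟨P + Q, by rw [Polynomial.eval₂_add]⟩
  | neg x _ hx =>
    obtain ⟨P, rfl⟩ := hx
    exact ⟨-P, by rw [Polynomial.eval₂_neg]⟩
  | mul x y _ _ hx hy =>
    obtain ⟨P, rfl⟩ := hx
    obtain ⟨Q, rfl⟩ := hy
    exact ⟨P * Q, by rw [Polynomial.eval₂_mul]⟩

theorem zpow_inj_of (hv0 : v ≠ 0) (hv : ∀ n : ℤ, n ≠ 0 → v ^ n ≠ 1) {a b : ℤ}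
    (h : v ^ a = v ^ b) : a = b := by
  by_contra hne
  apply hv (a - b) (sub_ne_zero.mpr hne)
  rw [zpow_sub₀ hv0, h, div_self (zpow_ne_zero _ hv0)]

theorem norm_lemma [CharZero K] (hvt : Transcendental ℚ v) (hbar : bar v = v⁻¹) {n r : K}
    (hr : r ∈ Zm v) (hn : n = 1 + v⁻¹ * r) {h : ℤ} (hb : bar n = v ^ (-h) * n) :
    h ≤ 0 ∧ (h = 0 → n = 1) := by
  have hv0 : v ≠ 0 := ne_zero_of_tr hvt
  obtain ⟨P0, hP0⟩ := Zm_poly hr
  set P : Polynomial ℤ := 1 + Polynomial.X * P0 with hP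
  have hPn : Polynomial.eval₂ (algebraMap ℤ K) v⁻¹ P = n := by
    rw [hP, Polynomial.eval₂_add, Polynomial.eval₂_mul, hP0, hn]
    simp
  have hPc : P.coeff 0 = 1 := by simp [hP]
  have hPne : P ≠ 0 := by
    intro h0; rw [h0] at hPc; simp at hPc
  have hbarP : bar n = Polynomial.eval₂ (algebraMap ℤ K) v P := by
    rw [← hPn]
    have := Polynomial.hom_eval₂ P (algebraMap ℤ K) (bar : K →+* K) v⁻¹
    have e : ((bar : K →+* K).comp (algebraMap ℤ K)) = algebraMap ℤ K := by
      exact RingHom.ext_int _ _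
    rw [e] at this
    simp only [RingEquiv.coe_toRingHom, map_inv₀, hbar, inv_inv] at this
    simpa [map_inv₀, hbar] using this
  have hinj : Function.Injective (Polynomial.aeval (R := ℤ) v) := by
    have h1 : Transcendental ℤ v :=
      Transcendental.restrictScalars (R := ℤ) (S := ℚ) (algebraMap ℤ ℚ).injective_int hvt
    exact transcendental_iff_injective.mp h1
  -- the reverse polynomial
  have hrev : Polynomial.eval₂ (algebraMap ℤ K) v P.reverse = v ^ P.natDegree * n := by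
    have : Invertible v⁻¹ := invertibleOfNonzero (inv_ne_zero hv0)
    have := Polynomial.eval₂_reverse_mul_pow (algebraMap ℤ K) v⁻¹ P
    rw [hPn, invOf_eq_inv, inv_inv] at this
    rw [← this, mul_comm (v ^ P.natDegree), mul_assoc, ← mul_pow, inv_mul_cancel₀ hv0, one_pow,
      mul_one]
  have key : ∀ k : ℕ, (k : ℤ) = h → k + P.natDegree = 0 := by
    intro k hk
    have h1 : Polynomial.X ^ (k + P.natDegree) * P = P.reverse := by
      apply hinj
      rw [Polynomial.aeval_def, Polynomial.aeval_def, Polynomial.eval₂_mul, hrev,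
        Polynomial.eval₂_pow, Polynomial.eval₂_X, ← hbarP, hb, ← hk, pow_add]
      rw [zpow_neg, zpow_natCast]
      field_simp
    have h2 := congrArg Polynomial.natDegree h1
    rw [Polynomial.natDegree_X_pow_mul _ hPne] at h2
    have h3 := Polynomial.reverse_natDegree_le P
    omega
  constructor
  · by_contra hlt
    push Not at hlt
    obtain ⟨k, hk⟩ := Int.eq_ofNat_of_zero_le hlt.le
    have := key k hk.symm
    omega
  · intro h0
    have h1 := key 0 (by simp [h0])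
    have h2 : P.natDegree = 0 := by omega
    have h3 := Polynomial.eq_C_of_natDegree_eq_zero h2
    rw [hPc] at h3
    rw [← hPn, h3]
    simp

end arith

section dual

variable {I : Type} [Fintype I] [DecidableEq I] {K : Type} [Field K]
variable {C : Cartan I} {v : K} {bar : K ≃+* K}
variable {lam' lam : I → ℕ}
variable {V : Type} [AddCommGroup V] [Module K V] {J : Type} [Fintype J] [DecidableEq J]
variable {V' : Type} [AddCommGroup V'] [Module K V'] {J' : Type} [Fintype J'] [DecidableEq J']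
variable {c' : Canon C v bar lam' V' J'} {c : Canon C v bar lam V J}
variable {D : V' ≃ₗ[K] Module.Dual K V}

theorem Canon.form_hw (c : Canon C v bar lam V J) : c.form c.hw c.hw = 1 := c.form_top
theorem Canon.bi_psi_hw (c : Canon C v bar lam V J) : c.psi c.hw = c.hw := c.psi_B _
theorem Canon.E_hw (c : Canon C v bar lam V J) (i : I) : c.X.E i c.hw = 0 := c.top_E i

/-- norm of canonical basis vectors and the exponent `h` -/
theorem Canon.norm_B [CharZero K] (hvt : Transcendental ℚ v) (hbb : ∀ r, bar (bar r) = r)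
    (hbar : bar v = v⁻¹) (c : Canon C v bar lam V J) (j : J) :
    hex C c.L (c.dp j) ≤ 0 ∧ (hex C c.L (c.dp j) = 0 → c.form (c.B j) (c.B j) = 1) := by
  obtain ⟨T, hT⟩ := exists_T hbb c.B c.isBar c.isForm (fun x hx => c.nondeg hvt x hx)
  obtain ⟨r, hr, hn⟩ := c.orth j j
  rw [if_pos rfl] at hn
  have h1 := c.T_eq hvt hbb hbar hT (c.B_wsp j)
  have h2 := hT (c.B j) (c.B j)
  rw [h1, c.isBar.smul, c.psi_B, map_smul, LinearMap.smul_apply, smul_eq_mul, map_zpow₀, hbar,
    inv_zpow', ] at h2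
  exact norm_lemma hvt hbar hr hn h2.symm

section

variable (hv0 : v ≠ 0) (hv : ∀ n : ℤ, n ≠ 0 → v ^ n ≠ 1) (hD : IsDuality c' c D)
variable {jl : J'} (hF : ∀ i, c'.X.F i (c'.B jl) = 0) (hj : D (c'.B jl) = c.B.coord c.top)

include hj in
theorem dual_hw : D (c'.B jl) c.hw = 1 := by
  rw [hj]; simp [Canon.hw]

include hv0 hv hD hj in
theorem low_wex (i : I) : wex C c'.L (c'.dp jl) i = - wex C c.L 0 i := by
  have h1 := hD.Kp i (c'.B jl) c.hw
  rw [c'.B_wsp jl i, c.rel.Km_wsp hv0 c.hw_wsp i, map_smul, map_smul, LinearMap.smul_apply,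
    dual_hw hj, smul_eq_mul, smul_eq_mul, mul_one, mul_one] at h1
  exact zpow_inj_of hv0 hv h1

include hv0 hv hD hj in
theorem low_wex' (i : I) : wex C c.L (c'.dp jl) i = - wex C c'.L 0 i := by
  have h1 := low_wex hv0 hv hD hj i
  simp only [wex, Pi.zero_apply, mul_zero, Finset.sum_const_zero, sub_zero] at h1 ⊢
  linarith

include hv0 hv hD hj in
theorem D_wsp {κ' κ : I → ℤ} {x : V'} {y : V} (hx : x ∈ c'.wsp κ') (hy : y ∈ c.wsp κ)
    (hne : D x y ≠ 0) : κ' + κ = c'.dp jl := by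
  apply wex_inj (C := C) (L := c'.L + c.L)
  intro i
  rw [wex_add]
  have h1 := hD.Kp i x y
  rw [hx i, c.rel.Km_wsp hv0 hy i, map_smul, map_smul, LinearMap.smul_apply, smul_eq_mul,
    smul_eq_mul] at h1
  have h2 := zpow_inj_of hv0 hv (mul_right_cancel₀ hne h1)
  have h3 := wex_add (C := C) c'.L c.L (c'.dp jl) 0 i
  rw [add_zero] at h3
  rw [h3, low_wex hv0 hv hD hj, h2]
  ring

include hv0 hv hD hj in
theorem le_low {κ : I → ℤ} {y : V} (hy : y ∈ c.wsp κ) (hy0 : y ≠ 0) (i : I) :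
    κ i ≤ c'.dp jl i := by
  have : ∃ j, D (c'.B j) y ≠ 0 := by
    by_contra hall
    push Not at hall
    apply hy0
    rw [← Module.forall_dual_apply_eq_zero_iff K y]
    intro φ
    obtain ⟨x, rfl⟩ := D.surjective φ
    have h0 : (LinearMap.applyₗ y ∘ₗ D.toLinearMap) = 0 := by
      apply c'.B.ext
      intro j
      simpa using hall j
    exact LinearMap.congr_fun h0 x
  obtain ⟨j, hjy⟩ := this
  have h1 := D_wsp hv0 hv hD hj (c'.B_wsp j) hy hjy
  have h2 := congrFun h1 i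
  have h3 : 0 ≤ c'.dp j i := Int.natCast_nonneg _
  simp only [Pi.add_apply] at h2
  omega

include hv0 hv hD hj in
theorem bi_exists_low : ∃ j, D c'.hw (c.B j) ≠ 0 ∧ c.dp j = c'.dp jl := by
  have : ∃ j, D c'.hw (c.B j) ≠ 0 := by
    by_contra hall
    push Not at hall
    have h0 : D c'.hw = 0 := by
      apply c.B.ext
      intro j
      simpa using hall j
    have h1 : c'.hw = 0 := by
      apply D.injective
      rw [h0, map_zero]
    have h2 := c'.form_hw
    rw [h1] at h2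
    simp at h2
  obtain ⟨j, hjy⟩ := this
  refine ⟨j, hjy, ?_⟩
  have h1 := D_wsp hv0 hv hD hj c'.hw_wsp (c.B_wsp j) hjy
  rw [← h1, zero_add]

include hv0 hv hD hj in
theorem F_low {y : V} (hy : y ∈ c.wsp (c'.dp jl)) (i : I) : c.X.F i y = 0 := by
  by_contra hne
  have h1 := c.rel.F_wsp hv0 hy i
  have h2 := le_low hv0 hv hD hj h1 hne i
  simp [sr] at h2

include hv0 hv hD hj in
theorem hex_low_add : hex C c.L (c'.dp jl) + hex C c'.L (c'.dp jl) = 0 := by
  have h1 : ∀ i, C.d i * c'.L i + C.d i * c.L i = ∑ k, C.d i * C.a i k * c'.dp jl k := by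
    intro i
    have := low_wex hv0 hv hD hj i
    simp only [wex, Pi.zero_apply, mul_zero, Finset.sum_const_zero, sub_zero] at this
    linarith
  have h2 : lp C c.L (c'.dp jl) + lp C c'.L (c'.dp jl) = ip C (c'.dp jl) (c'.dp jl) := by
    unfold lp ip
    rw [← Finset.sum_add_distrib]
    refine Finset.sum_congr rfl fun i _ => ?_
    have := h1 i
    calc C.d i * c.L i * c'.dp jl i + C.d i * c'.L i * c'.dp jl i
        = (C.d i * c'.L i + C.d i * c.L i) * c'.dp jl i := by ring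
      _ = (∑ k, C.d i * C.a i k * c'.dp jl k) * c'.dp jl i := by rw [this]
      _ = _ := by
        rw [Finset.sum_mul]
        refine Finset.sum_congr rfl fun k _ => ?_
        ring
  unfold hex
  linarith

end

theorem hex_low [CharZero K] (hvt : Transcendental ℚ v) (hbb : ∀ r, bar (bar r) = r)
    (hbar : bar v = v⁻¹) (hD : IsDuality c' c D) {jl : J'}
    (hj : D (c'.B jl) = c.B.coord c.top) :
    hex C c.L (c'.dp jl) = 0 ∧ hex C c'.L (c'.dp jl) = 0 := by
  have hv0 := ne_zero_of_tr hvt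
  have hv := zpow_ne_one_of_tr hvt
  obtain ⟨j, -, hj'⟩ := bi_exists_low hv0 hv hD hj
  have h1 := (c.norm_B hvt hbb hbar j).1
  rw [hj'] at h1
  have h2 := (c'.norm_B hvt hbb hbar jl).1
  have h3 := hex_low_add hv0 hv hD hj
  omega

theorem cex_low [CharZero K] (hvt : Transcendental ℚ v) (hbb : ∀ r, bar (bar r) = r)
    (hbar : bar v = v⁻¹) (hD : IsDuality c' c D) {jl : J'}
    (hj : D (c'.B jl) = c.B.coord c.top) :
    cex C c'.L (c'.dp jl) = rho2 C (c'.dp jl) := by
  have h1 := (hex_low hvt hbb hbar hD hj).2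
  have h2 := cex_add_hex (C := C) c'.L (c'.dp jl)
  omega

theorem form_low [CharZero K] (hvt : Transcendental ℚ v) (hbb : ∀ r, bar (bar r) = r)
    (hbar : bar v = v⁻¹) (hD : IsDuality c' c D) {jl : J'}
    (hj : D (c'.B jl) = c.B.coord c.top) : c'.form (c'.B jl) (c'.B jl) = 1 :=
  (c'.norm_B hvt hbb hbar jl).2 (hex_low hvt hbb hbar hD hj).2

/-- evaluation functionals vanishing on all `E i V` -/
theorem exists_sing_of_kill_E (hD : IsDuality c' c D) (φ : Module.Dual K V)
    (h : ∀ i y, φ (c.X.E i y) = 0) : ∃ x ∈ c'.X.sing, φ = D x := by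
  obtain ⟨x, rfl⟩ := D.surjective φ
  refine ⟨x, ?_, rfl⟩
  intro i
  apply D.injective
  rw [map_zero]
  ext y
  rw [hD.E, h, neg_zero, LinearMap.zero_apply]

/-- `bar ∘ φ ∘ psi` as a linear functional -/
noncomputable def barDual (hbb : ∀ r, bar (bar r) = r) {W : Type} [AddCommGroup W] [Module K W]
    {X : Ops I K W} {psi : W →+ W} (hp : IsBar bar X psi) (φ : Module.Dual K W) :
    Module.Dual K W where
  toFun y := bar (φ (psi y))
  map_add' x y := by simp
  map_smul' r x := by simp [hp.smul, hbb]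

theorem barDual_apply (hbb : ∀ r, bar (bar r) = r) {W : Type} [AddCommGroup W] [Module K W]
    {X : Ops I K W} {psi : W →+ W} (hp : IsBar bar X psi) (φ : Module.Dual K W) (y : W) :
    barDual hbb hp φ y = bar (φ (psi y)) := rfl

theorem D_hw_E (hD : IsDuality c' c D) (i : I) (y : V) : D c'.hw (c.X.E i y) = 0 := by
  have h1 := hD.E i c'.hw (c.X.Kp i y)
  rw [c'.E_hw, map_zero, LinearMap.zero_apply, c.rel.Km_Kp_apply] at h1
  exact neg_eq_zero.mp h1.symm

theorem bar_D_hw [CharZero K] (hvt : Transcendental ℚ v) (hbb : ∀ r, bar (bar r) = r)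
    (hD : IsDuality c' c D) :
    ∃ κ0 : K, ∀ y, bar (D c'.hw (c.psi y)) = κ0 * D c'.hw y := by
  obtain ⟨x, hx, hφ⟩ := exists_sing_of_kill_E hD (barDual hbb c.isBar (D c'.hw)) (by
    intro i y
    rw [barDual_apply, c.isBar.E, D_hw_E hD, map_zero])
  obtain ⟨r, hr⟩ := c'.sing_eq hvt hx
  refine ⟨r, fun y => ?_⟩
  rw [← barDual_apply hbb c.isBar, hφ, hr, map_smul, LinearMap.smul_apply, smul_eq_mul]

theorem bar_D_aux [CharZero K] (hvt : Transcendental ℚ v) (hbb : ∀ r, bar (bar r) = r)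
    (hbar : bar v = v⁻¹) (hD : IsDuality c' c D) :
    ∃ κ0 : K, ∀ (ν : I → ℤ) (x : V') (_ : x ∈ c'.wsp ν) (y : V),
      bar (D x (c.psi y)) = κ0 * v ^ cex C c'.L ν * D (c'.psi x) y := by
  have hv0 := ne_zero_of_tr hvt
  have hv := zpow_ne_one_of_tr hvt
  obtain ⟨κ0, h0⟩ := bar_D_hw hvt hbb hD
  refine ⟨κ0, ?_⟩
  have hw : ∀ (w : List I) (y : V), bar (D (Fw c'.X w c'.hw) (c.psi y)) =
      κ0 * v ^ cex C c'.L (cw w) * D (c'.psi (Fw c'.X w c'.hw)) y := by
    intro w
    induction w with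
    | nil =>
      intro y
      rw [Fw_nil, cw_nil, cex_zero, zpow_zero, mul_one, c'.bi_psi_hw, h0]
    | cons i w ih =>
      intro y
      have hK : c.X.Kp i (c.X.F i (c.psi y)) = c.psi (c.X.Km i (c.X.F i y)) := by
        have h1 := c.isBar.Kp i (c.X.Km i (c.X.F i y))
        rw [c.rel.Kp_Km_apply, c.isBar.F] at h1
        have h2 := congrArg (c.X.Kp i) h1
        rw [c.rel.Kp_Km_apply] at h2
        exact h2
      rw [Fw_cons, hD.F, map_neg, hK, ih, cw_cons, cex_add_sr, c'.isBar.F, hD.F,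
        zpow_add₀ hv0]
      have hx : c'.psi (Fw c'.X w c'.hw) ∈ c'.wsp (cw w) :=
        IsBar.wsp c'.rel hv0 hbar c'.isBar (c'.Fw_wsp hv0 w)
      have e1 : D (c'.psi (Fw c'.X w c'.hw)) (c.X.Km i (c.X.F i y)) =
          v ^ wex C c'.L (cw w) i * D (c'.psi (Fw c'.X w c'.hw)) (c.X.F i y) := by
        rw [← hD.Kp, hx i, map_smul, LinearMap.smul_apply, smul_eq_mul]
      have e2 : D (c'.psi (Fw c'.X w c'.hw)) (c.X.F i y) =
          v ^ wex C c'.L (cw w) i * D (c'.psi (Fw c'.X w c'.hw)) (c.X.Kp i (c.X.F i y)) := by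
        have h3 := hD.Kp i (c'.psi (Fw c'.X w c'.hw)) (c.X.Kp i (c.X.F i y))
        rw [c.rel.Km_Kp_apply, hx i, map_smul, LinearMap.smul_apply, smul_eq_mul] at h3
        exact h3.symm
      rw [e1, e2, two_mul, zpow_add₀ hv0]
      ring
  intro ν x hx y
  have hx' := c'.mem_span_Fw hv0 hv hx
  clear hx
  induction hx' using Submodule.span_induction with
  | mem x hxm =>
    obtain ⟨w, rfl, rfl⟩ := hxm
    exact hw w y
  | zero => simp
  | add a b _ _ ha hb =>
    rw [map_add, LinearMap.add_apply, map_add, ha, hb, map_add, map_add, LinearMap.add_apply,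
      mul_add]
  | smul r a _ ha =>
    rw [map_smul, LinearMap.smul_apply, smul_eq_mul, map_mul, ha, c'.isBar.smul, map_smul,
      LinearMap.smul_apply, smul_eq_mul]
    ring

theorem bar_D [CharZero K] (hvt : Transcendental ℚ v) (hbb : ∀ r, bar (bar r) = r)
    (hbar : bar v = v⁻¹) (hD : IsDuality c' c D) {jl : J'}
    (hj : D (c'.B jl) = c.B.coord c.top) {ν : I → ℤ} {x : V'} (hx : x ∈ c'.wsp ν) (y : V) :
    bar (D x (c.psi y)) = v ^ (cex C c'.L ν - rho2 C (c'.dp jl)) * D (c'.psi x) y := by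
  have hv0 := ne_zero_of_tr hvt
  obtain ⟨κ0, h0⟩ := bar_D_aux hvt hbb hbar hD
  have h1 := h0 _ _ (c'.B_wsp jl) c.hw
  rw [c.bi_psi_hw, c'.psi_B, dual_hw hj, map_one, mul_one, cex_low hvt hbb hbar hD hj] at h1
  have h2 : κ0 = v ^ (- rho2 C (c'.dp jl)) := by
    rw [zpow_neg]
    exact eq_inv_of_mul_eq_one_left h1.symm
  rw [h0 ν x hx y, h2, ← zpow_add₀ hv0]
  congr 2
  ring

/-- vectors killed by all the `F i` are multiples of the lowest weight vector -/
theorem low_eq (hv0 : v ≠ 0) (hD : IsDuality c' c D) {jl : J'}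
    (hF : ∀ i, c'.X.F i (c'.B jl) = 0)
    (hj : D (c'.B jl) = c.B.coord c.top) {z : V'} (hz : ∀ i, c'.X.F i z = 0) :
    z = D z c.hw • c'.B jl := by
  have key : ∀ z : V', (∀ i, c'.X.F i z = 0) → ∀ i y, D z (c.X.F i y) = 0 := by
    intro z hz i y
    have h1 := hD.F i z
    rw [hz i, map_zero] at h1
    have hK : c.X.Kp i (c.X.F i (c.X.Km i y)) =
        v ^ (-(C.d i * C.a i i)) • c.X.F i y := by
      have := LinearMap.congr_fun (c.rel.K_F i i) (c.X.Km i y)
      simp only [Module.End.mul_apply, LinearMap.smul_apply, c.rel.Kp_Km_apply] at this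
      exact this
    have h2 := h1 (c.X.Km i y)
    rw [hK, map_smul, LinearMap.zero_apply, smul_eq_mul] at h2
    have h3 := neg_eq_zero.mp h2.symm
    exact (mul_eq_zero.mp h3).resolve_left (zpow_ne_zero _ hv0)
  apply D.injective
  rw [map_smul]
  set N : Submodule K V := LinearMap.ker (D z - D z c.hw • D (c'.B jl)) with hN
  have hmem : ∀ y, y ∈ N ↔ D z y = D z c.hw * D (c'.B jl) y := by
    intro y
    rw [hN, LinearMap.mem_ker, LinearMap.sub_apply, sub_eq_zero, LinearMap.smul_apply,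
      smul_eq_mul]
  have htop : N = ⊤ := by
    apply c.eq_top
    · rw [hmem, dual_hw hj, mul_one]
    · intro i x _
      rw [hmem, key z hz, key _ hF, mul_zero]
  ext y
  rw [LinearMap.smul_apply, smul_eq_mul]
  have : y ∈ N := by rw [htop]; trivial
  exact (hmem y).mp this

/-- every functional is given by the form -/
theorem exists_form_eq {W : Type} [AddCommGroup W] [Module K W] {Jw : Type} [Fintype Jw]
    (b : Module.Basis Jw K W) {form : LinearMap.BilinForm K W}
    (hsymm : ∀ x y, form x y = form y x)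
    (hn : ∀ x, (∀ y, form x y = 0) → x = 0) (φ : Module.Dual K W) :
    ∃ z, ∀ x, φ x = form x z := by
  have : FiniteDimensional K W := b.finiteDimensional_of_finite
  have hinj : Function.Injective form := by
    rw [injective_iff_map_eq_zero]
    intro x hx
    apply hn
    intro y
    rw [hx, LinearMap.zero_apply]
  have hsurj : Function.Surjective form := by
    rw [← LinearMap.injective_iff_surjective_of_finrank_eq_finrank]
    · exact hinj
    · exact (Subspace.dual_finrank_eq (K := K) (V := W)).symm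
  obtain ⟨z, rfl⟩ := hsurj φ
  exact ⟨z, fun x => hsymm z x⟩

theorem D_eq_form_low [CharZero K] (hvt : Transcendental ℚ v) (hbb : ∀ r, bar (bar r) = r)
    (hbar : bar v = v⁻¹) (hD : IsDuality c' c D) {jl : J'}
    (hF : ∀ i, c'.X.F i (c'.B jl) = 0)
    (hj : D (c'.B jl) = c.B.coord c.top) (x : V') : D x c.hw = c'.form x (c'.B jl) := by
  have hv0 := ne_zero_of_tr hvt
  obtain ⟨z, hz⟩ := exists_form_eq c'.B c'.isForm.symm (fun x hx => c'.nondeg hvt x hx)
    ((LinearMap.applyₗ c.hw) ∘ₗ D.toLinearMap)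
  have hz' : ∀ x, D x c.hw = c'.form x z := fun x => by
    simpa using hz x
  have hFz : ∀ i, c'.X.F i z = 0 := by
    intro i
    have h1 : c'.X.Kp i (c'.X.F i z) = 0 := by
      apply c'.nondeg hvt
      intro y
      rw [c'.isForm.symm]
      have h2 := c'.isForm.E i y z
      rw [← hz', hD.E, c.rel.Km_wsp hv0 c.hw_wsp, map_smul, c.E_hw, smul_zero, map_zero, neg_zero,
        map_smul, smul_eq_mul] at h2
      exact (mul_eq_zero.mp h2.symm).resolve_left (zpow_ne_zero _ hv0)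
    have h3 := congrArg (c'.X.Km i) h1
    rw [c'.rel.Km_Kp_apply, map_zero] at h3
    exact h3
  have h4 := low_eq hv0 hD hF hj hFz
  have h5 := hz' (c'.B jl)
  rw [dual_hw hj, h4, map_smul, smul_eq_mul, form_low hvt hbb hbar hD hj, mul_one] at h5
  rw [hz', h4, ← h5, one_smul]

theorem bi_Ew_wsp (hv0 : v ≠ 0) {κ : I → ℤ} {b : V}
    (hb : b ∈ c.wsp κ) (w : List I) : Ew c.X w b ∈ c.wsp (κ - cw w) := by
  induction w with
  | nil => simpa using hb
  | cons i w ih =>
    rw [Ew_cons, cw_cons]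
    have := c.rel.E_wsp hv0 ih i
    rw [sub_sub] at this
    exact this

/-- the span of the `E`-words applied to a nonzero vector killed by all `F i` -/
theorem Ew_span (hv0 : v ≠ 0) (hv : ∀ n : ℤ, n ≠ 0 → v ^ n ≠ 1) {κ : I → ℤ} {b : V}
    (hb : b ∈ c.wsp κ) (hb0 : b ≠ 0) (hF : ∀ i, c.X.F i b = 0) :
    Submodule.span K (Set.range fun w => Ew c.X w b) = ⊤ := by
  have hwsp : ∀ w : List I, Ew c.X w b ∈ c.wsp (κ - cw w) := bi_Ew_wsp hv0 hb
  set N := Submodule.span K (Set.range fun w => Ew c.X w b) with hN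
  have hE : ∀ i, ∀ x ∈ N, c.X.E i x ∈ N := by
    intro i x hx
    induction hx using Submodule.span_induction with
    | mem x hx =>
      obtain ⟨w, rfl⟩ := hx
      apply Submodule.subset_span
      exact ⟨i :: w, by simp⟩
    | zero => simp
    | add a b _ _ ha hb => rw [map_add]; exact N.add_mem ha hb
    | smul r a _ ha => rw [map_smul]; exact N.smul_mem _ ha
  have hFN : ∀ i, ∀ w : List I, c.X.F i (Ew c.X w b) ∈ N := by
    intro i w
    induction w with
    | nil => rw [Ew_nil, hF]; exact N.zero_mem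
    | cons j w ih =>
      rw [Ew_cons]
      have h1 := c.rel.EF_wsp hv0 hv (hwsp w) j i
      have h2 : c.X.F i (c.X.E j (Ew c.X w b)) = c.X.E j (c.X.F i (Ew c.X w b)) -
        (if j = i then ((v ^ wex C c.L (κ - cw w) j - v ^ (-wex C c.L (κ - cw w) j)) /
          (v ^ C.d j - v ^ (-C.d j))) • Ew c.X w b else 0) := by
        rw [h1, add_sub_cancel_right]
      rw [h2]
      apply N.sub_mem (hE j _ ih)
      split_ifs
      · exact N.smul_mem _ (Submodule.subset_span ⟨w, rfl⟩)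
      · exact N.zero_mem
  have hlift : ∀ (f : Module.End K V), (∀ w : List I, f (Ew c.X w b) ∈ N) → ∀ x ∈ N, f x ∈ N := by
    intro f hf x hx
    induction hx using Submodule.span_induction with
    | mem x hx =>
      obtain ⟨w, rfl⟩ := hx
      exact hf w
    | zero => simp
    | add a b _ _ ha hb => rw [map_add]; exact N.add_mem ha hb
    | smul r a _ ha => rw [map_smul]; exact N.smul_mem _ ha
  rcases c.irr N (fun i x hx => ⟨hE i x hx, hlift _ (hFN i) x hx, hlift _ (fun w => by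
      rw [hwsp w i]; exact N.smul_mem _ (Submodule.subset_span ⟨w, rfl⟩)) x hx,
      hlift _ (fun w => by
      rw [c.rel.Km_wsp hv0 (hwsp w) i]
      exact N.smul_mem _ (Submodule.subset_span ⟨w, rfl⟩)) x hx⟩) with h | h
  · exfalso
    apply hb0
    have : b ∈ N := Submodule.subset_span ⟨[], by simp⟩
    rw [h] at this
    simpa using this
  · exact h

/-- the functional `z ↦ D z b` for `b` killed by all `F i` -/
theorem D_low_eq (hD : IsDuality c' c D) {b : V} (hF : ∀ i, c.X.F i b = 0)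
    (z : V') : D z b = D c'.hw b * c'.form z c'.hw := by
  set N : Submodule K V' := LinearMap.ker ((LinearMap.applyₗ b) ∘ₗ D.toLinearMap -
    D c'.hw b • c'.form.flip c'.hw) with hN
  have hmem : ∀ z, z ∈ N ↔ D z b = D c'.hw b * c'.form z c'.hw := by
    intro z
    rw [hN, LinearMap.mem_ker, LinearMap.sub_apply, sub_eq_zero]
    simp
  have htop : N = ⊤ := by
    apply c'.eq_top
    · rw [hmem, c'.form_hw, mul_one]
    · intro i x _
      rw [hmem, hD.F, hF, map_zero, map_zero, neg_zero, c'.isForm.F, c'.E_hw, map_zero, smul_zero,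
        map_zero, mul_zero]
  have : z ∈ N := by rw [htop]; trivial
  exact (hmem z).mp this

end dual

section tens

variable {I : Type} [Fintype I] [DecidableEq I] {K : Type} [Field K]
variable {C : Cartan I} {v : K} {bar : K ≃+* K}

/-- a joint eigenvector of the `K i` has a depth -/
theorem exists_depth {W : Type} [AddCommGroup W] [Module K W] {Jw : Type}
    (b : Module.Basis Jw K W) {X : Ops I K W} {L : I → ℤ} (hv0 : v ≠ 0)
    (hv : ∀ n : ℤ, n ≠ 0 → v ^ n ≠ 1) {dep : Jw → I → ℤ}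
    (hb : ∀ j, b j ∈ wsp C v X L (dep j)) {x : W} (hx : x ≠ 0) {e : I → ℤ}
    (he : ∀ i, X.Kp i x = v ^ e i • x) : ∃ κ, ∀ i, wex C L κ i = e i := by
  classical
  have : ∃ j, b.repr x j ≠ 0 := by
    by_contra hall
    push Not at hall
    apply hx
    apply b.repr.injective
    ext j
    simpa using hall j
  obtain ⟨j, hj⟩ := this
  refine ⟨dep j, fun i => ?_⟩
  have h1 : b.coord j ∘ₗ X.Kp i = v ^ wex C L (dep j) i • b.coord j := by
    apply b.ext
    intro k
    rw [LinearMap.comp_apply, hb k i, map_smul, LinearMap.smul_apply, Module.Basis.coord_apply,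
      Module.Basis.repr_self, Finsupp.single_apply]
    split_ifs with hkj
    · rw [hkj]
    · simp
  have h2 := LinearMap.congr_fun h1 x
  rw [LinearMap.comp_apply, he i, map_smul, LinearMap.smul_apply, Module.Basis.coord_apply,
    smul_eq_mul, smul_eq_mul] at h2
  exact zpow_inj_of hv0 hv (mul_right_cancel₀ hj h2.symm)

variable {l2 l3 : I → ℕ}
variable {V2 : Type} [AddCommGroup V2] [Module K V2] {J2 : Type} [Fintype J2] [DecidableEq J2]
variable {V3 : Type} [AddCommGroup V3] [Module K V3] {J3 : Type} [Fintype J3] [DecidableEq J3]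

theorem psi_tmul_low {c2 : Canon C v bar l2 V2 J2} {c3 : Canon C v bar l3 V3 J3}
    {psi : V2 ⊗[K] V3 →+ V2 ⊗[K] V3} (hp : IsBar bar (c2.X.tens c3.X) psi)
    (htop : ∀ y, psi (c2.B c2.top ⊗ₜ[K] y) = c2.B c2.top ⊗ₜ[K] c3.psi y)
    {b : V3} (hF : ∀ i, c3.X.F i b = 0) (hb : c3.psi b = b) (y : V2) :
    psi (y ⊗ₜ[K] b) = c2.psi y ⊗ₜ[K] b := by
  let N : Submodule K V2 :=
    { carrier := {y | psi (y ⊗ₜ[K] b) = c2.psi y ⊗ₜ[K] b}
      add_mem' := by
        intro x y hx hy
        simp only [Set.mem_ofPred_eq] at hx hy ⊢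
        rw [add_tmul, map_add, hx, hy, map_add, add_tmul]
      zero_mem' := by simp
      smul_mem' := by
        intro r x hx
        simp only [Set.mem_ofPred_eq] at hx ⊢
        rw [← smul_tmul', hp.smul, hx, c2.isBar.smul, smul_tmul'] }
  have hN : N = ⊤ := by
    apply c2.eq_top
    · change psi (c2.hw ⊗ₜ[K] b) = c2.psi c2.hw ⊗ₜ[K] b
      rw [c2.bi_psi_hw]
      unfold Canon.hw
      rw [htop, hb]
    · intro i x hx
      change psi (x ⊗ₜ[K] b) = c2.psi x ⊗ₜ[K] b at hx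
      change psi (c2.X.F i x ⊗ₜ[K] b) = c2.psi (c2.X.F i x) ⊗ₜ[K] b
      have h1 : ∀ x, (c2.X.tens c3.X).F i (x ⊗ₜ[K] b) = c2.X.F i x ⊗ₜ[K] b := by
        intro x
        rw [tens_F, hF, tmul_zero, add_zero]
      rw [← h1, hp.F, hx, h1, c2.isBar.F]
  have : y ∈ N := by rw [hN]; trivial
  exact this

variable {l1 l1' l2' l3' : I → ℕ}
variable {V1 : Type} [AddCommGroup V1] [Module K V1] {J1 : Type} [Fintype J1] [DecidableEq J1]
variable {V1' : Type} [AddCommGroup V1'] [Module K V1'] {J1' : Type} [Fintype J1'] [DecidableEq J1']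
variable {V2' : Type} [AddCommGroup V2'] [Module K V2'] {J2' : Type} [Fintype J2'] [DecidableEq J2']
variable {V3' : Type} [AddCommGroup V3'] [Module K V3'] {J3' : Type} [Fintype J3'] [DecidableEq J3']
variable {c1 : Canon C v bar l1 V1 J1} {c2 : Canon C v bar l2 V2 J2}
variable {c3 : Canon C v bar l3 V3 J3}
variable {c1' : Canon C v bar l1' V1' J1'} {c2' : Canon C v bar l2' V2' J2'}
variable {c3' : Canon C v bar l3' V3' J3'}
variable {D1 : V1' ≃ₗ[K] Module.Dual K V1} {D2 : V2' ≃ₗ[K] Module.Dual K V2}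
variable {D3 : V3' ≃ₗ[K] Module.Dual K V3}

theorem ext33 {A B : V3' ⊗[K] (V2' ⊗[K] V1') →ₗ[K] Module.Dual K (V1 ⊗[K] (V2 ⊗[K] V3))}
    (h : ∀ z y x a b c, A (z ⊗ₜ (y ⊗ₜ x)) (a ⊗ₜ (b ⊗ₜ c)) =
      B (z ⊗ₜ (y ⊗ₜ x)) (a ⊗ₜ (b ⊗ₜ c))) : A = B := by
  ext z y x a b c
  exact h z y x a b c

theorem pairing_Kp (hD1 : IsDuality c1' c1 D1) (hD2 : IsDuality c2' c2 D2)
    (hD3 : IsDuality c3' c3 D3) (i : I) (g : V3' ⊗[K] (V2' ⊗[K] V1'))
    (f : V1 ⊗[K] (V2 ⊗[K] V3)) :
    pairing D1 D2 D3 ((X3 c3' c2' c1').Kp i g) f =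
      pairing D1 D2 D3 g ((X3 c1 c2 c3).Km i f) := by
  have : pairing D1 D2 D3 ∘ₗ (X3 c3' c2' c1').Kp i =
      ((X3 c1 c2 c3).Km i).dualMap ∘ₗ pairing D1 D2 D3 := by
    apply ext33
    intro z y x a b c
    simp only [LinearMap.comp_apply, LinearMap.dualMap_apply, X3, tens_Kp, tens_Km, pairing_tmul,
      hD1.Kp, hD2.Kp, hD3.Kp]
  exact LinearMap.congr_fun (LinearMap.congr_fun this g) f

theorem pairing_E (hD1 : IsDuality c1' c1 D1) (hD2 : IsDuality c2' c2 D2)
    (hD3 : IsDuality c3' c3 D3) (i : I) (g : V3' ⊗[K] (V2' ⊗[K] V1'))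
    (f : V1 ⊗[K] (V2 ⊗[K] V3)) :
    pairing D1 D2 D3 ((X3 c3' c2' c1').E i g) f =
      - pairing D1 D2 D3 g ((X3 c1 c2 c3).E i ((X3 c1 c2 c3).Km i f)) := by
  have : pairing D1 D2 D3 ∘ₗ (X3 c3' c2' c1').E i =
      - (((X3 c1 c2 c3).E i * (X3 c1 c2 c3).Km i).dualMap ∘ₗ pairing D1 D2 D3) := by
    apply ext33
    intro z y x a b c
    simp only [LinearMap.comp_apply, LinearMap.dualMap_apply, X3, tens_Kp, tens_Km, tens_E,
      pairing_tmul, hD1.Kp, hD2.Kp, hD1.E, hD2.E, hD3.E, LinearMap.neg_apply,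
      Module.End.mul_apply, tmul_add, map_add, LinearMap.add_apply,
      c2.rel.Kp_Km_apply, c3.rel.Kp_Km_apply]
    ring
  exact LinearMap.congr_fun (LinearMap.congr_fun this g) f

theorem pairing_F (hD1 : IsDuality c1' c1 D1) (hD2 : IsDuality c2' c2 D2)
    (hD3 : IsDuality c3' c3 D3) (i : I) (g : V3' ⊗[K] (V2' ⊗[K] V1'))
    (f : V1 ⊗[K] (V2 ⊗[K] V3)) :
    pairing D1 D2 D3 ((X3 c3' c2' c1').F i g) f =
      - pairing D1 D2 D3 g ((X3 c1 c2 c3).Kp i ((X3 c1 c2 c3).F i f)) := by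
  have hKm2 : ∀ (x : V2') (a : V2), D2 (c2'.X.Km i x) a = D2 x (c2.X.Kp i a) := by
    intro x a
    have := hD2.Kp i (c2'.X.Km i x) (c2.X.Kp i a)
    rw [c2'.rel.Kp_Km_apply, c2.rel.Km_Kp_apply] at this
    exact this.symm
  have hKm3 : ∀ (x : V3') (a : V3), D3 (c3'.X.Km i x) a = D3 x (c3.X.Kp i a) := by
    intro x a
    have := hD3.Kp i (c3'.X.Km i x) (c3.X.Kp i a)
    rw [c3'.rel.Kp_Km_apply, c3.rel.Km_Kp_apply] at this
    exact this.symm
  have : pairing D1 D2 D3 ∘ₗ (X3 c3' c2' c1').F i =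
      - (((X3 c1 c2 c3).Kp i * (X3 c1 c2 c3).F i).dualMap ∘ₗ pairing D1 D2 D3) := by
    apply ext33
    intro z y x a b c
    simp only [LinearMap.comp_apply, LinearMap.dualMap_apply, X3, tens_Kp, tens_F,
      pairing_tmul, hKm2, hKm3, hD1.F, hD2.F, hD3.F, LinearMap.neg_apply,
      Module.End.mul_apply, tmul_add, map_add, LinearMap.add_apply, c1.rel.Kp_Km_apply,
      c2.rel.Kp_Km_apply]
    ring
  exact LinearMap.congr_fun (LinearMap.congr_fun this g) f

theorem gen_top (hv0 : v ≠ 0) (hv : ∀ n : ℤ, n ≠ 0 → v ^ n ≠ 1) {κ : I → ℤ} {b : V3}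
    (hb : b ∈ c3.wsp κ) (hb0 : b ≠ 0) (hF : ∀ i, c3.X.F i b = 0)
    (N : Submodule K (V1 ⊗[K] (V2 ⊗[K] V3)))
    (h1 : ∀ x : V2, c1.hw ⊗ₜ[K] (x ⊗ₜ[K] b) ∈ N)
    (hE : ∀ i w, (X3 c1 c2 c3).E i w ∈ N) (hFN : ∀ i w, (X3 c1 c2 c3).F i w ∈ N) : N = ⊤ := by
  apply c1.tens_eq_top (c2.X.tens c3.X) hv0 N _ (fun i x _ => hFN i x)
  have hw : ∀ (w : List I) (x : V2), c1.hw ⊗ₜ[K] (x ⊗ₜ[K] Ew c3.X w b) ∈ N := by
    intro w
    induction w with
    | nil => intro x; rw [Ew_nil]; exact h1 x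
    | cons i w ih =>
      intro x
      have e1 : c1.hw ⊗ₜ[K] (x ⊗ₜ[K] Ew c3.X (i :: w) b) =
          (X3 c1 c2 c3).E i (c1.hw ⊗ₜ[K] (x ⊗ₜ[K] Ew c3.X w b)) -
          v ^ wex C c3.L (κ - cw w) i • c1.hw ⊗ₜ[K] (c2.X.E i x ⊗ₜ[K] Ew c3.X w b) := by
        rw [X3, tens_E, c1.E_hw, zero_tmul, zero_add, tens_E, (bi_Ew_wsp hv0 hb w) i, tmul_add,
          tmul_smul, tmul_smul, add_sub_cancel_left, Ew_cons]
      rw [e1]
      exact N.sub_mem (hE _ _) (N.smul_mem _ (ih _))
  have hy : ∀ (y : V3) (x : V2), c1.hw ⊗ₜ[K] (x ⊗ₜ[K] y) ∈ N := by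
    intro y
    have hy : y ∈ Submodule.span K (Set.range fun w => Ew c3.X w b) := by
      rw [Ew_span hv0 hv hb hb0 hF]; trivial
    induction hy using Submodule.span_induction with
    | mem y hy =>
      obtain ⟨w, rfl⟩ := hy
      exact hw w
    | zero => intro x; simp
    | add a b _ _ ha hb =>
      intro x
      rw [tmul_add, tmul_add]
      exact N.add_mem (ha x) (hb x)
    | smul r a _ ha =>
      intro x
      rw [tmul_smul, tmul_smul]
      exact N.smul_mem _ (ha x)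
  intro m
  induction m using TensorProduct.induction_on with
  | zero => simp
  | tmul x y => exact hy y x
  | add a b ha hb => rw [tmul_add]; exact N.add_mem ha hb

/-- contraction with `hw` on the left and `low` on the right -/
noncomputable def bi_contr (c3' : Canon C v bar l3' V3' J3') (c1' : Canon C v bar l1' V1' J1')
    (V2' : Type) [AddCommGroup V2'] [Module K V2'] (low : V1') :
    V3' ⊗[K] (V2' ⊗[K] V1') →ₗ[K] V2' :=
  (TensorProduct.lid K V2').toLinearMap ∘ₗ
    TensorProduct.map (LinearMap.flip c3'.form c3'.hw)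
      ((TensorProduct.rid K V2').toLinearMap ∘ₗ
        TensorProduct.map LinearMap.id (LinearMap.flip c1'.form low))

theorem bi_contr_tmul (c3' : Canon C v bar l3' V3' J3') (c1' : Canon C v bar l1' V1' J1')
    (low : V1') (z : V3') (y : V2') (x : V1') :
    bi_contr c3' c1' V2' low (z ⊗ₜ[K] (y ⊗ₜ[K] x)) =
      (c3'.form z c3'.hw * c1'.form x low) • y := by
  simp only [bi_contr, LinearMap.comp_apply, TensorProduct.map_tmul, LinearEquiv.coe_coe,
    TensorProduct.rid_tmul, TensorProduct.lid_tmul, LinearMap.id_apply, LinearMap.flip_apply,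
    smul_smul]

theorem bi_form_contr (low : V1') (g : V3' ⊗[K] (V2' ⊗[K] V1')) (y : V2') :
    form3 c3' c2' c1' g (c3'.hw ⊗ₜ[K] (y ⊗ₜ[K] low)) =
      c2'.form (bi_contr c3' c1' V2' low g) y := by
  induction g using TensorProduct.induction_on with
  | zero => simp
  | add a b ha hb => rw [map_add, LinearMap.add_apply, map_add, map_add, LinearMap.add_apply,
      ha, hb]
  | tmul z m =>
    induction m using TensorProduct.induction_on with
    | zero => simp
    | add a b ha hb => rw [tmul_add, map_add, LinearMap.add_apply, map_add, map_add,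
        LinearMap.add_apply, ha, hb]
    | tmul y' x =>
      rw [form3, form_tens_apply, form_tens_apply, bi_contr_tmul, map_smul, LinearMap.smul_apply,
        smul_eq_mul]
      ring

theorem pairing_contr {low : V1'} (h1 : ∀ x, D1 x c1.hw = c1'.form x low) {b : V3} {p : K}
    (h3 : ∀ z, D3 z b = p * c3'.form z c3'.hw) (g : V3' ⊗[K] (V2' ⊗[K] V1')) (x : V2) :
    pairing D1 D2 D3 g (c1.hw ⊗ₜ[K] (x ⊗ₜ[K] b)) =
      p * D2 (bi_contr c3' c1' V2' low g) x := by
  induction g using TensorProduct.induction_on with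
  | zero => simp
  | add a b ha hb => rw [map_add, LinearMap.add_apply, map_add, map_add, LinearMap.add_apply,
      ha, hb, mul_add]
  | tmul z m =>
    induction m using TensorProduct.induction_on with
    | zero => simp
    | add a b ha hb => rw [tmul_add, map_add, LinearMap.add_apply, map_add, map_add,
        LinearMap.add_apply, ha, hb, mul_add]
    | tmul y' x' =>
      rw [pairing_tmul, bi_contr_tmul, map_smul, LinearMap.smul_apply, smul_eq_mul, h1, h3]
      ring

theorem contr_Kp (hv0 : v ≠ 0) {κ : I → ℤ} {low : V1'} (hlow : low ∈ c1'.wsp κ)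
    (g : V3' ⊗[K] (V2' ⊗[K] V1')) (i : I) :
    bi_contr c3' c1' V2' low ((X3 c3' c2' c1').Kp i g) =
      v ^ (wex C c3'.L 0 i + wex C c1'.L κ i) • c2'.X.Kp i (bi_contr c3' c1' V2' low g) := by
  induction g using TensorProduct.induction_on with
  | zero => simp
  | add a b ha hb => rw [map_add, map_add, map_add, map_add, ha, hb, smul_add]
  | tmul z m =>
    induction m using TensorProduct.induction_on with
    | zero => simp
    | add a b ha hb => rw [tmul_add, map_add, map_add, map_add, map_add, ha, hb, smul_add]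
    | tmul y' x' =>
      rw [X3, tens_Kp, tens_Kp, bi_contr_tmul, bi_contr_tmul, c3'.isForm.Kp, c1'.isForm.Kp,
        c3'.hw_wsp i, hlow i, map_smul, map_smul, map_smul, smul_eq_mul, smul_eq_mul,
        zpow_add₀ hv0, smul_smul]
      congr 1
      ring

end tens

section main

variable {I : Type} [Fintype I] [DecidableEq I] {K : Type} [Field K]
variable {C : Cartan I} {v : K} {bar : K ≃+* K}
variable {l1 l2 l3 l1' l2' l3' : I → ℕ}
variable {V1 : Type} [AddCommGroup V1] [Module K V1] {J1 : Type} [Fintype J1] [DecidableEq J1]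
variable {V2 : Type} [AddCommGroup V2] [Module K V2] {J2 : Type} [Fintype J2] [DecidableEq J2]
variable {V3 : Type} [AddCommGroup V3] [Module K V3] {J3 : Type} [Fintype J3] [DecidableEq J3]
variable {V1' : Type} [AddCommGroup V1'] [Module K V1'] {J1' : Type} [Fintype J1'] [DecidableEq J1']
variable {V2' : Type} [AddCommGroup V2'] [Module K V2'] {J2' : Type} [Fintype J2'] [DecidableEq J2']
variable {V3' : Type} [AddCommGroup V3'] [Module K V3'] {J3' : Type} [Fintype J3'] [DecidableEq J3']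

theorem bar_dualCanon (hbb : ∀ r, bar (bar r) = r)
    {c1 : Canon C v bar l1 V1 J1} {c2 : Canon C v bar l2 V2 J2}
    {c3 : Canon C v bar l3 V3 J3} (t : TCanon c1 c2 c3)
    {g : V1 ⊗[K] (V2 ⊗[K] V3)} (hgd : IsDualCanon t g) (z : V1 ⊗[K] (V2 ⊗[K] V3)) :
    bar (form3 c1 c2 c3 g (t.psi z)) = form3 c1 c2 c3 g z := by
  obtain ⟨j0, hj0⟩ := hgd
  have : barDual hbb t.isBar (form3 c1 c2 c3 g) = form3 c1 c2 c3 g := by
    apply t.B.ext
    intro j
    rw [barDual_apply, t.psi_B, hj0]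
    split_ifs <;> simp
  rw [← barDual_apply hbb t.isBar, this]

theorem bar_pairing [CharZero K] (hvt : Transcendental ℚ v) (hbb : ∀ r, bar (bar r) = r)
    (hbar : bar v = v⁻¹) {c1 : Canon C v bar l1 V1 J1} {c2 : Canon C v bar l2 V2 J2}
    {c3 : Canon C v bar l3 V3 J3} (t : TCanon c1 c2 c3)
    {c1' : Canon C v bar l1' V1' J1'} {c2' : Canon C v bar l2' V2' J2'}
    {c3' : Canon C v bar l3' V3' J3'} (t' : TCanon c3' c2' c1')
    {D1 : V1' ≃ₗ[K] Module.Dual K V1} {D2 : V2' ≃ₗ[K] Module.Dual K V2}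
    {D3 : V3' ≃ₗ[K] Module.Dual K V3}
    (hD1 : IsDuality c1' c1 D1) (hD2 : IsDuality c2' c2 D2) (hD3 : IsDuality c3' c3 D3)
    {f : V1 ⊗[K] (V2 ⊗[K] V3)} (hf : f ∈ (X3 c1 c2 c3).inv) (hfd : IsDualCanon t f)
    (hpsi : ∀ η, f ∈ wsp C v (X3 c1 c2 c3) (L3 c1 c2 c3) η → t.psi f = v ^ rho2 C η • f)
    {g : V3' ⊗[K] (V2' ⊗[K] V1')} (hg : g ∈ (X3 c3' c2' c1').inv) (hgd : IsDualCanon t' g) :
    bar (pairing D1 D2 D3 g f) = pairing D1 D2 D3 g f := by
  have hv0 := ne_zero_of_tr hvt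
  have hv := zpow_ne_one_of_tr hvt
  obtain ⟨j1, hF1, hj1⟩ := hD1.low
  obtain ⟨j2, hF2, hj2⟩ := hD2.low
  obtain ⟨j3, hF3, hj3⟩ := hD3.low
  obtain ⟨k3, hk3, hdk3⟩ := bi_exists_low hv0 hv hD3 hj3
  have hbw : c3.B k3 ∈ c3.wsp (c3'.dp j3) := by rw [← hdk3]; exact c3.B_wsp k3
  have hFb : ∀ i, c3.X.F i (c3.B k3) = 0 := F_low hv0 hv hD3 hj3 hbw
  have hb0 : c3.B k3 ≠ 0 := c3.B.ne_zero k3
  have hDlow := D_eq_form_low hvt hbb hbar hD1 hF1 hj1
  have hD3b := D_low_eq (c := c3) hD3 hFb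
  -- invariance of `g`
  have hgK : ∀ i w, pairing D1 D2 D3 g ((X3 c1 c2 c3).Km i w) = pairing D1 D2 D3 g w := by
    intro i w
    rw [← pairing_Kp hD1 hD2 hD3, (hg i).2.2]
  have hrel : IsRel C v (X3 c1 c2 c3) := c1.rel.tens hv0 (c2.rel.tens hv0 c3.rel)
  have hgE : ∀ i w, pairing D1 D2 D3 g ((X3 c1 c2 c3).E i w) = 0 := by
    intro i w
    have h1 := pairing_E hD1 hD2 hD3 i g ((X3 c1 c2 c3).Kp i w)
    rw [(hg i).1, map_zero, LinearMap.zero_apply, hrel.Km_Kp_apply] at h1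
    exact neg_eq_zero.mp h1.symm
  have hgF : ∀ i w, pairing D1 D2 D3 g ((X3 c1 c2 c3).F i w) = 0 := by
    intro i w
    have h1 := pairing_F hD1 hD2 hD3 i g w
    rw [(hg i).2.1, map_zero, LinearMap.zero_apply, ← hgK i, hrel.Km_Kp_apply] at h1
    exact neg_eq_zero.mp h1.symm
  set y0 := bi_contr c3' c1' V2' (c1'.B j1) g with hy0
  have hpair : ∀ x, pairing D1 D2 D3 g (c1.hw ⊗ₜ[K] (x ⊗ₜ[K] c3.B k3)) =
      D3 c3'.hw (c3.B k3) * D2 y0 x := fun x => pairing_contr hDlow hD3b g x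
  by_cases hy00 : y0 = 0
  · have htop := gen_top hv0 hv hbw hb0 hFb (LinearMap.ker (pairing D1 D2 D3 g))
      (c1 := c1) (c2 := c2) (fun x => by rw [LinearMap.mem_ker, hpair, hy00]; simp)
      (fun i w => by rw [LinearMap.mem_ker, hgE]) (fun i w => by rw [LinearMap.mem_ker, hgF])
    have : f ∈ LinearMap.ker (pairing D1 D2 D3 g) := by rw [htop]; trivial
    rw [LinearMap.mem_ker.mp this, map_zero]
  by_cases hf0 : f = 0
  · rw [hf0, map_zero, map_zero]
  -- depth of `y0`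
  have hKy0 : ∀ i, c2'.X.Kp i y0 =
      v ^ (-(wex C c3'.L 0 i + wex C c1'.L (c1'.dp j1) i)) • y0 := by
    intro i
    have h1 := contr_Kp (c2' := c2') (c3' := c3') hv0 (c1'.B_wsp j1) g i
    rw [(hg i).2.2, ← hy0] at h1
    rw [zpow_neg]
    conv_rhs => rw [h1]
    rw [smul_smul, inv_mul_cancel₀ (zpow_ne_zero _ hv0), one_smul]
  obtain ⟨ν, hν⟩ := exists_depth c2'.B (L := c2'.L) hv0 hv (fun j => c2'.B_wsp j) hy00 hKy0
  have hy0w : y0 ∈ c2'.wsp ν := by
    intro i
    rw [hKy0 i, ← hν i]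
  -- depth of `f`
  have hKf : ∀ i, (X3 c1 c2 c3).Kp i f = v ^ ((0 : I → ℤ) i) • f := by
    intro i
    rw [(hf i).2.2, Pi.zero_apply, zpow_zero, one_smul]
  obtain ⟨η, hη⟩ := exists_depth (c1.B.tensorProduct (c2.B.tensorProduct c3.B))
    (L := L3 c1 c2 c3) (dep := fun j => c1.dp j.1 + (c2.dp j.2.1 + c3.dp j.2.2)) hv0 hv
    (fun j => by
      rw [Module.Basis.tensorProduct_apply', Module.Basis.tensorProduct_apply']
      exact wsp_tens hv0 (c1.B_wsp _) (wsp_tens hv0 (c2.B_wsp _) (c3.B_wsp _))) hf0 hKf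
  have hfw : f ∈ wsp C v (X3 c1 c2 c3) (L3 c1 c2 c3) η := by
    intro i
    rw [hKf i, ← hη i]
  -- relation between the depths
  have hdep : ν + η = c2'.dp j2 + c3'.dp j3 := by
    have e1 : η = c2'.dp j2 + c3'.dp j3 - ν := by
      apply wex_inj (C := C) (L := L3 c1 c2 c3)
      intro i
      rw [hη i, Pi.zero_apply]
      have a1 := hν i
      have a2 := low_wex' hv0 hv hD2 hj2 i
      have a3 := low_wex' hv0 hv hD3 hj3 i
      have a4 := low_wex hv0 hv hD1 hj1 i
      simp only [wex, L3, Pi.add_apply, Pi.sub_apply, Pi.zero_apply, mul_add, mul_sub,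
        mul_zero, Finset.sum_const_zero, sub_zero, Finset.sum_add_distrib,
        Finset.sum_sub_distrib] at a1 a2 a3 a4 ⊢
      linarith
    rw [e1]; abel
  -- `psi y0`
  have hbary0 : ∀ y, bar (c2'.form y0 (c2'.psi y)) = c2'.form y0 y := by
    intro y
    have h1 := bar_dualCanon hbb t' hgd (c3'.hw ⊗ₜ[K] (y ⊗ₜ[K] c1'.B j1))
    have h2 : t'.psi (c3'.hw ⊗ₜ[K] (y ⊗ₜ[K] c1'.B j1)) =
        c3'.hw ⊗ₜ[K] (c2'.psi y ⊗ₜ[K] c1'.B j1) := by
      unfold Canon.hw
      rw [t'.psi_top, psi_tmul_low t'.isBar23 t'.psi23_top hF1 (c1'.psi_B j1)]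
    rw [h2, bi_form_contr, bi_form_contr] at h1
    exact h1
  have hpsiy0 : c2'.psi y0 = v ^ hex C c2'.L ν • y0 := by
    obtain ⟨T, hT⟩ := exists_T hbb c2'.B c2'.isBar c2'.isForm (fun x hx => c2'.nondeg hvt x hx)
    have h1 : c2'.psi (T y0) = y0 := by
      rw [← sub_eq_zero]
      apply c2'.nondeg hvt
      intro y
      rw [map_sub, LinearMap.sub_apply, hT, hbary0, sub_self]
    rw [← c2'.T_eq hvt hbb hbar hT hy0w, ← h1, c2'.isBar.invol, h1]
  -- the main identity
  have hmain : ∀ w, bar (pairing D1 D2 D3 g (t.psi w)) =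
      v ^ (-rho2 C η) * pairing D1 D2 D3 g w := by
    intro w
    set φ : Module.Dual K (V1 ⊗[K] (V2 ⊗[K] V3)) :=
      barDual hbb t.isBar (pairing D1 D2 D3 g) - v ^ (-rho2 C η) • pairing D1 D2 D3 g with hφ
    have hφa : ∀ w, φ w = bar (pairing D1 D2 D3 g (t.psi w)) -
        v ^ (-rho2 C η) * pairing D1 D2 D3 g w := by
      intro w
      rw [hφ, LinearMap.sub_apply, barDual_apply, LinearMap.smul_apply, smul_eq_mul]
    have htop := gen_top hv0 hv hbw hb0 hFb (LinearMap.ker φ) (c1 := c1) (c2 := c2)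
      (fun x => by
        rw [LinearMap.mem_ker, hφa, sub_eq_zero]
        have h2 : t.psi (c1.hw ⊗ₜ[K] (x ⊗ₜ[K] c3.B k3)) =
            c1.hw ⊗ₜ[K] (c2.psi x ⊗ₜ[K] c3.B k3) := by
          unfold Canon.hw
          rw [t.psi_top, psi_tmul_low t.isBar23 t.psi23_top hFb (c3.psi_B k3)]
        rw [h2, hpair, hpair, map_mul]
        have h3 : bar (D3 c3'.hw (c3.B k3)) = v ^ (-rho2 C (c3'.dp j3)) *
            D3 c3'.hw (c3.B k3) := by
          have h4 := bar_D hvt hbb hbar hD3 hj3 c3'.hw_wsp (c3.B k3)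
          rw [c3.psi_B, c3'.bi_psi_hw, cex_zero, zero_sub] at h4
          exact h4
        have h5 := bar_D hvt hbb hbar hD2 hj2 hy0w x
        rw [hpsiy0, map_smul, LinearMap.smul_apply, smul_eq_mul] at h5
        rw [h3, h5]
        have h6 : -rho2 C η = -rho2 C (c3'.dp j3) + (cex C c2'.L ν - rho2 C (c2'.dp j2)) +
            hex C c2'.L ν := by
          have h7 := cex_add_hex (C := C) c2'.L ν
          have h8 := congrArg (rho2 C) hdep
          rw [rho2_add, rho2_add] at h8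
          omega
        rw [h6, zpow_add₀ hv0, zpow_add₀ hv0]
        ring)
      (fun i w => by
        rw [LinearMap.mem_ker, hφa]
        have : t.psi ((X3 c1 c2 c3).E i w) = (X3 c1 c2 c3).E i (t.psi w) := t.isBar.E i w
        rw [this, hgE, hgE, map_zero, mul_zero, sub_zero])
      (fun i w => by
        rw [LinearMap.mem_ker, hφa]
        have : t.psi ((X3 c1 c2 c3).F i w) = (X3 c1 c2 c3).F i (t.psi w) := t.isBar.F i w
        rw [this, hgF, hgF, map_zero, mul_zero, sub_zero])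
    have hw : w ∈ LinearMap.ker φ := by rw [htop]; trivial
    rw [LinearMap.mem_ker, hφa, sub_eq_zero] at hw
    exact hw
  have h1 := hmain f
  rw [hpsi η hfw, map_smul, smul_eq_mul, map_mul, map_zpow₀, hbar, inv_zpow'] at h1
  exact mul_left_cancel₀ (zpow_ne_zero _ hv0) h1

end main

end Pool.Agent.Work.MP_8ad3a8_al
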