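import Mathlib

set_option autoImplicit false

/-!
Elementary representation theory of `U_q(sl_2)` over an arbitrary field in which the quantum
integers do not vanish.
-/

namespace Pool.Agent.Work.MP_8ad3a8_al

/-- quantum integers -/
structure QN {k : Type*} [Field k] (q : ℤ → k) : Prop where
  one : q 1 = 1
  ne : ∀ n, n ≠ 0 → q n ≠ 0
  add : ∀ a b, q (a + 1) * q b - q a * q (b + 1) = q (b - a)

theorem QN.zero {k : Type*} [Field k] {q : ℤ → k} (h : QN q) : q 0 = 0 := by
  have := h.add 0 0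
  rw [sub_self] at this
  rw [← this]; ring

theorem QN.neg {k : Type*} [Field k] {q : ℤ → k} (h : QN q) (n : ℤ) : q (-n) = - q n := by
  have h1 := h.add 0 n
  have h2 := h.add n 0
  rw [sub_zero] at h1
  rw [zero_sub] at h2
  rw [← h1, ← h2]; ring

/-- graded `sl_2`-module -/
structure Sl2 {k V : Type*} [Field k] [AddCommGroup V] [Module k V] (q : ℤ → k)
    (E F : Module.End k V) (M : ℤ → Submodule k V) : Prop where
  qn : QN q
  E_mem : ∀ n, ∀ x ∈ M n, E x ∈ M (n + 2)
  F_mem : ∀ n, ∀ x ∈ M n, F x ∈ M (n - 2)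
  comm : ∀ n, ∀ x ∈ M n, E (F x) - F (E x) = q n • x

namespace Sl2

variable {k V : Type*} [Field k] [AddCommGroup V] [Module k V] {q : ℤ → k}
  {E F : Module.End k V} {M : ℤ → Submodule k V}

theorem swap (h : Sl2 q E F M) : Sl2 q F E (fun n => M (-n)) where
  qn := h.qn
  E_mem n x hx := by
    have := h.F_mem _ x hx
    have e : -(n + 2) = -n - 2 := by ring
    rw [e]; exact this
  F_mem n x hx := by
    have := h.E_mem _ x hx
    have e : -(n - 2) = -n + 2 := by ring
    rw [e]; exact this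
  comm n x hx := by
    have := h.comm _ x hx
    rw [h.qn.neg, neg_smul] at this
    rw [← neg_sub, this, neg_neg]

theorem F_pow_mem (h : Sl2 q E F M) {n : ℤ} {x : V} (hx : x ∈ M n) (r : ℕ) :
    (F ^ r) x ∈ M (n - 2 * r) := by
  induction r with
  | zero => simpa using hx
  | succ r ih =>
    rw [pow_succ', Module.End.mul_apply]
    have := h.F_mem _ _ ih
    have e : n - 2 * ((r + 1 : ℕ) : ℤ) = n - 2 * (r : ℤ) - 2 := by push_cast; ring
    rw [e]; exact this

theorem E_pow_mem (h : Sl2 q E F M) {n : ℤ} {x : V} (hx : x ∈ M n) (r : ℕ) :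
    (E ^ r) x ∈ M (n + 2 * r) := by
  induction r with
  | zero => simpa using hx
  | succ r ih =>
    rw [pow_succ', Module.End.mul_apply]
    have := h.E_mem _ _ ih
    have e : n + 2 * ((r + 1 : ℕ) : ℤ) = n + 2 * (r : ℤ) + 2 := by push_cast; ring
    rw [e]; exact this

theorem E_F_pow (h : Sl2 q E F M) {n : ℤ} {x : V} (hx : x ∈ M n) (r : ℕ) :
    E ((F ^ (r + 1)) x) = (F ^ (r + 1)) (E x) + (q (r + 1) * q (n - r)) • (F ^ r) x := by
  induction r with
  | zero =>
    have := h.comm n x hx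
    simp only [zero_add, pow_one, Nat.cast_zero, h.qn.one, one_mul, sub_zero, pow_zero,
      Module.End.one_apply]
    rw [← this]; abel
  | succ r ih =>
    have h1 := h.comm _ _ (h.F_pow_mem hx (r + 1))
    have h2 : (F ^ (r + 1 + 1)) x = F ((F ^ (r + 1)) x) := by
      rw [pow_succ', Module.End.mul_apply]
    have h3 : (F ^ (r + 1 + 1)) (E x) = F ((F ^ (r + 1)) (E x)) := by
      rw [pow_succ', Module.End.mul_apply]
    have h4 : (F ^ (r + 1)) x = F ((F ^ r) x) := by
      rw [pow_succ', Module.End.mul_apply]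
    rw [sub_eq_iff_eq_add, ih] at h1
    rw [h2, h1, h3, map_add, map_smul, ← h4]
    have h5 : q (((r + 1 : ℕ) : ℤ) + 1) * q (n - ((r + 1 : ℕ) : ℤ)) =
        q (n - 2 * ((r + 1 : ℕ) : ℤ)) + q ((r : ℤ) + 1) * q (n - (r : ℤ)) := by
      have := h.qn.add ((r + 1 : ℕ) : ℤ) (n - ((r + 1 : ℕ) : ℤ))
      rw [sub_eq_iff_eq_add] at this
      rw [this]
      congr 1
      · congr 1; ring
      · push_cast
        congr 2; ring
    rw [h5, add_smul]
    abel

theorem F_E_pow (h : Sl2 q E F M) {n : ℤ} {x : V} (hx : x ∈ M n) (r : ℕ) :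
    F ((E ^ (r + 1)) x) = (E ^ (r + 1)) (F x) + (q (r + 1) * q (-n - r)) • (E ^ r) x := by
  have := h.swap.E_F_pow (n := -n) (x := x) (by rw [neg_neg]; exact hx) r
  exact this

/-- A vector of weight `n` killed by `F ^ r`, `r ≤ n`, vanishes. -/
theorem eq_zero_of_F_pow (h : Sl2 q E F M) (N : ℕ) {n : ℤ} {x : V} (hx : x ∈ M n)
    (hE : (E ^ N) x = 0) {r : ℕ} (hr : (r : ℤ) ≤ n) (hF : (F ^ r) x = 0) : x = 0 := by
  induction N generalizing n x r with
  | zero => simpa using hE
  | succ N ih =>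
    have hFs : (F ^ (r + 1)) x = 0 := by
      rw [pow_succ', Module.End.mul_apply, hF, map_zero]
    have key : ∀ s : ℕ, (s : ℤ) ≤ n → (F ^ s) x = 0 → (F ^ (s + 1)) (E x) = 0 := by
      intro s hs hFs
      have hF1 : (F ^ (s + 1)) x = 0 := by
        rw [pow_succ', Module.End.mul_apply, hFs, map_zero]
      have := h.E_F_pow hx s
      rw [hF1, map_zero, hFs, smul_zero, add_zero] at this
      exact this.symm
    have hEx : E x = 0 := by
      refine ih (h.E_mem _ x hx) ?_ (r := r + 1) (by push_cast; omega) (key r hr hF)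
      rw [← Module.End.mul_apply, ← pow_succ]; exact hE
    induction r with
    | zero => simpa using hF
    | succ r ihr =>
      have h1 := h.E_F_pow hx r
      rw [hF, hEx, map_zero, map_zero, zero_add] at h1
      have h2 : q ((r : ℤ) + 1) * q (n - (r : ℤ)) ≠ 0 := by
        refine mul_ne_zero (h.qn.ne _ (by omega)) (h.qn.ne _ ?_)
        push_cast at hr; omega
      have h3 := (smul_eq_zero.mp h1.symm).resolve_left h2
      refine ihr (by push_cast at hr; omega) h3 ?_
      rw [pow_succ', Module.End.mul_apply, h3, map_zero]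

theorem eq_zero_of_E_pow (h : Sl2 q E F M) (N : ℕ) {n : ℤ} {x : V} (hx : x ∈ M n)
    (hF : (F ^ N) x = 0) {r : ℕ} (hr : (r : ℤ) ≤ -n) (hE : (E ^ r) x = 0) : x = 0 :=
  h.swap.eq_zero_of_F_pow N (n := -n) (by rw [neg_neg]; exact hx) hF hr hE

/-- every weight vector is a combination of `F ^ a y` with `E y = 0`. -/
theorem mem_span_F (h : Sl2 q E F M) (hnF : ∀ x, ∃ N : ℕ, (F ^ N) x = 0) (N : ℕ) {n : ℤ} {x : V}
    (hx : x ∈ M n) (hE : (E ^ N) x = 0) :
    x ∈ Submodule.span k {z | ∃ (a : ℕ) (y : V), y ∈ M (n + 2 * a) ∧ E y = 0 ∧ z = (F ^ a) y} := by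
  induction N generalizing x with
  | zero =>
    have : x = 0 := by simpa using hE
    rw [this]; exact Submodule.zero_mem _
  | succ N ih =>
    set y := (E ^ N) x with hy
    have hyM : y ∈ M (n + 2 * N) := h.E_pow_mem hx N
    have hEy : E y = 0 := by
      rw [hy, ← Module.End.mul_apply, ← pow_succ']; exact hE
    -- product formula
    have prod : ∀ s : ℕ, (E ^ s) ((F ^ s) y) =
        (∏ t ∈ Finset.range s, (q ((t : ℤ) + 1) * q (n + 2 * N - t))) • y := by
      intro s
      induction s with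
      | zero => simp
      | succ s ihs =>
        rw [pow_succ, Module.End.mul_apply, h.E_F_pow hyM s, hEy, map_zero, zero_add, map_smul, ihs,
          Finset.prod_range_succ, smul_smul, mul_comm]
    by_cases hN : (N : ℤ) ≤ n + 2 * N
    · have hne : (∏ t ∈ Finset.range N, (q ((t : ℤ) + 1) * q (n + 2 * N - t))) ≠ 0 := by
        rw [Finset.prod_ne_zero_iff]
        intro t ht
        rw [Finset.mem_range] at ht
        exact mul_ne_zero (h.qn.ne _ (by omega)) (h.qn.ne _ (by omega))
      set c := (∏ t ∈ Finset.range N, (q ((t : ℤ) + 1) * q (n + 2 * N - t))) with hc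
      have hz : (E ^ N) (x - c⁻¹ • (F ^ N) y) = 0 := by
        rw [map_sub, map_smul, prod N, smul_smul, inv_mul_cancel₀ hne, one_smul, ← hy, sub_self]
      have hFy : (F ^ N) y ∈ M n := by
        have := h.F_pow_mem hyM N
        have e : n + 2 * (N : ℤ) - 2 * N = n := by ring
        rw [e] at this; exact this
      have h1 := ih (Submodule.sub_mem _ hx (Submodule.smul_mem _ c⁻¹ hFy)) hz
      have h2 : c⁻¹ • (F ^ N) y ∈ Submodule.span k
          {z | ∃ (a : ℕ) (y : V), y ∈ M (n + 2 * a) ∧ E y = 0 ∧ z = (F ^ a) y} :=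
        Submodule.smul_mem _ _ (Submodule.subset_span ⟨N, y, hyM, hEy, rfl⟩)
      have := Submodule.add_mem _ h1 h2
      rwa [sub_add_cancel] at this
    · obtain ⟨N', hN'⟩ := hnF x
      have : x = 0 := by
        refine h.eq_zero_of_E_pow N' hx hN' (r := N + 1) ?_ hE
        push_cast; omega
      rw [this]; exact Submodule.zero_mem _

theorem mem_span_E (h : Sl2 q E F M) (hnE : ∀ x, ∃ N : ℕ, (E ^ N) x = 0)
    (hnF : ∀ x, ∃ N : ℕ, (F ^ N) x = 0) {n : ℤ} {x : V} (hx : x ∈ M n) :
    x ∈ Submodule.span k {z | ∃ (a : ℕ) (y : V), y ∈ M (n - 2 * a) ∧ F y = 0 ∧ z = (E ^ a) y} := by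
  obtain ⟨N, hN⟩ := hnF x
  have := h.swap.mem_span_F hnE N (n := -n) (by rw [neg_neg]; exact hx) hN
  refine Submodule.span_mono ?_ this
  rintro z ⟨a, y, hy, hy1, rfl⟩
  refine ⟨a, y, ?_, hy1, rfl⟩
  have e : -(-n + 2 * (a : ℤ)) = n - 2 * a := by ring
  rw [← e]; exact hy

/-- an operator lowering weights by `p > 0` and commuting with `E` up to a scalar vanishes -/
theorem op_eq_zero (h : Sl2 q E F M) (hnE : ∀ x, ∃ N : ℕ, (E ^ N) x = 0)
    (hnF : ∀ x, ∃ N : ℕ, (F ^ N) x = 0) (P : Module.End k V) {p : ℤ} (hp : 0 < p)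
    (hPM : ∀ n, ∀ x ∈ M n, P x ∈ M (n - p)) {c : k} (hc : c ≠ 0)
    (hPE : ∀ x, P (E x) = c • E (P x)) {n : ℤ} {x : V} (hx : x ∈ M n) : P x = 0 := by
  have hpow : ∀ (a : ℕ) (y : V), P ((E ^ a) y) = c ^ a • (E ^ a) (P y) := by
    intro a
    induction a with
    | zero => intro y; simp
    | succ a ih =>
      intro y
      rw [pow_succ, Module.End.mul_apply, ih, hPE, map_smul, smul_smul, pow_succ,
        Module.End.mul_apply]
  have key : ∀ (m : ℤ) (y : V), y ∈ M m → F y = 0 → P y = 0 := by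
    intro m y hy hFy
    by_cases hm : 0 < m
    · obtain ⟨N, hN⟩ := hnE y
      have : y = 0 := h.eq_zero_of_F_pow N hy hN (r := 1) (by push_cast; omega) (by simpa using hFy)
      rw [this, map_zero]
    · obtain ⟨r, hr⟩ : ∃ r : ℕ, (r : ℤ) = -m := ⟨(-m).toNat, by omega⟩
      have h1 : (E ^ (r + 1)) y = 0 := by
        have h2 := h.F_E_pow hy r
        rw [hFy, map_zero, zero_add, hr] at h2
        have e : -m - -m = 0 := by ring
        rw [e, h.qn.zero, mul_zero, zero_smul] at h2
        obtain ⟨N, hN⟩ := hnE ((E ^ (r + 1)) y)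
        refine h.eq_zero_of_F_pow N (h.E_pow_mem hy (r + 1)) hN (r := 1) ?_ ?_
        · push_cast; omega
        · rw [pow_one]; exact h2
      have h3 := hpow (r + 1) y
      rw [h1, map_zero] at h3
      have h4 := (smul_eq_zero.mp h3.symm).resolve_left (pow_ne_zero _ hc)
      obtain ⟨N, hN⟩ := hnF (P y)
      refine h.eq_zero_of_E_pow N (hPM m y hy) hN (r := r + 1) ?_ h4
      push_cast; omega
  have h5 := h.mem_span_E hnE hnF hx
  clear hx
  induction h5 using Submodule.span_induction with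
  | mem z hz =>
    obtain ⟨a, y, hy, hFy, rfl⟩ := hz
    rw [hpow, key _ y hy hFy, map_zero, smul_zero]
  | zero => simp
  | add x y _ _ hx hy => rw [map_add, hx, hy, add_zero]
  | smul r x _ hx => rw [map_smul, hx, smul_zero]

end Sl2

end Pool.Agent.Work.MP_8ad3a8_al
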