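import Mathlib

set_option autoImplicit false
set_option linter.unusedSectionVars false
set_option linter.unusedSimpArgs false

/-!
Words over an alphabet `I`, the left and right skew derivations, and the quantum symmetriser
form on words.
-/

namespace Pool.Agent.Work.MP_8ad3a8_al

namespace Words

open Finsupp

variable {I : Type} [DecidableEq I] {K : Type} [Field K]

/-- The space with basis the words over `I`. -/
abbrev FF (I : Type) (K : Type) [Field K] : Type := List I →₀ K

/-- Multiplication by a letter on the left. -/
noncomputable def consL (j : I) : FF I K →ₗ[K] FF I K := Finsupp.lmapDomain K K (List.cons j)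

/-- Multiplication by a letter on the right. -/
noncomputable def snocL (j : I) : FF I K →ₗ[K] FF I K :=
  Finsupp.lmapDomain K K (fun w => w ++ [j])

@[simp] theorem consL_single (j : I) (w : List I) (a : K) :
    consL j (single w a) = single (j :: w) a := by
  simp [consL, Finsupp.lmapDomain_apply, Finsupp.mapDomain_single]

@[simp] theorem snocL_single (j : I) (w : List I) (a : K) :
    snocL j (single w a) = single (w ++ [j]) a := by
  simp [snocL, Finsupp.lmapDomain_apply, Finsupp.mapDomain_single]

/-- product of the `c i k` over the letters `k` of `w`. -/
def wt (c : I → I → K) (i : I) (w : List I) : K := (w.map (c i)).prod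

@[simp] theorem wt_nil (c : I → I → K) (i : I) : wt c i [] = 1 := rfl
@[simp] theorem wt_cons (c : I → I → K) (i j : I) (w : List I) :
    wt c i (j :: w) = c i j * wt c i w := by simp [wt]
@[simp] theorem wt_append (c : I → I → K) (i : I) (w w' : List I) :
    wt c i (w ++ w') = wt c i w * wt c i w' := by simp [wt]

/-- left derivation of a word -/
noncomputable def Lw (c : I → I → K) (i : I) : List I → FF I K
  | [] => 0
  | j :: w => (if i = j then single w 1 else 0) + c i j • consL j (Lw c i w)

/-- right derivation of a word -/
noncomputable def Rw (c : I → I → K) (i : I) : List I → FF I K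
  | [] => 0
  | j :: w => (if i = j then single w (wt c i w) else 0) + consL j (Rw c i w)

noncomputable def LL (c : I → I → K) (i : I) : FF I K →ₗ[K] FF I K :=
  Finsupp.linearCombination K (Lw c i)

noncomputable def RR (c : I → I → K) (i : I) : FF I K →ₗ[K] FF I K :=
  Finsupp.linearCombination K (Rw c i)

noncomputable def ZZ (c : I → I → K) (i : I) : FF I K →ₗ[K] FF I K :=
  Finsupp.linearCombination K (fun w => single w (wt c i w))

@[simp] theorem LL_single (c : I → I → K) (i : I) (w : List I) (a : K) :
    LL c i (single w a) = a • Lw c i w := by simp [LL]
@[simp] theorem RR_single (c : I → I → K) (i : I) (w : List I) (a : K) :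
    RR c i (single w a) = a • Rw c i w := by simp [RR]
@[simp] theorem ZZ_single (c : I → I → K) (i : I) (w : List I) (a : K) :
    ZZ c i (single w a) = single w (a * wt c i w) := by simp [ZZ]

variable (c : I → I → K)

theorem LL_cons (i j : I) (x : FF I K) :
    LL c i (consL j x) = (if i = j then x else 0) + c i j • consL j (LL c i x) := by
  induction x using Finsupp.induction_linear with
  | zero => simp
  | add x y hx hy =>
    rw [map_add, map_add, hx, hy, map_add, map_add, smul_add]
    split_ifs <;> abel
  | single w a =>
    rw [consL_single, LL_single, LL_single, Lw, smul_add]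
    congr 1
    · split_ifs <;> simp
    · rw [map_smul, smul_comm]

theorem RR_cons (i j : I) (x : FF I K) :
    RR c i (consL j x) = (if i = j then ZZ c i x else 0) + consL j (RR c i x) := by
  induction x using Finsupp.induction_linear with
  | zero => simp
  | add x y hx hy =>
    rw [map_add, map_add, hx, hy, map_add, map_add, map_add]
    split_ifs <;> abel
  | single w a =>
    rw [consL_single, RR_single, RR_single, Rw, smul_add]
    congr 1
    · split_ifs <;> simp
    · rw [map_smul]

theorem ZZ_cons (i j : I) (x : FF I K) :
    ZZ c i (consL j x) = c i j • consL j (ZZ c i x) := by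
  induction x using Finsupp.induction_linear with
  | zero => simp
  | add x y hx hy => rw [map_add, map_add, hx, hy, map_add, map_add, smul_add]
  | single w a =>
    rw [consL_single, ZZ_single, ZZ_single, consL_single, wt_cons, smul_single, smul_eq_mul]
    congr 1; ring

theorem LL_ZZ (i j : I) (x : FF I K) :
    LL c j (ZZ c i x) = c i j • ZZ c i (LL c j x) := by
  induction x using Finsupp.induction_linear with
  | zero => simp
  | add x y hx hy => rw [map_add, map_add, hx, hy, map_add, map_add, smul_add]
  | single w a =>
    rw [ZZ_single, LL_single, LL_single, map_smul, smul_comm (c i j) a, mul_smul]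
    congr 1
    induction w with
    | nil => simp [Lw]
    | cons k w ih =>
      rw [Lw, map_add, smul_add, smul_add]
      congr 1
      · rw [wt_cons]
        split_ifs with h
        · subst h
          simp
        · simp
      · rw [map_smul, ZZ_cons, wt_cons, mul_smul, smul_comm (wt c i w) (c j k), ← map_smul, ih,
          map_smul]
        simp only [smul_smul]
        congr 1; ring

variable {c}

/-- The two kinds of derivations commute. -/
theorem RR_LL (hc : ∀ i j, c i j = c j i) (i j : I) (x : FF I K) :
    RR c i (LL c j x) = LL c j (RR c i x) := by
  induction x using Finsupp.induction_linear with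
  | zero => simp
  | add x y hx hy => rw [map_add, map_add, hx, hy, map_add, map_add]
  | single w a =>
    rw [LL_single, RR_single, map_smul, map_smul]
    congr 1
    induction w with
    | nil => simp [Lw, Rw]
    | cons k w ih =>
      have h1 : Lw c j (k :: w) = LL c j (consL k (single w 1)) := by simp
      have h2 : Rw c i (k :: w) = RR c i (consL k (single w 1)) := by simp
      have h3 : RR c i (LL c j (single w 1)) = LL c j (RR c i (single w 1)) := by simpa using ih
      rw [h1, h2, LL_cons, RR_cons, map_add, map_smul, RR_cons, map_add, LL_cons, h3]
      have h4 : LL c j (if i = k then ZZ c i (single w 1) else 0) =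
          c j k • (if i = k then ZZ c i (LL c j (single w 1)) else 0) := by
        split_ifs with h
        · subst h; rw [LL_ZZ, hc]
        · simp
      have h5 : RR c i (if j = k then single w 1 else 0) =
          if j = k then RR c i (single w 1) else 0 := by
        split_ifs
        · rfl
        · simp
      rw [h4, h5, smul_add]
      abel

theorem RR_snoc (i j : I) (x : FF I K) :
    RR c i (snocL j x) = (if i = j then x else 0) + c i j • snocL j (RR c i x) := by
  induction x using Finsupp.induction_linear with
  | zero => simp
  | add x y hx hy =>
    rw [map_add, map_add, hx, hy, map_add, map_add, smul_add]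
    split_ifs <;> abel
  | single w a =>
    rw [snocL_single, RR_single, RR_single, map_smul, smul_comm (c i j) a]
    have : (if i = j then single w a else 0 : FF I K) = a • (if i = j then single w 1 else 0) := by
      split_ifs <;> simp
    rw [this, ← smul_add]
    congr 1
    clear this
    induction w with
    | nil => simp [Rw]
    | cons k w ih =>
      rw [List.cons_append, Rw, ih, Rw, map_add, map_add, smul_add, map_smul]
      have hcs : ∀ y : FF I K, consL k (snocL j y) = snocL j (consL k y) := by
        intro y
        induction y using Finsupp.induction_linear with
        | zero => simp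
        | add x y hx hy => simp only [map_add, hx, hy]
        | single w a => simp
      rw [hcs]
      have h1 : consL k (if i = j then single w 1 else 0 : FF I K) =
          if i = j then single (k :: w) 1 else 0 := by split_ifs <;> simp
      have h2 : (if i = k then single (w ++ [j]) (wt c i (w ++ [j])) else 0 : FF I K) =
          c i j • snocL j (if i = k then single w (wt c i w) else 0) := by
        split_ifs
        · simp [mul_comm]
        · simp
      rw [h1, h2]
      abel

/-- The form: first argument a word, second argument linear. -/
noncomputable def S (c : I → I → K) : List I → (FF I K →ₗ[K] K)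
  | [] => Finsupp.lapply []
  | i :: u => S c u ∘ₗ LL c i

/-- The form, bilinear. -/
noncomputable def SS (c : I → I → K) : FF I K →ₗ[K] FF I K →ₗ[K] K :=
  Finsupp.linearCombination K (S c)

@[simp] theorem SS_single (u : List I) (a : K) (y : FF I K) :
    SS c (single u a) y = a * S c u y := by simp [SS]

theorem S_cons (i : I) (u : List I) (y : FF I K) : S c (i :: u) y = S c u (LL c i y) := rfl

theorem SS_cons (i : I) (x y : FF I K) : SS c (consL i x) y = SS c x (LL c i y) := by
  induction x using Finsupp.induction_linear with
  | zero => simp
  | add x y hx hy => simp only [map_add, LinearMap.add_apply, hx, hy]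
  | single w a => simp [S_cons]

theorem S_snoc (hc : ∀ i j, c i j = c j i) (i : I) (u : List I) (y : FF I K) :
    S c (u ++ [i]) y = S c u (RR c i y) := by
  induction u generalizing y with
  | nil =>
    show S c [i] y = S c [] (RR c i y)
    rw [S_cons]
    induction y using Finsupp.induction_linear with
    | zero => simp
    | add x y hx hy => simp only [map_add, hx, hy]
    | single w a =>
      rw [LL_single, RR_single, map_smul, map_smul]
      congr 1
      cases w with
      | nil => simp [Lw, Rw]
      | cons j w =>
        have h0 : ∀ z : FF I K, (consL j z) ([] : List I) = 0 := by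
          intro z
          induction z using Finsupp.induction_linear with
          | zero => simp
          | add x y hx hy => simp only [map_add, Finsupp.add_apply, hx, hy, add_zero]
          | single w a => simp
        simp only [S, Lw, Rw, Finsupp.lapply_apply, Finsupp.add_apply, Finsupp.smul_apply, h0]
        split_ifs with h
        · cases w with
          | nil => simp
          | cons k w => simp
        · simp
  | cons j u ih =>
    rw [List.cons_append, S_cons, ih, S_cons, RR_LL hc]

theorem SS_snoc (hc : ∀ i j, c i j = c j i) (i : I) (x y : FF I K) :
    SS c (snocL i x) y = SS c x (RR c i y) := by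
  induction x using Finsupp.induction_linear with
  | zero => simp
  | add x y hx hy => simp only [map_add, LinearMap.add_apply, hx, hy]
  | single w a => simp [S_snoc hc]

theorem S_consL (hc : ∀ i j, c i j = c j i) (i : I) (w : List I) (y : FF I K) :
    S c w (consL i y) = SS c (Lw c i w) y := by
  induction w generalizing y with
  | nil =>
    simp only [Lw, map_zero, LinearMap.zero_apply]
    induction y using Finsupp.induction_linear with
    | zero => simp
    | add x y hx hy => simp only [map_add, hx, hy, add_zero]
    | single w a => simp [S]
  | cons j w ih =>
    rw [S_cons, LL_cons, map_add, map_smul, ih, Lw, map_add, LinearMap.add_apply, map_smul,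
      LinearMap.smul_apply, SS_cons, hc j i]
    congr 1
    by_cases h : i = j
    · subst h; simp
    · rw [if_neg (Ne.symm h), if_neg h]; simp

theorem SS_consL (hc : ∀ i j, c i j = c j i) (i : I) (x y : FF I K) :
    SS c x (consL i y) = SS c (LL c i x) y := by
  induction x using Finsupp.induction_linear with
  | zero => simp
  | add x y hx hy => simp only [map_add, LinearMap.add_apply, hx, hy]
  | single w a => rw [SS_single, S_consL hc, LL_single, map_smul, LinearMap.smul_apply, smul_eq_mul]

theorem S_symm_single (hc : ∀ i j, c i j = c j i) (u w : List I) :
    S c u (single w 1) = S c w (single u 1) := by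
  induction w generalizing u with
  | nil =>
    cases u with
    | nil => rfl
    | cons i u => simp [S_cons, Lw, S]
  | cons i w ih =>
    have h1 : (single (i :: w) 1 : FF I K) = consL i (single w 1) := by simp
    rw [h1, S_consL hc, S_cons, LL_single, one_smul]
    generalize Lw c i u = z
    induction z using Finsupp.induction_linear with
    | zero => simp
    | add x y hx hy => simp only [map_add, LinearMap.add_apply, hx, hy]
    | single v a =>
      rw [SS_single, ih]
      have h2 : (single v a : FF I K) = a • single v 1 := by simp
      rw [h2, map_smul, smul_eq_mul]

theorem SS_symm (hc : ∀ i j, c i j = c j i) (x y : FF I K) : SS c x y = SS c y x := by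
  induction x using Finsupp.induction_linear with
  | zero => simp
  | add x y hx hy => simp only [map_add, LinearMap.add_apply, hx, hy]
  | single u a =>
    induction y using Finsupp.induction_linear with
    | zero => simp
    | add x y hx hy => simp only [map_add, LinearMap.add_apply, hx, hy]
    | single w b =>
      have h1 : (single w b : FF I K) = b • single w 1 := by simp
      have h2 : (single u a : FF I K) = a • single u 1 := by simp
      rw [SS_single, SS_single, h1, map_smul, h2, map_smul, S_symm_single hc, smul_eq_mul,
        smul_eq_mul]
      ring

theorem SS_snocL (hc : ∀ i j, c i j = c j i) (i : I) (x y : FF I K) :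
    SS c x (snocL i y) = SS c (RR c i x) y := by
  rw [SS_symm hc, SS_snoc hc, SS_symm hc]

/-- the content of a word -/
def ct (w : List I) : I → ℕ := fun i => w.count i

@[simp] theorem ct_nil : ct ([] : List I) = 0 := by ext i; simp [ct]
theorem ct_cons (i : I) (w : List I) : ct (i :: w) = ct w + Pi.single i 1 := by
  ext j
  simp only [ct, List.count_cons, Pi.add_apply, Pi.single_apply]
  by_cases h : i = j
  · subst h; simp
  · simp [h, Ne.symm h]
theorem ct_append (w w' : List I) : ct (w ++ w') = ct w + ct w' := by
  ext j; simp [ct]
theorem ct_reverse (w : List I) : ct w.reverse = ct w := by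
  ext j; simp [ct]

theorem mem_support_Lw (i : I) (w z : List I) (hz : z ∈ (Lw c i w).support) :
    ct z + Pi.single i 1 = ct w := by
  induction w generalizing z with
  | nil => simp [Lw] at hz
  | cons j w ihw =>
    rw [Lw] at hz
    have hz' := Finsupp.support_add hz
    rw [Finset.mem_union] at hz'
    rcases hz' with hz' | hz'
    · split_ifs at hz' with hij
      · have := Finsupp.support_single_subset hz'
        rw [Finset.mem_singleton] at this
        rw [this, ct_cons, hij]
      · simp at hz'
    · have h1 := Finsupp.support_smul hz'
      rw [consL, Finsupp.lmapDomain_apply] at h1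
      have h2 := Finsupp.mapDomain_support h1
      rw [Finset.mem_image] at h2
      obtain ⟨z', hz1, rfl⟩ := h2
      rw [ct_cons, ct_cons, ← ihw z' hz1]
      abel

/-- words of different content are orthogonal -/
theorem S_content (u w : List I) (h : ct u ≠ ct w) : S c u (single w 1) = 0 := by
  induction u generalizing w with
  | nil =>
    cases w with
    | nil => exact absurd rfl h
    | cons j w => simp [S]
  | cons i u ih =>
    rw [S_cons, LL_single, one_smul]
    have h2 : Lw c i w = ∑ z ∈ (Lw c i w).support, single z (Lw c i w z) :=
      (Finsupp.sum_single (Lw c i w)).symm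
    rw [h2, map_sum]
    refine Finset.sum_eq_zero fun z hz => ?_
    have h3 : (single z (Lw c i w z) : FF I K) = (Lw c i w z) • single z 1 := by simp
    rw [h3, map_smul, ih z ?_, smul_zero]
    intro h4
    apply h
    rw [ct_cons, h4, mem_support_Lw i w z hz]

/-- words of different length are orthogonal -/
theorem S_length (u w : List I) (h : u.length ≠ w.length) : S c u (single w 1) = 0 := by
  apply S_content
  intro h1
  apply h
  have hp : u.Perm w := by
    rw [List.perm_iff_count]
    intro a
    exact congrFun h1 a
  exact hp.length_eq

/-- reversal of words -/
noncomputable def rev : FF I K →ₗ[K] FF I K := Finsupp.lmapDomain K K List.reverse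

@[simp] theorem rev_single (w : List I) (a : K) : rev (single w a) = single w.reverse a := by
  simp [rev, Finsupp.lmapDomain_apply, Finsupp.mapDomain_single]

theorem rev_cons (i : I) (x : FF I K) : rev (consL i x) = snocL i (rev x) := by
  induction x using Finsupp.induction_linear with
  | zero => simp
  | add x y hx hy => simp only [map_add, hx, hy]
  | single w a => simp

theorem RR_rev (i : I) (x : FF I K) : RR c i (rev x) = rev (LL c i x) := by
  induction x using Finsupp.induction_linear with
  | zero => simp
  | add x y hx hy => simp only [map_add, hx, hy]
  | single w a =>
    have h2 : (single w a : FF I K) = a • single w 1 := by simp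
    rw [h2]
    simp only [map_smul]
    congr 1
    clear h2
    induction w with
    | nil => simp [Lw, Rw]
    | cons j w ih =>
      have h1 : (single (j :: w) 1 : FF I K) = consL j (single w 1) := by simp
      rw [h1, rev_cons, RR_snoc, ih, LL_cons, map_add, map_smul, rev_cons]
      congr 1
      split_ifs <;> simp

theorem SS_rev (hc : ∀ i j, c i j = c j i) (x y : FF I K) :
    SS c (rev x) (rev y) = SS c x y := by
  induction x using Finsupp.induction_linear generalizing y with
  | zero => simp
  | add x y hx hy => simp only [map_add, LinearMap.add_apply, hx, hy]
  | single u a =>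
    rw [rev_single, SS_single, SS_single]
    congr 1
    induction u generalizing y with
    | nil =>
      induction y using Finsupp.induction_linear with
      | zero => simp
      | add x y hx hy => simp only [map_add, hx, hy]
      | single w b =>
        rw [rev_single]
        simp only [List.reverse_nil, S, Finsupp.lapply_apply]
        cases w with
        | nil => rfl
        | cons j w => simp
    | cons i u ih =>
      rw [List.reverse_cons, S_snoc hc, S_cons, RR_rev, ih]

/-- The radical of the form. -/
noncomputable def rad (c : I → I → K) : Submodule K (FF I K) := LinearMap.ker (SS c).flip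

theorem mem_rad (x : FF I K) : x ∈ rad c ↔ ∀ y, SS c y x = 0 := by
  rw [rad, LinearMap.mem_ker]
  constructor
  · intro h y
    have := LinearMap.congr_fun h y
    simpa using this
  · intro h
    apply LinearMap.ext
    intro y
    simpa using h y

theorem LL_mem_rad (i : I) {x : FF I K} (hx : x ∈ rad c) : LL c i x ∈ rad c := by
  rw [mem_rad] at hx ⊢
  intro y
  rw [← SS_cons]; exact hx _

theorem RR_mem_rad (hc : ∀ i j, c i j = c j i) (i : I) {x : FF I K} (hx : x ∈ rad c) :
    RR c i x ∈ rad c := by
  rw [mem_rad] at hx ⊢
  intro y
  rw [← SS_snoc hc]; exact hx _

theorem cons_mem_rad (hc : ∀ i j, c i j = c j i) (i : I) {x : FF I K} (hx : x ∈ rad c) :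
    consL i x ∈ rad c := by
  rw [mem_rad] at hx ⊢
  intro y
  rw [SS_consL hc]; exact hx _

theorem snoc_mem_rad (hc : ∀ i j, c i j = c j i) (i : I) {x : FF I K} (hx : x ∈ rad c) :
    snocL i x ∈ rad c := by
  rw [mem_rad] at hx ⊢
  intro y
  rw [SS_snocL hc]; exact hx _

theorem rev_rev (x : FF I K) : rev (rev x) = x := by
  induction x using Finsupp.induction_linear with
  | zero => simp
  | add x y hx hy => simp only [map_add, hx, hy]
  | single w a => simp

theorem rev_mem_rad (hc : ∀ i j, c i j = c j i) {x : FF I K} (hx : x ∈ rad c) :
    rev x ∈ rad c := by
  rw [mem_rad] at hx ⊢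
  intro y
  rw [← SS_rev hc, rev_rev]; exact hx _

theorem coeff_nil_of_mem_rad {x : FF I K} (hx : x ∈ rad c) : x [] = 0 := by
  rw [mem_rad] at hx
  have := hx (single [] 1)
  simpa [S] using this

end Words

end Pool.Agent.Work.MP_8ad3a8_al
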