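import Mathlib
import Pool.Agent.Work.MP_8ad3a8_al.Words

set_option autoImplicit false
set_option linter.unusedSectionVars false
set_option linter.unusedSimpArgs false

/-!
The canonical tensors of the quantum symmetriser form, modulo its radical.
-/

namespace Pool.Agent.Work.MP_8ad3a8_al

namespace Words

open Finsupp TensorProduct

theorem exists_ginv {K : Type} [Field K] {n : Type} [Fintype n] [DecidableEq n]
    (A : Matrix n n K) : ∃ G : Matrix n n K, A * G * A = A := by
  let f := Matrix.toLin' A
  obtain ⟨h, hh⟩ := f.rangeRestrict.exists_rightInverse_of_surjective f.range_rangeRestrict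
  obtain ⟨g, hg⟩ := h.exists_extend
  refine ⟨LinearMap.toMatrix' g, ?_⟩
  apply Matrix.toLin'.injective
  rw [Matrix.toLin'_mul, Matrix.toLin'_mul, Matrix.toLin'_toMatrix']
  apply LinearMap.ext
  intro x
  show f (g (f x)) = f x
  have h1 : g (f x) = h (f.rangeRestrict x) := LinearMap.congr_fun hg (f.rangeRestrict x)
  have h2 := congrArg Subtype.val (LinearMap.congr_fun hh (f.rangeRestrict x))
  rw [h1]
  exact h2

variable {I : Type} [Fintype I] [DecidableEq I] {K : Type} [Field K]

/-- words of length `n` -/
noncomputable def FFn (I : Type) (K : Type) [Field K] (n : ℕ) : Submodule K (FF I K) :=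
  Submodule.span K {x | ∃ w : List I, w.length = n ∧ x = single w 1}

theorem single_mem_FFn (w : List I) (a : K) : (single w a : FF I K) ∈ FFn I K w.length := by
  have : (single w a : FF I K) = a • single w 1 := by simp
  rw [this]
  exact Submodule.smul_mem _ _ (Submodule.subset_span ⟨w, rfl, rfl⟩)

theorem single_mem_FFn' {w : List I} {n : ℕ} (h : w.length = n) (a : K) :
    (single w a : FF I K) ∈ FFn I K n := by
  subst h; exact single_mem_FFn w a

theorem consL_mem_FFn (i : I) {n : ℕ} {x : FF I K} (hx : x ∈ FFn I K n) :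
    consL i x ∈ FFn I K (n + 1) := by
  induction hx using Submodule.span_induction with
  | mem x hx =>
    obtain ⟨w, hw, rfl⟩ := hx
    rw [consL_single]
    exact single_mem_FFn' (by simp [hw]) 1
  | zero => simp
  | add x y _ _ hx hy => rw [map_add]; exact Submodule.add_mem _ hx hy
  | smul a x _ hx => rw [map_smul]; exact Submodule.smul_mem _ _ hx

theorem snocL_mem_FFn (i : I) {n : ℕ} {x : FF I K} (hx : x ∈ FFn I K n) :
    snocL i x ∈ FFn I K (n + 1) := by
  induction hx using Submodule.span_induction with
  | mem x hx =>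
    obtain ⟨w, hw, rfl⟩ := hx
    rw [snocL_single]
    exact single_mem_FFn' (by simp [hw]) 1
  | zero => simp
  | add x y _ _ hx hy => rw [map_add]; exact Submodule.add_mem _ hx hy
  | smul a x _ hx => rw [map_smul]; exact Submodule.smul_mem _ _ hx

variable {c : I → I → K}

theorem Lw_mem (i : I) (w : List I) {n : ℕ} (hw : w.length = n + 1) : Lw c i w ∈ FFn I K n := by
  induction w generalizing n with
  | nil => simp at hw
  | cons j w ih =>
    rw [Lw]
    have hn : w.length = n := by simpa using hw
    refine Submodule.add_mem _ ?_ (Submodule.smul_mem _ _ ?_)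
    · split_ifs
      · exact single_mem_FFn' hn 1
      · exact Submodule.zero_mem _
    · cases n with
      | zero =>
        have : w = [] := List.length_eq_zero_iff.mp hn
        subst this
        simp [Lw]
      | succ m => exact consL_mem_FFn _ (ih hn)

theorem Rw_mem (i : I) (w : List I) {n : ℕ} (hw : w.length = n + 1) : Rw c i w ∈ FFn I K n := by
  induction w generalizing n with
  | nil => simp at hw
  | cons j w ih =>
    rw [Rw]
    have hn : w.length = n := by simpa using hw
    refine Submodule.add_mem _ ?_ ?_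
    · split_ifs
      · exact single_mem_FFn' hn _
      · exact Submodule.zero_mem _
    · cases n with
      | zero =>
        have : w = [] := List.length_eq_zero_iff.mp hn
        subst this
        simp [Rw]
      | succ m => exact consL_mem_FFn _ (ih hn)

theorem LL_mem_FFn (i : I) {n : ℕ} {x : FF I K} (hx : x ∈ FFn I K (n + 1)) :
    LL c i x ∈ FFn I K n := by
  induction hx using Submodule.span_induction with
  | mem x hx =>
    obtain ⟨w, hw, rfl⟩ := hx
    rw [LL_single, one_smul]
    exact Lw_mem i w hw
  | zero => simp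
  | add x y _ _ hx hy => rw [map_add]; exact Submodule.add_mem _ hx hy
  | smul a x _ hx => rw [map_smul]; exact Submodule.smul_mem _ _ hx

theorem RR_mem_FFn (i : I) {n : ℕ} {x : FF I K} (hx : x ∈ FFn I K (n + 1)) :
    RR c i x ∈ FFn I K n := by
  induction hx using Submodule.span_induction with
  | mem x hx =>
    obtain ⟨w, hw, rfl⟩ := hx
    rw [RR_single, one_smul]
    exact Rw_mem i w hw
  | zero => simp
  | add x y _ _ hx hy => rw [map_add]; exact Submodule.add_mem _ hx hy
  | smul a x _ hx => rw [map_smul]; exact Submodule.smul_mem _ _ hx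

/-- Gram matrix of the form on words of length `n`. -/
noncomputable def gram (c : I → I → K) (n : ℕ) : Matrix (List.Vector I n) (List.Vector I n) K :=
  fun w w' => S c w.1 (single w'.1 1)

/-- A generalised inverse of the Gram matrix, supported on pairs of words of equal content. -/
noncomputable def ginv (c : I → I → K) (n : ℕ) : Matrix (List.Vector I n) (List.Vector I n) K :=
  fun w w' => if ct w.1 = ct w'.1 then (exists_ginv (gram c n)).choose w w' else 0

theorem ct_of_ginv_ne {c : I → I → K} {n : ℕ} {w w' : List.Vector I n}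
    (h : ginv c n w w' ≠ 0) : ct w.1 = ct w'.1 := by
  by_contra h'
  exact h (by rw [ginv, if_neg h'])

theorem ginv_spec (c : I → I → K) (n : ℕ) : gram c n * ginv c n * gram c n = gram c n := by
  have h0 := (exists_ginv (gram c n)).choose_spec
  rw [Matrix.mul_assoc] at h0 ⊢
  ext a b
  have h1 := congrArg (fun M : Matrix (List.Vector I n) (List.Vector I n) K => M a b) h0
  simp only [Matrix.mul_apply] at h1 ⊢
  by_cases hab : ct a.1 = ct b.1
  · rw [← h1]
    refine Finset.sum_congr rfl fun w _ => ?_
    by_cases hw : ct a.1 = ct w.1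
    · congr 1
      refine Finset.sum_congr rfl fun w' _ => ?_
      by_cases hw' : ct w'.1 = ct b.1
      · congr 1
        rw [ginv, if_pos (hw.symm.trans (hab.trans hw'.symm))]
      · have : gram c n w' b = 0 := S_content _ _ hw'
        rw [this, mul_zero, mul_zero]
    · have : gram c n a w = 0 := S_content _ _ hw
      rw [this, zero_mul, zero_mul]
  · have h2 : gram c n a b = 0 := S_content _ _ hab
    rw [h2]
    refine Finset.sum_eq_zero fun w _ => ?_
    by_cases hw : ct a.1 = ct w.1
    · rw [Finset.sum_eq_zero, mul_zero]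
      intro w' _
      by_cases hw' : ct w'.1 = ct b.1
      · rw [ginv, if_neg, zero_mul]
        intro h3
        exact hab (hw.trans (h3.trans hw'))
      · have : gram c n w' b = 0 := S_content _ _ hw'
        rw [this, mul_zero]
    · have : gram c n a w = 0 := S_content _ _ hw
      rw [this, zero_mul]

theorem gram_id (c : I → I → K) {n : ℕ} {a b : List I} (ha : a.length = n) (hb : b.length = n) :
    ∑ w : List.Vector I n, S c a (single w.1 1) *
      ∑ w' : List.Vector I n, ginv c n w w' * S c w'.1 (single b 1) = S c a (single b 1) := by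
  have h0 := ginv_spec c n
  rw [Matrix.mul_assoc] at h0
  have h1 := congrArg (fun M : Matrix (List.Vector I n) (List.Vector I n) K =>
    M ⟨a, ha⟩ ⟨b, hb⟩) h0
  simp only [Matrix.mul_apply] at h1
  exact h1

/-- the canonical tensor -/
noncomputable def tt (c : I → I → K) (n : ℕ) : FF I K ⊗[K] FF I K :=
  ∑ w : List.Vector I n, ∑ w' : List.Vector I n,
    ginv c n w w' • ((single w.1 1 : FF I K) ⊗ₜ[K] (single w'.1 1 : FF I K))

/-- pairing with two vectors -/
noncomputable def pr (c : I → I → K) (x y : FF I K) : FF I K ⊗[K] FF I K →ₗ[K] K :=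
  LinearMap.mul' K K ∘ₗ TensorProduct.map (SS c x) (SS c y)

@[simp] theorem pr_tmul (x y z z' : FF I K) : pr c x y (z ⊗ₜ z') = SS c x z * SS c y z' := by
  simp [pr]

theorem pr_tt (hc : ∀ i j, c i j = c j i) {n : ℕ} {x y : FF I K} (hx : x ∈ FFn I K n)
    (hy : y ∈ FFn I K n) : pr c x y (tt c n) = SS c x y := by
  have key : ∀ z, pr c x y z = pr c x y z := fun _ => rfl
  induction hx using Submodule.span_induction with
  | zero => simp [pr]
  | add x x' _ _ hx hx' =>
    have : pr c (x + x') y = pr c x y + pr c x' y := by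
      apply TensorProduct.ext'; intro z z'
      simp [add_mul]
    rw [this, LinearMap.add_apply, hx (fun _ => rfl), hx' (fun _ => rfl), map_add,
      LinearMap.add_apply]
  | smul a x _ hx =>
    have : pr c (a • x) y = a • pr c x y := by
      apply TensorProduct.ext'; intro z z'
      simp [mul_assoc]
    rw [this, LinearMap.smul_apply, hx (fun _ => rfl), map_smul, LinearMap.smul_apply]
  | mem x hx =>
    obtain ⟨a, ha, rfl⟩ := hx
    induction hy using Submodule.span_induction with
    | zero => simp [pr]
    | add y y' _ _ hy hy' =>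
      have : pr c (single a 1) (y + y') = pr c (single a 1) y + pr c (single a 1) y' := by
        apply TensorProduct.ext'; intro z z'
        simp [mul_add]
      rw [this, LinearMap.add_apply, hy (fun _ => rfl), hy' (fun _ => rfl), map_add]
    | smul r y _ hy =>
      have : pr c (single a 1) (r • y) = r • pr c (single a 1) y := by
        apply TensorProduct.ext'; intro z z'
        simp [mul_left_comm]
      rw [this, LinearMap.smul_apply, hy (fun _ => rfl), map_smul]
    | mem y hy =>
      obtain ⟨b, hb, rfl⟩ := hy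
      rw [tt, map_sum]
      simp only [map_sum, map_smul, pr_tmul, SS_single, one_mul, smul_eq_mul]
      rw [← gram_id c ha hb]
      refine Finset.sum_congr rfl fun w _ => ?_
      rw [Finset.mul_sum]
      refine Finset.sum_congr rfl fun w' _ => ?_
      rw [S_symm_single hc b w'.1]
      ring

/-- tensors of bidegree `(n, m)` -/
noncomputable def TT (I : Type) (K : Type) [Field K] (n m : ℕ) :
    Submodule K (FF I K ⊗[K] FF I K) :=
  Submodule.map₂ (TensorProduct.mk K (FF I K) (FF I K)) (FFn I K n) (FFn I K m)

theorem tmul_mem_TT {n m : ℕ} {x y : FF I K} (hx : x ∈ FFn I K n) (hy : y ∈ FFn I K m) :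
    x ⊗ₜ[K] y ∈ TT I K n m := Submodule.apply_mem_map₂ _ hx hy

theorem tt_mem (n : ℕ) : tt c n ∈ TT I K n n := by
  refine Submodule.sum_mem _ fun w _ => Submodule.sum_mem _ fun w' _ => Submodule.smul_mem _ _ ?_
  exact tmul_mem_TT (single_mem_FFn' w.2 1) (single_mem_FFn' w'.2 1)

theorem map_mem_TT {n m n' m' : ℕ} {f g : FF I K →ₗ[K] FF I K}
    (hf : ∀ x ∈ FFn I K n, f x ∈ FFn I K n') (hg : ∀ x ∈ FFn I K m, g x ∈ FFn I K m')
    {δ : FF I K ⊗[K] FF I K} (h : δ ∈ TT I K n m) : TensorProduct.map f g δ ∈ TT I K n' m' := by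
  have : TT I K n m ≤ (TT I K n' m').comap (TensorProduct.map f g) := by
    rw [TT, Submodule.map₂_le]
    intro x hx y hy
    rw [Submodule.mem_comap]
    exact tmul_mem_TT (hf x hx) (hg y hy)
  exact this h

/-- projection modulo the radical -/
noncomputable def pj (c : I → I → K) (n : ℕ) : FF I K →ₗ[K] FF I K :=
  ∑ u : List.Vector I n, ∑ u' : List.Vector I n,
    (ginv c n u u') • (LinearMap.toSpanSingleton K (FF I K) (single u.1 1) ∘ₗ S c u'.1)

theorem pj_apply (n : ℕ) (x : FF I K) : pj c n x =
    ∑ u : List.Vector I n, ∑ u' : List.Vector I n,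
      (ginv c n u u' * S c u'.1 x) • (single u.1 1 : FF I K) := by
  simp only [pj, LinearMap.sum_apply, LinearMap.smul_apply, LinearMap.comp_apply,
    LinearMap.toSpanSingleton_apply, smul_smul]

theorem pj_sub_mem (n : ℕ) {x : FF I K} (hx : x ∈ FFn I K n) : pj c n x - x ∈ rad c := by
  induction hx using Submodule.span_induction with
  | zero => simp
  | add x y _ _ hx hy =>
    rw [map_add, add_sub_add_comm]; exact Submodule.add_mem _ hx hy
  | smul a x _ hx => rw [map_smul, ← smul_sub]; exact Submodule.smul_mem _ _ hx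
  | mem x hx =>
    obtain ⟨b, hb, rfl⟩ := hx
    rw [mem_rad]
    intro y
    induction y using Finsupp.induction_linear with
    | zero => simp
    | add x y hx hy => simp only [map_add, LinearMap.add_apply, hx, hy, add_zero]
    | single a r =>
      rw [SS_single, map_sub]
      by_cases ha : a.length = n
      · rw [pj_apply, map_sum]
        simp only [map_sum, map_smul, smul_eq_mul]
        have h2 : ∑ u : List.Vector I n, ∑ u' : List.Vector I n,
            (ginv c n u u' * S c u'.1 (single b 1)) * S c a (single u.1 1) =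
            S c a (single b 1) := by
          rw [← gram_id c ha hb]
          refine Finset.sum_congr rfl fun w _ => ?_
          rw [Finset.mul_sum]
          refine Finset.sum_congr rfl fun w' _ => ?_
          ring
        rw [h2, sub_self, mul_zero]
      · rw [pj_apply, map_sum]
        simp only [map_sum, map_smul, smul_eq_mul]
        have h2 : ∀ u : List.Vector I n, S c a (single u.1 1) = 0 := fun u =>
          S_length a u.1 (fun h => ha (h.trans u.2))
        have h3 : S c a (single b 1) = 0 := S_length a b (fun h => ha (h.trans hb))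
        simp [h2, h3]

theorem sum4_comm {A B C D Z : Type} [Fintype A] [Fintype B] [Fintype C] [Fintype D]
    [AddCommMonoid Z] (f : A → B → C → D → Z) :
    ∑ a, ∑ b, ∑ c, ∑ d, f a b c d = ∑ c, ∑ d, ∑ a, ∑ b, f a b c d := by
  have h := Finset.sum_comm (s := (Finset.univ : Finset (A × B)))
    (t := (Finset.univ : Finset (C × D))) (f := fun x y => f x.1 x.2 y.1 y.2)
  simpa [Fintype.sum_prod_type] using h

/-- Reconstruction formula. -/
theorem lift_formula {Z : Type} [AddCommGroup Z] [Module K Z]
    (β : FF I K →ₗ[K] FF I K →ₗ[K] Z) (h1 : ∀ x ∈ rad c, ∀ y, β x y = 0)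
    (h2 : ∀ x, ∀ y ∈ rad c, β x y = 0) {n m : ℕ} {δ : FF I K ⊗[K] FF I K}
    (hδ : δ ∈ TT I K n m) :
    TensorProduct.lift β δ = ∑ u : List.Vector I n, ∑ u' : List.Vector I n,
      ∑ v : List.Vector I m, ∑ v' : List.Vector I m,
      (ginv c n u u' * ginv c m v v' * pr c (single u'.1 1) (single v'.1 1) δ) •
        β (single u.1 1) (single v.1 1) := by
  let Q : FF I K ⊗[K] FF I K →ₗ[K] Z := ∑ u : List.Vector I n, ∑ u' : List.Vector I n,
    ∑ v : List.Vector I m, ∑ v' : List.Vector I m, (ginv c n u u' * ginv c m v v') •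
      (LinearMap.toSpanSingleton K Z (β (single u.1 1) (single v.1 1)) ∘ₗ
        pr c (single u'.1 1) (single v'.1 1))
  have hQ : ∀ z, Q z = ∑ u : List.Vector I n, ∑ u' : List.Vector I n,
      ∑ v : List.Vector I m, ∑ v' : List.Vector I m,
      (ginv c n u u' * ginv c m v v' * pr c (single u'.1 1) (single v'.1 1) z) •
        β (single u.1 1) (single v.1 1) := by
    intro z
    simp only [Q, LinearMap.sum_apply, LinearMap.smul_apply, LinearMap.comp_apply,
      LinearMap.toSpanSingleton_apply, smul_smul]
  rw [← hQ]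
  have : TT I K n m ≤ LinearMap.eqLocus (TensorProduct.lift β) Q := by
    rw [TT, Submodule.map₂_le]
    intro x hx y hy
    rw [LinearMap.mem_eqLocus, hQ]
    show β x y = _
    have e1 : β x y = β (pj c n x) (pj c m y) := by
      have a1 := h1 _ (pj_sub_mem n hx) y
      have a2 := h2 (pj c n x) _ (pj_sub_mem m hy)
      rw [map_sub, LinearMap.sub_apply, sub_eq_zero] at a1
      rw [map_sub, sub_eq_zero] at a2
      rw [a2, a1]
    rw [e1, pj_apply, pj_apply]
    simp only [map_sum, LinearMap.sum_apply, map_smul, LinearMap.smul_apply, TensorProduct.mk_apply,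
      pr_tmul, SS_single, one_mul, Finset.smul_sum, smul_smul]
    rw [sum4_comm]
    refine Finset.sum_congr rfl fun u _ => ?_
    refine Finset.sum_congr rfl fun u' _ => ?_
    refine Finset.sum_congr rfl fun v _ => ?_
    refine Finset.sum_congr rfl fun v' _ => ?_
    congr 1
    ring
  exact this hδ

theorem lift_eq {Z : Type} [AddCommGroup Z] [Module K Z]
    (β : FF I K →ₗ[K] FF I K →ₗ[K] Z) (h1 : ∀ x ∈ rad c, ∀ y, β x y = 0)
    (h2 : ∀ x, ∀ y ∈ rad c, β x y = 0) {n m : ℕ} {δ δ' : FF I K ⊗[K] FF I K}
    (hδ : δ ∈ TT I K n m) (hδ' : δ' ∈ TT I K n m)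
    (h : ∀ x ∈ FFn I K n, ∀ y ∈ FFn I K m, pr c x y δ = pr c x y δ') :
    TensorProduct.lift β δ = TensorProduct.lift β δ' := by
  rw [lift_formula β h1 h2 hδ, lift_formula β h1 h2 hδ']
  refine Finset.sum_congr rfl fun u _ => ?_
  refine Finset.sum_congr rfl fun u' _ => ?_
  refine Finset.sum_congr rfl fun v _ => ?_
  refine Finset.sum_congr rfl fun v' _ => ?_
  rw [h _ (single_mem_FFn' u'.2 1) _ (single_mem_FFn' v'.2 1)]

theorem pr_map (f g f' g' : FF I K →ₗ[K] FF I K)
    (hf : ∀ x y, SS c x (f y) = SS c (f' x) y) (hg : ∀ x y, SS c x (g y) = SS c (g' x) y)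
    (x y : FF I K) (δ : FF I K ⊗[K] FF I K) :
    pr c x y (TensorProduct.map f g δ) = pr c (f' x) (g' y) δ := by
  have : pr c x y ∘ₗ TensorProduct.map f g = pr c (f' x) (g' y) := by
    apply TensorProduct.ext'
    intro z z'
    simp [hf, hg]
  exact LinearMap.congr_fun this δ

section four

variable {Z : Type} [AddCommGroup Z] [Module K Z]
  (β : FF I K →ₗ[K] FF I K →ₗ[K] Z) (h1 : ∀ x ∈ rad c, ∀ y, β x y = 0)
  (h2 : ∀ x, ∀ y ∈ rad c, β x y = 0)

include h1 h2

theorem tt_R1 (hc : ∀ i j, c i j = c j i) (i : I) (n : ℕ) :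
    TensorProduct.lift β (TensorProduct.map LinearMap.id (LL c i) (tt c (n + 1))) =
      TensorProduct.lift β (TensorProduct.map (consL i) LinearMap.id (tt c n)) := by
  refine lift_eq (n := n + 1) (m := n) β h1 h2 ?_ ?_ ?_
  · exact map_mem_TT (fun x hx => hx) (fun x hx => LL_mem_FFn i hx) (tt_mem _)
  · exact map_mem_TT (fun x hx => consL_mem_FFn i hx) (fun x hx => hx) (tt_mem _)
  · intro x hx y hy
    rw [pr_map LinearMap.id (LL c i) LinearMap.id (consL i) (fun _ _ => rfl)
      (fun x y => (SS_cons i x y).symm), pr_map (consL i) LinearMap.id (LL c i) LinearMap.id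
      (fun x y => SS_consL hc i x y) (fun _ _ => rfl), LinearMap.id_apply, LinearMap.id_apply,
      pr_tt hc hx (consL_mem_FFn i hy), pr_tt hc (LL_mem_FFn i hx) hy, SS_consL hc]

theorem tt_R2 (hc : ∀ i j, c i j = c j i) (i : I) (n : ℕ) :
    TensorProduct.lift β (TensorProduct.map LinearMap.id (RR c i) (tt c (n + 1))) =
      TensorProduct.lift β (TensorProduct.map (snocL i) LinearMap.id (tt c n)) := by
  refine lift_eq (n := n + 1) (m := n) β h1 h2 ?_ ?_ ?_
  · exact map_mem_TT (fun x hx => hx) (fun x hx => RR_mem_FFn i hx) (tt_mem _)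
  · exact map_mem_TT (fun x hx => snocL_mem_FFn i hx) (fun x hx => hx) (tt_mem _)
  · intro x hx y hy
    rw [pr_map LinearMap.id (RR c i) LinearMap.id (snocL i) (fun _ _ => rfl)
      (fun x y => (SS_snoc hc i x y).symm), pr_map (snocL i) LinearMap.id (RR c i) LinearMap.id
      (fun x y => SS_snocL hc i x y) (fun _ _ => rfl), LinearMap.id_apply, LinearMap.id_apply,
      pr_tt hc hx (snocL_mem_FFn i hy), pr_tt hc (RR_mem_FFn i hx) hy, SS_snocL hc]

theorem tt_R3 (hc : ∀ i j, c i j = c j i) (i : I) (n : ℕ) :
    TensorProduct.lift β (TensorProduct.map (LL c i) LinearMap.id (tt c (n + 1))) =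
      TensorProduct.lift β (TensorProduct.map LinearMap.id (consL i) (tt c n)) := by
  refine lift_eq (n := n) (m := n + 1) β h1 h2 ?_ ?_ ?_
  · exact map_mem_TT (fun x hx => LL_mem_FFn i hx) (fun x hx => hx) (tt_mem _)
  · exact map_mem_TT (fun x hx => hx) (fun x hx => consL_mem_FFn i hx) (tt_mem _)
  · intro x hx y hy
    rw [pr_map (LL c i) LinearMap.id (consL i) LinearMap.id
      (fun x y => (SS_cons i x y).symm) (fun _ _ => rfl), pr_map LinearMap.id (consL i)
      LinearMap.id (LL c i) (fun _ _ => rfl) (fun x y => SS_consL hc i x y),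
      LinearMap.id_apply, LinearMap.id_apply,
      pr_tt hc (consL_mem_FFn i hx) hy, pr_tt hc hx (LL_mem_FFn i hy), SS_cons]

theorem tt_R4 (hc : ∀ i j, c i j = c j i) (i : I) (n : ℕ) :
    TensorProduct.lift β (TensorProduct.map (RR c i) LinearMap.id (tt c (n + 1))) =
      TensorProduct.lift β (TensorProduct.map LinearMap.id (snocL i) (tt c n)) := by
  refine lift_eq (n := n) (m := n + 1) β h1 h2 ?_ ?_ ?_
  · exact map_mem_TT (fun x hx => RR_mem_FFn i hx) (fun x hx => hx) (tt_mem _)
  · exact map_mem_TT (fun x hx => hx) (fun x hx => snocL_mem_FFn i hx) (tt_mem _)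
  · intro x hx y hy
    rw [pr_map (RR c i) LinearMap.id (snocL i) LinearMap.id
      (fun x y => (SS_snoc hc i x y).symm) (fun _ _ => rfl), pr_map LinearMap.id (snocL i)
      LinearMap.id (RR c i) (fun _ _ => rfl) (fun x y => SS_snocL hc i x y),
      LinearMap.id_apply, LinearMap.id_apply,
      pr_tt hc (snocL_mem_FFn i hx) hy, pr_tt hc hx (RR_mem_FFn i hy), SS_snoc hc]

end four

end Words

end Pool.Agent.Work.MP_8ad3a8_al
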