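import Mathlib
import Pool.Agent.Work.MP_8ad3a8_al.Canon

set_option autoImplicit false
set_option linter.unusedSectionVars false
set_option linter.unusedSimpArgs false

/-!
The quasi-R-matrix acting on an algebra `A` containing operators `E, F, K` (to be used for
`A = End V = V^* ⊗ V`).
-/

namespace Pool.Agent.Work.MP_8ad3a8_al

open Words Finsupp TensorProduct

variable {I : Type} [Fintype I] [DecidableEq I] {K : Type} [Field K]
variable {A : Type} [Ring A] [Algebra K A]

/-- `v_i - v_i⁻¹` -/
def sv (v : K) (dd : I → ℤ) (i : I) : K := v ^ dd i - v ^ (-dd i)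

/-- The relations of the quantum group (without Serre relations). -/
structure Rel (dot : I → I → ℤ) (dd : I → ℤ) (v : K) (E F Kp Km : I → A) : Prop where
  Kp_Km : ∀ i, Kp i * Km i = 1
  Km_Kp : ∀ i, Km i * Kp i = 1
  Kp_comm : ∀ i j, Kp i * Kp j = Kp j * Kp i
  Kp_E : ∀ i j, Kp i * E j = (v ^ dot i j) • (E j * Kp i)
  Kp_F : ∀ i j, Kp i * F j = (v ^ (-dot i j)) • (F j * Kp i)
  EF : ∀ i j, E i * F j - F j * E i = if i = j then (sv v dd i)⁻¹ • (Kp i - Km i) else 0

namespace Rel

variable {dot : I → I → ℤ} {dd : I → ℤ} {v : K} {E F Kp Km : I → A}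

theorem Km_E (h : Rel dot dd v E F Kp Km) (hv : v ≠ 0) (i j : I) :
    Km i * E j = (v ^ (-dot i j)) • (E j * Km i) := by
  have h1 : E j * Km i = Km i * (Kp i * E j) * Km i := by
    rw [← mul_assoc (Km i), h.Km_Kp, one_mul]
  rw [h1, h.Kp_E, mul_smul_comm, smul_mul_assoc, smul_smul, ← mul_assoc, mul_assoc _ (Kp i),
    h.Kp_Km, mul_one, ← zpow_add₀ hv, neg_add_cancel, zpow_zero, one_smul]

theorem Km_F (h : Rel dot dd v E F Kp Km) (hv : v ≠ 0) (i j : I) :
    Km i * F j = (v ^ (dot i j)) • (F j * Km i) := by
  have h1 : F j * Km i = Km i * (Kp i * F j) * Km i := by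
    rw [← mul_assoc (Km i), h.Km_Kp, one_mul]
  rw [h1, h.Kp_F, mul_smul_comm, smul_mul_assoc, smul_smul, ← mul_assoc, mul_assoc _ (Kp i),
    h.Kp_Km, mul_one, ← zpow_add₀ hv, add_neg_cancel, zpow_zero, one_smul]

theorem Km_Kp_comm (h : Rel dot dd v E F Kp Km) (i j : I) : Km i * Kp j = Kp j * Km i := by
  have h1 : Kp j = Kp j * (Kp i * Km i) := by rw [h.Kp_Km, mul_one]
  calc Km i * Kp j = Km i * (Kp j * (Kp i * Km i)) := by rw [← h1]
    _ = Km i * (Kp j * Kp i) * Km i := by noncomm_ring
    _ = Km i * (Kp i * Kp j) * Km i := by rw [h.Kp_comm]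
    _ = (Km i * Kp i) * Kp j * Km i := by noncomm_ring
    _ = _ := by rw [h.Km_Kp, one_mul]

end Rel

section defs

variable (dot : I → I → ℤ) (dd : I → ℤ) (v : K) (E F Kp Km : I → A)

/-- the cocycle `v^(i·j)` -/
def cc (dot : I → I → ℤ) (v : K) : I → I → K := fun i j => v ^ dot i j

def ee (i : I) : A := (-(sv v dd i)) • E i
def ff (i : I) : A := -(F i * Kp i)
def eh (i : I) : A := (sv v dd i) • (Km i * E i)

/-- product of the `e` along a word -/
def Pw (e : I → A) : List I → A
  | [] => 1
  | i :: w => e i * Pw e w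

/-- reversed product of the `f` along a word -/
def Qw (f : I → A) : List I → A
  | [] => 1
  | i :: w => Qw f w * f i

noncomputable def PL (K : Type) [Field K] [Algebra K A] (e : I → A) : FF I K →ₗ[K] A :=
  Finsupp.linearCombination K (Pw e)
noncomputable def QL (K : Type) [Field K] [Algebra K A] (f : I → A) : FF I K →ₗ[K] A :=
  Finsupp.linearCombination K (Qw f)

end defs

@[simp] theorem PL_single (e : I → A) (w : List I) (a : K) :
    PL K e (single w a) = a • Pw e w := by simp [PL]
@[simp] theorem QL_single (f : I → A) (w : List I) (a : K) :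
    QL K f (single w a) = a • Qw f w := by simp [QL]

theorem Pw_append (e : I → A) (w w' : List I) : Pw e (w ++ w') = Pw e w * Pw e w' := by
  induction w with
  | nil => simp [Pw]
  | cons i w ih => rw [List.cons_append, Pw, ih, Pw, mul_assoc]

theorem Qw_append (f : I → A) (w w' : List I) : Qw f (w ++ w') = Qw f w' * Qw f w := by
  induction w with
  | nil => simp [Qw]
  | cons i w ih => rw [List.cons_append, Qw, ih, Qw, mul_assoc]

theorem PL_consL (e : I → A) (i : I) (x : FF I K) : PL K e (consL i x) = e i * PL K e x := by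
  induction x using Finsupp.induction_linear with
  | zero => simp
  | add x y hx hy => simp only [map_add, hx, hy, mul_add]
  | single w a => simp [Pw]

theorem PL_snocL (e : I → A) (i : I) (x : FF I K) : PL K e (snocL i x) = PL K e x * e i := by
  induction x using Finsupp.induction_linear with
  | zero => simp
  | add x y hx hy => simp only [map_add, hx, hy, add_mul]
  | single w a => simp [Pw_append, Pw]

theorem QL_consL (f : I → A) (i : I) (x : FF I K) : QL K f (consL i x) = QL K f x * f i := by
  induction x using Finsupp.induction_linear with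
  | zero => simp
  | add x y hx hy => simp only [map_add, hx, hy, add_mul]
  | single w a => simp [Qw]

theorem QL_snocL (f : I → A) (i : I) (x : FF I K) : QL K f (snocL i x) = f i * QL K f x := by
  induction x using Finsupp.induction_linear with
  | zero => simp
  | add x y hx hy => simp only [map_add, hx, hy, mul_add]
  | single w a => simp [Qw_append, Qw]

section comm

variable {dot : I → I → ℤ} {dd : I → ℤ} {v : K} {E F Kp Km : I → A}
  (h : Rel dot dd v E F Kp Km) (hv : v ≠ 0) (hs : ∀ i, sv v dd i ≠ 0)
  (hsym : ∀ i j, dot i j = dot j i)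

include h hv

theorem Kp_ee (i j : I) : Kp i * ee dd v E j = cc dot v i j • (ee dd v E j * Kp i) := by
  rw [ee, mul_smul_comm, h.Kp_E, smul_mul_assoc, smul_comm]; rfl

theorem ee_Km (i j : I) : cc dot v i j • (Km i * ee dd v E j) = ee dd v E j * Km i := by
  rw [ee, mul_smul_comm, h.Km_E hv, smul_mul_assoc, smul_comm, smul_smul (cc dot v i j), cc,
    ← zpow_add₀ hv, add_neg_cancel, zpow_zero, one_smul]

theorem Kp_PL (i : I) (x : FF I K) :
    Kp i * PL K (ee dd v E) x = PL K (ee dd v E) (ZZ (cc dot v) i x) * Kp i := by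
  induction x using Finsupp.induction_linear with
  | zero => simp
  | add x y hx hy => simp only [map_add, hx, hy, mul_add, add_mul]
  | single w a =>
    rw [ZZ_single, PL_single, PL_single, mul_smul_comm, smul_mul_assoc, mul_smul]
    congr 1
    induction w with
    | nil => simp [Pw]
    | cons j w ih =>
      rw [Pw, ← mul_assoc, Kp_ee h hv, wt_cons, smul_mul_assoc, mul_assoc, ih, mul_smul_comm,
        smul_smul, mul_assoc]

include hs in
theorem ee_F (i j : I) : ee dd v E i * F j - F j * ee dd v E i =
    if i = j then Km i - Kp i else 0 := by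
  rw [ee, smul_mul_assoc, mul_smul_comm, ← smul_sub, h.EF]
  split_ifs
  · rw [smul_smul, neg_mul, mul_inv_cancel₀ (hs i), neg_smul, one_smul, neg_sub]
  · simp

include hs in
theorem comm1 (i : I) (x : FF I K) :
    PL K (ee dd v E) x * F i - F i * PL K (ee dd v E) x =
      Km i * PL K (ee dd v E) (LL (cc dot v) i x) -
        PL K (ee dd v E) (RR (cc dot v) i x) * Kp i := by
  induction x using Finsupp.induction_linear with
  | zero => simp
  | add x y hx hy =>
    simp only [map_add, add_mul, mul_add]
    rw [add_sub_add_comm, hx, hy, add_sub_add_comm]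
  | single w a =>
    have h2 : (single w a : FF I K) = a • single w 1 := by simp
    rw [h2]
    simp only [map_smul, smul_mul_assoc, mul_smul_comm]
    rw [← smul_sub, ← smul_sub]
    congr 1
    clear h2
    induction w with
    | nil => simp [Pw, Lw, Rw]
    | cons j w ih =>
      have h1 : (single (j :: w) 1 : FF I K) = consL j (single w 1) := by simp
      rw [h1]
      generalize (single w 1 : FF I K) = x at ih
      rw [PL_consL, LL_cons, RR_cons, map_add, map_add, map_smul, PL_consL, PL_consL]
      have e1 : ee dd v E j * PL K (ee dd v E) x * F i - F i * (ee dd v E j * PL K (ee dd v E) x) =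
          ee dd v E j * (PL K (ee dd v E) x * F i - F i * PL K (ee dd v E) x) +
          (ee dd v E j * F i - F i * ee dd v E j) * PL K (ee dd v E) x := by noncomm_ring
      rw [e1, ih, ee_F h hv hs]
      have e2 : Km i * (cc dot v i j • (ee dd v E j * PL K (ee dd v E) (LL (cc dot v) i x))) =
          ee dd v E j * Km i * PL K (ee dd v E) (LL (cc dot v) i x) := by
        rw [← ee_Km h hv i j, mul_smul_comm, smul_mul_assoc, mul_assoc]
      rw [mul_add (Km i), e2, add_mul]
      by_cases hij : i = j
      · subst hij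
        simp only [if_true]
        rw [sub_mul (Km i), Kp_PL h hv]
        noncomm_ring
      · rw [if_neg hij, if_neg hij, if_neg (Ne.symm hij)]
        simp only [map_zero, mul_zero, zero_mul, zero_add, add_zero]
        noncomm_ring

theorem ff_Kp (i j : I) : ff F Kp j * Kp i = cc dot v i j • (Kp i * ff F Kp j) := by
  rw [ff, neg_mul, mul_neg, ← mul_assoc (Kp i), h.Kp_F, smul_neg, smul_mul_assoc, smul_smul, cc,
    ← zpow_add₀ hv, add_neg_cancel, zpow_zero, one_smul, mul_assoc, mul_assoc, h.Kp_comm]

theorem Km_ff (i j : I) : Km i * ff F Kp j = cc dot v i j • (ff F Kp j * Km i) := by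
  rw [ff, neg_mul, mul_neg, ← mul_assoc, h.Km_F hv, smul_neg, smul_mul_assoc, cc, mul_assoc,
    h.Km_Kp_comm, mul_assoc]

theorem QL_Kp (i : I) (x : FF I K) :
    QL K (ff F Kp) x * Kp i = Kp i * QL K (ff F Kp) (ZZ (cc dot v) i x) := by
  induction x using Finsupp.induction_linear with
  | zero => simp
  | add x y hx hy => simp only [map_add, hx, hy, mul_add, add_mul]
  | single w a =>
    rw [ZZ_single, QL_single, QL_single, mul_smul_comm, smul_mul_assoc, mul_smul]
    congr 1
    induction w with
    | nil => simp [Qw]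
    | cons j w ih =>
      rw [Qw, mul_assoc, ff_Kp h hv i j, wt_cons, mul_smul_comm, ← mul_assoc, ih, smul_mul_assoc,
        smul_smul, mul_assoc]

include hs hsym in
theorem ff_eh (i j : I) : ff F Kp j * eh dd v E Km i - eh dd v E Km i * ff F Kp j =
    if i = j then Kp i - Km i else 0 := by
  have e1 : ff F Kp j * (Km i * E i) = -(Km i * (F j * E i) * Kp j) := by
    have a1 : Kp j * (Km i * E i) = v ^ dot j i • (Km i * (E i * Kp j)) := by
      rw [← mul_assoc, ← h.Km_Kp_comm i j, mul_assoc, h.Kp_E, mul_smul_comm]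
    have a2 : F j * (Km i * (E i * Kp j)) = v ^ (-dot i j) • (Km i * (F j * E i) * Kp j) := by
      have a3 : F j * Km i = v ^ (-dot i j) • (Km i * F j) := by
        rw [h.Km_F hv, smul_smul, ← zpow_add₀ hv, neg_add_cancel, zpow_zero, one_smul]
      rw [← mul_assoc, a3, smul_mul_assoc]
      simp only [mul_assoc]
    rw [ff, neg_mul, mul_assoc, a1, mul_smul_comm, a2, smul_smul, ← zpow_add₀ hv, hsym j i,
      add_neg_cancel, zpow_zero, one_smul]
  have e2 : Km i * E i * ff F Kp j = -(Km i * (E i * F j) * Kp j) := by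
    rw [ff, mul_neg]; simp only [mul_assoc]
  rw [eh, mul_smul_comm, smul_mul_assoc, ← smul_sub, e1, e2, neg_sub_neg]
  have e3 : Km i * (E i * F j) * Kp j - Km i * (F j * E i) * Kp j =
      Km i * (E i * F j - F j * E i) * Kp j := by noncomm_ring
  rw [e3, h.EF]
  split_ifs with hij
  · subst hij
    rw [mul_smul_comm, smul_mul_assoc, smul_smul, mul_inv_cancel₀ (hs i), one_smul, mul_sub,
      sub_mul, h.Km_Kp, one_mul, mul_assoc, h.Km_Kp, mul_one]
  · simp

include hs hsym in
theorem comm2 (i : I) (x : FF I K) :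
    QL K (ff F Kp) x * eh dd v E Km i - eh dd v E Km i * QL K (ff F Kp) x =
      Kp i * QL K (ff F Kp) (RR (cc dot v) i x) - QL K (ff F Kp) (LL (cc dot v) i x) * Km i := by
  induction x using Finsupp.induction_linear with
  | zero => simp
  | add x y hx hy =>
    simp only [map_add, add_mul, mul_add]
    rw [add_sub_add_comm, hx, hy, add_sub_add_comm]
  | single w a =>
    have h2 : (single w a : FF I K) = a • single w 1 := by simp
    rw [h2]
    simp only [map_smul, smul_mul_assoc, mul_smul_comm]
    rw [← smul_sub, ← smul_sub]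
    congr 1
    clear h2
    induction w with
    | nil => simp [Qw, Lw, Rw]
    | cons j w ih =>
      have h1 : (single (j :: w) 1 : FF I K) = consL j (single w 1) := by simp
      rw [h1]
      generalize (single w 1 : FF I K) = x at ih
      rw [QL_consL, LL_cons, RR_cons, map_add, map_add, map_smul, QL_consL, QL_consL]
      have e1 : QL K (ff F Kp) x * ff F Kp j * eh dd v E Km i -
          eh dd v E Km i * (QL K (ff F Kp) x * ff F Kp j) =
          QL K (ff F Kp) x * (ff F Kp j * eh dd v E Km i - eh dd v E Km i * ff F Kp j) +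
          (QL K (ff F Kp) x * eh dd v E Km i - eh dd v E Km i * QL K (ff F Kp) x) * ff F Kp j := by
        noncomm_ring
      rw [e1, ih, ff_eh h hv hs hsym]
      have e2 : QL K (ff F Kp) (LL (cc dot v) i x) * Km i * ff F Kp j =
          (cc dot v i j • (QL K (ff F Kp) (LL (cc dot v) i x) * ff F Kp j)) * Km i := by
        rw [mul_assoc, Km_ff h hv, mul_smul_comm, smul_mul_assoc, mul_assoc]
      rw [sub_mul, e2, add_mul]
      by_cases hij : i = j
      · subst hij
        simp only [if_true]
        rw [mul_sub, QL_Kp h hv]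
        noncomm_ring
      · rw [if_neg hij, if_neg hij, if_neg hij]
        simp only [map_zero, mul_zero, zero_mul, zero_add, add_zero]
        noncomm_ring

end comm

/-- the degree `n` part of the quasi-R-matrix -/
noncomputable def Th (dot : I → I → ℤ) (v : K) (e f : I → A) (n : ℕ) : A →ₗ[K] A :=
  ∑ w : List.Vector I n, ∑ w' : List.Vector I n, ginv (cc dot v) n w w' •
    (LinearMap.mulLeft K (Pw e w'.1) ∘ₗ LinearMap.mulRight K (Qw f w.1))

/-- the bilinear map used to define `Th` -/
noncomputable def be (e f : I → A) (X : A) : FF I K →ₗ[K] FF I K →ₗ[K] A :=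
  LinearMap.mk₂ K (fun x y => PL K e y * (X * QL K f x))
    (fun x x' y => by rw [map_add, mul_add, mul_add])
    (fun a x y => by rw [map_smul, mul_smul_comm, mul_smul_comm])
    (fun x y y' => by rw [map_add, add_mul])
    (fun a x y => by rw [map_smul, smul_mul_assoc])

@[simp] theorem be_apply (e f : I → A) (X : A) (x y : FF I K) :
    be e f X x y = PL K e y * (X * QL K f x) := rfl

theorem Th_eq (dot : I → I → ℤ) (v : K) (e f : I → A) (n : ℕ) (X : A) :
    Th dot v e f n X = TensorProduct.lift (be e f X) (tt (cc dot v) n) := by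
  simp only [Th, tt, LinearMap.sum_apply, map_sum, LinearMap.smul_apply, map_smul,
    LinearMap.comp_apply, LinearMap.mulLeft_apply, LinearMap.mulRight_apply,
    TensorProduct.lift.tmul, be_apply, PL_single, QL_single, one_smul]

theorem lift_map_eq {e f : I → A} {X Y : A} {g h : FF I K →ₗ[K] FF I K} {T : A →ₗ[K] A}
    (δ : FF I K ⊗[K] FF I K)
    (H : ∀ x y, PL K e (h y) * (X * QL K f (g x)) = T (PL K e y * (Y * QL K f x))) :
    TensorProduct.lift (be e f X) (TensorProduct.map g h δ) =
      T (TensorProduct.lift (be e f Y) δ) := by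
  have : TensorProduct.lift (be e f X) ∘ₗ TensorProduct.map g h =
      T ∘ₗ TensorProduct.lift (be e f Y) := by
    apply TensorProduct.ext'
    intro x y
    simp only [LinearMap.comp_apply, TensorProduct.map_tmul, TensorProduct.lift.tmul, be_apply]
    exact H x y
  exact LinearMap.congr_fun this δ

section main

variable {dot : I → I → ℤ} {dd : I → ℤ} {v : K} {E F Kp Km : I → A}
  (h : Rel dot dd v E F Kp Km) (hv : v ≠ 0) (hs : ∀ i, sv v dd i ≠ 0)
  (hsym : ∀ i j, dot i j = dot j i)
  (hP : ∀ x ∈ rad (cc dot v), PL K (ee dd v E) x = 0)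
  (hQ : ∀ x ∈ rad (cc dot v), QL K (ff F Kp) x = 0)

include hsym in
theorem cc_symm (i j : I) : cc dot v i j = cc dot v j i := by rw [cc, cc, hsym]

include h hv hs hsym hP hQ

theorem Th_F (n : ℕ) (i : I) (X : A) :
    Th dot v (ee dd v E) (ff F Kp) (n + 1) (F i * X) -
      F i * Th dot v (ee dd v E) (ff F Kp) (n + 1) X =
    Km i * Th dot v (ee dd v E) (ff F Kp) n X * ff F Kp i -
      Th dot v (ee dd v E) (ff F Kp) n (Kp i * X * ff F Kp i) := by
  have b1 : ∀ Y, ∀ x ∈ rad (cc dot v), ∀ y, be (ee dd v E) (ff F Kp) Y x y = 0 := by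
    intro Y x hx y; rw [be_apply, hQ x hx, mul_zero, mul_zero]
  have b2 : ∀ Y, ∀ x, ∀ y ∈ rad (cc dot v), be (ee dd v E) (ff F Kp) Y x y = 0 := by
    intro Y x y hy; rw [be_apply, hP y hy, zero_mul]
  have e0 : ∀ δ : FF I K ⊗[K] FF I K, TensorProduct.lift (be (ee dd v E) (ff F Kp) (F i * X)) δ -
      F i * TensorProduct.lift (be (ee dd v E) (ff F Kp) X) δ =
      Km i * TensorProduct.lift (be (ee dd v E) (ff F Kp) X)
        (TensorProduct.map LinearMap.id (LL (cc dot v) i) δ) -
      TensorProduct.lift (be (ee dd v E) (ff F Kp) (Kp i * X))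
        (TensorProduct.map LinearMap.id (RR (cc dot v) i) δ) := by
    intro δ
    induction δ using TensorProduct.induction_on with
    | zero => simp
    | add x y hx hy =>
      simp only [map_add, mul_add]
      rw [add_sub_add_comm, hx, hy, add_sub_add_comm]
    | tmul x y =>
      simp only [TensorProduct.lift.tmul, be_apply, TensorProduct.map_tmul, LinearMap.id_apply]
      have := comm1 h hv hs i y
      calc _ = (PL K (ee dd v E) y * F i - F i * PL K (ee dd v E) y) * (X * QL K (ff F Kp) x) := by
            noncomm_ring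
        _ = _ := by rw [this]; noncomm_ring
  rw [Th_eq, Th_eq, e0, tt_R1 _ (b1 _) (b2 _) (cc_symm hsym), tt_R2 _ (b1 _) (b2 _) (cc_symm hsym)]
  rw [Th_eq, Th_eq]
  congr 1
  · rw [lift_map_eq (T := LinearMap.mulRight K (ff F Kp i)) (Y := X), LinearMap.mulRight_apply,
      mul_assoc]
    intro x y
    rw [QL_consL, LinearMap.mulRight_apply, LinearMap.id_apply]
    simp only [mul_assoc]
  · rw [lift_map_eq (T := LinearMap.id) (Y := Kp i * X * ff F Kp i), LinearMap.id_apply]
    intro x y
    rw [QL_snocL, LinearMap.id_apply, LinearMap.id_apply]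
    simp only [mul_assoc]

theorem Th_E (n : ℕ) (i : I) (X : A) :
    Th dot v (ee dd v E) (ff F Kp) (n + 1) X * eh dd v E Km i -
      Th dot v (ee dd v E) (ff F Kp) (n + 1) (X * eh dd v E Km i) =
    Th dot v (ee dd v E) (ff F Kp) n (ee dd v E i * X * Kp i) -
      ee dd v E i * Th dot v (ee dd v E) (ff F Kp) n X * Km i := by
  have b1 : ∀ Y, ∀ x ∈ rad (cc dot v), ∀ y, be (ee dd v E) (ff F Kp) Y x y = 0 := by
    intro Y x hx y; rw [be_apply, hQ x hx, mul_zero, mul_zero]
  have b2 : ∀ Y, ∀ x, ∀ y ∈ rad (cc dot v), be (ee dd v E) (ff F Kp) Y x y = 0 := by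
    intro Y x y hy; rw [be_apply, hP y hy, zero_mul]
  have e0 : ∀ δ : FF I K ⊗[K] FF I K,
      TensorProduct.lift (be (ee dd v E) (ff F Kp) X) δ * eh dd v E Km i -
      TensorProduct.lift (be (ee dd v E) (ff F Kp) (X * eh dd v E Km i)) δ =
      TensorProduct.lift (be (ee dd v E) (ff F Kp) (X * Kp i))
        (TensorProduct.map (RR (cc dot v) i) LinearMap.id δ) -
      TensorProduct.lift (be (ee dd v E) (ff F Kp) X)
        (TensorProduct.map (LL (cc dot v) i) LinearMap.id δ) * Km i := by
    intro δ
    induction δ using TensorProduct.induction_on with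
    | zero => simp
    | add x y hx hy =>
      simp only [map_add, add_mul]
      rw [add_sub_add_comm, hx, hy, add_sub_add_comm]
    | tmul x y =>
      simp only [TensorProduct.lift.tmul, be_apply, TensorProduct.map_tmul, LinearMap.id_apply]
      have := comm2 h hv hs hsym i x
      calc _ = PL K (ee dd v E) y * (X * (QL K (ff F Kp) x * eh dd v E Km i -
              eh dd v E Km i * QL K (ff F Kp) x)) := by noncomm_ring
        _ = _ := by rw [this]; noncomm_ring
  rw [Th_eq, Th_eq, e0, tt_R3 _ (b1 _) (b2 _) (cc_symm hsym), tt_R4 _ (b1 _) (b2 _) (cc_symm hsym)]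
  rw [Th_eq, Th_eq]
  congr 1
  · rw [lift_map_eq (T := LinearMap.id) (Y := ee dd v E i * X * Kp i), LinearMap.id_apply]
    intro x y
    rw [PL_snocL, LinearMap.id_apply, LinearMap.id_apply]
    simp only [mul_assoc]
  · rw [lift_map_eq (T := LinearMap.mulLeft K (ee dd v E i)) (Y := X), LinearMap.mulLeft_apply]
    intro x y
    rw [PL_consL, LinearMap.mulLeft_apply, LinearMap.id_apply]
    simp only [mul_assoc]

omit h hv hs hsym hP hQ in
theorem sum_vec_zero {Z : Type} [AddCommMonoid Z] (f : List.Vector I 0 → Z) :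
    ∑ w, f w = f List.Vector.nil := by
  have : Subsingleton (List.Vector I 0) :=
    ⟨fun a b => (List.Vector.eq_nil a).trans (List.Vector.eq_nil b).symm⟩
  exact Fintype.sum_subsingleton f List.Vector.nil

omit h hs hsym hP hQ in
theorem ginv_zero (w w' : List.Vector I 0) : ginv (cc dot v) 0 w w' = 1 := by
  have h0 := congrArg (fun M : Matrix (List.Vector I 0) (List.Vector I 0) K => M w w')
    (ginv_spec (cc dot v) 0)
  obtain rfl : w = List.Vector.nil := List.Vector.eq_nil w
  obtain rfl : w' = List.Vector.nil := List.Vector.eq_nil w'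
  simp only [Matrix.mul_apply, sum_vec_zero] at h0
  have h1 : gram (cc dot v) 0 List.Vector.nil List.Vector.nil = 1 := by
    show S (cc dot v) [] (single [] 1) = 1
    simp [S]
  rw [h1] at h0
  simpa using h0

omit h hs hsym hP hQ in
theorem Th_zero (e f : I → A) (X : A) : Th dot v e f 0 X = X := by
  simp only [Th, LinearMap.sum_apply, LinearMap.smul_apply, sum_vec_zero]
  rw [ginv_zero hv]
  show (1 : K) • (Pw e [] * (X * Qw f [])) = X
  simp [Pw, Qw]

/-- The quasi-R-matrix. -/
theorem exists_Theta (N : ℕ) (hN : ∀ w : List I, N ≤ w.length → Pw (ee dd v E) w = 0) :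
    let T := ∑ n ∈ Finset.range (N + 1), Th dot v (ee dd v E) (ff F Kp) n
    (∀ i X, T (F i * X - Kp i * X * (F i * Kp i)) = F i * T X - Km i * T X * (F i * Kp i)) ∧
    (∀ i X, T (X * (Km i * E i) - E i * X * Kp i) = T X * (Km i * E i) - E i * T X * Km i) := by
  intro T
  have hN0 : Th dot v (ee dd v E) (ff F Kp) N = 0 := by
    rw [Th]
    refine Finset.sum_eq_zero fun w _ => Finset.sum_eq_zero fun w' _ => ?_
    rw [hN w'.1 (le_of_eq w'.2.symm)]
    simp
  constructor
  · intro i X
    have key : T (F i * X) - F i * T X =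
        Km i * T X * ff F Kp i - T (Kp i * X * ff F Kp i) := by
      simp only [T, LinearMap.sum_apply, Finset.mul_sum, Finset.sum_mul]
      rw [← Finset.sum_sub_distrib, ← Finset.sum_sub_distrib, Finset.sum_range_succ',
        Finset.sum_range_succ, Th_zero hv, Th_zero hv, sub_self, add_zero, hN0]
      simp only [LinearMap.zero_apply, mul_zero, zero_mul, sub_zero, add_zero]
      exact Finset.sum_congr rfl fun n _ => Th_F h hv hs hsym hP hQ n i X
    rw [map_sub]
    simp only [ff, mul_neg, map_neg] at key
    have k2 : T (F i * X) = F i * T X + (-(Km i * T X * (F i * Kp i)) +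
        T (Kp i * X * (F i * Kp i))) := by
      rw [← sub_eq_iff_eq_add', key]; abel
    rw [k2]; abel
  · intro i X
    have key : T X * eh dd v E Km i - T (X * eh dd v E Km i) =
        T (ee dd v E i * X * Kp i) - ee dd v E i * T X * Km i := by
      simp only [T, LinearMap.sum_apply, Finset.mul_sum, Finset.sum_mul]
      rw [← Finset.sum_sub_distrib, ← Finset.sum_sub_distrib, Finset.sum_range_succ',
        Finset.sum_range_succ, Th_zero hv, Th_zero hv, sub_self, add_zero, hN0]
      simp only [LinearMap.zero_apply, mul_zero, zero_mul, sub_zero, add_zero]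
      exact Finset.sum_congr rfl fun n _ => Th_E h hv hs hsym hP hQ n i X
    simp only [ee, eh, mul_smul_comm, smul_mul_assoc, map_smul, neg_smul, neg_mul, map_neg]
      at key
    have k3 : (sv v dd i) • (T X * (Km i * E i) - T (X * (Km i * E i)) + T (E i * X * Kp i) -
        E i * T X * Km i) = 0 := by
      rw [smul_sub, smul_add, smul_sub, key]; abel
    have k4 := (smul_eq_zero.mp k3).resolve_left (hs i)
    rw [map_sub]
    have k5 : T (X * (Km i * E i)) - T (E i * X * Kp i) = T X * (Km i * E i) - E i * T X * Km i -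
        (T X * (Km i * E i) - T (X * (Km i * E i)) + T (E i * X * Kp i) -
        E i * T X * Km i) := by abel
    rw [k5, k4, sub_zero]

end main

end Pool.Agent.Work.MP_8ad3a8_al
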