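import Mathlib
import Pool.Agent.Work.MP_8ad3a8_al.Basic
import Pool.Agent.Work.MP_8ad3a8_al.Sl2
import Pool.Agent.Work.MP_8ad3a8_al.Theta

set_option autoImplicit false
set_option linter.unusedSectionVars false

/-!
Integral forms over `RR v` of highest weight modules, given by matrices.
-/

namespace Pool.Agent.Work.MP_8ad3a8_al

open Matrix

section qd

variable {K : Type} [Field K] {v : K}

/-- the quantum integer `[n]` at `v ^ d` -/
noncomputable def qd (v : K) (d n : ℤ) : K := qint v (d * n) / qint v d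

theorem sub_inv_ne (hv0 : v ≠ 0) (hv : ∀ n : ℤ, n ≠ 0 → v ^ n ≠ 1) : v - v⁻¹ ≠ 0 := by
  intro h
  apply hv 2 (by norm_num)
  rw [sub_eq_zero] at h
  rw [show (2 : ℤ) = 1 + 1 by norm_num, zpow_add₀ hv0, zpow_one]
  nth_rewrite 2 [h]
  exact mul_inv_cancel₀ hv0

theorem zpow_sub_ne (hv0 : v ≠ 0) (hv : ∀ n : ℤ, n ≠ 0 → v ^ n ≠ 1) {n : ℤ} (hn : n ≠ 0) :
    v ^ n - v ^ (-n) ≠ 0 := by
  intro h
  apply hv (2 * n) (by omega)
  rw [sub_eq_zero] at h
  rw [two_mul, zpow_add₀ hv0]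
  nth_rewrite 2 [h]
  rw [← zpow_add₀ hv0, add_neg_cancel, zpow_zero]

theorem qint_ne (hv0 : v ≠ 0) (hv : ∀ n : ℤ, n ≠ 0 → v ^ n ≠ 1) {n : ℤ} (hn : n ≠ 0) :
    qint v n ≠ 0 := div_ne_zero (zpow_sub_ne hv0 hv hn) (sub_inv_ne hv0 hv)

theorem qd_eq (hv0 : v ≠ 0) (hv : ∀ n : ℤ, n ≠ 0 → v ^ n ≠ 1) (d n : ℤ) :
    qd v d n = (v ^ (d * n) - v ^ (-(d * n))) / (v ^ d - v ^ (-d)) := by
  unfold qd qint
  rw [div_div_div_cancel_right₀ (sub_inv_ne hv0 hv)]

theorem qd_qn (hv0 : v ≠ 0) (hv : ∀ n : ℤ, n ≠ 0 → v ^ n ≠ 1) {d : ℤ} (hd : d ≠ 0) :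
    QN (qd v d) where
  one := by rw [qd, mul_one, div_self (qint_ne hv0 hv hd)]
  ne n hn := div_ne_zero (qint_ne hv0 hv (mul_ne_zero hd hn)) (qint_ne hv0 hv hd)
  add a b := by
    rw [qd_eq hv0 hv, qd_eq hv0 hv, qd_eq hv0 hv, qd_eq hv0 hv, qd_eq hv0 hv]
    have hne := zpow_sub_ne hv0 hv hd
    have e1 : v ^ (d * (a + 1)) = v ^ (d * a) * v ^ d := by rw [← zpow_add₀ hv0]; congr 1; ring
    have e2 : v ^ (-(d * (a + 1))) = v ^ (-(d * a)) * v ^ (-d) := by
      rw [← zpow_add₀ hv0]; congr 1; ring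
    have e3 : v ^ (d * (b + 1)) = v ^ (d * b) * v ^ d := by rw [← zpow_add₀ hv0]; congr 1; ring
    have e4 : v ^ (-(d * (b + 1))) = v ^ (-(d * b)) * v ^ (-d) := by
      rw [← zpow_add₀ hv0]; congr 1; ring
    have e5 : v ^ (d * (b - a)) = v ^ (d * b) * v ^ (-(d * a)) := by
      rw [← zpow_add₀ hv0]; congr 1; ring
    have e6 : v ^ (-(d * (b - a))) = v ^ (-(d * b)) * v ^ (d * a) := by
      rw [← zpow_add₀ hv0]; congr 1; ring
    have e7 : v ^ (d * a) * v ^ (-(d * a)) = 1 := by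
      rw [← zpow_add₀ hv0, add_neg_cancel, zpow_zero]
    have e8 : v ^ (d * b) * v ^ (-(d * b)) = 1 := by
      rw [← zpow_add₀ hv0, add_neg_cancel, zpow_zero]
    have e9 : v ^ d * v ^ (-d) = 1 := by
      rw [← zpow_add₀ hv0, add_neg_cancel, zpow_zero]
    rw [e1, e2, e3, e4, e5, e6]
    field_simp
    ring

theorem v_mem : v ∈ RR v := Subring.subset_closure (Or.inl (Or.inl rfl))
theorem vinv_mem : v⁻¹ ∈ RR v := Subring.subset_closure (Or.inl (Or.inr (Or.inl rfl)))
theorem vp1_mem : (v + 1)⁻¹ ∈ RR v := Subring.subset_closure (Or.inl (Or.inr (Or.inr rfl)))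
theorem qinv_mem {n : ℤ} (hn : n ≠ 0) : (qint v n)⁻¹ ∈ RR v :=
  Subring.subset_closure (Or.inr ⟨n, hn, rfl⟩)

theorem zpow_mem_RR (n : ℤ) : v ^ n ∈ RR v := by
  cases n with
  | ofNat n => rw [Int.ofNat_eq_natCast, zpow_natCast]; exact Subring.pow_mem _ v_mem n
  | negSucc n =>
    rw [zpow_negSucc, ← inv_pow]; exact Subring.pow_mem _ vinv_mem _

theorem qint_mem (hv0 : v ≠ 0) (hv : ∀ n : ℤ, n ≠ 0 → v ^ n ≠ 1) (n : ℤ) : qint v n ∈ RR v := by
  have key : ∀ n : ℕ, qint v n ∈ RR v := by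
    intro n
    induction n with
    | zero => simp [qint]
    | succ n ih =>
      have : qint v ((n + 1 : ℕ) : ℤ) = v * qint v n + v ^ (-(n : ℤ)) := by
        have h := sub_inv_ne hv0 hv
        unfold qint
        push_cast
        rw [neg_add, zpow_add₀ hv0, zpow_add₀ hv0, zpow_one, _root_.zpow_neg_one, mul_div_assoc',
          div_add' _ _ _ h, div_left_inj' h]
        ring
      rw [this]
      exact Subring.add_mem _ (Subring.mul_mem _ v_mem ih) (zpow_mem_RR _)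
  rcases Int.eq_nat_or_neg n with ⟨m, rfl | rfl⟩
  · exact key m
  · rw [qint_neg]; exact Subring.neg_mem _ (key m)

theorem qd_mem (hv0 : v ≠ 0) (hv : ∀ n : ℤ, n ≠ 0 → v ^ n ≠ 1) {d : ℤ} (hd : d ≠ 0) (n : ℤ) :
    qd v d n ∈ RR v := by
  rw [qd, div_eq_mul_inv]
  exact Subring.mul_mem _ (qint_mem hv0 hv _) (qinv_mem hd)

theorem qd_inv_mem (hv0 : v ≠ 0) (hv : ∀ n : ℤ, n ≠ 0 → v ^ n ≠ 1) {d : ℤ} {n : ℤ}
    (hd : d ≠ 0) (hn : n ≠ 0) : (qd v d n)⁻¹ ∈ RR v := by
  rw [qd, inv_div, div_eq_mul_inv]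
  exact Subring.mul_mem _ (qint_mem hv0 hv _) (qinv_mem (mul_ne_zero hd hn))

/-- `[n]_d` as an element of `RR v` -/
noncomputable def qdR (hv0 : v ≠ 0) (hv : ∀ n : ℤ, n ≠ 0 → v ^ n ≠ 1) {d : ℤ} (hd : d ≠ 0)
    (n : ℤ) : RR v := ⟨qd v d n, qd_mem hv0 hv hd n⟩

theorem qdR_qn (hv0 : v ≠ 0) (hv : ∀ n : ℤ, n ≠ 0 → v ^ n ≠ 1) {d : ℤ} (hd : d ≠ 0)
    {k : Type} [Field k] (φ : RR v →+* k) : QN (fun n => φ (qdR hv0 hv hd n)) where
  one := by
    have : qdR hv0 hv hd 1 = 1 := Subtype.ext (qd_qn hv0 hv hd).one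
    rw [this, map_one]
  ne n hn := by
    have h1 : qdR hv0 hv hd n * ⟨(qd v d n)⁻¹, qd_inv_mem hv0 hv hd hn⟩ = 1 :=
      Subtype.ext (mul_inv_cancel₀ ((qd_qn hv0 hv hd).ne n hn))
    have h2 := congrArg φ h1
    rw [map_mul, map_one] at h2
    exact left_ne_zero_of_mul_eq_one h2
  add a b := by
    have : qdR hv0 hv hd (a + 1) * qdR hv0 hv hd b - qdR hv0 hv hd a * qdR hv0 hv hd (b + 1) =
        qdR hv0 hv hd (b - a) := Subtype.ext ((qd_qn hv0 hv hd).add a b)
    rw [← this, map_sub, map_mul, map_mul]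

end qd

/-- coroot value: `⟨L - κ, α_i^∨⟩` -/
def cor {I : Type} [Fintype I] (C : Cartan I) (L κ : I → ℤ) (i : I) : ℤ :=
  L i - ∑ k, C.a i k * κ k

theorem wex_eq_cor {I : Type} [Fintype I] [DecidableEq I] (C : Cartan I) (L κ : I → ℤ) (i : I) :
    wex C L κ i = C.d i * cor C L κ i := by
  unfold wex cor
  rw [mul_sub, Finset.mul_sum]
  congr 1
  exact Finset.sum_congr rfl fun k _ => by ring

/-- product of matrices along a word -/
def mw {I : Type} {J : Type} [Fintype J] [DecidableEq J] {S : Type} [CommRing S]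
    (f : I → Matrix J J S) (w : List I) : Matrix J J S := (w.map f).prod

/-- Integral form of a highest weight module. -/
structure RMod {I : Type} [Fintype I] [DecidableEq I] {K : Type} [Field K] (C : Cartan I)
    (v : K) (hv0 : v ≠ 0) (hv : ∀ n : ℤ, n ≠ 0 → v ^ n ≠ 1)
    (J : Type) [Fintype J] [DecidableEq J] where
  L : I → ℤ
  dep : J → I → ℤ
  top : J
  e : I → Matrix J J (RR v)
  f : I → Matrix J J (RR v)
  e_gr : ∀ i a b, e i a b ≠ 0 → dep b = dep a + sr i
  f_gr : ∀ i a b, f i a b ≠ 0 → dep a = dep b + sr i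
  ef : ∀ i j, e i * f j - f j * e i = if i = j then
    Matrix.diagonal (fun a => qdR hv0 hv (C.d_pos i).ne' (cor C L (dep a) i)) else 0
  dep_top : dep top = 0
  dep_nonneg : ∀ a i, 0 ≤ dep a i
  gen : ∀ a, (Pi.single a 1 : J → RR v) ∈
    Submodule.span (RR v) {x | ∃ w : List I, x = mw f w *ᵥ Pi.single top 1}

theorem cor_add_sr {I : Type} [Fintype I] [DecidableEq I] (C : Cartan I) (L κ : I → ℤ) (i : I) :
    cor C L (κ + sr i) i = cor C L κ i - 2 := by
  unfold cor
  have : ∑ k, C.a i k * (κ + sr i) k = ∑ k, C.a i k * κ k + 2 := by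
    simp only [Pi.add_apply, mul_add, Finset.sum_add_distrib, sr, Pi.single_apply, mul_ite, mul_one,
      mul_zero, Finset.sum_ite_eq', Finset.mem_univ, if_true, C.diag]
  rw [this]; ring

theorem cor_add {I : Type} [Fintype I] [DecidableEq I] (C : Cartan I) (L κ ν : I → ℤ) (i : I) :
    cor C L (κ + ν) i = cor C L κ i - ∑ k, C.a i k * ν k := by
  unfold cor
  simp only [Pi.add_apply, mul_add, Finset.sum_add_distrib]
  ring

/-- a nonzero element of the positive cone pairs positively with some simple coroot -/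
theorem exists_pos {I : Type} [Fintype I] [DecidableEq I] (C : Cartan I) {ν : I → ℤ}
    (h0 : ∀ i, 0 ≤ ν i) (h : ν ≠ 0) : ∃ i, 0 < ∑ k, C.a i k * ν k := by
  by_contra hcon
  push Not at hcon
  have h1 := C.pos ν h
  have h2 : ∑ i, ∑ j, ν i * (C.d i * C.a i j) * ν j ≤ 0 := by
    refine Finset.sum_nonpos fun i _ => ?_
    have : ∑ j, ν i * (C.d i * C.a i j) * ν j = ν i * C.d i * ∑ j, C.a i j * ν j := by
      rw [Finset.mul_sum]
      exact Finset.sum_congr rfl fun j _ => by ring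
    rw [this]
    exact mul_nonpos_of_nonneg_of_nonpos (mul_nonneg (h0 i) (C.d_pos i).le) (hcon i)
  omega

@[simp] theorem mw_nil {I : Type} {J : Type} [Fintype J] [DecidableEq J] {S : Type} [CommRing S]
    (f : I → Matrix J J S) : mw f [] = 1 := rfl
@[simp] theorem mw_cons {I : Type} {J : Type} [Fintype J] [DecidableEq J] {S : Type} [CommRing S]
    (f : I → Matrix J J S) (i : I) (w : List I) : mw f (i :: w) = f i * mw f w := by simp [mw]

theorem mulVecLin_pow' {J : Type} [Fintype J] [DecidableEq J] {S : Type} [CommRing S]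
    (A : Matrix J J S) (n : ℕ) (x : J → S) : ((mulVecLin A) ^ n) x = A ^ n *ᵥ x := by
  induction n generalizing x with
  | zero => simp
  | succ n ih => rw [pow_succ, Module.End.mul_apply, ih, pow_succ, mulVecLin_apply, mulVec_mulVec]

namespace RMod

variable {I : Type} [Fintype I] [DecidableEq I] {K : Type} [Field K] {C : Cartan I}
  {v : K} {hv0 : v ≠ 0} {hv : ∀ n : ℤ, n ≠ 0 → v ^ n ≠ 1}
  {J : Type} [Fintype J] [DecidableEq J] (M : RMod C v hv0 hv J)
  {k : Type} [Field k] (φ : RR v →+* k)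

/-- reduction of `e i` -/
def E (i : I) : Matrix J J k := (M.e i).map φ
/-- reduction of `f i` -/
def F (i : I) : Matrix J J k := (M.f i).map φ

theorem E_gr {i : I} {a b : J} (h : M.E φ i a b ≠ 0) : M.dep b = M.dep a + sr i := by
  apply M.e_gr i a b
  intro h0
  apply h
  simp [E, h0]

theorem F_gr {i : I} {a b : J} (h : M.F φ i a b ≠ 0) : M.dep a = M.dep b + sr i := by
  apply M.f_gr i a b
  intro h0
  apply h
  simp [F, h0]

theorem EF (i j : I) : M.E φ i * M.F φ j - M.F φ j * M.E φ i = if i = j then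
    Matrix.diagonal (fun a => φ (qdR hv0 hv (C.d_pos i).ne' (cor C M.L (M.dep a) i))) else 0 := by
  have h := congrArg (fun A : Matrix J J (RR v) => A.map φ) (M.ef i j)
  rw [Matrix.map_sub φ (by intro a b; exact map_sub φ a b), Matrix.map_mul, Matrix.map_mul] at h
  rw [E, F, h]
  split_ifs
  · rw [Matrix.diagonal_map (map_zero φ)]
  · exact Matrix.map_zero _ (map_zero φ)

/-- weight spaces for the `i`-th coroot -/
def Mi (k : Type) [Field k] (i : I) (n : ℤ) : Submodule k (J → k) where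
  carrier := {x | ∀ a, x a ≠ 0 → cor C M.L (M.dep a) i = n}
  add_mem' := by
    intro x y hx hy a ha
    by_cases h : x a = 0
    · exact hy a (by intro h'; apply ha; simp [h, h'])
    · exact hx a h
  zero_mem' := by intro a ha; simp at ha
  smul_mem' := by
    intro r x hx a ha
    exact hx a (by intro h'; apply ha; simp [h'])

theorem sl2 (i : I) : Sl2 (fun n => φ (qdR hv0 hv (C.d_pos i).ne' n)) (mulVecLin (M.E φ i))
    (mulVecLin (M.F φ i)) (M.Mi k i) where
  qn := qdR_qn hv0 hv _ φ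
  E_mem n x hx a ha := by
    rw [mulVecLin_apply, mulVec, dotProduct] at ha
    obtain ⟨b, -, hb⟩ := Finset.exists_ne_zero_of_sum_ne_zero ha
    have h1 := M.E_gr φ (left_ne_zero_of_mul hb)
    have h2 := hx b (right_ne_zero_of_mul hb)
    rw [h1, cor_add_sr] at h2
    omega
  F_mem n x hx a ha := by
    rw [mulVecLin_apply, mulVec, dotProduct] at ha
    obtain ⟨b, -, hb⟩ := Finset.exists_ne_zero_of_sum_ne_zero ha
    have h1 := M.F_gr φ (left_ne_zero_of_mul hb)
    have h2 := hx b (right_ne_zero_of_mul hb)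
    rw [h1, cor_add_sr, h2]
  comm n x hx := by
    have h := congrArg (fun A => A *ᵥ x) (M.EF φ i i)
    simp only [if_true] at h
    rw [sub_mulVec] at h
    rw [mulVecLin_apply, mulVecLin_apply, mulVecLin_apply, mulVecLin_apply, mulVec_mulVec,
      mulVec_mulVec, h]
    ext a
    rw [mulVec_diagonal, Pi.smul_apply, smul_eq_mul]
    by_cases hxa : x a = 0
    · rw [hxa, mul_zero, mul_zero]
    · rw [hx a hxa]

/-- bound for heights -/
noncomputable def H : ℕ := ∑ a, (hgt (M.dep a)).toNat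

theorem hgt_nonneg (a : J) : 0 ≤ hgt (M.dep a) := Finset.sum_nonneg fun i _ => M.dep_nonneg a i

theorem hgt_le (a : J) : hgt (M.dep a) ≤ M.H := by
  have h1 : (hgt (M.dep a)).toNat ≤ M.H :=
    Finset.single_le_sum (f := fun a => (hgt (M.dep a)).toNat) (fun _ _ => Nat.zero_le _)
      (Finset.mem_univ a)
  omega

theorem mwE_gr {S : Type} [CommRing S] (A : I → Matrix J J S)
    (hA : ∀ i a b, A i a b ≠ 0 → M.dep b = M.dep a + sr i) (w : List I) {a b : J}
    (h : mw A w a b ≠ 0) : M.dep b = M.dep a + cw w := by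
  induction w generalizing a with
  | nil =>
    rw [mw_nil, Matrix.one_apply] at h
    by_cases hab : a = b
    · subst hab; simp
    · simp [hab] at h
  | cons i w ih =>
    rw [mw_cons, Matrix.mul_apply] at h
    obtain ⟨c, -, hc⟩ := Finset.exists_ne_zero_of_sum_ne_zero h
    have h1 := hA i a c (left_ne_zero_of_mul hc)
    have h2 := ih (right_ne_zero_of_mul hc)
    rw [h2, h1, cw_cons]
    abel

theorem mwF_gr {S : Type} [CommRing S] (A : I → Matrix J J S)
    (hA : ∀ i a b, A i a b ≠ 0 → M.dep a = M.dep b + sr i) (w : List I) {a b : J}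
    (h : mw A w a b ≠ 0) : M.dep a = M.dep b + cw w := by
  induction w generalizing a with
  | nil =>
    rw [mw_nil, Matrix.one_apply] at h
    by_cases hab : a = b
    · subst hab; simp
    · simp [hab] at h
  | cons i w ih =>
    rw [mw_cons, Matrix.mul_apply] at h
    obtain ⟨c, -, hc⟩ := Finset.exists_ne_zero_of_sum_ne_zero h
    have h1 := hA i a c (left_ne_zero_of_mul hc)
    have h2 := ih (right_ne_zero_of_mul hc)
    rw [h1, h2, cw_cons]
    abel

theorem hgt_cw (w : List I) : hgt (cw w) = w.length := by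
  induction w with
  | nil => simp [hgt]
  | cons i w ih => rw [cw_cons, hgt_add, ih, hgt_sr]; simp

theorem mwE_zero {S : Type} [CommRing S] (A : I → Matrix J J S)
    (hA : ∀ i a b, A i a b ≠ 0 → M.dep b = M.dep a + sr i) (w : List I)
    (hw : M.H < w.length) : mw A w = 0 := by
  ext a b
  by_contra h
  have h1 := congrArg hgt (M.mwE_gr A hA w h)
  rw [hgt_add, hgt_cw] at h1
  have h2 := M.hgt_nonneg a
  have h3 := M.hgt_le b
  omega

theorem mwF_zero {S : Type} [CommRing S] (A : I → Matrix J J S)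
    (hA : ∀ i a b, A i a b ≠ 0 → M.dep a = M.dep b + sr i) (w : List I)
    (hw : M.H < w.length) : mw A w = 0 := by
  ext a b
  by_contra h
  have h1 := congrArg hgt (M.mwF_gr A hA w h)
  rw [hgt_add, hgt_cw] at h1
  have h2 := M.hgt_nonneg b
  have h3 := M.hgt_le a
  omega

theorem mw_replicate {S : Type} [CommRing S] (A : I → Matrix J J S) (i : I) (n : ℕ) :
    mw A (List.replicate n i) = A i ^ n := by
  simp [mw]

theorem nilE (i : I) (x : J → k) : ∃ N : ℕ, ((mulVecLin (M.E φ i)) ^ N) x = 0 := by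
  refine ⟨M.H + 1, ?_⟩
  rw [mulVecLin_pow', ← mw_replicate, M.mwE_zero (M.E φ) (fun i a b h => M.E_gr φ h) _ (by simp),
    zero_mulVec]

theorem nilF (i : I) (x : J → k) : ∃ N : ℕ, ((mulVecLin (M.F φ i)) ^ N) x = 0 := by
  refine ⟨M.H + 1, ?_⟩
  rw [mulVecLin_pow', ← mw_replicate, M.mwF_zero (M.F φ) (fun i a b h => M.F_gr φ h) _ (by simp),
    zero_mulVec]

theorem single_Mi (i : I) (b : J) :
    (Pi.single b 1 : J → k) ∈ M.Mi k i (cor C M.L (M.dep b) i) := by
  intro a ha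
  rw [Pi.single_apply] at ha
  by_cases h : a = b
  · rw [h]
  · simp [h] at ha

/-- A matrix lowering weights by `ν > 0` and commuting with the `E i` up to scalars is zero. -/
theorem op_zero (P : Matrix J J k) {ν : I → ℤ} (h0 : ∀ i, 0 ≤ ν i) (hν : ν ≠ 0)
    (hP : ∀ a b, P a b ≠ 0 → M.dep a = M.dep b + ν)
    (hc : ∀ i, ∃ c : k, c ≠ 0 ∧ P * M.E φ i = c • (M.E φ i * P)) : P = 0 := by
  obtain ⟨i, hi⟩ := exists_pos C h0 hν
  obtain ⟨c, hc0, hPE⟩ := hc i
  have key : ∀ n, ∀ x ∈ M.Mi k i n, P *ᵥ x = 0 := by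
    intro n x hx
    refine (M.sl2 φ i).op_eq_zero (M.nilE φ i) (M.nilF φ i) (mulVecLin P) hi ?_ hc0 ?_ hx
    · intro n x hx a ha
      rw [mulVecLin_apply, mulVec, dotProduct] at ha
      obtain ⟨b, -, hb⟩ := Finset.exists_ne_zero_of_sum_ne_zero ha
      have h1 := hP a b (left_ne_zero_of_mul hb)
      have h2 := hx b (right_ne_zero_of_mul hb)
      rw [h1, cor_add, h2]
    · intro x
      simp only [mulVecLin_apply, mulVec_mulVec]
      rw [hPE, smul_mulVec]
  ext a b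
  have h1 := congrFun (key _ _ (M.single_Mi i b)) a
  rw [mulVec_single_one] at h1
  exact h1

/-- A matrix raising weights by `ν > 0` and commuting with the `F i` up to scalars is zero. -/
theorem op_zero' (P : Matrix J J k) {ν : I → ℤ} (h0 : ∀ i, 0 ≤ ν i) (hν : ν ≠ 0)
    (hP : ∀ a b, P a b ≠ 0 → M.dep b = M.dep a + ν)
    (hc : ∀ i, ∃ c : k, c ≠ 0 ∧ P * M.F φ i = c • (M.F φ i * P)) : P = 0 := by
  obtain ⟨i, hi⟩ := exists_pos C h0 hν
  obtain ⟨c, hc0, hPE⟩ := hc i
  have key : ∀ n, ∀ x ∈ M.Mi k i (-n), P *ᵥ x = 0 := by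
    intro n x hx
    refine (M.sl2 φ i).swap.op_eq_zero (M.nilF φ i) (M.nilE φ i) (mulVecLin P) hi ?_ hc0 ?_ hx
    · intro n x hx a ha
      rw [mulVecLin_apply, mulVec, dotProduct] at ha
      obtain ⟨b, -, hb⟩ := Finset.exists_ne_zero_of_sum_ne_zero ha
      have h1 := hP a b (left_ne_zero_of_mul hb)
      have h2 := hx b (right_ne_zero_of_mul hb)
      rw [h1, cor_add] at h2
      omega
    · intro x
      simp only [mulVecLin_apply, mulVec_mulVec]
      rw [hPE, smul_mulVec]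
  ext a b
  have h1 := congrFun (key (-(cor C M.L (M.dep b) i)) _ (by rw [neg_neg]; exact M.single_Mi i b)) a
  rw [mulVec_single_one] at h1
  exact h1

/-- singular vectors have dominant weight -/
theorem dominant_of_sing {x : J → k} {κ : I → ℤ} (hx : ∀ a, x a ≠ 0 → M.dep a = κ) (hx0 : x ≠ 0)
    (i : I) (hE : M.E φ i *ᵥ x = 0) : 0 ≤ cor C M.L κ i := by
  by_contra hneg
  push Not at hneg
  apply hx0
  obtain ⟨N, hN⟩ := M.nilF φ i x
  refine (M.sl2 φ i).eq_zero_of_E_pow N (n := cor C M.L κ i) ?_ hN (r := 1) ?_ ?_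
  · intro a ha; rw [hx a ha]
  · push_cast; omega
  · rw [pow_one, mulVecLin_apply]; exact hE

end RMod

end Pool.Agent.Work.MP_8ad3a8_al
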