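import Mathlib
import Pool.Agent.Work.MP_8ad3a8_al.RMod

set_option autoImplicit false
set_option linter.unusedSectionVars false

/-!
The quasi-R-matrix on `End V` for an integral highest weight module, over the generic field.
-/

namespace Pool.Agent.Work.MP_8ad3a8_al

section radlem

open Finsupp

variable {I : Type} [Fintype I] [DecidableEq I] {K : Type} [Field K]

/-- homogeneous component -/
noncomputable def hcomp (ν : I → ℕ) (x : Words.FF I K) : Words.FF I K :=
  Finsupp.filter (fun w => Words.ct w = ν) x

theorem hcomp_add (ν : I → ℕ) (x y : Words.FF I K) : hcomp ν (x + y) = hcomp ν x + hcomp ν y := by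
  simp [hcomp, Finsupp.filter_add]

@[simp] theorem hcomp_zero (ν : I → ℕ) : hcomp ν (0 : Words.FF I K) = 0 :=
  Finsupp.filter_zero _

theorem hcomp_single (ν : I → ℕ) (w : List I) (r : K) :
    hcomp ν (single w r : Words.FF I K) = if Words.ct w = ν then single w r else 0 := by
  unfold hcomp
  split_ifs with h
  · exact Finsupp.filter_single_of_pos _ h
  · exact Finsupp.filter_single_of_neg _ h

theorem S_hcomp (c : I → I → K) (ν : I → ℕ) (u : List I) (x : Words.FF I K) :
    Words.S c u (hcomp ν x) = if Words.ct u = ν then Words.S c u x else 0 := by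
  induction x using Finsupp.induction_linear with
  | zero => simp
  | add x y hx hy =>
    rw [hcomp_add, map_add, hx, hy]
    split_ifs <;> simp
  | single w r =>
    rw [hcomp_single]
    have h1 : (single w r : Words.FF I K) = r • single w 1 := by simp
    by_cases hw : Words.ct w = ν
    · rw [if_pos hw]
      by_cases hu : Words.ct u = ν
      · rw [if_pos hu]
      · rw [if_neg hu, h1, map_smul, Words.S_content u w (fun h => hu (h.trans hw)), smul_zero]
    · rw [if_neg hw, map_zero]
      by_cases hu : Words.ct u = ν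
      · rw [if_pos hu, h1, map_smul, Words.S_content u w (fun h => hw (h.symm.trans hu)),
          smul_zero]
      · rw [if_neg hu]

theorem mem_rad_iff (c : I → I → K) (x : Words.FF I K) :
    x ∈ Words.rad c ↔ ∀ u, Words.S c u x = 0 := by
  rw [Words.mem_rad]
  constructor
  · intro h u
    have := h (single u 1)
    simpa using this
  · intro h y
    induction y using Finsupp.induction_linear with
    | zero => simp
    | add x y hx hy => rw [map_add, LinearMap.add_apply, hx, hy, add_zero]
    | single w r => rw [Words.SS_single, h, mul_zero]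

theorem hcomp_mem_rad {c : I → I → K} (ν : I → ℕ) {x : Words.FF I K} (hx : x ∈ Words.rad c) :
    hcomp ν x ∈ Words.rad c := by
  rw [mem_rad_iff] at hx ⊢
  intro u
  rw [S_hcomp, hx u]
  split_ifs <;> rfl

theorem hcomp_mem_FFn (ν : I → ℕ) {n : ℕ} {x : Words.FF I K} (hx : x ∈ Words.FFn I K n) :
    hcomp ν x ∈ Words.FFn I K n := by
  induction hx using Submodule.span_induction with
  | mem x hx =>
    obtain ⟨w, hw, rfl⟩ := hx
    rw [hcomp_single]
    split_ifs
    · exact Words.single_mem_FFn' hw 1
    · exact Submodule.zero_mem _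
  | zero => simp
  | add x y _ _ hx hy => rw [hcomp_add]; exact Submodule.add_mem _ hx hy
  | smul a x _ hx =>
    have : hcomp ν (a • x) = a • hcomp ν x := by simp [hcomp, Finsupp.filter_smul]
    rw [this]; exact Submodule.smul_mem _ _ hx

theorem sum_hcomp (x : Words.FF I K) : x = ∑ ν ∈ x.support.image Words.ct, hcomp ν x := by
  ext w
  rw [Finsupp.finsetSum_apply]
  simp only [hcomp, Finsupp.filter_apply]
  by_cases hw : x w = 0
  · rw [hw]; simp
  · rw [Finset.sum_eq_single (Words.ct w)]
    · simp
    · intro ν _ hν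
      rw [if_neg (Ne.symm hν)]
    · intro h
      exact absurd (Finset.mem_image_of_mem _ (Finsupp.mem_support_iff.mpr hw)) h

theorem eq_nil_of_ct {w : List I} (h : Words.ct w = 0) : w = [] := by
  cases w with
  | nil => rfl
  | cons i w =>
    exfalso
    rw [Words.ct_cons] at h
    have := congrFun h i
    simp at this

theorem hcomp_zero_of_rad {c : I → I → K} {x : Words.FF I K} (hx : x ∈ Words.rad c) :
    hcomp 0 x = 0 := by
  ext w
  unfold hcomp
  rw [Finsupp.filter_apply]
  split_ifs with h
  · rw [eq_nil_of_ct h]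
    exact Words.coeff_nil_of_mem_rad hx
  · rfl

/-- an element of `FF` homogeneous of content `ν` -/
theorem hcomp_mem_FFn' (ν : I → ℕ) (n : ℕ) (hn : ∀ w : List I, Words.ct w = ν → w.length = n)
    (x : Words.FF I K) : hcomp ν x ∈ Words.FFn I K n := by
  induction x using Finsupp.induction_linear with
  | zero => simp
  | add x y hx hy => rw [hcomp_add]; exact Submodule.add_mem _ hx hy
  | single w r =>
    rw [hcomp_single]
    split_ifs with h
    · exact Words.single_mem_FFn' (hn w h) r
    · exact Submodule.zero_mem _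

theorem cw_eq_ct (w : List I) : cw w = fun i => (Words.ct w i : ℤ) := rfl

theorem length_eq (w : List I) : w.length = ∑ i, Words.ct w i := by
  induction w with
  | nil => simp
  | cons i w ih => rw [Words.ct_cons]; simp [Finset.sum_add_distrib, ih]

end radlem

namespace RMod

open Matrix

variable {I : Type} [Fintype I] [DecidableEq I] {K : Type} [Field K] {C : Cartan I}
  {v : K} {hv0 : v ≠ 0} {hv : ∀ n : ℤ, n ≠ 0 → v ^ n ≠ 1}
  {J : Type} [Fintype J] [DecidableEq J] (M : RMod C v hv0 hv J)

/-- the inclusion of `RR v` in `K` -/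
abbrev io (v : K) : RR v →+* K := (RR v).subtype

/-- `K_i` -/
def kp (i : I) : Matrix J J K := Matrix.diagonal fun a => v ^ wex C M.L (M.dep a) i
/-- `K_i⁻¹` -/
def km (i : I) : Matrix J J K := Matrix.diagonal fun a => v ^ (-wex C M.L (M.dep a) i)

/-- symmetrised Cartan matrix -/
def _root_.Pool.Agent.Work.MP_8ad3a8_al.Cartan.dot (C : Cartan I) : I → I → ℤ :=
  fun i j => C.d i * C.a i j

theorem rel : Rel C.dot C.d v (M.E (io v)) (M.F (io v)) M.kp M.km where
  Kp_Km i := by
    rw [kp, km, diagonal_mul_diagonal]
    have : (fun a => v ^ wex C M.L (M.dep a) i * v ^ (-wex C M.L (M.dep a) i)) =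
        fun _ : J => (1 : K) := by
      funext a; rw [← zpow_add₀ hv0, add_neg_cancel, zpow_zero]
    rw [this, diagonal_one]
  Km_Kp i := by
    rw [kp, km, diagonal_mul_diagonal]
    have : (fun a => v ^ (-wex C M.L (M.dep a) i) * v ^ (wex C M.L (M.dep a) i)) =
        fun _ : J => (1 : K) := by
      funext a; rw [← zpow_add₀ hv0, neg_add_cancel, zpow_zero]
    rw [this, diagonal_one]
  Kp_comm i j := by
    rw [kp, kp, diagonal_mul_diagonal, diagonal_mul_diagonal]
    congr 1; funext a; rw [mul_comm]
  Kp_E i j := by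
    ext a b
    rw [kp, diagonal_mul, Matrix.smul_apply, mul_diagonal, smul_eq_mul]
    by_cases h : M.E (io v) j a b = 0
    · rw [h]; ring
    · have h1 := M.E_gr _ h
      rw [h1, wex_add_sr, zpow_sub₀ hv0]
      have h2 : v ^ (C.d i * C.a i j) ≠ 0 := zpow_ne_zero _ hv0
      unfold Cartan.dot
      field_simp
  Kp_F i j := by
    ext a b
    rw [kp, diagonal_mul, Matrix.smul_apply, mul_diagonal, smul_eq_mul]
    by_cases h : M.F (io v) j a b = 0
    · rw [h]; ring
    · have h1 := M.F_gr _ h
      rw [h1, wex_add_sr, zpow_sub₀ hv0, _root_.zpow_neg]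
      have h2 : v ^ (C.d i * C.a i j) ≠ 0 := zpow_ne_zero _ hv0
      unfold Cartan.dot
      field_simp
  EF i j := by
    rw [M.EF]
    split_ifs with h
    · ext a b
      rw [Matrix.smul_apply, Matrix.sub_apply, kp, km, diagonal_apply, diagonal_apply, diagonal_apply]
      split_ifs
      · have : (io v) (qdR hv0 hv (C.d_pos i).ne' (cor C M.L (M.dep a) i)) =
            qd v (C.d i) (cor C M.L (M.dep a) i) := rfl
        rw [this, qd_eq hv0 hv, ← wex_eq_cor, sv, smul_eq_mul, div_eq_inv_mul]
      · simp
    · rfl

include M in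
theorem sv_ne (i : I) : sv v C.d i ≠ 0 := zpow_sub_ne hv0 hv (C.d_pos i).ne'

theorem dot_symm (i j : I) : C.dot i j = C.dot j i := C.symm i j

theorem Pw_eq_mw (A : I → Matrix J J K) (w : List I) : Pw A w = mw A w := by
  induction w with
  | nil => rfl
  | cons i w ih => rw [Pw, ih, mw_cons]

theorem ee_gr {i : I} {a b : J} (h : ee C.d v (M.E (io v)) i a b ≠ 0) :
    M.dep b = M.dep a + sr i := by
  apply M.E_gr (io v) (i := i)
  intro h0
  apply h
  simp [ee, h0]

theorem ff_gr {i : I} {a b : J} (h : ff (M.F (io v)) M.kp i a b ≠ 0) :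
    M.dep a = M.dep b + sr i := by
  apply M.F_gr (io v) (i := i)
  intro h0
  apply h
  simp [ff, kp, h0]

theorem Pw_gr {w : List I} {a b : J} (h : Pw (ee C.d v (M.E (io v))) w a b ≠ 0) :
    M.dep b = M.dep a + cw w := by
  rw [Pw_eq_mw] at h
  exact M.mwE_gr _ (fun i a b h => M.ee_gr h) w h

theorem Qw_gr {w : List I} {a b : J} (h : Qw (ff (M.F (io v)) M.kp) w a b ≠ 0) :
    M.dep a = M.dep b + cw w := by
  induction w generalizing b with
  | nil =>
    rw [Qw, Matrix.one_apply] at h
    by_cases hab : a = b
    · subst hab; simp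
    · simp [hab] at h
  | cons i w ih =>
    rw [Qw, Matrix.mul_apply] at h
    obtain ⟨c, -, hc⟩ := Finset.exists_ne_zero_of_sum_ne_zero h
    have h1 := ih (left_ne_zero_of_mul hc)
    have h2 := M.ff_gr (right_ne_zero_of_mul hc)
    rw [h1, h2, cw_cons]
    abel

/-- homogeneous elements act with a weight shift -/
theorem PL_gr (ν : I → ℕ) (x : Words.FF I K) {a b : J}
    (h : PL K (ee C.d v (M.E (io v))) (hcomp ν x) a b ≠ 0) :
    M.dep b = M.dep a + fun i => (ν i : ℤ) := by
  induction x using Finsupp.induction_linear with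
  | zero => simp at h
  | add x y hx hy =>
    rw [hcomp_add, map_add, Matrix.add_apply] at h
    by_cases h1 : PL K (ee C.d v (M.E (io v))) (hcomp ν x) a b = 0
    · rw [h1, zero_add] at h; exact hy h
    · exact hx h1
  | single w r =>
    rw [hcomp_single] at h
    split_ifs at h with hw
    · rw [PL_single, Matrix.smul_apply] at h
      have h1 := M.Pw_gr (right_ne_zero_of_mul h)
      rw [h1, cw_eq_ct, hw]
    · simp at h

theorem QL_gr (ν : I → ℕ) (x : Words.FF I K) {a b : J}
    (h : QL K (ff (M.F (io v)) M.kp) (hcomp ν x) a b ≠ 0) :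
    M.dep a = M.dep b + fun i => (ν i : ℤ) := by
  induction x using Finsupp.induction_linear with
  | zero => simp at h
  | add x y hx hy =>
    rw [hcomp_add, map_add, Matrix.add_apply] at h
    by_cases h1 : QL K (ff (M.F (io v)) M.kp) (hcomp ν x) a b = 0
    · rw [h1, zero_add] at h; exact hy h
    · exact hx h1
  | single w r =>
    rw [hcomp_single] at h
    split_ifs at h with hw
    · rw [QL_single, Matrix.smul_apply] at h
      have h1 := M.Qw_gr (right_ne_zero_of_mul h)
      rw [h1, cw_eq_ct, hw]
    · simp at h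

theorem rad_FFn_zero {c : I → I → K} {x : Words.FF I K} (hx : x ∈ Words.rad c)
    (hn : x ∈ Words.FFn I K 0) : x = 0 := by
  have h1 : ∀ y ∈ Words.FFn I K 0, y = Finsupp.single [] (y []) := by
    intro y hy
    induction hy using Submodule.span_induction with
    | mem x hx =>
      obtain ⟨w, hw, rfl⟩ := hx
      rw [List.length_eq_zero_iff] at hw
      rw [hw]; simp
    | zero => simp
    | add x y _ _ hx hy => rw [hx, hy]; simp
    | smul a x _ hx => rw [hx]; simp
  rw [h1 x hn, Words.coeff_nil_of_mem_rad hx, Finsupp.single_zero]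

/-- The radical acts by zero, raising operators. -/
theorem PL_rad {x : Words.FF I K} (hx : x ∈ Words.rad (cc C.dot v)) :
    PL K (ee C.d v (M.E (io v))) x = 0 := by
  have main : ∀ n : ℕ, ∀ x ∈ Words.rad (cc C.dot v), x ∈ Words.FFn I K n →
      PL K (ee C.d v (M.E (io v))) x = 0 := by
    intro n
    induction n with
    | zero =>
      intro x hx hn
      rw [rad_FFn_zero hx hn, map_zero]
    | succ n ih =>
      intro x hx hn
      rw [sum_hcomp x, map_sum]
      refine Finset.sum_eq_zero fun ν _ => ?_
      by_cases hν : ν = 0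
      · rw [hν, hcomp_zero_of_rad hx, map_zero]
      have hx' := hcomp_mem_rad ν hx
      have hn' := hcomp_mem_FFn ν hn
      refine M.op_zero' (io v) _ (ν := fun i => (ν i : ℤ)) (fun i => by positivity) ?_
        (fun a b h => M.PL_gr ν x h) ?_
      · intro h
        apply hν
        funext i
        have := congrFun h i
        simpa using this
      · intro i
        refine ⟨1, one_ne_zero, ?_⟩
        have h1 := comm1 M.rel hv0 M.sv_ne i (hcomp ν x)
        rw [ih _ (Words.LL_mem_rad i hx') (Words.LL_mem_FFn i hn'),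
          ih _ (Words.RR_mem_rad (cc_symm dot_symm) i hx') (Words.RR_mem_FFn i hn'), mul_zero,
          zero_mul, sub_zero, sub_eq_zero] at h1
        rw [h1, one_smul]
  rw [sum_hcomp x, map_sum]
  refine Finset.sum_eq_zero fun ν _ => ?_
  refine main (∑ i, ν i) _ (hcomp_mem_rad ν hx) (hcomp_mem_FFn' ν _ ?_ x)
  intro w hw
  rw [← hw, length_eq]

/-- The radical acts by zero, lowering operators. -/
theorem QL_rad {x : Words.FF I K} (hx : x ∈ Words.rad (cc C.dot v)) :
    QL K (ff (M.F (io v)) M.kp) x = 0 := by
  have main : ∀ n : ℕ, ∀ x ∈ Words.rad (cc C.dot v), x ∈ Words.FFn I K n →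
      QL K (ff (M.F (io v)) M.kp) x = 0 := by
    intro n
    induction n with
    | zero =>
      intro x hx hn
      rw [rad_FFn_zero hx hn, map_zero]
    | succ n ih =>
      intro x hx hn
      rw [sum_hcomp x, map_sum]
      refine Finset.sum_eq_zero fun ν _ => ?_
      by_cases hν : ν = 0
      · rw [hν, hcomp_zero_of_rad hx, map_zero]
      have hx' := hcomp_mem_rad ν hx
      have hn' := hcomp_mem_FFn ν hn
      refine M.op_zero (io v) _ (ν := fun i => (ν i : ℤ)) (fun i => by positivity) ?_
        (fun a b h => M.QL_gr ν x h) ?_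
      · intro h
        apply hν
        funext i
        have := congrFun h i
        simpa using this
      · intro i
        refine ⟨v ^ ip C (sr i) (fun i => (ν i : ℤ)), zpow_ne_zero _ hv0, ?_⟩
        have h1 := comm2 M.rel hv0 M.sv_ne dot_symm i (hcomp ν x)
        rw [ih _ (Words.LL_mem_rad i hx') (Words.LL_mem_FFn i hn'),
          ih _ (Words.RR_mem_rad (cc_symm dot_symm) i hx') (Words.RR_mem_FFn i hn'), mul_zero,
          zero_mul, sub_zero, eh, mul_smul_comm, smul_mul_assoc, ← smul_sub] at h1
        have h2 := (smul_eq_zero.mp h1).resolve_left (M.sv_ne i)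
        rw [sub_eq_zero] at h2
        set P := QL K (ff (M.F (io v)) M.kp) (hcomp ν x) with hPdef
        have h3 : P * M.km i = (v ^ (-ip C (sr i) (fun i => (ν i : ℤ)))) • (M.km i * P) := by
          ext a b
          rw [km, mul_diagonal, Matrix.smul_apply, diagonal_mul, smul_eq_mul]
          by_cases h : P a b = 0
          · rw [h]; ring
          · have h4 := M.QL_gr ν x h
            have h5 : wex C M.L (M.dep a) i = wex C M.L (M.dep b) i -
                ip C (sr i) (fun i => (ν i : ℤ)) := by
              rw [h4, wex_eq, wex_eq, ip_add_right]; ring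
            rw [h5, ← mul_assoc, ← zpow_add₀ hv0]
            rw [mul_comm]
            congr 2
            ring
        rw [← mul_assoc, h3, smul_mul_assoc, mul_assoc] at h2
        have h6 := congrArg (fun A => M.kp i * A) h2
        rw [mul_smul_comm, ← mul_assoc, M.rel.Kp_Km, one_mul, mul_assoc (M.km i), ← mul_assoc,
          M.rel.Kp_Km, one_mul] at h6
        rw [← h6, smul_smul, ← zpow_add₀ hv0, add_neg_cancel, zpow_zero, one_smul]
  rw [sum_hcomp x, map_sum]
  refine Finset.sum_eq_zero fun ν _ => ?_
  refine main (∑ i, ν i) _ (hcomp_mem_rad ν hx) (hcomp_mem_FFn' ν _ ?_ x)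
  intro w hw
  rw [← hw, length_eq]

end RMod

end Pool.Agent.Work.MP_8ad3a8_al
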