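import Mathlib
import Pool.Agent.Work.MP_8ad3a8_al.RTheta

set_option autoImplicit false
set_option linter.unusedSectionVars false

/-!
The quasi-R-matrix on `End V`: integrality, trace formula.
-/

namespace Pool.Agent.Work.MP_8ad3a8_al

namespace RMod

open Matrix

variable {I : Type} [Fintype I] [DecidableEq I] {K : Type} [Field K] {C : Cartan I}
  {v : K} {hv0 : v ≠ 0} {hv : ∀ n : ℤ, n ≠ 0 → v ^ n ≠ 1}
  {J : Type} [Fintype J] [DecidableEq J] (M : RMod C v hv0 hv J)

/-- the quasi-R-matrix on matrices -/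
noncomputable def TM : Matrix J J K →ₗ[K] Matrix J J K :=
  ∑ n ∈ Finset.range (M.H + 1 + 1),
    Th C.dot v (ee C.d v (M.E (io v))) (ff (M.F (io v)) M.kp) n

theorem TM_rel :
    (∀ i X, M.TM (M.F (io v) i * X - M.kp i * X * (M.F (io v) i * M.kp i)) =
      M.F (io v) i * M.TM X - M.km i * M.TM X * (M.F (io v) i * M.kp i)) ∧
    (∀ i X, M.TM (X * (M.km i * M.E (io v) i) - M.E (io v) i * X * M.kp i) =
      M.TM X * (M.km i * M.E (io v) i) - M.E (io v) i * M.TM X * M.km i) := by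
  refine exists_Theta M.rel hv0 M.sv_ne dot_symm (fun x hx => M.PL_rad hx)
    (fun x hx => M.QL_rad hx) (M.H + 1) ?_
  intro w hw
  rw [Pw_eq_mw]
  exact M.mwE_zero _ (fun i a b h => M.ee_gr h) w (by omega)

theorem Th_apply (n : ℕ) (X : Matrix J J K) :
    Th C.dot v (ee C.d v (M.E (io v))) (ff (M.F (io v)) M.kp) n X =
      ∑ w : List.Vector I n, ∑ w' : List.Vector I n, Words.ginv (cc C.dot v) n w w' •
        (Pw (ee C.d v (M.E (io v))) w'.1 * (X * Qw (ff (M.F (io v)) M.kp) w.1)) := by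
  simp only [Th, LinearMap.sum_apply, LinearMap.smul_apply, LinearMap.comp_apply,
    LinearMap.mulLeft_apply, LinearMap.mulRight_apply]

theorem Pw_mul_of_sing {X : Matrix J J K} (h : ∀ i, M.E (io v) i * X = 0) (w : List I)
    (hw : w ≠ []) : Pw (ee C.d v (M.E (io v))) w * X = 0 := by
  induction w with
  | nil => exact absurd rfl hw
  | cons i w ih =>
    by_cases hw' : w = []
    · subst hw'
      rw [Pw, Pw, mul_one, ee, smul_mul_assoc, h, smul_zero]
    · rw [Pw, mul_assoc, ih hw', mul_zero]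

theorem TM_of_sing {X : Matrix J J K} (h : ∀ i, M.E (io v) i * X = 0) : M.TM X = X := by
  rw [TM, LinearMap.sum_apply, Finset.sum_range_succ', Th_zero hv0, Finset.sum_eq_zero, zero_add]
  intro n _
  rw [Th_apply]
  refine Finset.sum_eq_zero fun w _ => Finset.sum_eq_zero fun w' _ => ?_
  rw [← mul_assoc, M.Pw_mul_of_sing h, zero_mul, smul_zero]
  intro h0
  have := w'.2
  rw [h0] at this
  simp at this

theorem TM_gr {c b a b' : J} (h : (M.TM (Matrix.single c b (1 : K)) -
    Matrix.single c b (1 : K) : Matrix J J K) a b' ≠ 0) :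
    ∃ ν : I → ℤ, (∀ i, 0 ≤ ν i) ∧ ν ≠ 0 ∧ M.dep c = M.dep a + ν ∧ M.dep b = M.dep b' + ν := by
  have h1 : M.TM (Matrix.single c b 1) - Matrix.single c b 1 =
      ∑ n ∈ Finset.range (M.H + 1),
        Th C.dot v (ee C.d v (M.E (io v))) (ff (M.F (io v)) M.kp) (n + 1)
          (Matrix.single c b 1) := by
    rw [TM, LinearMap.sum_apply, Finset.sum_range_succ', Th_zero hv0, add_sub_cancel_right]
  rw [h1, Matrix.sum_apply] at h
  obtain ⟨n, -, hn⟩ := Finset.exists_ne_zero_of_sum_ne_zero h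
  rw [Th_apply, Matrix.sum_apply] at hn
  obtain ⟨w, -, hw⟩ := Finset.exists_ne_zero_of_sum_ne_zero hn
  rw [Matrix.sum_apply] at hw
  obtain ⟨w', -, hw'⟩ := Finset.exists_ne_zero_of_sum_ne_zero hw
  rw [Matrix.smul_apply, smul_eq_mul] at hw'
  have hg := Words.ct_of_ginv_ne (left_ne_zero_of_mul hw')
  have h2 := right_ne_zero_of_mul hw'
  have h3 : (Pw (ee C.d v (M.E (io v))) w'.1 *
      (Matrix.single c b (1 : K) * Qw (ff (M.F (io v)) M.kp) w.1) : Matrix J J K) a b' =
      Pw (ee C.d v (M.E (io v))) w'.1 a c * Qw (ff (M.F (io v)) M.kp) w.1 b b' := by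
    rw [Matrix.mul_apply, Finset.sum_eq_single c]
    · congr 1
      rw [Matrix.single_mul_apply_same, one_mul]
    · intro d _ hd
      rw [Matrix.single_mul_apply_of_ne _ _ _ _ _ hd, mul_zero]
    · intro h; exact absurd (Finset.mem_univ _) h
  rw [h3] at h2
  have h4 := M.Pw_gr (left_ne_zero_of_mul h2)
  have h5 := M.Qw_gr (right_ne_zero_of_mul h2)
  have h6 : cw w.1 = cw w'.1 := by rw [cw_eq_ct, cw_eq_ct, hg]
  refine ⟨cw w'.1, fun i => by simp [cw], ?_, h4, by rw [h5, h6]⟩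
  intro h0
  have h7 := hgt_cw w'.1
  rw [h0, w'.2] at h7
  simp [hgt] at h7
  omega

/-! ### integral matrices -/

theorem io_inj : Function.Injective (io v) := Subtype.val_injective

/-- `v^n` as an element of `RR v` -/
def vz (v : K) (n : ℤ) : RR v := ⟨v ^ n, zpow_mem_RR n⟩

@[simp] theorem io_vz (n : ℤ) : io v (vz v n) = v ^ n := rfl

/-- `(v^n - v^(-n)) / (v - 1)` as an element of `RR v` -/
theorem exists_kap (hv0 : v ≠ 0) (hv : ∀ n : ℤ, n ≠ 0 → v ^ n ≠ 1) (n : ℤ) :
    ∃ r : RR v, (v - 1) * (r : K) = v ^ n - v ^ (-n) := by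
  refine ⟨⟨qint v n, qint_mem hv0 hv n⟩ * (vz v 1 + 1) * vz v (-1), ?_⟩
  have h := sub_inv_ne hv0 hv
  simp only [Subring.coe_mul, Subring.coe_add, Subring.coe_one, vz, zpow_one]
  have h2 : v ^ (-1 : ℤ) = v⁻¹ := by simp
  have h1 : qint v n * (v - v⁻¹) = v ^ n - v ^ (-n) := by
    unfold qint; exact div_mul_cancel₀ _ h
  rw [← h1, h2]
  field_simp
  ring

/-- `(v^n - 1) / (v - 1)` -/
theorem exists_un (hv0 : v ≠ 0) (n : ℤ) : ∃ r : RR v, (v - 1) * (r : K) = v ^ n - 1 := by
  have key : ∀ n : ℕ, ∃ r : RR v, (v - 1) * (r : K) = v ^ n - 1 := by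
    intro n
    refine ⟨∑ i ∈ Finset.range n, (vz v 1) ^ i, ?_⟩
    have : ((∑ i ∈ Finset.range n, (vz v 1) ^ i : RR v) : K) = ∑ i ∈ Finset.range n, v ^ i := by
      simp [vz]
    rw [this, mul_comm]
    exact geom_sum_mul v n
  rcases Int.eq_nat_or_neg n with ⟨m, rfl | rfl⟩
  · obtain ⟨r, hr⟩ := key m
    exact ⟨r, by rw [hr, zpow_natCast]⟩
  · obtain ⟨r, hr⟩ := key m
    refine ⟨-(vz v (-(m : ℤ)) * r), ?_⟩
    have h1 : v ^ (-(m : ℤ)) * v ^ m = 1 := by
      rw [← zpow_natCast, ← zpow_add₀ hv0, neg_add_cancel, zpow_zero]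
    simp only [Subring.coe_neg, Subring.coe_mul, vz]
    calc (v - 1) * -(v ^ (-(m : ℤ)) * (r : K)) = -(v ^ (-(m : ℤ)) * ((v - 1) * (r : K))) := by ring
      _ = _ := by rw [hr, mul_sub, h1, mul_one, neg_sub]

/-- the unit `(v^n - 1) / (v - 1)`, `n ≠ 0` -/
theorem un_unit (hv0 : v ≠ 0) (hv : ∀ n : ℤ, n ≠ 0 → v ^ n ≠ 1) {n : ℤ} (hn : n ≠ 0)
    {r : RR v} (hr : (v - 1) * (r : K) = v ^ n - 1) : IsUnit r := by
  have h := sub_inv_ne hv0 hv
  have hv1 : v - 1 ≠ 0 := by
    intro h1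
    apply hv 1 one_ne_zero
    rw [zpow_one]; exact sub_eq_zero.mp h1
  have hv2 : v + 1 ≠ 0 := by
    intro h1
    apply hv 2 (by norm_num)
    have : v = -1 := by linear_combination h1
    rw [this]; norm_num
  have hq := qint_ne hv0 hv hn
  refine IsUnit.of_mul_eq_one ((vz v n + 1) * vz v (1 - n) * ⟨(v + 1)⁻¹, vp1_mem⟩ *
    ⟨(qint v n)⁻¹, qinv_mem hn⟩) ?_
  apply Subtype.ext
  simp only [Subring.coe_mul, Subring.coe_add, Subring.coe_one, vz]
  apply mul_left_cancel₀ hv1
  have h1 : qint v n * (v - v⁻¹) = v ^ n - v ^ (-n) := by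
    unfold qint; exact div_mul_cancel₀ _ h
  have h3 : (v ^ n - 1) * (v ^ n + 1) * v ^ (1 - n) = (v ^ n - v ^ (-n)) * v := by
    rw [zpow_sub₀ hv0, zpow_one, _root_.zpow_neg]
    have := zpow_ne_zero n hv0
    field_simp
    ring
  calc (v - 1) * ((r : K) * ((v ^ n + 1) * v ^ (1 - n) * (v + 1)⁻¹ * (qint v n)⁻¹))
      = ((v - 1) * (r : K)) * (v ^ n + 1) * v ^ (1 - n) * (v + 1)⁻¹ * (qint v n)⁻¹ := by ring
    _ = (qint v n * (v - v⁻¹) * v) * (v + 1)⁻¹ * (qint v n)⁻¹ := by rw [hr, h3, h1]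
    _ = (v - 1) * 1 := by
      field_simp
      ring

/-- integral `K_i` -/
def kpR (i : I) : Matrix J J (RR v) := Matrix.diagonal fun a => vz v (wex C M.L (M.dep a) i)
/-- integral `K_i⁻¹` -/
def kmR (i : I) : Matrix J J (RR v) := Matrix.diagonal fun a => vz v (-wex C M.L (M.dep a) i)
/-- `(K_i - K_i⁻¹) / (v - 1)` -/
noncomputable def kaR (i : I) : Matrix J J (RR v) := Matrix.diagonal fun a =>
  (exists_kap hv0 hv (wex C M.L (M.dep a) i)).choose

theorem kpR_map (i : I) : (M.kpR i).map (io v) = M.kp i := by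
  rw [kpR, kp, Matrix.diagonal_map (map_zero _)]
  rfl
theorem kmR_map (i : I) : (M.kmR i).map (io v) = M.km i := by
  rw [kmR, km, Matrix.diagonal_map (map_zero _)]
  rfl
theorem kaR_map (i : I) : (v - 1) • (M.kaR i).map (io v) = M.kp i - M.km i := by
  rw [kaR, Matrix.diagonal_map (map_zero _), kp, km, ← Matrix.diagonal_smul, Matrix.diagonal_sub]
  congr 1
  funext a
  rw [Pi.smul_apply, smul_eq_mul]
  exact (exists_kap hv0 hv (wex C M.L (M.dep a) i)).choose_spec

/-- `T X - X` is divisible by `v - 1`. -/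
def Int1 (X : Matrix J J (RR v)) : Prop :=
  ∃ Y : Matrix J J (RR v), M.TM (X.map (io v)) - X.map (io v) = (v - 1) • Y.map (io v)

theorem Int1.add {X X' : Matrix J J (RR v)} (h : M.Int1 X) (h' : M.Int1 X') :
    M.Int1 (X + X') := by
  obtain ⟨Y, hY⟩ := h
  obtain ⟨Y', hY'⟩ := h'
  refine ⟨Y + Y', ?_⟩
  rw [Matrix.map_add _ (map_add _), Matrix.map_add _ (map_add _), map_add, smul_add, ← hY, ← hY']
  abel

theorem Int1.smul {X : Matrix J J (RR v)} (r : RR v) (h : M.Int1 X) : M.Int1 (r • X) := by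
  obtain ⟨Y, hY⟩ := h
  refine ⟨r • Y, ?_⟩
  have e : ∀ Z : Matrix J J (RR v), (r • Z).map (io v) = (r : K) • Z.map (io v) := by
    intro Z; ext a b; simp
  rw [e, e, map_smul, ← smul_sub, hY, smul_comm]

theorem Int1.zero : M.Int1 0 := ⟨0, by simp⟩

/-- vectors of the form `F_w e_top` -/
theorem top_sing (i : I) : M.E (io v) i *ᵥ (Pi.single M.top 1) = 0 := by
  rw [mulVec_single_one]
  ext a
  by_contra h
  have h : M.E (io v) i a M.top ≠ 0 := h
  have := M.E_gr _ h
  have h1 := congrFun this i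
  rw [M.dep_top] at h1
  have h2 := M.dep_nonneg a i
  simp [sr] at h1
  omega

theorem fw_gr (w : List I) {a : J} (h : (mw M.f w *ᵥ Pi.single M.top 1) a ≠ 0) :
    M.dep a = cw w := by
  rw [mulVec_single_one] at h
  have := M.mwF_gr M.f M.f_gr w h
  rw [this, M.dep_top, zero_add]

theorem map_vecMulVec {S S' : Type} [CommRing S] [CommRing S'] (g : S →+* S') (m ξ : J → S) :
    (vecMulVec m ξ).map g = vecMulVec (g ∘ m) (g ∘ ξ) := by
  ext a b; simp [vecMulVec_apply]

theorem int1_word (w : List I) (ξ : J → RR v) :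
    M.Int1 (vecMulVec (mw M.f w *ᵥ Pi.single M.top 1) ξ) := by
  induction w generalizing ξ with
  | nil =>
    refine ⟨0, ?_⟩
    rw [mw_nil, one_mulVec, M.TM_of_sing, sub_self]
    · simp
    · intro i
      rw [map_vecMulVec, Matrix.mul_vecMulVec]
      have : (io v) ∘ (Pi.single M.top 1 : J → RR v) = Pi.single M.top 1 := by
        ext a; simp [Pi.single_apply, apply_ite]
      rw [this, M.top_sing]
      ext a b; simp [vecMulVec_apply]
  | cons i w ih =>
    set m : J → RR v := mw M.f w *ᵥ Pi.single M.top 1 with hm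
    have hm' : mw M.f (i :: w) *ᵥ Pi.single M.top 1 = M.f i *ᵥ m := by
      rw [mw_cons, ← mulVec_mulVec]
    rw [hm', ← Matrix.mul_vecMulVec]
    -- `X' = K X F K`
    have hX' : M.kpR i * vecMulVec m ξ * (M.f i * M.kpR i) =
        (vz v (wex C M.L (cw w) i)) • vecMulVec m (ξ ᵥ* (M.f i * M.kpR i)) := by
      rw [Matrix.mul_vecMulVec, Matrix.vecMulVec_mul, ← Matrix.smul_vecMulVec]
      congr 1
      ext a
      rw [kpR, mulVec_diagonal, Pi.smul_apply, smul_eq_mul]
      by_cases ha : m a = 0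
      · rw [ha, mul_zero, mul_zero]
      · rw [M.fw_gr w ha]
    obtain ⟨Y', hY'⟩ : M.Int1 (M.kpR i * vecMulVec m ξ * (M.f i * M.kpR i)) := by
      rw [hX']; exact Int1.smul M _ (ih _)
    obtain ⟨Y, hY⟩ := ih ξ
    set X := vecMulVec m ξ with hX
    refine ⟨Y' + M.f i * Y - M.kmR i * Y * (M.f i * M.kpR i) +
      M.kaR i * X * (M.f i * M.kpR i), ?_⟩
    have h1 := M.TM_rel.1 i (X.map (io v))
    have hYm : M.TM (X.map (io v)) = X.map (io v) + (v - 1) • Y.map (io v) := by
      rw [← hY]; abel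
    have hY'm : M.TM (M.kp i * X.map (io v) * (M.F (io v) i * M.kp i)) =
        M.kp i * X.map (io v) * (M.F (io v) i * M.kp i) + (v - 1) • Y'.map (io v) := by
      rw [← hY']
      simp only [Matrix.map_mul, kpR_map, F]
      abel
    have hka := M.kaR_map i
    rw [map_sub, hY'm, hYm] at h1
    rw [Matrix.map_add _ (map_add _), Matrix.map_sub _ (map_sub _), Matrix.map_add _ (map_add _)]
    simp only [Matrix.map_mul, kpR_map, kmR_map]
    rw [show (M.f i).map (io v) = M.F (io v) i from rfl]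
    have h2 : M.TM (M.F (io v) i * X.map (io v)) =
        M.F (io v) i * (X.map (io v) + (v - 1) • Y.map (io v)) -
          M.km i * (X.map (io v) + (v - 1) • Y.map (io v)) * (M.F (io v) i * M.kp i) +
        (M.kp i * X.map (io v) * (M.F (io v) i * M.kp i) + (v - 1) • Y'.map (io v)) := by
      rw [← h1]; abel
    rw [h2]
    have h3 : (v - 1) • ((M.kaR i).map (io v) * X.map (io v) * (M.F (io v) i * M.kp i)) =
        (M.kp i - M.km i) * X.map (io v) * (M.F (io v) i * M.kp i) := by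
      rw [← hka]; simp only [smul_mul_assoc]
    rw [smul_add, h3, smul_sub, smul_add]
    simp only [mul_add, add_mul, sub_mul, mul_smul_comm, smul_mul_assoc]
    abel

theorem int1 (X : Matrix J J (RR v)) : M.Int1 X := by
  have key : ∀ m : J → RR v, ∀ ξ : J → RR v, M.Int1 (vecMulVec m ξ) := by
    intro m
    have hm : m ∈ Submodule.span (RR v)
        {x | ∃ w : List I, x = mw M.f w *ᵥ (Pi.single M.top 1 : J → RR v)} := by
      have : m = ∑ a, m a • (Pi.single a 1 : J → RR v) := by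
        ext b
        simp [Finset.sum_apply, Pi.single_apply]
      rw [this]
      exact Submodule.sum_mem _ fun a _ => Submodule.smul_mem _ _ (M.gen a)
    induction hm using Submodule.span_induction with
    | mem x hx =>
      obtain ⟨w, rfl⟩ := hx
      exact M.int1_word w
    | zero =>
      intro ξ
      have : vecMulVec (0 : J → RR v) ξ = 0 := by ext a b; simp [vecMulVec_apply]
      rw [this]; exact Int1.zero M
    | add x y _ _ hx hy =>
      intro ξ
      rw [Matrix.add_vecMulVec]; exact Int1.add M (hx ξ) (hy ξ)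
    | smul r x _ hx =>
      intro ξ
      rw [Matrix.smul_vecMulVec]; exact Int1.smul M _ (hx ξ)
  have : X = ∑ a, vecMulVec (Pi.single a 1) (X a) := by
    ext c b
    rw [Matrix.sum_apply]
    simp [vecMulVec_apply, Pi.single_apply]
  rw [this]
  have hs : ∀ s : Finset J, M.Int1 (∑ a ∈ s, vecMulVec (Pi.single a 1) (X a)) := by
    intro s
    induction s using Finset.induction_on with
    | empty => rw [Finset.sum_empty]; exact Int1.zero M
    | insert a s ha ih => rw [Finset.sum_insert ha]; exact Int1.add M (key _ _) ih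
  exact hs _

end RMod

end Pool.Agent.Work.MP_8ad3a8_al
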