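import Mathlib
import Pool.Agent.Work.MP_8ad3a8_al.RTheta2

set_option autoImplicit false
set_option linter.unusedSectionVars false

/-!
Singular vectors of the reductions of an integral highest weight module are multiples of the
highest weight vector.
-/

namespace Pool.Agent.Work.MP_8ad3a8_al

namespace RMod

open Matrix

variable {I : Type} [Fintype I] [DecidableEq I] {K : Type} [Field K] {C : Cartan I}
  {v : K} {hv0 : v ≠ 0} {hv : ∀ n : ℤ, n ≠ 0 → v ^ n ≠ 1}
  {J : Type} [Fintype J] [DecidableEq J] (M : RMod C v hv0 hv J)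

theorem mw_map {S S' : Type} [CommRing S] [CommRing S'] (g : S →+* S') (f : I → Matrix J J S)
    (w : List I) : (mw f w).map g = mw (fun i => (f i).map g) w := by
  induction w with
  | nil => simp
  | cons i w ih => rw [mw_cons, mw_cons, Matrix.map_mul, ih]

theorem io_comp_single (a : J) :
    (io v) ∘ (Pi.single a 1 : J → RR v) = Pi.single a 1 := by
  ext b; simp [Pi.single_apply, apply_ite]

theorem trace_word (w : List I) (ξ : J → K) :
    trace (M.TM (vecMulVec (mw (M.F (io v)) w *ᵥ Pi.single M.top 1) ξ)) =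
      v ^ cex C M.L (cw w) * (ξ ⬝ᵥ (mw (M.F (io v)) w *ᵥ Pi.single M.top 1)) := by
  induction w generalizing ξ with
  | nil =>
    rw [mw_nil, one_mulVec, M.TM_of_sing, cw_nil, cex_zero, zpow_zero, one_mul,
      trace_vecMulVec, dotProduct_comm]
    intro i
    rw [Matrix.mul_vecMulVec, M.top_sing]
    ext a b; simp [vecMulVec_apply]
  | cons i w ih =>
    set m : J → K := mw (M.F (io v)) w *ᵥ Pi.single M.top 1 with hm
    have hm' : mw (M.F (io v)) (i :: w) *ᵥ Pi.single M.top 1 = M.F (io v) i *ᵥ m := by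
      rw [mw_cons, ← mulVec_mulVec]
    have hgr : ∀ a, m a ≠ 0 → M.dep a = cw w := by
      intro a ha
      rw [hm, mulVec_single_one] at ha
      have := M.mwF_gr (M.F (io v)) (fun i a b h => M.F_gr _ h) w ha
      rw [this, M.dep_top, zero_add]
    have hkm : M.kp i *ᵥ m = v ^ wex C M.L (cw w) i • m := by
      ext a
      rw [kp, mulVec_diagonal, Pi.smul_apply, smul_eq_mul]
      by_cases ha : m a = 0
      · rw [ha, mul_zero, mul_zero]
      · rw [hgr a ha]
    rw [hm', ← Matrix.mul_vecMulVec]
    have h1 := congrArg trace (M.TM_rel.1 i (vecMulVec m ξ))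
    rw [map_sub, trace_sub, trace_sub] at h1
    have h2 : trace (M.km i * M.TM (vecMulVec m ξ) * (M.F (io v) i * M.kp i)) =
        trace (M.F (io v) i * M.TM (vecMulVec m ξ)) := by
      rw [Matrix.trace_mul_cycle, mul_assoc (M.F (io v) i), M.rel.Kp_Km, mul_one]
    rw [h2, sub_self, sub_eq_zero] at h1
    rw [h1, Matrix.mul_vecMulVec, hkm, Matrix.vecMulVec_mul, Matrix.smul_vecMulVec, map_smul,
      trace_smul, ih, ← Matrix.dotProduct_mulVec, ← mulVec_mulVec, hkm, mulVec_smul,
      dotProduct_smul, cw_cons, cex_add_sr, zpow_add₀ hv0, two_mul, zpow_add₀ hv0]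
    simp only [smul_eq_mul]
    ring

theorem trace_TM (m ξ : J → K) :
    trace (M.TM (vecMulVec m ξ)) = ∑ a, v ^ cex C M.L (M.dep a) * (m a * ξ a) := by
  have key : ∀ m : J → RR v, trace (M.TM (vecMulVec ((io v) ∘ m) ξ)) =
      ∑ a, v ^ cex C M.L (M.dep a) * (io v (m a) * ξ a) := by
    intro m
    have hm : m ∈ Submodule.span (RR v)
        {x | ∃ w : List I, x = mw M.f w *ᵥ (Pi.single M.top 1 : J → RR v)} := by
      have : m = ∑ a, m a • (Pi.single a 1 : J → RR v) := by
        ext b
        simp [Finset.sum_apply, Pi.single_apply]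
      rw [this]
      exact Submodule.sum_mem _ fun a _ => Submodule.smul_mem _ _ (M.gen a)
    induction hm using Submodule.span_induction with
    | mem x hx =>
      obtain ⟨w, rfl⟩ := hx
      have h1 : (io v) ∘ (mw M.f w *ᵥ (Pi.single M.top 1 : J → RR v)) =
          mw (M.F (io v)) w *ᵥ Pi.single M.top 1 := by
        rw [mulVec_single_one, mulVec_single_one]
        have := mw_map (io v) M.f w
        ext a
        exact congrFun (congrFun this a) M.top
      rw [h1, M.trace_word]
      rw [dotProduct, Finset.mul_sum]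
      refine Finset.sum_congr rfl fun a _ => ?_
      have h2 : io v ((mw M.f w *ᵥ (Pi.single M.top 1 : J → RR v)) a) =
          (mw (M.F (io v)) w *ᵥ Pi.single M.top 1) a := congrFun h1 a
      rw [h2]
      by_cases ha : (mw (M.F (io v)) w *ᵥ Pi.single M.top 1) a = 0
      · rw [ha]; ring
      · have h3 : M.dep a = cw w := by
          apply M.fw_gr w
          intro h0
          apply ha
          rw [← h2, h0, map_zero]
        rw [h3]; ring
    | zero =>
      have : (io v) ∘ (0 : J → RR v) = 0 := by ext a; simp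
      rw [this]
      have h0 : vecMulVec (0 : J → K) ξ = 0 := by ext a b; simp [vecMulVec_apply]
      rw [h0, map_zero, trace_zero]
      simp
    | add x y _ _ hx hy =>
      have : (io v) ∘ (x + y) = (io v) ∘ x + (io v) ∘ y := by ext a; simp
      rw [this, Matrix.add_vecMulVec, map_add, trace_add, hx, hy, ← Finset.sum_add_distrib]
      refine Finset.sum_congr rfl fun a _ => ?_
      rw [Pi.add_apply, map_add]; ring
    | smul r x _ hx =>
      have : (io v) ∘ (r • x) = (io v r) • ((io v) ∘ x) := by ext a; simp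
      rw [this, Matrix.smul_vecMulVec, map_smul, trace_smul, hx, smul_eq_mul, Finset.mul_sum]
      refine Finset.sum_congr rfl fun a _ => ?_
      rw [Pi.smul_apply, smul_eq_mul, map_mul]; ring
  have h1 : vecMulVec m ξ = ∑ a, m a • vecMulVec (Pi.single a 1) ξ := by
    ext c b
    rw [Matrix.sum_apply]
    simp [vecMulVec_apply, Pi.single_apply]
  rw [h1, map_sum, trace_sum]
  refine Finset.sum_congr rfl fun a _ => ?_
  have h2 := key (Pi.single a 1)
  rw [io_comp_single] at h2
  rw [map_smul, trace_smul, h2, Finset.sum_eq_single a]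
  · simp only [Pi.single_eq_same, map_one, one_mul, smul_eq_mul]; ring
  · intro b _ hb
    simp [hb]
  · intro h; exact absurd (Finset.mem_univ _) h

/-- `(v^n - 1)/(v - 1)` in `RR v` -/
noncomputable def un (hv0 : v ≠ 0) (n : ℤ) : RR v := (exists_un hv0 n).choose

theorem un_spec (hv0 : v ≠ 0) (n : ℤ) : (v - 1) * (io v (un hv0 n)) = v ^ n - 1 :=
  (exists_un hv0 n).choose_spec

include hv in
theorem vm1_ne : v - 1 ≠ 0 := by
  intro h1
  apply hv 1 one_ne_zero
  rw [zpow_one]; exact sub_eq_zero.mp h1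

/-- `(T - 1)/(v - 1)` on matrix units -/
noncomputable def d0 (c b : J) : Matrix J J (RR v) := (M.int1 (Matrix.single c b 1)).choose

theorem d0_spec (c b : J) : M.TM (Matrix.single c b (1 : K)) - Matrix.single c b (1 : K) =
    (v - 1) • (M.d0 c b).map (io v) := by
  have h : (Matrix.single c b (1 : RR v)).map (io v) = Matrix.single c b (1 : K) := by
    ext a a'
    simp [Matrix.single_apply, apply_ite]
  have := (M.int1 (Matrix.single c b 1)).choose_spec
  rw [← h]
  exact this

theorem d0_gr {c b a b' : J} (h : M.d0 c b a b' ≠ 0) :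
    ∃ ν : I → ℤ, (∀ i, 0 ≤ ν i) ∧ ν ≠ 0 ∧ M.dep c = M.dep a + ν ∧ M.dep b = M.dep b' + ν := by
  apply M.TM_gr (c := c) (b := b) (a := a) (b' := b')
  rw [M.d0_spec, Matrix.smul_apply, smul_eq_mul]
  refine mul_ne_zero (vm1_ne (hv := hv)) ?_
  intro h0
  apply h
  exact io_inj (by simpa using h0)

/-- `(T - 1)/(v - 1)` after base change -/
noncomputable def dl {S : Type} [CommRing S] (φ : RR v →+* S) (X : Matrix J J S) :
    Matrix J J S := ∑ c, ∑ b, X c b • (M.d0 c b).map φ

theorem dl_map {S : Type} [CommRing S] (φ : RR v →+* S) (X : Matrix J J (RR v)) :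
    M.dl φ (X.map φ) = (M.dl (RingHom.id _) X).map φ := by
  ext a b'
  simp only [dl, Matrix.sum_apply, Matrix.smul_apply, Matrix.map_apply, smul_eq_mul,
    RingHom.id_apply, map_sum, map_mul]

theorem dl_io (X : Matrix J J K) : M.TM X - X = (v - 1) • M.dl (io v) X := by
  have h1 : X = ∑ c, ∑ b, X c b • Matrix.single c b (1 : K) := by
    conv_lhs => rw [Matrix.matrix_eq_sum_single X]
    refine Finset.sum_congr rfl fun c _ => Finset.sum_congr rfl fun b _ => ?_
    rw [Matrix.smul_single, smul_eq_mul, mul_one]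
  have h2 : M.TM X = ∑ c, ∑ b, X c b • M.TM (Matrix.single c b (1 : K)) := by
    conv_lhs => rw [h1]
    simp only [map_sum, map_smul]
  conv_lhs => rw [h2]; rhs; rw [h1]
  rw [← Finset.sum_sub_distrib, dl, Finset.smul_sum]
  refine Finset.sum_congr rfl fun c _ => ?_
  rw [← Finset.sum_sub_distrib, Finset.smul_sum]
  refine Finset.sum_congr rfl fun b _ => ?_
  rw [← smul_sub, d0_spec, smul_comm]

theorem dl_zero {S : Type} [CommRing S] (φ : RR v →+* S) : M.dl φ 0 = 0 := by
  simp [dl]

theorem dl_rel_K (i : I) (X : Matrix J J K) :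
    M.dl (io v) (X * (M.km i * M.E (io v) i)) - M.dl (io v) (M.E (io v) i * X * M.kp i) =
      M.dl (io v) X * (M.km i * M.E (io v) i) - M.E (io v) i * M.dl (io v) X * M.km i +
        M.E (io v) i * X * (M.kaR i).map (io v) := by
  have hT : ∀ Y, M.TM Y = Y + (v - 1) • M.dl (io v) Y := by
    intro Y; rw [← M.dl_io]; abel
  have h := M.TM_rel.2 i X
  rw [map_sub, hT, hT, hT] at h
  have hka := M.kaR_map i
  have h3 : (v - 1) • (M.dl (io v) (X * (M.km i * M.E (io v) i)) -
      M.dl (io v) (M.E (io v) i * X * M.kp i) -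
      (M.dl (io v) X * (M.km i * M.E (io v) i) - M.E (io v) i * M.dl (io v) X * M.km i +
        M.E (io v) i * X * (M.kaR i).map (io v))) = 0 := by
    have h4 : (v - 1) • (M.E (io v) i * X * (M.kaR i).map (io v)) =
        M.E (io v) i * X * M.kp i - M.E (io v) i * X * M.km i := by
      rw [← mul_smul_comm, hka, mul_sub]
    rw [smul_sub, smul_sub, smul_add, h4, smul_sub]
    simp only [add_mul, mul_add, smul_mul_assoc, mul_smul_comm] at h
    rw [sub_eq_zero, ← sub_eq_zero]
    rw [← sub_eq_zero] at h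
    rw [← h]
    abel
  exact sub_eq_zero.mp ((smul_eq_zero.mp h3).resolve_left (vm1_ne (hv := hv)))

theorem map_inj' {X Y : Matrix J J (RR v)} (h : X.map (io v) = Y.map (io v)) : X = Y :=
  Matrix.map_injective io_inj h

theorem dl_rel_R (i : I) (X : Matrix J J (RR v)) :
    M.dl (RingHom.id _) (X * (M.kmR i * M.e i)) - M.dl (RingHom.id _) (M.e i * X * M.kpR i) =
      M.dl (RingHom.id _) X * (M.kmR i * M.e i) - M.e i * M.dl (RingHom.id _) X * M.kmR i +
        M.e i * X * M.kaR i := by
  apply map_inj'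
  have h := M.dl_rel_K i (X.map (io v))
  rw [Matrix.map_sub _ (map_sub _), Matrix.map_add _ (map_add _), Matrix.map_sub _ (map_sub _)]
  simp only [Matrix.map_mul, kpR_map, kmR_map, ← dl_map]
  simp only [E] at h
  exact h

theorem dl_rel {S : Type} [CommRing S] (φ : RR v →+* S) (hφ : Function.Surjective φ) (i : I)
    (X : Matrix J J S) :
    M.dl φ (X * ((M.kmR i).map φ * (M.e i).map φ)) -
        M.dl φ ((M.e i).map φ * X * (M.kpR i).map φ) =
      M.dl φ X * ((M.kmR i).map φ * (M.e i).map φ) -
        (M.e i).map φ * M.dl φ X * (M.kmR i).map φ +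
        (M.e i).map φ * X * (M.kaR i).map φ := by
  obtain ⟨Y, rfl⟩ : ∃ Y : Matrix J J (RR v), Y.map φ = X := by
    choose g hg using hφ
    exact ⟨X.map g, by ext a b; simp [hg]⟩
  have h := congrArg (fun A : Matrix J J (RR v) => A.map φ) (M.dl_rel_R i Y)
  rw [Matrix.map_sub _ (map_sub _), Matrix.map_add _ (map_add _), Matrix.map_sub _ (map_sub _)] at h
  simp only [Matrix.map_mul, ← dl_map] at h
  exact h

theorem trace_dl_K (m ξ : J → K) : trace (M.dl (io v) (vecMulVec m ξ)) =
    ∑ a, io v (un hv0 (cex C M.L (M.dep a))) * (m a * ξ a) := by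
  apply mul_left_cancel₀ (vm1_ne (hv := hv))
  have h := congrArg trace (M.dl_io (vecMulVec m ξ))
  rw [trace_sub, trace_smul, trace_TM, smul_eq_mul] at h
  rw [← h, Finset.mul_sum, trace_vecMulVec, dotProduct, ← Finset.sum_sub_distrib]
  refine Finset.sum_congr rfl fun a _ => ?_
  linear_combination (-(m a * ξ a)) * un_spec hv0 (cex C M.L (M.dep a))

theorem trace_map' {S S' : Type} [CommRing S] [CommRing S'] (g : S →+* S') (A : Matrix J J S) :
    trace (A.map g) = g (trace A) := by
  simp [trace, Matrix.diag, map_sum]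

theorem trace_dl {S : Type} [CommRing S] (φ : RR v →+* S) (hφ : Function.Surjective φ)
    (m ξ : J → S) : trace (M.dl φ (vecMulVec m ξ)) =
    ∑ a, φ (un hv0 (cex C M.L (M.dep a))) * (m a * ξ a) := by
  choose g hg using hφ
  have hm : m = φ ∘ (g ∘ m) := by ext a; simp [hg]
  have hξ : ξ = φ ∘ (g ∘ ξ) := by ext a; simp [hg]
  have h1 : trace (M.dl (RingHom.id _) (vecMulVec (g ∘ m) (g ∘ ξ))) =
      ∑ a, un hv0 (cex C M.L (M.dep a)) * (g (m a) * g (ξ a)) := by
    apply io_inj
    have := M.trace_dl_K ((io v) ∘ (g ∘ m)) ((io v) ∘ (g ∘ ξ))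
    rw [← map_vecMulVec, dl_map] at this
    rw [trace_map'] at this
    rw [map_sum]
    simp only [map_mul]
    exact this
  have h2 := congrArg φ h1
  rw [map_sum] at h2
  simp only [map_mul, hg] at h2
  rw [← h2]
  conv_lhs => rw [hm, hξ]
  rw [← map_vecMulVec, dl_map]
  exact trace_map' φ _

theorem cex_pos {κ : I → ℤ} (h0 : ∀ i, 0 ≤ κ i) (hκ : κ ≠ 0) {L : I → ℤ}
    (hd : ∀ i, 0 ≤ cor C L κ i) : 0 < cex C L κ := by
  have h1 : 0 < ip C κ κ := C.pos κ hκ
  have h2 : 0 ≤ rho2 C κ :=
    Finset.sum_nonneg fun i _ => mul_nonneg (mul_nonneg (by norm_num) (C.d_pos i).le) (h0 i)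
  have h3 : lp C L κ - ip C κ κ = ∑ i, C.d i * κ i * cor C L κ i := by
    unfold lp ip cor
    rw [← Finset.sum_sub_distrib]
    refine Finset.sum_congr rfl fun i _ => ?_
    rw [mul_sub, Finset.mul_sum]
    congr 1
    · ring
    · exact Finset.sum_congr rfl fun j _ => by ring
  have h4 : 0 ≤ lp C L κ - ip C κ κ := by
    rw [h3]
    exact Finset.sum_nonneg fun i _ => mul_nonneg (mul_nonneg (C.d_pos i).le (h0 i)) (hd i)
  unfold cex
  omega

section sing

variable {k : Type} [Field k] (φ : RR v →+* k)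

/-- rows of `ξ ↦ (T - 1)/(v - 1) (x ⊗ ξ)` -/
noncomputable def rowD (x : J → k) (a : J) : Matrix J J k :=
  fun b b' => M.dl φ (vecMulVec x (Pi.single b 1)) a b'

theorem dl_vec (x ξ : J → k) (a b' : J) :
    M.dl φ (vecMulVec x ξ) a b' = ∑ b, ξ b * M.rowD φ x a b b' := by
  simp only [rowD, dl, Matrix.sum_apply, Matrix.smul_apply, Matrix.map_apply, smul_eq_mul,
    vecMulVec_apply, Pi.single_apply]
  simp only [Finset.mul_sum]
  rw [Finset.sum_comm]
  refine Finset.sum_congr rfl fun b _ => ?_
  refine Finset.sum_congr rfl fun c _ => ?_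
  rw [Finset.sum_eq_single b]
  · simp; ring
  · intro d _ hd
    simp [hd]
  · intro h; exact absurd (Finset.mem_univ _) h

theorem rowD_gr {x : J → k} {κ : I → ℤ} (hx : ∀ a, x a ≠ 0 → M.dep a = κ) {a b b' : J}
    (h : M.rowD φ x a b b' ≠ 0) :
    ∃ ν : I → ℤ, (∀ i, 0 ≤ ν i) ∧ ν ≠ 0 ∧ κ = M.dep a + ν ∧ M.dep b = M.dep b' + ν := by
  simp only [rowD, dl, Matrix.sum_apply, Matrix.smul_apply, Matrix.map_apply, smul_eq_mul,
    vecMulVec_apply] at h
  obtain ⟨c, -, hc⟩ := Finset.exists_ne_zero_of_sum_ne_zero h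
  obtain ⟨d, -, hd⟩ := Finset.exists_ne_zero_of_sum_ne_zero hc
  have h1 := left_ne_zero_of_mul hd
  have h2 := right_ne_zero_of_mul hd
  have h3 := hx c (left_ne_zero_of_mul h1)
  have h4 := right_ne_zero_of_mul h1
  have h5 : d = b := by
    by_contra hne
    apply h4
    rw [Pi.single_apply, if_neg hne]
  subst h5
  obtain ⟨ν, hν0, hν, e1, e2⟩ := M.d0_gr (c := c) (b := d) (a := a) (b' := b') (by
    intro h0; apply h2; rw [h0, map_zero])
  exact ⟨ν, hν0, hν, by rw [← h3, e1], e2⟩

theorem sing_zero (hφ : Function.Surjective φ) {x : J → k} {κ : I → ℤ} (hκ : κ ≠ 0)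
    (hx : ∀ a, x a ≠ 0 → M.dep a = κ) (hE : ∀ i, M.E φ i *ᵥ x = 0) : x = 0 := by
  by_contra hx0
  -- the commutation relation of the rows
  have hrel : ∀ (i : I) (a : J), (M.kmR i).map φ * M.E φ i * M.rowD φ x a =
      M.rowD φ x a * ((M.kmR i).map φ * M.E φ i) -
        ∑ a', M.E φ i a a' • (M.rowD φ x a' * (M.kmR i).map φ) := by
    intro i a
    ext b b'
    have h := congrFun (congrFun (M.dl_rel φ hφ i (vecMulVec x (Pi.single b 1))) a) b'
    have h0 : (M.e i).map φ * vecMulVec x (Pi.single b 1) = 0 := by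
      rw [Matrix.mul_vecMulVec]
      have := hE i
      unfold E at this
      rw [this]
      ext a b; simp [vecMulVec_apply]
    rw [h0, zero_mul, zero_mul, dl_zero, sub_zero, add_zero, Matrix.vecMulVec_mul, dl_vec,
      Matrix.sub_apply] at h
    rw [Matrix.sub_apply, Matrix.mul_apply, Matrix.sum_apply]
    have h1 : ∀ c, (Pi.single b 1 ᵥ* ((M.kmR i).map φ * (M.e i).map φ)) c =
        ((M.kmR i).map φ * M.E φ i) b c := by
      intro c
      rw [single_one_vecMul]
      rfl
    simp only [h1] at h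
    rw [h]
    congr 1
    rw [mul_assoc, Matrix.mul_apply]
    refine Finset.sum_congr rfl fun a' _ => ?_
    rw [Matrix.smul_apply, smul_eq_mul]
    congr 1
  have hD : ∀ n : ℕ, ∀ a, (M.H : ℤ) - hgt (M.dep a) < n → M.rowD φ x a = 0 := by
    intro n
    induction n with
    | zero =>
      intro a ha
      have := M.hgt_le a
      push_cast at ha
      omega
    | succ n ih =>
      intro a ha
      by_contra hne
      have hne' : ∃ b b', M.rowD φ x a b b' ≠ 0 := by
        by_contra hcon
        push Not at hcon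
        exact hne (by ext b b'; exact hcon b b')
      obtain ⟨b0, b0', hb0⟩ := hne'
      obtain ⟨ν, hν0, hν, e1, -⟩ := M.rowD_gr φ hx hb0
      have hgr : ∀ b b', M.rowD φ x a b b' ≠ 0 → M.dep b = M.dep b' + ν := by
        intro b b' hb
        obtain ⟨ν', -, -, e3, e4⟩ := M.rowD_gr φ hx hb
        have : ν' = ν := by
          have := e1.symm.trans e3
          exact (add_left_cancel this).symm
        rw [← this]; exact e4
      apply hne
      refine M.op_zero φ _ hν0 hν hgr ?_
      intro i
      have h2 : ∑ a', M.E φ i a a' • (M.rowD φ x a' * (M.kmR i).map φ) = 0 := by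
        refine Finset.sum_eq_zero fun a' _ => ?_
        by_cases h3 : M.E φ i a a' = 0
        · rw [h3, zero_smul]
        · have h4 := M.E_gr φ h3
          rw [ih a' ?_, zero_mul, smul_zero]
          rw [h4, hgt_add, hgt_sr]
          push_cast at ha
          omega
      have h5 := hrel i a
      rw [h2, sub_zero] at h5
      set D := M.rowD φ x a with hDdef
      set c : RR v := vz v (ip C (sr i) ν) with hc
      set c' : RR v := vz v (-ip C (sr i) ν) with hc'
      have hcc : φ c' * φ c = 1 := by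
        rw [← map_mul, ← map_one φ]
        congr 1
        apply Subtype.ext
        show v ^ (-ip C (sr i) ν) * v ^ (ip C (sr i) ν) = 1
        rw [← zpow_add₀ hv0, neg_add_cancel, zpow_zero]
      have hDk : D * (M.kmR i).map φ = φ c' • ((M.kmR i).map φ * D) := by
        ext b b'
        rw [kmR, Matrix.diagonal_map (map_zero φ), mul_diagonal, Matrix.smul_apply, diagonal_mul,
          smul_eq_mul]
        by_cases h : D b b' = 0
        · rw [h]; ring
        · have h6 := hgr b b' h
          have h7 : wex C M.L (M.dep b) i = wex C M.L (M.dep b') i - ip C (sr i) ν := by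
            rw [h6, wex_eq, wex_eq, ip_add_right]; ring
          have h8 : vz v (-wex C M.L (M.dep b') i) = c' * vz v (-wex C M.L (M.dep b) i) := by
            apply Subtype.ext
            show v ^ (-wex C M.L (M.dep b') i) =
              v ^ (-ip C (sr i) ν) * v ^ (-wex C M.L (M.dep b) i)
            rw [← zpow_add₀ hv0, h7]
            congr 1; ring
          rw [h8, map_mul]; ring
      have hkk : (M.kpR i).map φ * (M.kmR i).map φ = 1 := by
        rw [← Matrix.map_mul, kpR, kmR, diagonal_mul_diagonal]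
        have : (fun a => vz v (wex C M.L (M.dep a) i) * vz v (-wex C M.L (M.dep a) i)) =
            fun _ : J => (1 : RR v) := by
          funext a
          apply Subtype.ext
          show v ^ _ * v ^ (-_) = 1
          rw [← zpow_add₀ hv0, add_neg_cancel, zpow_zero]
        rw [this, diagonal_one]
        exact Matrix.map_one _ (map_zero φ) (map_one φ)
      refine ⟨φ c, right_ne_zero_of_mul_eq_one hcc, ?_⟩
      rw [← mul_assoc, hDk, smul_mul_assoc, mul_assoc, mul_assoc] at h5
      have h6 := congrArg (fun A => (M.kpR i).map φ * A) h5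
      beta_reduce at h6
      rw [mul_smul_comm, ← mul_assoc, hkk, one_mul, ← mul_assoc, hkk, one_mul] at h6
      rw [h6, smul_smul, mul_comm, hcc, one_smul]
  have hD' : ∀ a, M.rowD φ x a = 0 := by
    intro a
    refine hD (M.H + 1) a ?_
    have := M.hgt_nonneg a
    push_cast
    omega
  obtain ⟨a0, ha0⟩ : ∃ a, x a ≠ 0 := by
    by_contra hcon
    push Not at hcon
    exact hx0 (funext hcon)
  have hdl : M.dl φ (vecMulVec x (Pi.single a0 1)) = 0 := by
    ext a b'
    rw [dl_vec]
    simp [hD']
  have htr := M.trace_dl φ hφ x (Pi.single a0 1)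
  rw [hdl, trace_zero, Finset.sum_eq_single a0] at htr
  · rw [Pi.single_eq_same, mul_one, hx a0 ha0] at htr
    have hκ0 : ∀ i, 0 ≤ κ i := by
      intro i; rw [← hx a0 ha0]; exact M.dep_nonneg a0 i
    have hpos := cex_pos hκ0 hκ (fun i => M.dominant_of_sing φ hx hx0 i (hE i))
    have hu := (un_unit hv0 hv hpos.ne' (un_spec hv0 _)).map φ
    exact (mul_ne_zero hu.ne_zero ha0) htr.symm
  · intro b _ hb
    rw [Pi.single_apply, if_neg hb, mul_zero, mul_zero]
  · intro h; exact absurd (Finset.mem_univ _) h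

end sing

end RMod

end Pool.Agent.Work.MP_8ad3a8_al
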