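import Mathlib
import Pool.Agent.Work.MP_8ad3a8_al.RSing

set_option autoImplicit false
set_option linter.unusedSectionVars false

/-!
Injectivity modulo maximal ideals; the integral form of an irreducible module.
-/

namespace Pool.Agent.Work.MP_8ad3a8_al

namespace RMod

open Matrix

variable {I : Type} [Fintype I] [DecidableEq I] {K : Type} [Field K] {C : Cartan I}
  {v : K} {hv0 : v ≠ 0} {hv : ∀ n : ℤ, n ≠ 0 → v ^ n ≠ 1}
  {J : Type} [Fintype J] [DecidableEq J] (M : RMod C v hv0 hv J)

/-- homogeneous component of a vector -/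
def vcomp {k : Type} [Field k] (κ : I → ℤ) (y : J → k) : J → k :=
  fun a => if M.dep a = κ then y a else 0

theorem sum_vcomp {k : Type} [Field k] (y : J → k) :
    y = ∑ κ ∈ Finset.univ.image M.dep, M.vcomp κ y := by
  ext a
  rw [Finset.sum_apply, Finset.sum_eq_single (M.dep a)]
  · simp [vcomp]
  · intro κ _ hκ
    simp [vcomp, Ne.symm hκ]
  · intro h
    exact absurd (Finset.mem_image_of_mem _ (Finset.mem_univ a)) h

theorem eq_top_of_dep {a : J} (h : M.dep a = 0) : a = M.top := by
  by_contra hne
  have hm := M.gen a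
  -- the coordinate `a` vanishes on all generators except possibly those with empty word
  have key : ∀ x ∈ Submodule.span (RR v)
      {x | ∃ w : List I, x = mw M.f w *ᵥ (Pi.single M.top 1 : J → RR v)}, x a = 0 := by
    intro x hx
    induction hx using Submodule.span_induction with
    | mem x hx =>
      obtain ⟨w, rfl⟩ := hx
      by_contra h0
      have h1 := M.fw_gr w h0
      rw [h] at h1
      have h2 : w = [] := by
        have := hgt_cw w
        rw [← h1] at this
        simp [hgt] at this
        exact List.eq_nil_of_length_eq_zero (by exact_mod_cast this.symm)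
      rw [h2, mw_nil, one_mulVec, Pi.single_apply, if_neg hne] at h0
      exact h0 rfl
    | zero => rfl
    | add x y _ _ hx hy => rw [Pi.add_apply, hx, hy, add_zero]
    | smul r x _ hx => rw [Pi.smul_apply, hx, smul_zero]
  have := key _ hm
  rw [Pi.single_eq_same] at this
  exact one_ne_zero this

theorem inj_of {k : Type} [Field k] {φ : RR v →+* k} (hφ : Function.Surjective φ)
    {A : Type} (P : Matrix A J k)
    (hgr : ∀ (κ : I → ℤ) (y : J → k), P *ᵥ y = 0 → P *ᵥ (M.vcomp κ y) = 0)
    (hE : ∀ (i : I) (κ : I → ℤ) (y : J → k), (∀ a, y a ≠ 0 → M.dep a = κ) → P *ᵥ y = 0 →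
      P *ᵥ (M.E φ i *ᵥ y) = 0)
    (htop : P *ᵥ (Pi.single M.top 1) ≠ 0) (y : J → k) (hy : P *ᵥ y = 0) : y = 0 := by
  have key : ∀ n : ℕ, ∀ κ : I → ℤ, hgt κ < n → ∀ y : J → k, (∀ a, y a ≠ 0 → M.dep a = κ) →
      P *ᵥ y = 0 → y = 0 := by
    intro n
    induction n with
    | zero =>
      intro κ hκ y hy _
      funext a
      by_contra h
      have := M.hgt_nonneg a
      rw [hy a h] at this
      push_cast at hκ
      omega
    | succ n ih =>
      intro κ hκ y hy hPy
      have hEy : ∀ i, M.E φ i *ᵥ y = 0 := by
        intro i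
        refine ih (κ - sr i) ?_ _ ?_ (hE i κ y hy hPy)
        · have : hgt κ = hgt (κ - sr i) + 1 := by
            rw [← hgt_sr i, ← hgt_add, sub_add_cancel]
          push_cast at hκ
          omega
        · intro a ha
          rw [mulVec, dotProduct] at ha
          obtain ⟨b, -, hb⟩ := Finset.exists_ne_zero_of_sum_ne_zero ha
          have h1 := M.E_gr φ (left_ne_zero_of_mul hb)
          rw [← hy b (right_ne_zero_of_mul hb), h1, add_sub_cancel_right]
      by_cases hκ0 : κ = 0
      · subst hκ0
        have h1 : y = y M.top • (Pi.single M.top 1 : J → k) := by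
          funext a
          rw [Pi.smul_apply, smul_eq_mul, Pi.single_apply]
          by_cases ha : a = M.top
          · rw [if_pos ha, mul_one, ha]
          · rw [if_neg ha, mul_zero]
            by_contra h
            exact ha (M.eq_top_of_dep (hy a h))
        rw [h1, mulVec_smul] at hPy
        have h2 := (smul_eq_zero.mp hPy).resolve_right htop
        rw [h1, h2, zero_smul]
      · exact M.sing_zero φ hφ hκ0 hy hEy
  rw [M.sum_vcomp y]
  refine Finset.sum_eq_zero fun κ _ => ?_
  refine key ((hgt κ).toNat + 1) κ (by push_cast; omega) _ ?_ (hgr κ y hy)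
  intro a ha
  by_contra h
  apply ha
  simp [vcomp, h]

/-- A square matrix over `RR v` is invertible if it is injective modulo all maximal ideals. -/
theorem isUnit_det_of {n : Type} [Fintype n] [DecidableEq n] (A : Matrix n n (RR v))
    (h : ∀ (k : Type) [Field k] (φ : RR v →+* k), Function.Surjective φ →
      ∀ y : n → k, A.map φ *ᵥ y = 0 → y = 0) : IsUnit A.det := by
  by_contra hu
  obtain ⟨m, hm, hAm⟩ := exists_max_ideal_of_mem_nonunits hu
  letI : Field (RR v ⧸ m) := Ideal.Quotient.field m
  have h1 := h (RR v ⧸ m) (Ideal.Quotient.mk m) Ideal.Quotient.mk_surjective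
  have h2 : (A.map (Ideal.Quotient.mk m)).det = 0 := by
    have : (A.map (Ideal.Quotient.mk m)).det = Ideal.Quotient.mk m A.det :=
      ((Ideal.Quotient.mk m).map_det A).symm
    rw [this, Ideal.Quotient.eq_zero_iff_mem]
    exact hAm
  obtain ⟨y, hy0, hy⟩ := Matrix.exists_mulVec_eq_zero_iff.mpr h2
  exact hy0 (h1 y hy)

/-- The Gram matrix of a contravariant form is invertible over `RR v`. -/
theorem gram_unit (G : Matrix J J (RR v))
    (hgr : ∀ a b, G a b ≠ 0 → M.dep a = M.dep b)
    (hF : ∀ i, (M.f i)ᵀ * G = vz v (C.d i) • (G * (M.kmR i * M.e i)))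
    (htop : G M.top M.top = 1) : IsUnit G.det := by
  apply isUnit_det_of
  intro k _ φ hφ
  refine M.inj_of hφ (G.map φ) ?_ ?_ ?_
  · intro κ y hy
    funext a
    rw [mulVec, dotProduct, Pi.zero_apply]
    by_cases ha : M.dep a = κ
    · have h1 := congrFun hy a
      rw [mulVec, dotProduct, Pi.zero_apply] at h1
      rw [← h1]
      refine Finset.sum_congr rfl fun b _ => ?_
      unfold vcomp
      by_cases hb : M.dep b = κ
      · rw [if_pos hb]
      · rw [if_neg hb, mul_zero, Matrix.map_apply]
        have : G a b = 0 := by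
          by_contra h
          exact hb ((hgr a b h).symm.trans ha)
        rw [this, map_zero, zero_mul]
    · refine Finset.sum_eq_zero fun b _ => ?_
      unfold vcomp
      by_cases hb : M.dep b = κ
      · have : G a b = 0 := by
          by_contra h
          exact ha ((hgr a b h).trans hb)
        rw [Matrix.map_apply, this, map_zero, zero_mul]
      · rw [if_neg hb, mul_zero]
  · intro i κ y hy hGy
    have h1 := congrArg (fun A : Matrix J J (RR v) => A.map φ) (hF i)
    beta_reduce at h1
    have h2 : (vz v (C.d i) • (G * (M.kmR i * M.e i))).map φ =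
        φ (vz v (C.d i)) • (G.map φ * ((M.kmR i).map φ * M.E φ i)) := by
      ext a b
      simp [Matrix.map_apply, Matrix.mul_apply, E, Finset.mul_sum, map_sum]
    have h3 : ((M.f i)ᵀ * G).map φ = ((M.f i)ᵀ).map φ * G.map φ := Matrix.map_mul
    rw [h2, h3] at h1
    have h4 := congrArg (fun A => A *ᵥ y) h1
    beta_reduce at h4
    rw [← mulVec_mulVec, hGy, mulVec_zero, smul_mulVec] at h4
    have hu : φ (vz v (C.d i)) ≠ 0 := by
      have : vz v (C.d i) * vz v (-C.d i) = 1 := by
        apply Subtype.ext
        show v ^ _ * v ^ (-_) = 1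
        rw [← zpow_add₀ hv0, add_neg_cancel, zpow_zero]
      have h5 := congrArg φ this
      rw [map_mul, map_one] at h5
      exact left_ne_zero_of_mul_eq_one h5
    have h5 := (smul_eq_zero.mp h4.symm).resolve_left hu
    rw [← mulVec_mulVec, ← mulVec_mulVec] at h5
    have h6 : (M.kmR i).map φ *ᵥ (M.E φ i *ᵥ y) =
        φ (vz v (-wex C M.L (κ - sr i) i)) • (M.E φ i *ᵥ y) := by
      ext a
      rw [kmR, Matrix.diagonal_map (map_zero φ), mulVec_diagonal, Pi.smul_apply, smul_eq_mul]
      by_cases ha : (M.E φ i *ᵥ y) a = 0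
      · rw [ha, mul_zero, mul_zero]
      · rw [mulVec, dotProduct] at ha
        obtain ⟨b, -, hb⟩ := Finset.exists_ne_zero_of_sum_ne_zero ha
        have h1 := M.E_gr φ (left_ne_zero_of_mul hb)
        rw [← hy b (right_ne_zero_of_mul hb), h1, add_sub_cancel_right]
    rw [h6, mulVec_smul] at h5
    have hu' : φ (vz v (-wex C M.L (κ - sr i) i)) ≠ 0 := by
      have : vz v (-wex C M.L (κ - sr i) i) * vz v (wex C M.L (κ - sr i) i) = 1 := by
        apply Subtype.ext
        show v ^ (-_) * v ^ _ = 1
        rw [← zpow_add₀ hv0, neg_add_cancel, zpow_zero]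
      have h5 := congrArg φ this
      rw [map_mul, map_one] at h5
      exact left_ne_zero_of_mul_eq_one h5
    exact (smul_eq_zero.mp h5).resolve_left hu'
  · intro h
    have := congrFun h M.top
    rw [mulVec_single_one] at this
    have h1 : (G.map φ).col M.top M.top = φ (G M.top M.top) := rfl
    rw [h1, htop, map_one] at this
    exact one_ne_zero this

end RMod

end Pool.Agent.Work.MP_8ad3a8_al
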