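import Mathlib
import Pool.Agent.Work.MP_8ad3a8_al.RGram

set_option autoImplicit false
set_option linter.unusedSectionVars false

/-!
The integral form over `RR v` of the irreducible module of a `Canon`, invertibility of its Gram
matrix, and integrality and perfectness of the duality pairing.
-/

namespace Pool.Agent.Work.MP_8ad3a8_al

variable {I : Type} [Fintype I] [DecidableEq I] {K : Type} [Field K]
variable {C : Cartan I} {v : K} {bar : K ≃+* K}

theorem Av_le_RR : Av v ≤ RR v := by
  refine Subring.closure_le.mpr ?_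
  rintro x (rfl | rfl)
  · exact v_mem
  · exact vinv_mem

theorem Zm_le_Av : Zm v ≤ Av v := by
  refine Subring.closure_le.mpr ?_
  rintro x rfl
  exact Subring.subset_closure (Or.inr rfl)

theorem Zm_le_RR : Zm v ≤ RR v := Zm_le_Av.trans Av_le_RR

/-- spans over a smaller subring -/
theorem span_sub {V : Type} [AddCommGroup V] [Module K V] {A B : Subring K} (h : A ≤ B)
    (s : Set V) {x : V} (hx : x ∈ Submodule.span A s) : x ∈ Submodule.span B s := by
  induction hx using Submodule.span_induction with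
  | mem x hx => exact Submodule.subset_span hx
  | zero => exact Submodule.zero_mem _
  | add x y _ _ hx hy => exact Submodule.add_mem _ hx hy
  | smul a x _ hx => exact Submodule.smul_mem _ (⟨a.1, h a.2⟩ : B) hx

theorem qfact_one (u : K) (hu : u - u⁻¹ ≠ 0) : qfact u 1 = 1 := by
  unfold qfact qint
  simp only [Finset.range_one, Finset.prod_singleton, Nat.cast_zero, zero_add, zpow_one, zpow_neg]
  exact div_self hu

namespace Canon

variable {V : Type} [AddCommGroup V] [Module K V] {lam : I → ℕ} {J : Type} [Fintype J]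
  [DecidableEq J] (c : Canon C v bar lam V J)
variable (hv0 : v ≠ 0) (hv : ∀ n : ℤ, n ≠ 0 → v ^ n ≠ 1)

/-- the lattice spanned by the canonical basis -/
def VR : Submodule (RR v) V := Submodule.span (RR v) (Set.range c.B)

/-- the lattice spanned by monomials -/
def VF : Submodule (RR v) V := Submodule.span (RR v) {x | ∃ w : List I, x = Fw c.X w c.hw}

include hv0 hv in
theorem vi_ne (i : I) : v ^ C.d i - (v ^ C.d i)⁻¹ ≠ 0 := by
  rw [← zpow_neg]; exact zpow_sub_ne hv0 hv (C.d_pos i).ne'

include hv0 hv in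
theorem Fw_eq_mon (w : List I) : Fw c.X w c.hw = mon C v c.X (c.B c.top) (w.map fun i => (i, 1)) := by
  induction w with
  | nil => simp [mon]; rfl
  | cons i w ih =>
    rw [Fw_cons, ih, List.map_cons, mon]
    simp only [dpow, pow_one]
    rw [qfact_one _ (vi_ne hv0 hv i), inv_one, one_smul]

theorem F_VF {x : V} (hx : x ∈ c.VF) (i : I) : c.X.F i x ∈ c.VF := by
  induction hx using Submodule.span_induction with
  | mem x hx =>
    obtain ⟨w, rfl⟩ := hx
    rw [← Fw_cons]
    exact Submodule.subset_span ⟨i :: w, rfl⟩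
  | zero => rw [map_zero]; exact Submodule.zero_mem _
  | add x y _ _ hx hy => rw [map_add]; exact Submodule.add_mem _ hx hy
  | smul a x _ hx =>
    have : c.X.F i (a • x) = a • c.X.F i x := (c.X.F i).map_smul (a : K) x
    rw [this]; exact Submodule.smul_mem _ _ hx

include hv0 hv in
theorem qfact_inv_mem (i : I) (n : ℕ) : (qfact (v ^ C.d i) n)⁻¹ ∈ RR v := by
  unfold qfact
  rw [← Finset.prod_inv_distrib]
  refine Subring.prod_mem _ fun m _ => ?_
  have h1 : qint (v ^ C.d i) ((m : ℤ) + 1) = qd v (C.d i) ((m : ℤ) + 1) := by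
    rw [qd_eq hv0 hv, qint, ← zpow_mul, ← zpow_mul, ← zpow_neg]
    congr 2
    ring_nf
  rw [h1]
  exact qd_inv_mem hv0 hv (C.d_pos i).ne' (by positivity)

include hv0 hv in
theorem mon_VF (p : List (I × ℕ)) : mon C v c.X (c.B c.top) p ∈ c.VF := by
  induction p with
  | nil => exact Submodule.subset_span ⟨[], by rw [Fw_nil]; rfl⟩
  | cons a p ih =>
    rw [mon, dpow, LinearMap.smul_apply]
    have h1 : ∀ n : ℕ, (c.X.F a.1 ^ n) (mon C v c.X (c.B c.top) p) ∈ c.VF := by
      intro n
      induction n with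
      | zero => simpa using ih
      | succ n ihn =>
        rw [pow_succ', Module.End.mul_apply]
        exact c.F_VF ihn _
    exact Submodule.smul_mem _ (⟨_, qfact_inv_mem hv0 hv a.1 a.2⟩ : RR v) (h1 _)

include hv0 hv in
theorem VR_eq : c.VR = c.VF := by
  apply le_antisymm
  · refine Submodule.span_le.mpr ?_
    rintro x ⟨j, rfl⟩
    have h1 : c.B j ∈ Submodule.span (Av v) (Set.range (mon C v c.X (c.B c.top))) := by
      rw [← c.lattice]; exact Submodule.subset_span ⟨j, rfl⟩
    have h2 := span_sub Av_le_RR _ h1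
    have h3 : Submodule.span (RR v) (Set.range (mon C v c.X (c.B c.top))) ≤ c.VF := by
      refine Submodule.span_le.mpr ?_
      rintro x ⟨p, rfl⟩
      exact c.mon_VF hv0 hv p
    exact h3 h2
  · refine Submodule.span_le.mpr ?_
    rintro x ⟨w, rfl⟩
    have h1 : Fw c.X w c.hw ∈ Submodule.span (Av v) (Set.range c.B) := by
      rw [c.lattice, c.Fw_eq_mon hv0 hv]
      exact Submodule.subset_span ⟨_, rfl⟩
    exact span_sub Av_le_RR _ h1

include hv0 hv in
theorem F_VR {x : V} (hx : x ∈ c.VR) (i : I) : c.X.F i x ∈ c.VR := by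
  rw [c.VR_eq hv0 hv] at hx ⊢
  exact c.F_VF hx i

include hv0 hv in
theorem E_Fw (w : List I) (i : I) : c.X.E i (Fw c.X w c.hw) ∈ c.VF := by
  induction w with
  | nil =>
    rw [Fw_nil]
    have : c.X.E i c.hw = 0 := c.top_E i
    rw [this]; exact Submodule.zero_mem _
  | cons j w ih =>
    rw [Fw_cons, c.rel.EF_wsp hv0 hv (c.Fw_wsp hv0 w)]
    refine Submodule.add_mem _ (c.F_VF ih j) ?_
    split_ifs with h
    · have h1 : (v ^ wex C c.L (cw w) i - v ^ (-wex C c.L (cw w) i)) /
          (v ^ C.d i - v ^ (-C.d i)) = qd v (C.d i) (cor C c.L (cw w) i) := by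
        rw [qd_eq hv0 hv, wex_eq_cor]
      rw [h1]
      exact Submodule.smul_mem _ (⟨_, qd_mem hv0 hv (C.d_pos i).ne' _⟩ : RR v)
        (Submodule.subset_span ⟨w, rfl⟩)
    · exact Submodule.zero_mem _

include hv0 hv in
theorem E_VR {x : V} (hx : x ∈ c.VR) (i : I) : c.X.E i x ∈ c.VR := by
  rw [c.VR_eq hv0 hv] at hx ⊢
  induction hx using Submodule.span_induction with
  | mem x hx =>
    obtain ⟨w, rfl⟩ := hx
    exact c.E_Fw hv0 hv w i
  | zero => rw [map_zero]; exact Submodule.zero_mem _
  | add x y _ _ hx hy => rw [map_add]; exact Submodule.add_mem _ hx hy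
  | smul a x _ hx =>
    have : c.X.E i (a • x) = a • c.X.E i x := (c.X.E i).map_smul (a : K) x
    rw [this]; exact Submodule.smul_mem _ _ hx

theorem B_VR (j : J) : c.B j ∈ c.VR := Submodule.subset_span ⟨j, rfl⟩

theorem repr_VR {x : V} (hx : x ∈ c.VR) (j : J) : c.B.repr x j ∈ RR v := by
  induction hx using Submodule.span_induction with
  | mem x hx =>
    obtain ⟨k, rfl⟩ := hx
    rw [Module.Basis.repr_self, Finsupp.single_apply]
    split_ifs
    · exact Subring.one_mem _
    · exact Subring.zero_mem _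
  | zero => rw [map_zero]; exact Subring.zero_mem _
  | add x y _ _ hx hy =>
    rw [map_add, Finsupp.add_apply]; exact Subring.add_mem _ hx hy
  | smul a x _ hx =>
    have : c.B.repr (a • x) j = (a : K) * c.B.repr x j := by
      have : c.B.repr (a • x) = (a : K) • c.B.repr x := c.B.repr.map_smul (a : K) x
      rw [this]; rfl
    rw [this]; exact Subring.mul_mem _ a.2 hx

theorem mem_VR {x : V} (h : ∀ j, c.B.repr x j ∈ RR v) : x ∈ c.VR := by
  rw [← c.B.sum_repr x]
  exact Submodule.sum_mem _ fun j _ => Submodule.smul_mem _ (⟨_, h j⟩ : RR v) (c.B_VR j)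

/-- matrix of `E i` -/
noncomputable def mE (i : I) : Matrix J J (RR v) := fun a b =>
  ⟨c.B.repr (c.X.E i (c.B b)) a, c.repr_VR (c.E_VR hv0 hv (c.B_VR b) i) a⟩

/-- matrix of `F i` -/
noncomputable def mF (i : I) : Matrix J J (RR v) := fun a b =>
  ⟨c.B.repr (c.X.F i (c.B b)) a, c.repr_VR (c.F_VR hv0 hv (c.B_VR b) i) a⟩

theorem mE_map (i : I) : (c.mE hv0 hv i).map (RMod.io v) = LinearMap.toMatrix c.B c.B (c.X.E i) := by
  ext a b
  rw [LinearMap.toMatrix_apply]; rfl

theorem mF_map (i : I) : (c.mF hv0 hv i).map (RMod.io v) = LinearMap.toMatrix c.B c.B (c.X.F i) := by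
  ext a b
  rw [LinearMap.toMatrix_apply]; rfl

theorem mE_gr {i : I} {a b : J} (h : c.mE hv0 hv i a b ≠ 0) : c.dp b = c.dp a + sr i := by
  have h1 := c.rel.E_wsp hv0 (c.B_wsp b) i
  have h2 := (mem_wsp_iff_repr c.B hv0 hv c.B_wsp _ _).mp h1 a (by
    intro h0
    apply h
    exact Subtype.ext h0)
  rw [h2, sub_add_cancel]

theorem mF_gr {i : I} {a b : J} (h : c.mF hv0 hv i a b ≠ 0) : c.dp a = c.dp b + sr i := by
  have h1 := c.rel.F_wsp hv0 (c.B_wsp b) i
  exact (mem_wsp_iff_repr c.B hv0 hv c.B_wsp _ _).mp h1 a (by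
    intro h0
    apply h
    exact Subtype.ext h0)

theorem mEF (i j : I) : c.mE hv0 hv i * c.mF hv0 hv j - c.mF hv0 hv j * c.mE hv0 hv i =
    if i = j then Matrix.diagonal
      (fun a => qdR hv0 hv (C.d_pos i).ne' (cor C c.L (c.dp a) i)) else 0 := by
  apply RMod.map_inj'
  rw [Matrix.map_sub _ (map_sub _), Matrix.map_mul, Matrix.map_mul, mE_map, mF_map,
    ← LinearMap.toMatrix_mul, ← LinearMap.toMatrix_mul, ← map_sub]
  ext a b
  rw [LinearMap.toMatrix_apply]
  have h1 : (c.X.E i * c.X.F j - c.X.F j * c.X.E i) (c.B b) = if i = j then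
      ((v ^ wex C c.L (c.dp b) i - v ^ (-wex C c.L (c.dp b) i)) / (v ^ C.d i - v ^ (-C.d i))) •
        c.B b else 0 := by
    have := c.rel.EF_wsp hv0 hv (c.B_wsp b) i j
    rw [LinearMap.sub_apply, Module.End.mul_apply, Module.End.mul_apply, this]
    abel
  rw [h1]
  split_ifs with hij
  · rw [map_smul, Finsupp.smul_apply, Module.Basis.repr_self, Finsupp.single_apply,
      Matrix.map_apply, Matrix.diagonal_apply]
    by_cases hab : b = a
    · subst hab
      rw [if_pos rfl, if_pos rfl, smul_eq_mul, mul_one, wex_eq_cor, ← qd_eq hv0 hv]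
      rfl
    · rw [if_neg hab, if_neg (Ne.symm hab)]
      simp
  · simp

/-- coordinates of `F_w hw` -/
theorem repr_Fw (w : List I) : (RMod.io v) ∘ (Matrix.mulVec (mw (c.mF hv0 hv) w) (Pi.single c.top 1)) =
    fun a => c.B.repr (Fw c.X w c.hw) a := by
  induction w with
  | nil =>
    rw [mw_nil, Matrix.one_mulVec, RMod.io_comp_single]
    funext a
    rw [Fw_nil]
    have : c.hw = c.B c.top := rfl
    rw [this, Module.Basis.repr_self, Finsupp.single_apply, Pi.single_apply]
    simp only [eq_comm]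
  | cons i w ih =>
    rw [mw_cons, ← Matrix.mulVec_mulVec]
    funext a
    have h1 : (RMod.io v ∘ (Matrix.mulVec (c.mF hv0 hv i)
        (Matrix.mulVec (mw (c.mF hv0 hv) w) (Pi.single c.top 1)))) a =
        ((c.mF hv0 hv i).map (RMod.io v)).mulVec ((RMod.io v) ∘
          (Matrix.mulVec (mw (c.mF hv0 hv) w) (Pi.single c.top 1))) a := by
      simp only [Function.comp, Matrix.mulVec, dotProduct, map_sum, map_mul, Matrix.map_apply]
    rw [h1, ih, mF_map, LinearMap.toMatrix_mulVec_repr, Fw_cons]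

theorem gen' (a : J) : (Pi.single a 1 : J → RR v) ∈
    Submodule.span (RR v) {x | ∃ w : List I, x = Matrix.mulVec (mw (c.mF hv0 hv) w)
      (Pi.single c.top 1)} := by
  have h1 : c.B a ∈ c.VF := by rw [← c.VR_eq hv0 hv]; exact c.B_VR a
  have key : ∀ x ∈ c.VF, ∃ y ∈ Submodule.span (RR v) {x | ∃ w : List I, x =
      Matrix.mulVec (mw (c.mF hv0 hv) w) (Pi.single c.top 1)},
      (RMod.io v) ∘ y = fun a => c.B.repr x a := by
    intro x hx
    induction hx using Submodule.span_induction with
    | mem x hx =>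
      obtain ⟨w, rfl⟩ := hx
      exact ⟨_, Submodule.subset_span ⟨w, rfl⟩, c.repr_Fw hv0 hv w⟩
    | zero => exact ⟨0, Submodule.zero_mem _, by ext a; simp⟩
    | add x y _ _ hx hy =>
      obtain ⟨x', hx', ex⟩ := hx
      obtain ⟨y', hy', ey⟩ := hy
      refine ⟨x' + y', Submodule.add_mem _ hx' hy', ?_⟩
      funext a
      have e1 := congrFun ex a
      have e2 := congrFun ey a
      simp only [Function.comp, Pi.add_apply, map_add, Finsupp.add_apply] at e1 e2 ⊢
      rw [e1, e2]
    | smul r x _ hx =>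
      obtain ⟨x', hx', ex⟩ := hx
      refine ⟨r • x', Submodule.smul_mem _ _ hx', ?_⟩
      funext a
      have e1 := congrFun ex a
      have e2 : c.B.repr (r • x) = (r : K) • c.B.repr x := c.B.repr.map_smul (r : K) x
      simp only [Function.comp, Pi.smul_apply, smul_eq_mul, map_mul] at e1 ⊢
      rw [e1, e2]
      rfl
  obtain ⟨y, hy, ey⟩ := key _ h1
  have : y = Pi.single a 1 := by
    funext b
    apply RMod.io_inj
    have e1 := congrFun ey b
    have e2 := congrFun (RMod.io_comp_single (v := v) a) b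
    simp only [Function.comp] at e1 e2
    rw [e1, e2, Module.Basis.repr_self, Finsupp.single_apply, Pi.single_apply]
    simp only [eq_comm]
  rw [← this]; exact hy

/-- the integral form -/
noncomputable def toRMod : RMod C v hv0 hv J where
  L := c.L
  dep := c.dp
  top := c.top
  e := c.mE hv0 hv
  f := c.mF hv0 hv
  e_gr _ _ _ h := c.mE_gr hv0 hv h
  f_gr _ _ _ h := c.mF_gr hv0 hv h
  ef i j := c.mEF hv0 hv i j
  dep_top := c.dp_top hv0 hv
  dep_nonneg _ _ := Int.natCast_nonneg _
  gen a := c.gen' hv0 hv a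

end Canon

end Pool.Agent.Work.MP_8ad3a8_al
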