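import Mathlib
import Pool.Agent.Work.MP_8ad3a8_al.CanonR

set_option autoImplicit false
set_option linter.unusedSectionVars false

/-!
Invertibility over `RR v` of the Gram matrix, integrality and perfectness of the duality pairing.
-/

namespace Pool.Agent.Work.MP_8ad3a8_al

variable {I : Type} [Fintype I] [DecidableEq I] {K : Type} [Field K]
variable {C : Cartan I} {v : K} {bar : K ≃+* K}

namespace Canon

variable {V : Type} [AddCommGroup V] [Module K V] {lam : I → ℕ} {J : Type} [Fintype J]
  [DecidableEq J] (c : Canon C v bar lam V J)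
variable (hv0 : v ≠ 0) (hv : ∀ n : ℤ, n ≠ 0 → v ^ n ≠ 1)

theorem form_R (a b : J) : c.form (c.B a) (c.B b) ∈ RR v := by
  obtain ⟨r, hr, h⟩ := c.orth a b
  rw [h]
  refine Subring.add_mem _ ?_ (Subring.mul_mem _ vinv_mem (Zm_le_RR hr))
  split_ifs
  · exact Subring.one_mem _
  · exact Subring.zero_mem _

/-- the Gram matrix -/
noncomputable def mG : Matrix J J (RR v) := fun a b => ⟨c.form (c.B a) (c.B b), c.form_R a b⟩

include hv0 in
theorem Km_B (i : I) (j : J) : c.X.Km i (c.B j) = v ^ (-wex C c.L (c.dp j) i) • c.B j :=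
  c.rel.Km_wsp hv0 (c.B_wsp j) i

theorem Kp_B (i : I) (j : J) : c.X.Kp i (c.B j) = v ^ (wex C c.L (c.dp j) i) • c.B j :=
  c.B_wsp j i

include hv0 hv in
theorem gram_det_unit : IsUnit c.mG.det := by
  refine (c.toRMod hv0 hv).gram_unit c.mG ?_ ?_ ?_
  · intro a b h
    by_contra hne
    apply h
    apply Subtype.ext
    exact form_wsp hv0 hv c.isForm hne (c.B_wsp a) (c.B_wsp b)
  · intro i
    apply RMod.map_inj'
    ext a b
    have h1 := c.isForm.F i (c.B a) (c.B b)
    have h2 : c.form (c.X.F i (c.B a)) (c.B b) =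
        ∑ d, c.B.repr (c.X.F i (c.B a)) d * c.form (c.B d) (c.B b) := by
      conv_lhs => rw [← c.B.sum_repr (c.X.F i (c.B a))]
      simp only [map_sum, map_smul, LinearMap.sum_apply, LinearMap.smul_apply, smul_eq_mul]
    have h3 : c.form (c.B a) (v ^ C.d i • c.X.Km i (c.X.E i (c.B b))) =
        v ^ C.d i * ∑ d, c.form (c.B a) (c.B d) *
          (v ^ (-wex C c.L (c.dp d) i) * c.B.repr (c.X.E i (c.B b)) d) := by
      rw [map_smul, smul_eq_mul]
      congr 1
      conv_lhs => rw [← c.B.sum_repr (c.X.E i (c.B b))]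
      simp only [map_sum, map_smul, c.Km_B hv0, smul_eq_mul]
      refine Finset.sum_congr rfl fun d _ => ?_
      ring
    rw [h2, h3] at h1
    have e1 : (((c.toRMod hv0 hv).f i).transpose * c.mG).map (RMod.io v) a b =
        ∑ d, c.B.repr (c.X.F i (c.B a)) d * c.form (c.B d) (c.B b) := by
      rw [Matrix.map_apply, Matrix.mul_apply, map_sum]
      refine Finset.sum_congr rfl fun d _ => ?_
      rw [map_mul]; rfl
    have e2 : (RMod.vz v (C.d i) • (c.mG * ((c.toRMod hv0 hv).kmR i *
        (c.toRMod hv0 hv).e i))).map (RMod.io v) a b =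
        v ^ C.d i * ∑ d, c.form (c.B a) (c.B d) *
          (v ^ (-wex C c.L (c.dp d) i) * c.B.repr (c.X.E i (c.B b)) d) := by
      rw [Matrix.map_apply, Matrix.smul_apply, smul_eq_mul, map_mul, Matrix.mul_apply, map_sum,
        RMod.io_vz]
      congr 1
      refine Finset.sum_congr rfl fun d _ => ?_
      rw [map_mul, RMod.kmR, Matrix.diagonal_mul, map_mul, RMod.io_vz]
      rfl
    rw [e1, e2, h1]
  · apply Subtype.ext
    exact c.form_top

include hv0 hv in
theorem gram_ne : Matrix.det (Matrix.of fun i j => c.form (c.B i) (c.B j)) ≠ 0 ∧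
    (Matrix.det (Matrix.of fun i j => c.form (c.B i) (c.B j)))⁻¹ ∈ RR v := by
  obtain ⟨u, hu⟩ := c.gram_det_unit hv0 hv
  have h1 : Matrix.det (Matrix.of fun i j => c.form (c.B i) (c.B j)) = (c.mG.det : K) := by
    have : (Matrix.of fun i j => c.form (c.B i) (c.B j)) = c.mG.map (RMod.io v) := by
      ext i j; rfl
    rw [this]
    exact ((RMod.io v).map_det c.mG).symm
  have h2 : (c.mG.det : K) * ((u⁻¹ : (RR v)ˣ) : RR v) = 1 := by
    rw [← hu]
    have : ((u : RR v) * ((u⁻¹ : (RR v)ˣ) : RR v) : RR v) = 1 := Units.mul_inv u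
    exact congrArg Subtype.val this
  rw [h1]
  refine ⟨left_ne_zero_of_mul_eq_one h2, ?_⟩
  rw [inv_eq_of_mul_eq_one_right h2]
  exact Subtype.property _

include hv0 in
theorem Km_VR {x : V} (hx : x ∈ c.VR) (i : I) : c.X.Km i x ∈ c.VR := by
  induction hx using Submodule.span_induction with
  | mem x hx =>
    obtain ⟨j, rfl⟩ := hx
    rw [c.Km_B hv0]
    exact Submodule.smul_mem _ (RMod.vz v (-wex C c.L (c.dp j) i)) (c.B_VR j)
  | zero => rw [map_zero]; exact Submodule.zero_mem _
  | add x y _ _ hx hy => rw [map_add]; exact Submodule.add_mem _ hx hy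
  | smul a x _ hx =>
    have : c.X.Km i (a • x) = a • c.X.Km i x := (c.X.Km i).map_smul (a : K) x
    rw [this]; exact Submodule.smul_mem _ _ hx

theorem Kp_VR {x : V} (hx : x ∈ c.VR) (i : I) : c.X.Kp i x ∈ c.VR := by
  induction hx using Submodule.span_induction with
  | mem x hx =>
    obtain ⟨j, rfl⟩ := hx
    rw [c.Kp_B]
    exact Submodule.smul_mem _ (RMod.vz v (wex C c.L (c.dp j) i)) (c.B_VR j)
  | zero => rw [map_zero]; exact Submodule.zero_mem _
  | add x y _ _ hx hy => rw [map_add]; exact Submodule.add_mem _ hx hy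
  | smul a x _ hx =>
    have : c.X.Kp i (a • x) = a • c.X.Kp i x := (c.X.Kp i).map_smul (a : K) x
    rw [this]; exact Submodule.smul_mem _ _ hx

/-- coordinates of `E_w B_l` -/
theorem repr_Ew (w : List I) (l : J) :
    (RMod.io v) ∘ (Matrix.mulVec (mw (c.mE hv0 hv) w) (Pi.single l 1)) =
    fun a => c.B.repr (Ew c.X w (c.B l)) a := by
  induction w with
  | nil =>
    rw [mw_nil, Matrix.one_mulVec, RMod.io_comp_single]
    funext a
    rw [Ew_nil, Module.Basis.repr_self, Finsupp.single_apply, Pi.single_apply]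
    simp only [eq_comm]
  | cons i w ih =>
    rw [mw_cons, ← Matrix.mulVec_mulVec]
    funext a
    have h1 : (RMod.io v ∘ (Matrix.mulVec (c.mE hv0 hv i)
        (Matrix.mulVec (mw (c.mE hv0 hv) w) (Pi.single l 1)))) a =
        ((c.mE hv0 hv i).map (RMod.io v)).mulVec ((RMod.io v) ∘
          (Matrix.mulVec (mw (c.mE hv0 hv) w) (Pi.single l 1))) a := by
      simp only [Function.comp, Matrix.mulVec, dotProduct, map_sum, map_mul, Matrix.map_apply]
    rw [h1, ih, mE_map, LinearMap.toMatrix_mulVec_repr, Ew_cons]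

include hv0 hv in
/-- The highest weight vector is an integral combination of the `E_w B_l`. -/
theorem ideal_top (l : J) :
    Ideal.span {r : RR v | ∃ w : List I, Ew c.X w (c.B l) = (r : K) • c.hw} = ⊤ := by
  by_contra hne
  obtain ⟨m, hm, hle⟩ := Ideal.exists_le_maximal _ hne
  let _ : Field (RR v ⧸ m) := Ideal.Quotient.field m
  set φ : RR v →+* (RR v ⧸ m) := Ideal.Quotient.mk m with hφdef
  have hφ : Function.Surjective φ := Ideal.Quotient.mk_surjective
  set M := c.toRMod hv0 hv with hM
  let x : List I → J → (RR v ⧸ m) := fun w => Matrix.mulVec (mw (M.E φ) w) (Pi.single l 1)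
  have hx0 : x [] ≠ 0 := by
    intro h
    have := congrFun h l
    simp [x] at this
  have hxN : ∀ w : List I, M.H < w.length → x w = 0 := by
    intro w hw
    show Matrix.mulVec (mw (M.E φ) w) (Pi.single l 1) = 0
    rw [M.mwE_zero (M.E φ) (fun i a b h => M.E_gr φ h) w hw, Matrix.zero_mulVec]
  obtain ⟨w, hw, hmax⟩ : ∃ w : List I, x w ≠ 0 ∧ ∀ i, x (i :: w) = 0 := by
    by_contra hcon
    push Not at hcon
    have : ∀ n : ℕ, ∃ w : List I, w.length = n ∧ x w ≠ 0 := by
      intro n
      induction n with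
      | zero => exact ⟨[], rfl, hx0⟩
      | succ n ih =>
        obtain ⟨w, hl, hw⟩ := ih
        obtain ⟨i, hi⟩ := hcon w hw
        exact ⟨i :: w, by simp [hl], hi⟩
    obtain ⟨w, hl, hw⟩ := this (M.H + 1)
    exact hw (hxN w (by omega))
  have hgr : ∀ a, x w a ≠ 0 → M.dep a = M.dep l - cw w := by
    intro a ha
    have ha' : mw (M.E φ) w a l ≠ 0 := by
      have : x w a = mw (M.E φ) w a l := by
        show Matrix.mulVec (mw (M.E φ) w) (Pi.single l 1) a = _
        rw [Matrix.mulVec_single_one]; rfl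
      rw [← this]; exact ha
    have := M.mwE_gr (M.E φ) (fun i a b h => M.E_gr φ h) w ha'
    rw [this]; abel
  have hsing : ∀ i, Matrix.mulVec (M.E φ i) (x w) = 0 := by
    intro i
    have := hmax i
    rw [← this]
    show _ = Matrix.mulVec (mw (M.E φ) (i :: w)) (Pi.single l 1)
    rw [mw_cons, ← Matrix.mulVec_mulVec]
  by_cases hκ : M.dep l - cw w = 0
  · -- depth zero
    have hval : x w M.top = φ (mw (c.mE hv0 hv) w c.top l) := by
      have : x w = φ ∘ (Matrix.mulVec (mw (c.mE hv0 hv) w) (Pi.single l 1)) := by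
        funext a
        show Matrix.mulVec (mw (M.E φ) w) (Pi.single l 1) a = _
        rw [Matrix.mulVec_single_one]
        simp only [Function.comp]
        rw [Matrix.mulVec_single_one]
        have := RMod.mw_map φ (c.mE hv0 hv) w
        exact (congrFun (congrFun this a) l).symm
      rw [this]
      simp only [Function.comp]
      rw [Matrix.mulVec_single_one]; rfl
    have hmem : (mw (c.mE hv0 hv) w c.top l) ∈
        {r : RR v | ∃ w : List I, Ew c.X w (c.B l) = (r : K) • c.hw} := by
      refine ⟨w, ?_⟩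
      have hrep := c.repr_Ew hv0 hv w l
      apply c.B.repr.injective
      ext a
      have h1 := congrFun hrep a
      rw [← h1]
      simp only [Function.comp]
      rw [Matrix.mulVec_single_one]
      have h2 : c.B.repr (((mw (c.mE hv0 hv) w c.top l : RR v) : K) • c.hw) a =
          ((mw (c.mE hv0 hv) w c.top l : RR v) : K) * (if c.top = a then 1 else 0) := by
        rw [map_smul, Finsupp.smul_apply, smul_eq_mul]
        have : c.hw = c.B c.top := rfl
        rw [this, Module.Basis.repr_self, Finsupp.single_apply]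
      rw [h2]
      by_cases ha : c.top = a
      · subst ha; rw [if_pos rfl, mul_one]; rfl
      · rw [if_neg ha, mul_zero]
        show ((mw (c.mE hv0 hv) w a l : RR v) : K) = 0
        by_contra h0
        have h3 : mw (c.mE hv0 hv) w a l ≠ 0 := fun h => h0 (by rw [h]; rfl)
        have h4 := M.mwE_gr M.e M.e_gr w h3
        apply ha
        have h5 : M.dep a = 0 := by rw [← hκ, h4]; abel
        exact (M.eq_top_of_dep h5).symm
    have h0 : φ (mw (c.mE hv0 hv) w c.top l) = 0 :=
      Ideal.Quotient.eq_zero_iff_mem.mpr (hle (Ideal.subset_span hmem))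
    rw [h0] at hval
    apply hw
    funext a
    by_contra ha
    have h1 := hgr a ha
    rw [hκ] at h1
    rw [M.eq_top_of_dep h1] at ha
    exact ha hval
  · exact hw (M.sing_zero φ hφ hκ hgr hsing)

end Canon

section duality

variable {lam' lam : I → ℕ}
  {V' : Type} [AddCommGroup V'] [Module K V'] {J' : Type} [Fintype J'] [DecidableEq J']
  {V : Type} [AddCommGroup V] [Module K V] {J : Type} [Fintype J] [DecidableEq J]
  {c' : Canon C v bar lam' V' J'} {c : Canon C v bar lam V J}
  {D : V' ≃ₗ[K] Module.Dual K V} (hD : IsDuality c' c D)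
  (hv0 : v ≠ 0) (hv : ∀ n : ℤ, n ≠ 0 → v ^ n ≠ 1)

include hD hv0 hv

theorem dual_E_R (l : J') (hl : D (c'.B l) = c.B.coord c.top) (w : List I) {y : V}
    (hy : y ∈ c.VR) : D (Ew c'.X w (c'.B l)) y ∈ RR v := by
  induction w generalizing y with
  | nil =>
    rw [Ew_nil, hl]
    exact c.repr_VR hy c.top
  | cons i w ih =>
    rw [Ew_cons, hD.E]
    exact Subring.neg_mem _ (ih (c.E_VR hv0 hv (c.Km_VR hv0 hy i) i))

theorem dual_hw_R {y : V} (hy : y ∈ c.VR) : D c'.hw y ∈ RR v := by
  obtain ⟨l, -, hl⟩ := hD.low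
  let P : Ideal (RR v) :=
    { carrier := {r | (r : K) * D c'.hw y ∈ RR v}
      add_mem' := by
        intro a b ha hb
        simp only [Set.mem_ofPred_eq, Subring.coe_add, add_mul] at ha hb ⊢
        exact Subring.add_mem _ ha hb
      zero_mem' := by simp
      smul_mem' := by
        intro a b hb
        simp only [Set.mem_ofPred_eq, smul_eq_mul, Subring.coe_mul, mul_assoc] at hb ⊢
        exact Subring.mul_mem _ a.2 hb }
  have h1 : Ideal.span {r : RR v | ∃ w : List I, Ew c'.X w (c'.B l) = (r : K) • c'.hw} ≤ P := by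
    refine Ideal.span_le.mpr ?_
    rintro r ⟨w, hw⟩
    show (r : K) * D c'.hw y ∈ RR v
    have h2 := dual_E_R hD hv0 hv l hl w hy
    rw [hw, map_smul, LinearMap.smul_apply, smul_eq_mul] at h2
    exact h2
  rw [c'.ideal_top hv0 hv l] at h1
  have h3 : (1 : RR v) ∈ P := h1 Submodule.mem_top
  have h4 : ((1 : RR v) : K) * D c'.hw y ∈ RR v := h3
  simpa using h4

theorem dual_R {x : V'} (hx : x ∈ c'.VR) {y : V} (hy : y ∈ c.VR) : D x y ∈ RR v := by
  rw [c'.VR_eq hv0 hv] at hx
  induction hx using Submodule.span_induction with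
  | mem x hx =>
    obtain ⟨w, rfl⟩ := hx
    induction w generalizing y with
    | nil => rw [Fw_nil]; exact dual_hw_R hD hv0 hv hy
    | cons i w ih =>
      rw [Fw_cons, hD.F]
      exact Subring.neg_mem _ (ih (c.Kp_VR (c.F_VR hv0 hv hy i) i))
  | zero => rw [map_zero, LinearMap.zero_apply]; exact Subring.zero_mem _
  | add x y _ _ hx hy => rw [map_add, LinearMap.add_apply]; exact Subring.add_mem _ hx hy
  | smul a x _ hx =>
    have : D (a • x) = (a : K) • D x := D.map_smul (a : K) x
    rw [this, LinearMap.smul_apply, smul_eq_mul]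
    exact Subring.mul_mem _ a.2 hx

theorem dual_wex {a : J'} {b : J} (h : D (c'.B a) (c.B b) ≠ 0) (i : I) :
    wex C c.L (c.dp b) i = -wex C c'.L (c'.dp a) i := by
  have h1 := hD.Kp i (c'.B a) (c.B b)
  rw [c'.Kp_B, c.Km_B hv0, map_smul, map_smul, LinearMap.smul_apply, smul_eq_mul,
    smul_eq_mul] at h1
  have h2 := mul_right_cancel₀ h h1
  by_contra hne
  apply hv (wex C c'.L (c'.dp a) i + wex C c.L (c.dp b) i) (by omega)
  rw [zpow_add₀ hv0, h2, ← zpow_add₀ hv0, neg_add_cancel, zpow_zero]

theorem dual_perfect (a : J') :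
    ∃ y ∈ c.VR, ∀ a', D (c'.B a') y = if a' = a then 1 else 0 := by
  obtain ⟨l, -, hl⟩ := hD.low
  set M := c.toRMod hv0 hv with hM
  let mD : Matrix J' J (RR v) := fun a b =>
    ⟨D (c'.B a) (c.B b), dual_R hD hv0 hv (c'.B_VR a) (c.B_VR b)⟩
  have hmD : ∀ a b, mD a b ≠ 0 → ∀ i, wex C c.L (c.dp b) i = -wex C c'.L (c'.dp a) i := by
    intro a b h
    apply dual_wex hD hv0 hv
    intro h0
    apply h
    exact Subtype.ext h0
  -- the relation with `E`
  have hrel : ∀ i, (c'.mE hv0 hv i).transpose * mD = -(mD * (M.e i * M.kmR i)) := by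
    intro i
    ext a b
    show (((c'.mE hv0 hv i).transpose * mD) a b : K) = ((-(mD * (M.e i * M.kmR i))) a b : RR v)
    have h1 := hD.E i (c'.B a) (c.B b)
    have e1 : (((c'.mE hv0 hv i).transpose * mD) a b : K) = D (c'.X.E i (c'.B a)) (c.B b) := by
      rw [Matrix.mul_apply]
      conv_rhs => rw [← c'.B.sum_repr (c'.X.E i (c'.B a))]
      simp only [map_sum, map_smul, LinearMap.sum_apply, LinearMap.smul_apply, smul_eq_mul]
      rw [AddSubmonoidClass.coe_finsetSum]
      rfl
    have e2 : c.X.E i (c.X.Km i (c.B b)) = ∑ d,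
        (v ^ (-wex C c.L (c.dp b) i) * c.B.repr (c.X.E i (c.B b)) d) • c.B d := by
      rw [c.Km_B hv0, map_smul]
      conv_lhs => rw [← c.B.sum_repr (c.X.E i (c.B b))]
      rw [Finset.smul_sum]
      simp only [smul_smul]
    rw [e1, h1, e2]
    simp only [map_sum, map_smul, smul_eq_mul]
    rw [Matrix.neg_apply, Subring.coe_neg, Matrix.mul_apply, AddSubmonoidClass.coe_finsetSum]
    congr 1
    refine Finset.sum_congr rfl fun d _ => ?_
    rw [Subring.coe_mul, RMod.kmR, Matrix.mul_diagonal, Subring.coe_mul]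
    show v ^ (-wex C c.L (c.dp b) i) * c.B.repr (c.X.E i (c.B b)) d * D (c'.B a) (c.B d) =
      D (c'.B a) (c.B d) * (c.B.repr (c.X.E i (c.B b)) d * v ^ (-wex C c.L (c.dp b) i))
    ring
  have hcard : Fintype.card J' = Fintype.card J := by
    have h1 : Module.finrank K V' = Module.finrank K (Module.Dual K V) := D.finrank_eq
    have : FiniteDimensional K V := Module.Finite.of_basis c.B
    rw [Subspace.dual_finrank_eq, Module.finrank_eq_card_basis c'.B,
      Module.finrank_eq_card_basis c.B] at h1
    exact h1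
  let e : J' ≃ J := Fintype.equivOfCardEq hcard
  let A : Matrix J J (RR v) := fun i j => mD (e.symm i) j
  have hA : IsUnit A.det := by
    apply RMod.isUnit_det_of
    intro k _ φ hφ y hy
    refine M.inj_of hφ (mD.map φ) ?_ ?_ ?_ y ?_
    · intro κ y hy
      funext a'
      rw [Matrix.mulVec, dotProduct, Pi.zero_apply]
      by_cases hex : ∃ a0, M.dep a0 = κ ∧ mD a' a0 ≠ 0
      · obtain ⟨a0, ha0, hne⟩ := hex
        have h1 := congrFun hy a'
        rw [Matrix.mulVec, dotProduct, Pi.zero_apply] at h1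
        rw [← h1]
        refine Finset.sum_congr rfl fun b _ => ?_
        unfold RMod.vcomp
        by_cases hb : M.dep b = κ
        · rw [if_pos hb]
        · rw [if_neg hb, mul_zero, Matrix.map_apply]
          have : mD a' b = 0 := by
            by_contra h
            apply hb
            rw [← ha0]
            apply wex_inj (C := C) (L := c.L)
            intro i
            show wex C c.L (c.dp b) i = wex C c.L (c.dp a0) i
            rw [hmD a' b h i, hmD a' a0 hne i]
          rw [this, map_zero, zero_mul]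
      · push Not at hex
        refine Finset.sum_eq_zero fun b _ => ?_
        unfold RMod.vcomp
        by_cases hb : M.dep b = κ
        · rw [Matrix.map_apply, hex b hb, map_zero, zero_mul]
        · rw [if_neg hb, mul_zero]
    · intro i κ y hy hPy
      have h1 := congrArg (fun A : Matrix J' J (RR v) => A.map φ) (hrel i)
      beta_reduce at h1
      have h2 : (-(mD * (M.e i * M.kmR i))).map φ =
          -(mD.map φ * (M.E φ i * (M.kmR i).map φ)) := by
        ext a b
        simp [Matrix.map_apply, Matrix.mul_apply, RMod.E, map_sum]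
      have h3 : ((c'.mE hv0 hv i).transpose * mD).map φ =
          ((c'.mE hv0 hv i).transpose).map φ * mD.map φ := Matrix.map_mul
      rw [h2, h3] at h1
      have h4 := congrArg (fun A => Matrix.mulVec A y) h1
      beta_reduce at h4
      rw [← Matrix.mulVec_mulVec, hPy, Matrix.mulVec_zero, Matrix.neg_mulVec, eq_comm,
        neg_eq_zero, ← Matrix.mulVec_mulVec, ← Matrix.mulVec_mulVec] at h4
      have h6 : Matrix.mulVec ((M.kmR i).map φ) y = φ (RMod.vz v (-wex C M.L κ i)) • y := by
        ext a
        rw [RMod.kmR, Matrix.diagonal_map (map_zero φ), Matrix.mulVec_diagonal, Pi.smul_apply,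
          smul_eq_mul]
        by_cases ha : y a = 0
        · rw [ha, mul_zero, mul_zero]
        · rw [hy a ha]
      rw [h6, Matrix.mulVec_smul, Matrix.mulVec_smul] at h4
      have hu' : φ (RMod.vz v (-wex C M.L κ i)) ≠ 0 := by
        have : RMod.vz v (-wex C M.L κ i) * RMod.vz v (wex C M.L κ i) = 1 := by
          apply Subtype.ext
          show v ^ (-_) * v ^ _ = 1
          rw [← zpow_add₀ hv0, neg_add_cancel, zpow_zero]
        have h5 := congrArg φ this
        rw [map_mul, map_one] at h5
        exact left_ne_zero_of_mul_eq_one h5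
      exact (smul_eq_zero.mp h4).resolve_left hu'
    · intro h
      have := congrFun h l
      rw [Matrix.mulVec_single_one] at this
      have h1 : (mD.map φ).col M.top l = φ (mD l c.top) := rfl
      have h2 : mD l c.top = 1 := by
        apply Subtype.ext
        show D (c'.B l) (c.B c.top) = 1
        rw [hl, Module.Basis.coord_apply, Module.Basis.repr_self, Finsupp.single_eq_same]
      rw [h1, h2, map_one] at this
      exact one_ne_zero this
    · funext a'
      have h1 := congrFun hy (e a')
      rw [Matrix.mulVec, dotProduct] at h1 ⊢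
      rw [Pi.zero_apply] at h1 ⊢
      rw [← h1]
      refine Finset.sum_congr rfl fun b _ => ?_
      rw [Matrix.map_apply, Matrix.map_apply]
      show φ (mD a' b) * y b = φ (mD (e.symm (e a')) b) * y b
      rw [Equiv.symm_apply_apply]
  have hAinv : A * A⁻¹ = 1 := Matrix.mul_nonsing_inv A hA
  refine ⟨∑ j, (A⁻¹ j (e a) : K) • c.B j, ?_, ?_⟩
  · exact Submodule.sum_mem _ fun j _ => Submodule.smul_mem _ (A⁻¹ j (e a)) (c.B_VR j)
  · intro a'
    have h1 := congrFun (congrFun hAinv (e a')) (e a)
    rw [Matrix.mul_apply, Matrix.one_apply] at h1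
    simp only [map_sum, map_smul, smul_eq_mul]
    have h2 := congrArg (Subtype.val : RR v → K) h1
    rw [AddSubmonoidClass.coe_finsetSum] at h2
    simp only [Subring.coe_mul] at h2
    have h3 : ∀ j, ((A (e a') j : RR v) : K) = D (c'.B a') (c.B j) := by
      intro j
      show ((mD (e.symm (e a')) j : RR v) : K) = _
      rw [Equiv.symm_apply_apply]
    simp only [h3] at h2
    rw [show (∑ j, ((A⁻¹ j (e a) : RR v) : K) * D (c'.B a') (c.B j)) =
      ∑ j, D (c'.B a') (c.B j) * ((A⁻¹ j (e a) : RR v) : K) from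
      Finset.sum_congr rfl fun j _ => mul_comm _ _, h2]
    by_cases h : a' = a
    · subst h; simp
    · rw [if_neg (fun h' => h (e.injective h')), if_neg h]; rfl

end duality

end Pool.Agent.Work.MP_8ad3a8_al
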