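import Mathlib
import Pool.Agent.Work.MP_8ad3a8_al.Basic

set_option autoImplicit false
set_option linter.unusedSectionVars false

/-!
The sign symmetry `v ↦ -v`.
-/

namespace Pool.Agent.Work.MP_8ad3a8_al

open TensorProduct

namespace Sign

variable {I : Type} [Fintype I] [DecidableEq I] {K : Type} [Field K]
variable {C : Cartan I} {v : K} {bar : K ≃+* K} {sig : K ≃+* K}

/-- the sign `(-1)^k` -/
def sg (K : Type) [Field K] (k : ℤ) : K := (-1) ^ k

theorem sg_zero : sg K 0 = 1 := by simp [sg]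

theorem sg_add (a b : ℤ) : sg K (a + b) = sg K a * sg K b := zpow_add₀ (by simp) a b

theorem sg_even {a : ℤ} (h : Even a) : sg K a = 1 := h.neg_one_zpow

theorem sg_mul_self (a : ℤ) : sg K a * sg K a = 1 := by
  rw [← sg_add]; exact sg_even ⟨a, rfl⟩

theorem sg_neg (a : ℤ) : sg K (-a) = sg K a := by
  simp [sg, zpow_neg, ← inv_zpow, inv_neg]

theorem sg_congr {a b : ℤ} (h : Even (a - b)) : sg K a = sg K b := by
  have : a = b + (a - b) := by ring
  rw [this, sg_add, sg_even h, mul_one]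

theorem sig_sg (a : ℤ) : sig (sg K a) = sg K a := by
  simp [sg]

theorem sg_ne (a : ℤ) : sg K a ≠ 0 := by
  intro h
  have := sg_mul_self (K := K) a
  rw [h] at this
  simp at this

theorem sg_cases (a : ℤ) : sg K a = 1 ∨ sg K a = -1 := by
  have := sg_mul_self (K := K) a
  exact mul_self_eq_one_iff.1 this

theorem sig_vz (hsig : sig v = -v) (k : ℤ) : sig (v ^ k) = sg K k * v ^ k := by
  rw [map_zpow₀, hsig, neg_eq_neg_one_mul, mul_zpow]; rfl

theorem sg_inv (a : ℤ) : (sg K a)⁻¹ = sg K a :=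
  inv_eq_of_mul_eq_one_right (sg_mul_self a)

theorem sig_qn (hsig : sig v = -v) (a d : ℤ) :
    sig ((v ^ a - v ^ (-a)) / (v ^ d - v ^ (-d))) =
      sg K (a + d) * ((v ^ a - v ^ (-a)) / (v ^ d - v ^ (-d))) := by
  rw [map_div₀, map_sub, map_sub, sig_vz hsig, sig_vz hsig, sig_vz hsig, sig_vz hsig,
    sg_neg, sg_neg, ← mul_sub, ← mul_sub, mul_div_mul_comm, sg_add, div_eq_mul_inv, sg_inv]

theorem sg_mem (a : ℤ) : sg K a ∈ Av v := by
  rcases sg_cases (K := K) a with h | h
  · rw [h]; exact one_mem _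
  · rw [h]; exact neg_mem (one_mem _)

theorem Av_v : v ∈ Av v := Subring.subset_closure (by simp)
theorem Av_vi : v⁻¹ ∈ Av v := Subring.subset_closure (by simp)

theorem Av_sig (hsig : sig v = -v) {r : K} (hr : r ∈ Av v) : sig r ∈ Av v := by
  unfold Av at hr
  induction hr using Subring.closure_induction with
  | mem x hx =>
    rcases hx with rfl | hx
    · rw [hsig]; exact neg_mem Av_v
    · rw [Set.mem_singleton_iff.1 hx, map_inv₀, hsig, inv_neg]; exact neg_mem Av_vi
  | zero => rw [map_zero]; exact zero_mem _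
  | one => rw [map_one]; exact one_mem _
  | add x y _ _ hx hy => rw [map_add]; exact add_mem hx hy
  | neg x _ hx => rw [map_neg]; exact neg_mem hx
  | mul x y _ _ hx hy => rw [map_mul]; exact mul_mem hx hy

/-- half of the bilinear form on the root lattice: coefficients -/
noncomputable def Lc (C : Cartan I) (i j : I) : ℤ :=
  if i = j then C.d i else
    if Fintype.equivFin I i < Fintype.equivFin I j then C.d i * C.a i j else 0

theorem Lc_add (i j : I) : Lc C i j + Lc C j i = C.d i * C.a i j := by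
  unfold Lc
  by_cases h : i = j
  · subst h; simp [C.diag]; ring
  · rw [if_neg h, if_neg (Ne.symm h)]
    rcases lt_trichotomy (Fintype.equivFin I i) (Fintype.equivFin I j) with h1 | h1 | h1
    · rw [if_pos h1, if_neg (not_lt.2 h1.le), add_zero]
    · exact absurd ((Fintype.equivFin I).injective h1) h
    · rw [if_neg (not_lt.2 h1.le), if_pos h1, zero_add, C.symm]

/-- half of the bilinear form on the root lattice -/
noncomputable def Lf (C : Cartan I) (κ κ' : I → ℤ) : ℤ := ∑ i, ∑ j, κ i * Lc C i j * κ' j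

theorem Lf_add_left (κ κ' μ : I → ℤ) : Lf C (κ + κ') μ = Lf C κ μ + Lf C κ' μ := by
  simp [Lf, add_mul, Finset.sum_add_distrib]

theorem Lf_add_right (κ κ' μ : I → ℤ) : Lf C μ (κ + κ') = Lf C μ κ + Lf C μ κ' := by
  simp [Lf, mul_add, Finset.sum_add_distrib]

theorem Lf_neg_left (κ μ : I → ℤ) : Lf C (-κ) μ = -Lf C κ μ := by
  simp [Lf, Finset.sum_neg_distrib]

theorem Lf_neg_right (κ μ : I → ℤ) : Lf C μ (-κ) = -Lf C μ κ := by
  simp [Lf, Finset.sum_neg_distrib]

theorem Lf_sub_left (κ κ' μ : I → ℤ) : Lf C (κ - κ') μ = Lf C κ μ - Lf C κ' μ := by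
  rw [sub_eq_add_neg, Lf_add_left, Lf_neg_left, sub_eq_add_neg]

theorem Lf_sub_right (κ κ' μ : I → ℤ) : Lf C μ (κ - κ') = Lf C μ κ - Lf C μ κ' := by
  rw [sub_eq_add_neg, Lf_add_right, Lf_neg_right, sub_eq_add_neg]

@[simp] theorem Lf_zero_left (μ : I → ℤ) : Lf C 0 μ = 0 := by simp [Lf]
@[simp] theorem Lf_zero_right (μ : I → ℤ) : Lf C μ 0 = 0 := by simp [Lf]

theorem Lf_symm (κ κ' : I → ℤ) : Lf C κ κ' + Lf C κ' κ = ip C κ κ' := by
  unfold Lf ip
  rw [Finset.sum_comm (f := fun i j => κ' i * Lc C i j * κ j), ← Finset.sum_add_distrib]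
  refine Finset.sum_congr rfl fun i _ => ?_
  rw [← Finset.sum_add_distrib]
  refine Finset.sum_congr rfl fun j _ => ?_
  rw [← Lc_add (C := C) i j]; ring

theorem Lf_sr_sr (i : I) : Lf C (sr i) (sr i) = C.d i := by
  have h1 := Lf_symm (C := C) (sr i) (sr i)
  have h2 := ip_sr_sr (C := C) i
  omega

theorem wex_Lf (L κ : I → ℤ) (i : I) :
    wex C L κ i = lp C L (sr i) - Lf C (sr i) κ - Lf C κ (sr i) := by
  rw [wex_eq, ← Lf_symm]; ring

theorem lp_add_right (L κ κ' : I → ℤ) : lp C L (κ + κ') = lp C L κ + lp C L κ' := by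
  simp [lp, mul_add, Finset.sum_add_distrib]

theorem lp_add_left (L L' κ : I → ℤ) : lp C (L + L') κ = lp C L κ + lp C L' κ := by
  simp [lp, mul_add, add_mul, Finset.sum_add_distrib]

theorem lp_neg_right (L κ : I → ℤ) : lp C L (-κ) = -lp C L κ := by
  simp [lp, Finset.sum_neg_distrib]

theorem lp_sub_right (L κ κ' : I → ℤ) : lp C L (κ - κ') = lp C L κ - lp C L κ' := by
  rw [sub_eq_add_neg, lp_add_right, lp_neg_right, sub_eq_add_neg]

@[simp] theorem lp_zero_right (L : I → ℤ) : lp C L 0 = 0 := by simp [lp]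


/-! ### induction on weight vectors -/

section ind

variable {M : Type} [AddCommGroup M] [Module K M] {J : Type} [Fintype J] [DecidableEq J]

theorem wsp_induction (b : Module.Basis J K M) {X : Ops I K M} {L : I → ℤ}
    (hv0 : v ≠ 0) (hv : ∀ n : ℤ, n ≠ 0 → v ^ n ≠ 1)
    {dp : J → I → ℤ} (hb : ∀ j, b j ∈ wsp C v X L (dp j)) {κ : I → ℤ} {P : M → Prop}
    (h0 : P 0) (hadd : ∀ x y, P x → P y → P (x + y)) (hsmul : ∀ (r : K) x, P x → P (r • x))
    (hP : ∀ j, dp j = κ → P (b j)) {x : M} (hx : x ∈ wsp C v X L κ) : P x := by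
  rw [← b.sum_repr x]
  refine Finset.sum_induction _ P hadd h0 fun j _ => ?_
  by_cases h : b.repr x j = 0
  · rw [h, zero_smul]; exact h0
  · exact hsmul _ _ (hP j ((mem_wsp_iff_repr b hv0 hv hb κ x).1 hx j h))

theorem basis_induction (b : Module.Basis J K M) {P : M → Prop}
    (h0 : P 0) (hadd : ∀ x y, P x → P y → P (x + y)) (hsmul : ∀ (r : K) x, P x → P (r • x))
    (hP : ∀ j, P (b j)) (x : M) : P x := by
  rw [← b.sum_repr x]
  exact Finset.sum_induction _ P hadd h0 fun j _ => hsmul _ _ (hP j)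

/-- the semilinear map with given values on a basis -/
noncomputable def semi (sig : K ≃+* K) (b : Module.Basis J K M) (u : J → M) (x : M) : M :=
  ∑ j, sig (b.repr x j) • u j

theorem semi_add (b : Module.Basis J K M) (u : J → M) (x y : M) :
    semi sig b u (x + y) = semi sig b u x + semi sig b u y := by
  simp [semi, add_smul, Finset.sum_add_distrib]

theorem semi_smul (b : Module.Basis J K M) (u : J → M) (r : K) (x : M) :
    semi sig b u (r • x) = sig r • semi sig b u x := by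
  simp [semi, mul_smul, Finset.smul_sum]

theorem semi_basis (b : Module.Basis J K M) (u : J → M) (j : J) :
    semi sig b u (b j) = u j := by
  simp [semi, Finsupp.single_apply, apply_ite, ite_smul]

end ind

/-- a sign operator: a semilinear involution compatible with everything -/
structure SOp (C : Cartan I) (v : K) (sig : K ≃+* K) {M : Type} [AddCommGroup M] [Module K M]
    (X : Ops I K M) (L : I → ℤ) (form : LinearMap.BilinForm K M) {J : Type}
    (b : Module.Basis J K M) (dp : J → I → ℤ) (s : M → M) : Prop where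
  add : ∀ x y, s (x + y) = s x + s y
  smul : ∀ (r : K) x, s (r • x) = sig r • s x
  invol : ∀ j, s (s (b j)) = b j
  ws : ∀ j, s (b j) ∈ wsp C v X L (dp j)
  F : ∀ i j, s (X.F i (b j)) = sg K (Lf C (sr i) (dp j)) • X.F i (s (b j))
  E : ∀ i j, s (X.E i (b j)) = sg K (lp C L (sr i) + Lf C (dp j) (sr i)) • X.E i (s (b j))
  form : ∀ j k, form (s (b j)) (s (b k)) = sig (form (b j) (b k))
  lat : ∀ j, s (b j) ∈ Submodule.span (Av v) (Set.range b)

section SOp

variable {M : Type} [AddCommGroup M] [Module K M] {J : Type} [Fintype J] [DecidableEq J]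
variable {X : Ops I K M} {L : I → ℤ} {form : LinearMap.BilinForm K M}
variable {b : Module.Basis J K M} {dp : J → I → ℤ} {s : M → M}

theorem SOp.zero (h : SOp C v sig X L form b dp s) : s 0 = 0 := by
  have := h.smul 0 0
  simpa using this

theorem SOp.ws' (h : SOp C v sig X L form b dp s) (hv0 : v ≠ 0)
    (hv : ∀ n : ℤ, n ≠ 0 → v ^ n ≠ 1) (hb : ∀ j, b j ∈ wsp C v X L (dp j)) {κ : I → ℤ} {x : M}
    (hx : x ∈ wsp C v X L κ) : s x ∈ wsp C v X L κ := by
  refine wsp_induction b hv0 hv hb (P := fun x => s x ∈ wsp C v X L κ) ?_ ?_ ?_ ?_ hx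
  · rw [h.zero]; exact zero_mem _
  · intro x y hx hy; rw [h.add]; exact add_mem hx hy
  · intro r x hx; rw [h.smul]; exact Submodule.smul_mem _ _ hx
  · intro j hj; rw [← hj]; exact h.ws j

theorem SOp.F' (h : SOp C v sig X L form b dp s) (hv0 : v ≠ 0)
    (hv : ∀ n : ℤ, n ≠ 0 → v ^ n ≠ 1) (hb : ∀ j, b j ∈ wsp C v X L (dp j))
    {κ : I → ℤ} {x : M}
    (hx : x ∈ wsp C v X L κ) (i : I) :
    s (X.F i x) = sg K (Lf C (sr i) κ) • X.F i (s x) := by
  refine wsp_induction b hv0 hv hb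
    (P := fun x => s (X.F i x) = sg K (Lf C (sr i) κ) • X.F i (s x)) ?_ ?_ ?_ ?_ hx
  · simp [h.zero]
  · intro x y hx hy; simp only [map_add, h.add, smul_add, hx, hy]
  · intro r x hx; simp only [map_smul, h.smul, hx]; rw [smul_comm]
  · intro j hj; rw [← hj]; exact h.F i j

theorem SOp.E' (h : SOp C v sig X L form b dp s) (hv0 : v ≠ 0)
    (hv : ∀ n : ℤ, n ≠ 0 → v ^ n ≠ 1) (hb : ∀ j, b j ∈ wsp C v X L (dp j))
    {κ : I → ℤ} {x : M}
    (hx : x ∈ wsp C v X L κ) (i : I) :
    s (X.E i x) = sg K (lp C L (sr i) + Lf C κ (sr i)) • X.E i (s x) := by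
  refine wsp_induction b hv0 hv hb
    (P := fun x => s (X.E i x) = sg K (lp C L (sr i) + Lf C κ (sr i)) • X.E i (s x)) ?_ ?_ ?_ ?_ hx
  · simp [h.zero]
  · intro x y hx hy; simp only [map_add, h.add, smul_add, hx, hy]
  · intro r x hx; simp only [map_smul, h.smul, hx]; rw [smul_comm]
  · intro j hj; rw [← hj]; exact h.E i j

theorem SOp.invol' (h : SOp C v sig X L form b dp s) (hss : ∀ r, sig (sig r) = r) (x : M) :
    s (s x) = x := by
  refine basis_induction b (P := fun x => s (s x) = x) ?_ ?_ ?_ h.invol x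
  · rw [h.zero, h.zero]
  · intro x y hx hy; rw [h.add, h.add, hx, hy]
  · intro r x hx; rw [h.smul, h.smul, hss, hx]

theorem SOp.form' (h : SOp C v sig X L form b dp s) (x y : M) :
    form (s x) (s y) = sig (form x y) := by
  refine basis_induction b (P := fun x => form (s x) (s y) = sig (form x y)) ?_ ?_ ?_ ?_ x
  · simp [h.zero]
  · intro x y hx hy; simp only [h.add, map_add, LinearMap.add_apply, hx, hy]
  · intro r x hx; simp only [h.smul, map_smul, LinearMap.smul_apply, hx, smul_eq_mul, map_mul]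
  · intro j
    refine basis_induction b (P := fun y => form (s (b j)) (s y) = sig (form (b j) y)) ?_ ?_ ?_ ?_ y
    · simp [h.zero]
    · intro x y hx hy; simp only [h.add, map_add, hx, hy]
    · intro r x hx; simp only [h.smul, map_smul, hx, smul_eq_mul, map_mul]
    · intro k; exact h.form j k

theorem SOp.lat' (h : SOp C v sig X L form b dp s) (hsig : sig v = -v) {x : M}
    (hx : x ∈ Submodule.span (Av v) (Set.range b)) :
    s x ∈ Submodule.span (Av v) (Set.range b) := by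
  induction hx using Submodule.span_induction with
  | mem x hx => obtain ⟨j, rfl⟩ := hx; exact h.lat j
  | zero => rw [h.zero]; exact zero_mem _
  | add x y _ _ hx hy => rw [h.add]; exact add_mem hx hy
  | smul a x _ hx =>
    have : s (a • x) = (⟨sig a, Av_sig hsig a.2⟩ : Av v) • s x := h.smul a.1 x
    rw [this]
    exact Submodule.smul_mem _ _ hx

end SOp


/-! ### the sign operator on an irreducible module -/

section canon

variable {V : Type} [AddCommGroup V] [Module K V] {J : Type} [DecidableEq J]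
variable {lam : I → ℕ}

/-- the graph of the sign operator -/
inductive Rel (sig : K ≃+* K) (c : Canon C v bar lam V J) : (I → ℤ) → V → V → Prop
  | zero (κ : I → ℤ) : Rel sig c κ 0 0
  | hw : Rel sig c 0 c.hw c.hw
  | F (κ : I → ℤ) (x x' : V) (i : I) : Rel sig c κ x x' →
      Rel sig c (κ + sr i) (c.X.F i x) (sg K (Lf C (sr i) κ) • c.X.F i x')
  | add (κ : I → ℤ) (x x' y y' : V) : Rel sig c κ x x' → Rel sig c κ y y' →
      Rel sig c κ (x + y) (x' + y')
  | smul (κ : I → ℤ) (r : K) (x x' : V) : Rel sig c κ x x' → Rel sig c κ (r • x) (sig r • x')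

variable {c : Canon C v bar lam V J}

theorem Rel.cast {κ κ' : I → ℤ} {x x' y y' : V} (h : Rel sig c κ x x') (h1 : κ = κ')
    (h2 : x = y) (h3 : x' = y') : Rel sig c κ' y y' := by
  subst h1; subst h2; subst h3; exact h

theorem Rel.ws (hv0 : v ≠ 0) {κ : I → ℤ} {x x' : V} (h : Rel sig c κ x x') :
    x ∈ c.wsp κ ∧ x' ∈ c.wsp κ := by
  induction h with
  | zero κ => exact ⟨zero_mem _, zero_mem _⟩
  | hw => exact ⟨c.hw_wsp, c.hw_wsp⟩
  | F κ x x' i _ ih =>
    exact ⟨c.rel.F_wsp hv0 ih.1 i, Submodule.smul_mem _ _ (c.rel.F_wsp hv0 ih.2 i)⟩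
  | add κ x x' y y' _ _ ih1 ih2 => exact ⟨add_mem ih1.1 ih2.1, add_mem ih1.2 ih2.2⟩
  | smul κ r x x' _ ih => exact ⟨Submodule.smul_mem _ _ ih.1, Submodule.smul_mem _ _ ih.2⟩

theorem Rel.swap (hss : ∀ r, sig (sig r) = r) {κ : I → ℤ} {x x' : V} (h : Rel sig c κ x x') :
    Rel sig c κ x' x := by
  induction h with
  | zero κ => exact Rel.zero κ
  | hw => exact Rel.hw
  | F κ x x' i _ ih =>
    refine (Rel.smul _ (sg K (Lf C (sr i) κ)) _ _ (Rel.F κ _ _ i ih)).cast rfl rfl ?_
    rw [sig_sg, smul_smul, sg_mul_self, one_smul]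
  | add κ x x' y y' _ _ ih1 ih2 => exact Rel.add _ _ _ _ _ ih1 ih2
  | smul κ r x x' _ ih =>
    refine (Rel.smul _ (sig r) _ _ ih).cast rfl rfl ?_
    rw [hss]

theorem Rel.sub {κ : I → ℤ} {x x' y y' : V} (h : Rel sig c κ x x') (h' : Rel sig c κ y y') :
    Rel sig c κ (x - y) (x' - y') := by
  refine (Rel.add _ _ _ _ _ h (Rel.smul _ (-1) _ _ h')).cast rfl ?_ ?_
  · simp [sub_eq_add_neg]
  · simp [sub_eq_add_neg]

theorem Rel.E (hsig : sig v = -v) (hv0 : v ≠ 0) (hv : ∀ n : ℤ, n ≠ 0 → v ^ n ≠ 1)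
    {κ : I → ℤ} {x x' : V} (h : Rel sig c κ x x') (i : I) :
    Rel sig c (κ - sr i) (c.X.E i x)
      (sg K (lp C c.L (sr i) + Lf C κ (sr i)) • c.X.E i x') := by
  induction h with
  | zero κ => simpa using Rel.zero (sig := sig) (c := c) (κ - sr i)
  | hw =>
    have : c.X.E i c.hw = 0 := c.top_E i
    rw [this, smul_zero]; exact Rel.zero _
  | F κ x x' j h ih =>
    have h1 := c.rel.EF_wsp hv0 hv (h.ws hv0).1 i j
    have h2 := c.rel.EF_wsp hv0 hv (h.ws hv0).2 i j
    have h3 := Rel.F _ _ _ j ih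
    by_cases hij : i = j
    · subst hij
      rw [if_pos rfl] at h1 h2
      have h4 := Rel.smul _ ((v ^ MP_8ad3a8_al.wex C c.L κ i -
        v ^ (-MP_8ad3a8_al.wex C c.L κ i)) / (v ^ C.d i - v ^ (-C.d i))) _ _ h
      refine (Rel.add κ _ _ _ _ (h3.cast (by abel) rfl rfl) h4).cast (by abel) h1.symm ?_
      rw [map_smul, map_smul, h2, smul_add, smul_add, smul_smul, smul_smul, smul_smul, smul_smul]
      congr 2
      · rw [← sg_add, ← sg_add]
        apply sg_congr
        rw [Lf_sub_right, Lf_add_left]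
        refine ⟨-Lf C (sr i) (sr i), by ring⟩
      · rw [sig_qn hsig, ← sg_add]
        congr 1
        apply sg_congr
        rw [wex_Lf, Lf_add_left, Lf_sr_sr]
        refine ⟨-Lf C (sr i) κ - Lf C κ (sr i), by ring⟩
    · rw [if_neg hij, add_zero] at h1 h2
      refine h3.cast (by abel) h1.symm ?_
      rw [map_smul, map_smul, h2, smul_smul, smul_smul, ← sg_add, ← sg_add]
      congr 1
      apply sg_congr
      rw [Lf_sub_right, Lf_add_left]
      refine ⟨-Lf C (sr j) (sr i), by ring⟩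
  | add κ x x' y y' _ _ ih1 ih2 =>
    refine (Rel.add _ _ _ _ _ ih1 ih2).cast rfl (by rw [map_add]) (by rw [map_add, smul_add])
  | smul κ r x x' _ ih =>
    refine (Rel.smul _ r _ _ ih).cast rfl (by rw [map_smul]) ?_
    rw [map_smul, smul_comm]

theorem Rel.form_hw {κ : I → ℤ} {y y' : V} (h : Rel sig c κ y y') :
    c.form c.hw y' = sig (c.form c.hw y) := by
  have hF : ∀ (i : I) (z : V), c.form c.hw (c.X.F i z) = 0 := by
    intro i z
    rw [c.isForm.symm, c.isForm.F]
    have h1 : c.form z (v ^ C.d i • c.X.Km i (c.X.E i c.hw)) = 0 := by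
      have : c.X.E i c.hw = 0 := c.top_E i
      rw [this]; simp
    rw [h1]
  induction h with
  | zero κ => simp
  | hw =>
    have : c.form c.hw c.hw = 1 := c.form_top
    rw [this, map_one]
  | F κ x x' j h ih => rw [map_smul, hF, hF]; simp
  | add κ x x' y y' _ _ ih1 ih2 => rw [map_add, map_add, ih1, ih2, map_add]
  | smul κ r x x' _ ih => rw [map_smul, map_smul, ih]; simp

theorem Rel.form (hsig : sig v = -v) (hv0 : v ≠ 0) (hv : ∀ n : ℤ, n ≠ 0 → v ^ n ≠ 1)
    {κ : I → ℤ} {x x' : V} (h : Rel sig c κ x x') {μ : I → ℤ} {y y' : V}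
    (h' : Rel sig c μ y y') : c.form x' y' = sig (c.form x y) := by
  induction h generalizing μ y y' with
  | zero κ => simp
  | hw => exact h'.form_hw
  | F κ x x' i h ih =>
    have hE := h'.E hsig hv0 hv i
    by_cases hne : κ = μ - sr i
    · have h1 := ih hE
      have h2 := c.isForm.F i x y
      have h3 := c.isForm.F i x' y'
      have h4 := c.rel.Km_wsp hv0 (c.rel.E_wsp hv0 (h'.ws hv0).1 i) i
      have h5 := c.rel.Km_wsp hv0 (c.rel.E_wsp hv0 (h'.ws hv0).2 i) i
      rw [map_smul, LinearMap.smul_apply, h3, h5, h2, h4]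
      rw [map_smul, smul_eq_mul] at h1
      simp only [map_smul, smul_eq_mul, map_mul]
      rw [← h1, sig_vz hsig, sig_vz hsig, sg_neg]
      have h6 : sg K (Lf C (sr i) κ) = sg K (C.d i) *
          (sg K (wex C (fun k => (lam k : ℤ)) (μ - sr i) i) *
            sg K (lp C c.L (sr i) + Lf C μ (sr i))) := by
        rw [← sg_add, ← sg_add]
        apply sg_congr
        have : wex C (fun k => (lam k : ℤ)) (μ - sr i) i = wex C c.L (μ - sr i) i := rfl
        rw [this, wex_Lf, ← hne, ← Lf_sr_sr i]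
        have hμ : μ = κ + sr i := by rw [hne]; abel
        rw [hμ, Lf_add_left]
        refine ⟨Lf C (sr i) κ - lp C c.L (sr i) - Lf C (sr i) (sr i), by ring⟩
      have h7 : (wex C (fun k => (lam k : ℤ)) (μ - sr i) i) = wex C c.L (μ - sr i) i := rfl
      rw [h6, h7]
      ring
    · have hx := c.rel.F_wsp hv0 (h.ws hv0).1 i
      have hx' := c.rel.F_wsp hv0 (h.ws hv0).2 i
      have hne' : κ + sr i ≠ μ := by
        intro h8; apply hne; rw [← h8]; abel
      rw [map_smul, LinearMap.smul_apply, form_wsp hv0 hv c.isForm hne' hx (h'.ws hv0).1,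
        form_wsp hv0 hv c.isForm hne' hx' (h'.ws hv0).2]
      simp
  | add κ x x' y y' _ _ ih1 ih2 =>
    rw [map_add, map_add, LinearMap.add_apply, LinearMap.add_apply, ih1 h', ih2 h', map_add]
  | smul κ r x x' _ ih =>
    rw [map_smul, map_smul, LinearMap.smul_apply, LinearMap.smul_apply, ih h']; simp

theorem Rel.exists (hv0 : v ≠ 0) (hv : ∀ n : ℤ, n ≠ 0 → v ^ n ≠ 1) {κ : I → ℤ} {x : V}
    (hx : x ∈ c.wsp κ) : ∃ x', Rel sig c κ x x' := by
  have h := c.mem_span_Fw hv0 hv hx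
  clear hx
  induction h using Submodule.span_induction with
  | mem x hx =>
    obtain ⟨w, rfl, rfl⟩ := hx
    induction w with
    | nil => exact ⟨_, by simpa using (Rel.hw : Rel sig c 0 c.hw c.hw)⟩
    | cons i w ih =>
      obtain ⟨x', h'⟩ := ih
      exact ⟨_, (Rel.F _ _ _ i h').cast (cw_cons i w).symm (Fw_cons _ i w _).symm rfl⟩
  | zero => exact ⟨0, Rel.zero _⟩
  | add x y _ _ ih1 ih2 =>
    obtain ⟨x', h1⟩ := ih1
    obtain ⟨y', h2⟩ := ih2
    exact ⟨_, Rel.add _ _ _ _ _ h1 h2⟩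
  | smul r x _ ih =>
    obtain ⟨x', h1⟩ := ih
    exact ⟨_, Rel.smul _ r _ _ h1⟩

theorem Rel.eq_zero [CharZero K] (hvt : Transcendental ℚ v) [Fintype J] (hsig : sig v = -v)
    (hss : ∀ r, sig (sig r) = r) {κ : I → ℤ} {x' : V} (h : Rel sig c κ 0 x') : x' = 0 := by
  have hv0 := ne_zero_of_tr hvt
  have hv := zpow_ne_one_of_tr hvt
  apply c.nondeg hvt
  refine basis_induction c.B (P := fun y => c.form x' y = 0) (by simp) ?_ ?_ ?_
  · intro x y hx hy; rw [map_add, hx, hy, add_zero]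
  · intro r x hx; rw [map_smul, hx, smul_zero]
  · intro j
    obtain ⟨y0, h0⟩ := Rel.exists (sig := sig) hv0 hv (c.B_wsp j)
    rw [h.form hsig hv0 hv (h0.swap hss)]
    simp

theorem Rel.unique [CharZero K] (hvt : Transcendental ℚ v) [Fintype J] (hsig : sig v = -v)
    (hss : ∀ r, sig (sig r) = r) {κ : I → ℤ} {x x' x'' : V} (h : Rel sig c κ x x')
    (h' : Rel sig c κ x x'') : x' = x'' := by
  have := (h.sub h').cast rfl (sub_self x) rfl
  exact sub_eq_zero.1 (this.eq_zero hvt hsig hss)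

theorem Rel.monw (hsig : sig v = -v) (w : List (I × ℕ)) :
    ∃ (κ : I → ℤ) (a : ℤ), Rel sig c κ (mon C v c.X c.hw w) (sg K a • mon C v c.X c.hw w) := by
  induction w with
  | nil => exact ⟨0, 0, by simpa [MP_8ad3a8_al.mon, sg_zero] using (Rel.hw : Rel sig c 0 c.hw c.hw)⟩
  | cons p w ih =>
    obtain ⟨κ, a, h⟩ := ih
    obtain ⟨i, n⟩ := p
    have h1 : ∀ n : ℕ, ∃ (κ : I → ℤ) (a : ℤ), Rel sig c κ ((c.X.F i ^ n) (mon C v c.X c.hw w))
        (sg K a • (c.X.F i ^ n) (mon C v c.X c.hw w)) := by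
      intro n
      induction n with
      | zero => exact ⟨κ, a, by simpa using h⟩
      | succ n ih =>
        obtain ⟨κ', a', h'⟩ := ih
        refine ⟨κ' + sr i, Lf C (sr i) κ' + a', (Rel.F _ _ _ i h').cast rfl ?_ ?_⟩
        · rw [pow_succ']; rfl
        · rw [map_smul, smul_smul, ← sg_add, pow_succ']; rfl
    have h2 : ∃ e : ℤ, sig (qfact (v ^ C.d i) n) = sg K e * qfact (v ^ C.d i) n := by
      clear h1 h
      unfold qfact
      induction n with
      | zero => exact ⟨0, by simp [sg_zero]⟩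
      | succ n ih =>
        obtain ⟨e, he⟩ := ih
        rw [Finset.prod_range_succ, map_mul, he]
        refine ⟨e + (C.d i * ((n : ℤ) + 1) + C.d i), ?_⟩
        have h3 : sig (qint (v ^ C.d i) ((n : ℤ) + 1)) =
            sg K (C.d i * ((n : ℤ) + 1) + C.d i) * qint (v ^ C.d i) ((n : ℤ) + 1) := by
          have := sig_qn (K := K) hsig (C.d i * ((n : ℤ) + 1)) (C.d i)
          unfold qint
          rw [← zpow_mul, ← zpow_mul, ← zpow_neg, mul_neg]
          exact this
        rw [h3, sg_add e]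
        ring
    obtain ⟨κ', a', h'⟩ := h1 n
    obtain ⟨e, he⟩ := h2
    refine ⟨κ', e + a', (Rel.smul _ ((qfact (v ^ C.d i) n)⁻¹) _ _ h').cast rfl ?_ ?_⟩
    · rfl
    · rw [map_inv₀, he, mul_inv, sg_inv, smul_smul, sg_add]
      have : mon C v c.X c.hw ((i, n) :: w) =
        (qfact (v ^ C.d i) n)⁻¹ • (c.X.F i ^ n) (mon C v c.X c.hw w) := rfl
      rw [this, smul_smul]
      congr 1
      ring

/-- the sign operator of an irreducible module -/
theorem exists_sop [CharZero K] (hvt : Transcendental ℚ v) [Fintype J] (hsig : sig v = -v)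
    (hss : ∀ r, sig (sig r) = r) (c : Canon C v bar lam V J) :
    ∃ s : V → V, SOp C v sig c.X c.L c.form c.B c.dp s ∧ s c.hw = c.hw := by
  have hv0 := ne_zero_of_tr hvt
  have hv := zpow_ne_one_of_tr hvt
  choose u hu using fun j => Rel.exists (sig := sig) hv0 hv (c.B_wsp j)
  have hR : ∀ (κ : I → ℤ) (x : V), x ∈ c.wsp κ → Rel sig c κ x (semi sig c.B u x) := by
    intro κ x hx
    refine wsp_induction c.B hv0 hv c.B_wsp (P := fun x => Rel sig c κ x (semi sig c.B u x))
      ?_ ?_ ?_ ?_ hx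
    · have : semi sig c.B u 0 = 0 := by simp [semi]
      rw [this]; exact Rel.zero _
    · intro x y hx hy; rw [semi_add]; exact Rel.add _ _ _ _ _ hx hy
    · intro r x hx; rw [semi_smul]; exact Rel.smul _ _ _ _ hx
    · intro j hj; rw [semi_basis, ← hj]; exact hu j
  refine ⟨semi sig c.B u, ⟨semi_add _ _, semi_smul _ _, ?_, ?_, ?_, ?_, ?_, ?_⟩, ?_⟩
  · intro j
    have h1 := hR _ _ (c.B_wsp j)
    exact (hR _ _ (h1.ws hv0).2).unique hvt hsig hss (h1.swap hss)
  · intro j
    exact ((hR _ _ (c.B_wsp j)).ws hv0).2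
  · intro i j
    have h1 := hR _ _ (c.B_wsp j)
    exact (hR _ _ (c.rel.F_wsp hv0 (c.B_wsp j) i)).unique hvt hsig hss (h1.F _ _ _ i)
  · intro i j
    have h1 := hR _ _ (c.B_wsp j)
    exact (hR _ _ (c.rel.E_wsp hv0 (c.B_wsp j) i)).unique hvt hsig hss (h1.E hsig hv0 hv i)
  · intro j k
    exact (hR _ _ (c.B_wsp j)).form hsig hv0 hv (hR _ _ (c.B_wsp k))
  · intro j
    have h1 : ∀ x ∈ Submodule.span (Av v) (Set.range (mon C v c.X (c.B c.top))),
        semi sig c.B u x ∈ Submodule.span (Av v) (Set.range (mon C v c.X (c.B c.top))) := by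
      intro x hx
      induction hx using Submodule.span_induction with
      | mem x hx =>
        obtain ⟨w, rfl⟩ := hx
        obtain ⟨κ, a, h⟩ := Rel.monw (c := c) hsig w
        have h2 := (hR _ _ (h.ws hv0).1).unique hvt hsig hss h
        have h3 : semi sig c.B u (mon C v c.X (c.B c.top) w) =
          (⟨sg K a, sg_mem a⟩ : Av v) • mon C v c.X (c.B c.top) w := h2
        rw [h3]
        exact Submodule.smul_mem _ _ (Submodule.subset_span ⟨w, rfl⟩)
      | zero =>
        have : semi sig c.B u 0 = 0 := by simp [semi]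
        rw [this]; exact zero_mem _
      | add x y _ _ hx hy => rw [semi_add]; exact add_mem hx hy
      | smul a x _ hx =>
        have : semi sig c.B u (a • x) = (⟨sig a, Av_sig hsig a.2⟩ : Av v) • semi sig c.B u x :=
          semi_smul _ _ a.1 x
        rw [this]
        exact Submodule.smul_mem _ _ hx
    rw [c.lattice]
    apply h1
    rw [← c.lattice]
    exact Submodule.subset_span ⟨j, rfl⟩
  · exact (hR _ _ c.hw_wsp).unique hvt hsig hss Rel.hw

end canon


/-! ### tensor products -/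

section tens

variable {M : Type} [AddCommGroup M] [Module K M] {J : Type} [Fintype J] [DecidableEq J]
variable {X : Ops I K M} {L : I → ℤ} {form : LinearMap.BilinForm K M}
variable {b : Module.Basis J K M} {dp : J → I → ℤ} {s : M → M}
variable {M' : Type} [AddCommGroup M'] [Module K M'] {J' : Type} [Fintype J'] [DecidableEq J']
variable {X' : Ops I K M'} {L' : I → ℤ} {form' : LinearMap.BilinForm K M'}
variable {b' : Module.Basis J' K M'} {dp' : J' → I → ℤ} {s' : M' → M'}

/-- the sign operator on a tensor product -/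
noncomputable def stens (C : Cartan I) (sig : K ≃+* K) (L : I → ℤ) (b : Module.Basis J K M)
    (dp : J → I → ℤ) (s : M → M)
    (b' : Module.Basis J' K M') (dp' : J' → I → ℤ) (s' : M' → M') : M ⊗[K] M' → M ⊗[K] M' :=
  semi sig (b.tensorProduct b') (fun p => sg K (Lf C (dp p.1) (dp' p.2) + lp C L (dp' p.2)) •
    (s (b p.1) ⊗ₜ[K] s' (b' p.2)))

theorem stens_add (x y : M ⊗[K] M') : stens C sig L b dp s b' dp' s' (x + y) =
    stens C sig L b dp s b' dp' s' x + stens C sig L b dp s b' dp' s' y := semi_add _ _ _ _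

theorem stens_smul (r : K) (x : M ⊗[K] M') : stens C sig L b dp s b' dp' s' (r • x) =
    sig r • stens C sig L b dp s b' dp' s' x := semi_smul _ _ _ _

theorem stens_zero : stens C sig L b dp s b' dp' s' 0 = 0 := by simp [stens, semi]

theorem stens_basis (j : J) (j' : J') : stens C sig L b dp s b' dp' s' (b j ⊗ₜ[K] b' j') =
    sg K (Lf C (dp j) (dp' j') + lp C L (dp' j')) • (s (b j) ⊗ₜ[K] s' (b' j')) := by
  have h := semi_basis (sig := sig) (b.tensorProduct b')
    (fun p => sg K (Lf C (dp p.1) (dp' p.2) + lp C L (dp' p.2)) •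
      (s (b p.1) ⊗ₜ[K] s' (b' p.2))) (j, j')
  rw [Module.Basis.tensorProduct_apply] at h
  exact h

theorem stens_tmul (h : SOp C v sig X L form b dp s) (h' : SOp C v sig X' L' form' b' dp' s')
    (hv0 : v ≠ 0) (hv : ∀ n : ℤ, n ≠ 0 → v ^ n ≠ 1) (hb : ∀ j, b j ∈ wsp C v X L (dp j))
    (hb' : ∀ j, b' j ∈ wsp C v X' L' (dp' j)) {κ κ' : I → ℤ} {x : M} {x' : M'}
    (hx : x ∈ wsp C v X L κ) (hx' : x' ∈ wsp C v X' L' κ') :
    stens C sig L b dp s b' dp' s' (x ⊗ₜ[K] x') =
      sg K (Lf C κ κ' + lp C L κ') • (s x ⊗ₜ[K] s' x') := by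
  refine wsp_induction b hv0 hv hb
    (P := fun x => stens C sig L b dp s b' dp' s' (x ⊗ₜ[K] x') =
      sg K (Lf C κ κ' + lp C L κ') • (s x ⊗ₜ[K] s' x')) ?_ ?_ ?_ ?_ hx
  · rw [h.zero, zero_tmul, zero_tmul, stens_zero, smul_zero]
  · intro x y hx hy
    rw [h.add, add_tmul, add_tmul, stens_add, hx, hy, smul_add]
  · intro r x hx
    rw [h.smul, ← smul_tmul', ← smul_tmul', stens_smul, hx, smul_comm]
  · intro j hj
    refine wsp_induction b' hv0 hv hb'
      (P := fun x' => stens C sig L b dp s b' dp' s' (b j ⊗ₜ[K] x') =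
        sg K (Lf C κ κ' + lp C L κ') • (s (b j) ⊗ₜ[K] s' x')) ?_ ?_ ?_ ?_ hx'
    · rw [h'.zero, tmul_zero, tmul_zero, stens_zero, smul_zero]
    · intro x y hx hy
      rw [h'.add, tmul_add, tmul_add, stens_add, hx, hy, smul_add]
    · intro r x hx
      rw [h'.smul, tmul_smul, tmul_smul, stens_smul, hx, smul_comm]
    · intro j' hj'
      rw [stens_basis, hj, hj']

theorem span_tmul {A : Subring K} {x : M} {x' : M'} (hx : x ∈ Submodule.span A (Set.range b))
    (hx' : x' ∈ Submodule.span A (Set.range b')) :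
    x ⊗ₜ[K] x' ∈ Submodule.span A (Set.range (b.tensorProduct b')) := by
  induction hx using Submodule.span_induction with
  | mem x hx =>
    obtain ⟨j, rfl⟩ := hx
    induction hx' using Submodule.span_induction with
    | mem x' hx' =>
      obtain ⟨j', rfl⟩ := hx'
      exact Submodule.subset_span ⟨(j, j'), by rw [Module.Basis.tensorProduct_apply]⟩
    | zero => rw [tmul_zero]; exact zero_mem _
    | add x y _ _ hx hy => rw [tmul_add]; exact add_mem hx hy
    | smul a x _ hx =>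
      have : b j ⊗ₜ[K] (a • x) = a • (b j ⊗ₜ[K] x) := by
        have := TensorProduct.tmul_smul (a : K) (b j) x (R := K)
        exact this
      rw [this]; exact Submodule.smul_mem _ _ hx
  | zero => rw [zero_tmul]; exact zero_mem _
  | add x y _ _ hx hy => rw [add_tmul]; exact add_mem hx hy
  | smul a x _ hx =>
    have : (a • x) ⊗ₜ[K] x' = a • (x ⊗ₜ[K] x') := by
      have := TensorProduct.smul_tmul' (a : K) x x' (R := K)
      exact this.symm
    rw [this]; exact Submodule.smul_mem _ _ hx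

theorem SOp.tens (h : SOp C v sig X L form b dp s) (h' : SOp C v sig X' L' form' b' dp' s')
    (hr : IsRel C v X) (hr' : IsRel C v X')
    (hf : IsForm C v X form) (hf' : IsForm C v X' form')
    (hsig : sig v = -v)
    (hv0 : v ≠ 0) (hv : ∀ n : ℤ, n ≠ 0 → v ^ n ≠ 1) (hb : ∀ j, b j ∈ wsp C v X L (dp j))
    (hb' : ∀ j, b' j ∈ wsp C v X' L' (dp' j)) :
    SOp C v sig (X.tens X') (L + L') (LinearMap.BilinForm.tmul form form')
      (b.tensorProduct b') (fun p => dp p.1 + dp' p.2) (stens C sig L b dp s b' dp' s') := by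
  have key := fun {κ κ' : I → ℤ} {x : M} {x' : M'} (hx : x ∈ wsp C v X L κ)
    (hx' : x' ∈ wsp C v X' L' κ') => stens_tmul h h' hv0 hv hb hb' hx hx'
  refine ⟨stens_add, stens_smul, ?_, ?_, ?_, ?_, ?_, ?_⟩
  · rintro ⟨j, j'⟩
    rw [Module.Basis.tensorProduct_apply, stens_basis, stens_smul, key (h.ws j) (h'.ws j'),
      h.invol, h'.invol, smul_smul, sig_sg, sg_mul_self, one_smul]
  · rintro ⟨j, j'⟩
    rw [Module.Basis.tensorProduct_apply, stens_basis]
    exact Submodule.smul_mem _ _ (wsp_tens hv0 (h.ws j) (h'.ws j'))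
  · rintro i ⟨j, j'⟩
    rw [Module.Basis.tensorProduct_apply, stens_basis, map_smul, tens_F, tens_F, stens_add,
      key (hr.F_wsp hv0 (hb j) i) (hb' j'), hr.Km_wsp hv0 (hb j), hr.Km_wsp hv0 (h.ws j),
      ← smul_tmul', stens_smul, key (hb j) (hr'.F_wsp hv0 (hb' j') i), h.F, h'.F]
    simp only [← smul_tmul', tmul_smul, sig_vz hsig, smul_add, smul_smul]
    congr 2
    · simp only [← sg_add]
      apply sg_congr
      rw [Lf_add_left, Lf_add_right]
      refine ⟨0, by ring⟩
    · have e1 : ∀ a b c d w : K, a * w * (b * c) = (a * b * c) * w := by intros; ring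
      have e2 : ∀ a b w : K, a * (b * w) = (a * b) * w := by intros; ring
      rw [e1 _ _ _ 0, e2]
      congr 1
      simp only [← sg_add]
      apply sg_congr
      rw [wex_Lf, Lf_add_right, Lf_add_right, lp_add_right]
      refine ⟨Lf C (dp j) (sr i), by ring⟩
  · rintro i ⟨j, j'⟩
    rw [Module.Basis.tensorProduct_apply, stens_basis, map_smul, tens_E, tens_E, stens_add,
      hb' j' i, h'.ws j' i, tmul_smul, stens_smul, key (hr.E_wsp hv0 (hb j) i) (hb' j'),
      key (hb j) (hr'.E_wsp hv0 (hb' j') i), h.E, h'.E]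
    simp only [← smul_tmul', tmul_smul, sig_vz hsig, smul_add, smul_smul]
    congr 2
    · have e1 : ∀ a b c d w : K, a * w * (b * c) = (a * b * c) * w := by intros; ring
      have e2 : ∀ a b w : K, a * (b * w) = (a * b) * w := by intros; ring
      rw [e1 _ _ _ 0, e2]
      congr 1
      simp only [← sg_add]
      apply sg_congr
      rw [wex_Lf, Lf_add_left, Lf_sub_left, lp_add_left]
      refine ⟨- Lf C (sr i) (dp' j') - Lf C (dp' j') (sr i), by ring⟩
    · simp only [← sg_add]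
      apply sg_congr
      rw [Lf_add_left, Lf_sub_right, lp_sub_right, lp_add_left]
      refine ⟨-Lf C (dp j) (sr i) - lp C L (sr i), by ring⟩
  · rintro ⟨j, j'⟩ ⟨k, k'⟩
    rw [Module.Basis.tensorProduct_apply, Module.Basis.tensorProduct_apply, stens_basis,
      stens_basis]
    simp only [map_smul, LinearMap.smul_apply, form_tens_apply, smul_eq_mul, h.form, h'.form,
      map_mul]
    by_cases hjk : dp j = dp k
    · by_cases hjk' : dp' j' = dp' k'
      · rw [hjk, hjk', ← mul_assoc, sg_mul_self, one_mul]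
      · rw [form_wsp hv0 hv hf' hjk' (hb' j') (hb' k')]; simp
    · rw [form_wsp hv0 hv hf hjk (hb j) (hb k)]; simp
  · rintro ⟨j, j'⟩
    rw [Module.Basis.tensorProduct_apply, stens_basis]
    have : sg K (Lf C (dp j) (dp' j') + lp C L (dp' j')) • (s (b j) ⊗ₜ[K] s' (b' j')) =
      (⟨sg K (Lf C (dp j) (dp' j') + lp C L (dp' j')), sg_mem _⟩ : Av v) •
        (s (b j) ⊗ₜ[K] s' (b' j')) := rfl
    rw [this]
    exact Submodule.smul_mem _ _ (span_tmul (h.lat j) (h'.lat j'))

end tens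


/-! ### the duality pairing -/

section duality

variable {lam' lam : I → ℕ}
variable {V' : Type} [AddCommGroup V'] [Module K V'] {J' : Type} [Fintype J'] [DecidableEq J']
variable {V : Type} [AddCommGroup V] [Module K V] {J : Type} [Fintype J] [DecidableEq J]
variable {c' : Canon C v bar lam' V' J'} {c : Canon C v bar lam V J}
variable {D : V' ≃ₗ[K] Module.Dual K V}

theorem zpow_inj (hv0 : v ≠ 0) (hv : ∀ n : ℤ, n ≠ 0 → v ^ n ≠ 1) {a b : ℤ}
    (h : v ^ a = v ^ b) : a = b := by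
  by_contra hab
  apply hv (a - b) (sub_ne_zero.2 hab)
  rw [zpow_sub₀ hv0, h, div_self (zpow_ne_zero _ hv0)]

theorem dual_weight (hD : IsDuality c' c D) (hv0 : v ≠ 0) (hv : ∀ n : ℤ, n ≠ 0 → v ^ n ≠ 1)
    {ν' ν : I → ℤ} {x : V'} {y : V} (hx : x ∈ c'.wsp ν') (hy : y ∈ c.wsp ν) (h : D x y ≠ 0)
    (i : I) : wex C c'.L ν' i + wex C c.L ν i = 0 := by
  have h1 := hD.Kp i x y
  rw [hx i, c.rel.Km_wsp hv0 hy i, map_smul, map_smul, LinearMap.smul_apply, smul_eq_mul,
    smul_eq_mul] at h1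
  have h2 := zpow_inj hv0 hv (mul_right_cancel₀ h h1)
  omega

theorem dual_F (hD : IsDuality c' c D) (hv0 : v ≠ 0) (z : V') (y : V) (i : I) :
    D z (c.X.F i y) = -(v ^ (C.d i * C.a i i) * D (c'.X.F i z) (c.X.Km i y)) := by
  have h1 := hD.F i z (c.X.Km i y)
  have h2 := LinearMap.congr_fun (c.rel.K_F i i) (c.X.Km i y)
  simp only [Module.End.mul_apply, LinearMap.smul_apply] at h2
  rw [c.rel.Kp_Km_apply] at h2
  rw [h1, h2, map_smul, smul_eq_mul, mul_neg, neg_neg, ← mul_assoc, ← zpow_add₀ hv0]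
  simp

theorem low_of_F (hD : IsDuality c' c D) (hv0 : v ≠ 0) {j : J'}
    (hF : ∀ i, c'.X.F i (c'.B j) = 0) (hc : D (c'.B j) = c.B.coord c.top)
    {z : V'} (hz : ∀ i, c'.X.F i z = 0) : z = D z c.hw • c'.B j := by
  have h1 : D (c'.B j) c.hw = 1 := by
    rw [hc]; simp [Canon.hw]
  have h2 : LinearMap.ker (D z - D z c.hw • D (c'.B j)) = ⊤ := by
    apply c.eq_top
    · rw [LinearMap.mem_ker, LinearMap.sub_apply, LinearMap.smul_apply, h1, smul_eq_mul, mul_one,
        sub_self]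
    · intro i x _
      rw [LinearMap.mem_ker, LinearMap.sub_apply, LinearMap.smul_apply, dual_F hD hv0, hz i,
        dual_F hD hv0, hF i]
      simp
  have h3 := LinearMap.ker_eq_top.1 h2
  apply D.injective
  rw [map_smul]
  exact sub_eq_zero.1 h3

theorem functional0 [CharZero K] (hvt : Transcendental ℚ v) (hD : IsDuality c' c D) {j : J'}
    (hF : ∀ i, c'.X.F i (c'.B j) = 0) (hc : D (c'.B j) = c.B.coord c.top)
    (φ : Module.Dual K V') (hφ : ∀ i x, φ (c'.X.E i x) = 0) :
    ∃ r : K, ∀ x, φ x = r * c'.form (c'.B j) x := by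
  have hv0 := ne_zero_of_tr hvt
  have : FiniteDimensional K V' := c'.B.finiteDimensional_of_finite
  have hinj : Function.Injective (c'.form : V' →ₗ[K] Module.Dual K V') := by
    rw [injective_iff_map_eq_zero]
    intro x hx
    exact c'.nondeg hvt x fun y => by rw [hx]; rfl
  have hsurj := (LinearMap.injective_iff_surjective_of_finrank_eq_finrank
    (Subspace.dual_finrank_eq (K := K) (V := V')).symm).1 hinj
  obtain ⟨z, hz⟩ := hsurj φ
  have hFz : ∀ i, c'.X.F i z = 0 := by
    intro i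
    apply c'.nondeg hvt
    intro y
    rw [c'.isForm.F, map_smul, hz]
    have h2 := LinearMap.congr_fun (c'.rel.K_E i i) (c'.X.Km i y)
    simp only [Module.End.mul_apply, LinearMap.smul_apply] at h2
    rw [c'.rel.Kp_Km_apply] at h2
    have h3 : c'.X.E i (c'.X.Km i y) = v ^ (C.d i * C.a i i) • c'.X.Km i (c'.X.E i y) := by
      have := congrArg (c'.X.Km i) h2
      rw [c'.rel.Km_Kp_apply, map_smul] at this
      exact this
    have h4 := hφ i (c'.X.Km i y)
    rw [h3, map_smul, smul_eq_mul, mul_eq_zero] at h4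
    rw [h4.resolve_left (zpow_ne_zero _ hv0), smul_zero]
  have h5 := low_of_F hD hv0 hF hc hFz
  refine ⟨D z c.hw, fun x => ?_⟩
  rw [← hz]
  conv_lhs => rw [h5]
  rw [map_smul, LinearMap.smul_apply, smul_eq_mul]

theorem functional [CharZero K] (hvt : Transcendental ℚ v) (hD : IsDuality c' c D)
    (φ : Module.Dual K V') (hφ : ∀ i x, φ (c'.X.E i x) = 0) :
    ∃ r : K, ∀ x, φ x = r * D x c.hw := by
  obtain ⟨j, hF, hc⟩ := hD.low
  have hv0 := ne_zero_of_tr hvt
  obtain ⟨r, hr⟩ := functional0 hvt hD hF hc φ hφ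
  have h1 : D (c'.B j) c.hw = 1 := by
    rw [hc]; simp [Canon.hw]
  obtain ⟨r', hr'⟩ := functional0 hvt hD hF hc
    ((Module.Dual.eval K V c.hw) ∘ₗ D.toLinearMap) (by
      intro i x
      have h2 : c.X.E i (c.X.Km i c.hw) = 0 := by
        rw [c.rel.Km_wsp hv0 c.hw_wsp i, map_smul]
        have : c.X.E i c.hw = 0 := c.top_E i
        rw [this, smul_zero]
      simp only [LinearMap.comp_apply, LinearEquiv.coe_coe, Module.Dual.eval_apply]
      rw [hD.E, h2]; simp)
  have h2 : ∀ x, D x c.hw = r' * c'.form (c'.B j) x := hr'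
  have h3 := h2 (c'.B j)
  rw [h1] at h3
  have hr0 : r' ≠ 0 := by
    intro h; rw [h, zero_mul] at h3; exact one_ne_zero h3
  refine ⟨r / r', fun x => ?_⟩
  rw [hr, h2]
  field_simp

theorem repr_mem {A : Subring K} {M : Type} [AddCommGroup M] [Module K M] {J : Type}
    (b : Module.Basis J K M) {x : M} (hx : x ∈ Submodule.span A (Set.range b)) (j : J) :
    b.repr x j ∈ A := by
  classical
  induction hx using Submodule.span_induction with
  | mem x hx =>
    obtain ⟨k, rfl⟩ := hx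
    rw [b.repr_self, Finsupp.single_apply]
    split_ifs
    · exact one_mem _
    · exact zero_mem _
  | zero => simp
  | add x y _ _ hx hy => rw [map_add]; exact add_mem hx hy
  | smul a x _ hx =>
    have : b.repr (a • x) j = a * b.repr x j := by
      have := congrArg (fun f => f j) (b.repr.map_smul (a : K) x)
      exact this
    rw [this]; exact mul_mem a.2 hx

theorem dual_sign [CharZero K] (hvt : Transcendental ℚ v) (hsig : sig v = -v)
    (hss : ∀ r, sig (sig r) = r) (hD : IsDuality c' c D)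
    {s' : V' → V'} (hs' : SOp C v sig c'.X c'.L c'.form c'.B c'.dp s')
    {s : V → V} (hs : SOp C v sig c.X c.L c.form c.B c.dp s) (hhw : s c.hw = c.hw) :
    ∃ (k : K) (n : I → ℤ), k ∈ Av v ∧ k⁻¹ ∈ Av v ∧ k ≠ 0 ∧
      (∀ ν' ν : I → ℤ, ∀ x ∈ c'.wsp ν', ∀ y ∈ c.wsp ν, D x y ≠ 0 → ν' + ν = n) ∧
      (∀ i, wex C c'.L n i + wex C c.L 0 i = 0) ∧
      (∀ ν' ν : I → ℤ, ∀ x ∈ c'.wsp ν', ∀ y ∈ c.wsp ν, 
        D (s' x) (s y) = k * sg K (lp C c.L ν + Lf C ν n + Lf C ν ν) * sig (D x y)) := by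
  have hv0 := ne_zero_of_tr hvt
  have hv := zpow_ne_one_of_tr hvt
  obtain ⟨j, hF, hc⟩ := hD.low
  have h1 : D (c'.B j) c.hw = 1 := by
    rw [hc]; simp [Canon.hw]
  set n := c'.dp j with hn
  have hw0 : ∀ i, wex C c'.L n i + wex C c.L 0 i = 0 := fun i =>
    dual_weight hD hv0 hv (c'.B_wsp j) c.hw_wsp (by rw [h1]; exact one_ne_zero) i
  have hsum : ∀ ν' ν : I → ℤ, ∀ x ∈ c'.wsp ν', ∀ y ∈ c.wsp ν, D x y ≠ 0 → ν' + ν = n := by
    intro ν' ν x hx y hy hne
    have : ν' + ν = n + 0 := by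
      apply wex_inj (C := C) (L := c'.L + c.L)
      intro i
      rw [wex_add, wex_add, hw0 i, dual_weight hD hv0 hv hx hy hne i]
    rw [this, add_zero]
  -- the constant
  let φ : Module.Dual K V' :=
    { toFun := fun x => sig (D (s' x) c.hw)
      map_add' := by intro x y; simp only [hs'.add, map_add, LinearMap.add_apply]
      map_smul' := by
        intro r x
        simp only [hs'.smul, map_smul, LinearMap.smul_apply, smul_eq_mul, map_mul, hss,
          RingHom.id_apply] }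
  have hφE : ∀ i x, φ (c'.X.E i x) = 0 := by
    intro i x
    refine basis_induction c'.B (P := fun x => φ (c'.X.E i x) = 0) (by simp) ?_ ?_ ?_ x
    · intro x y hx hy; rw [map_add, map_add, hx, hy, add_zero]
    · intro r x hx; rw [map_smul, map_smul, hx, smul_zero]
    · intro k
      show sig (D (s' (c'.X.E i (c'.B k))) c.hw) = 0
      have h2 : c.X.E i (c.X.Km i c.hw) = 0 := by
        rw [c.rel.Km_wsp hv0 c.hw_wsp i, map_smul]
        have : c.X.E i c.hw = 0 := c.top_E i
        rw [this, smul_zero]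
      rw [hs'.E, map_smul, LinearMap.smul_apply, hD.E, h2]; simp
  obtain ⟨r, hr⟩ := functional hvt hD φ hφE
  have hr' : ∀ x, D (s' x) c.hw = sig r * sig (D x c.hw) := by
    intro x
    have : sig (D (s' x) c.hw) = r * D x c.hw := hr x
    rw [← map_mul, ← this, hss]
  have hvl : s' (c'.B j) = sig r • c'.B j := by
    have h2 : ∀ i, c'.X.F i (s' (c'.B j)) = 0 := by
      intro i
      have h3 := hs'.F i j
      rw [hF i, hs'.zero] at h3
      have := (smul_eq_zero.1 h3.symm).resolve_left (sg_ne _)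
      exact this
    have h3 := low_of_F hD hv0 hF hc h2
    rw [h3, hr', h1, map_one, mul_one]
  have hk1 : sig r ∈ Av v := by
    have := repr_mem c'.B (hs'.lat j) j
    rw [hvl, map_smul, c'.B.repr_self] at this
    simpa using this
  have hk2 : r * sig r = 1 := by
    have h2 := hs'.invol j
    rw [hvl, hs'.smul, hss, hvl, smul_smul] at h2
    have h3 := congrArg (fun x => c'.B.repr x j) h2
    simpa using h3
  have hk3 : sig r ≠ 0 := right_ne_zero_of_mul_eq_one hk2
  have hk4 : (sig r)⁻¹ ∈ Av v := by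
    have : (sig r)⁻¹ = sig (sig r) := by
      rw [hss]; exact inv_eq_of_mul_eq_one_left hk2
    rw [this]; exact Av_sig hsig hk1
  refine ⟨sig r, n, hk1, hk4, hk3, hsum, hw0, ?_⟩
  -- words
  have hword : ∀ w : List I, ∀ ν' : I → ℤ, ∀ x ∈ c'.wsp ν', ∀ y, y = Fw c.X w c.hw →
      D (s' x) (s y) =
        sig r * sg K (lp C c.L (cw w) + Lf C (cw w) n + Lf C (cw w) (cw w)) * sig (D x y) := by
    intro w
    induction w with
    | nil =>
      rintro ν' x hx y rfl
      simp [hhw, hr' x, sg_zero]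
    | cons i w ih =>
      rintro ν' x hx y rfl
      have hwc := cw_cons i w
      rw [Fw_cons, hs.F' hv0 hv c.B_wsp (c.Fw_wsp hv0 w), map_smul, smul_eq_mul]
      set y0 := Fw c.X w c.hw with hy0
      have hy0w : y0 ∈ c.wsp (cw w) := c.Fw_wsp hv0 w
      by_cases hsm : ν' + (cw w + sr i) = n
      · have h3 : ∀ z u, u ∈ c.wsp (cw w) → D z (c.X.F i u) =
            -(v ^ (-wex C c.L (cw w + sr i) i) * D (c'.X.F i z) u) := by
          intro z u hu
          have h4 := hD.F i z u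
          rw [c.rel.F_wsp hv0 hu i i, map_smul, smul_eq_mul] at h4
          rw [h4, mul_neg, neg_neg, ← mul_assoc, ← zpow_add₀ hv0]
          simp
        rw [h3 _ _ (hs.ws' hv0 hv c.B_wsp hy0w), h3 _ _ hy0w]
        have h5 := hs'.F' hv0 hv c'.B_wsp hx i
        have h6 : c'.X.F i (s' x) = sg K (Lf C (sr i) ν') • s' (c'.X.F i x) := by
          rw [h5, smul_smul, sg_mul_self, one_smul]
        rw [h6, map_smul, LinearMap.smul_apply, smul_eq_mul,
          ih _ _ (c'.rel.F_wsp hv0 hx i) _ rfl, map_neg, map_mul, sig_vz hsig, sg_neg, hwc]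
        have h7 : sg K (lp C c.L (cw w + sr i) + Lf C (cw w + sr i) n +
              Lf C (cw w + sr i) (cw w + sr i)) * sg K (wex C c.L (cw w + sr i) i) =
            sg K (Lf C (sr i) (cw w)) * sg K (Lf C (sr i) ν') *
              sg K (lp C c.L (cw w) + Lf C (cw w) n + Lf C (cw w) (cw w)) := by
          rw [← sg_add, ← sg_add, ← sg_add]
          apply sg_congr
          have hν : ν' = n - cw w - sr i := by rw [← hsm]; abel
          rw [hν]
          simp only [wex_Lf, Lf_add_left, Lf_add_right, lp_add_right, Lf_sub_right]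
          refine ⟨lp C c.L (sr i), by ring⟩
        linear_combination (v ^ (-wex C c.L (cw w + sr i) i) * sig r *
          sig (D (c'.X.F i x) y0)) * h7
      · have h3 : D x (c.X.F i y0) = 0 := by
          by_contra h
          exact hsm (hsum _ _ _ hx _ (c.rel.F_wsp hv0 hy0w i) h)
        have h4 : D (s' x) (c.X.F i (s y0)) = 0 := by
          by_contra h
          exact hsm (hsum _ _ _ (hs'.ws' hv0 hv c'.B_wsp hx) _
            (c.rel.F_wsp hv0 (hs.ws' hv0 hv c.B_wsp hy0w) i) h)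
        rw [h3, h4]; simp
  intro ν' ν x hx y hy
  have h := c.mem_span_Fw hv0 hv hy
  clear hy
  induction h using Submodule.span_induction with
  | mem y hy =>
    obtain ⟨w, rfl, rfl⟩ := hy
    exact hword w ν' x hx _ rfl
  | zero => rw [hs.zero]; simp
  | add y z _ _ hy hz => rw [hs.add, map_add, hy, hz, map_add, map_add, mul_add]
  | smul a y _ hy => rw [hs.smul, map_smul, hy, map_smul, smul_eq_mul, smul_eq_mul, map_mul]; ring

end duality


/-! ### invariant vectors and dual bases -/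

section inv

variable {M : Type} [AddCommGroup M] [Module K M] {J : Type} [Fintype J] [DecidableEq J]
variable {X : Ops I K M} {L : I → ℤ} {form : LinearMap.BilinForm K M}
variable {b : Module.Basis J K M} {dp : J → I → ℤ} {s : M → M}

theorem inv_wsp (hv : ∀ n : ℤ, n ≠ 0 → v ^ n ≠ 1)
    (hb : ∀ j, b j ∈ wsp C v X L (dp j)) {x : M} (hx : x ∈ X.inv) (hx0 : x ≠ 0) :
    ∃ κ : I → ℤ, x ∈ wsp C v X L κ ∧ ∀ i, wex C L κ i = 0 := by
  have h1 : ∃ j, b.repr x j ≠ 0 := by
    by_contra h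
    push Not at h
    apply hx0
    apply b.repr.map_eq_zero_iff.1
    ext j; exact h j
  obtain ⟨j, hj⟩ := h1
  have hw : ∀ i, wex C L (dp j) i = 0 := by
    intro i
    have h2 : (b.coord j) ∘ₗ (X.Kp i) = v ^ wex C L (dp j) i • b.coord j := by
      apply b.ext
      intro k
      have h3 := hb k i
      rw [LinearMap.comp_apply, h3, map_smul, LinearMap.smul_apply, Module.Basis.coord_apply,
        b.repr_self, Finsupp.single_apply]
      by_cases hkj : k = j
      · rw [hkj]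
      · rw [if_neg hkj, smul_zero, smul_zero]
    have h3 := LinearMap.congr_fun h2 x
    rw [LinearMap.comp_apply, (hx i).2.2, LinearMap.smul_apply, Module.Basis.coord_apply,
      smul_eq_mul] at h3
    by_contra h4
    apply hv _ h4
    have h5 : 1 * b.repr x j = v ^ wex C L (dp j) i * b.repr x j := by rw [one_mul]; exact h3
    exact (mul_right_cancel₀ hj h5).symm
  refine ⟨dp j, fun i => ?_, hw⟩
  rw [(hx i).2.2, hw i, zpow_zero, one_smul]

theorem SOp.inv (h : SOp C v sig X L form b dp s) (hv0 : v ≠ 0)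
    (hv : ∀ n : ℤ, n ≠ 0 → v ^ n ≠ 1) (hb : ∀ j, b j ∈ MP_8ad3a8_al.wsp C v X L (dp j)) {x : M}
    (hx : x ∈ X.inv) : s x ∈ X.inv := by
  by_cases hx0 : x = 0
  · rw [hx0, h.zero]; exact zero_mem _
  · obtain ⟨κ, hκ, hw⟩ := inv_wsp hv hb hx hx0
    intro i
    refine ⟨?_, ?_, ?_⟩
    · have h1 := h.E' hv0 hv hb hκ i
      rw [(hx i).1, h.zero] at h1
      exact (smul_eq_zero.1 h1.symm).resolve_left (sg_ne _)
    · have h1 := h.F' hv0 hv hb hκ i
      rw [(hx i).2.1, h.zero] at h1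
      exact (smul_eq_zero.1 h1.symm).resolve_left (sg_ne _)
    · have h1 := h.ws' hv0 hv hb hκ i
      rw [h1, hw i, zpow_zero, one_smul]

theorem inv_side (h : SOp C v sig X L form b dp s) (hsig : sig v = -v)
    (hss : ∀ r, sig (sig r) = r) (hv0 : v ≠ 0)
    (hv : ∀ n : ℤ, n ≠ 0 → v ^ n ≠ 1) (hb : ∀ j, b j ∈ MP_8ad3a8_al.wsp C v X L (dp j))
    (B : J → M)
    (hB : Submodule.span (Av v) (Set.range B) = Submodule.span (Av v) (Set.range b))
    {m : ℕ} (f : Module.Basis (Fin m) K X.inv)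
    (hf : ∀ k, ∃ j0, ∀ j, form (f k : M) (B j) = if j = j0 then 1 else 0)
    (hBs : ∀ x : M, (∀ j, form x (B j) = 0) → x = 0) :
    ∃ cm : Matrix (Fin m) (Fin m) K, (∀ j, s (f j : M) = ∑ k, cm k j • (f k : M)) ∧
      cm.det ∈ Av v ∧ cm.det⁻¹ ∈ Av v ∧ cm.det ≠ 0 := by
  choose e he using hf
  have hinj : Function.Injective e := by
    intro k l hkl
    apply f.injective
    apply Subtype.ext
    rw [← sub_eq_zero]
    apply hBs
    intro j
    rw [map_sub, LinearMap.sub_apply, he, he, hkl, sub_self]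
  have hcoef : ∀ (x : X.inv) (k : Fin m), f.repr x k = form (x : M) (B (e k)) := by
    intro x k
    have h1 : (x : M) = ∑ l, f.repr x l • (f l : M) := by
      have := congrArg (fun y : X.inv => (y : M)) (f.sum_repr x)
      simp only [Submodule.coe_sum, Submodule.coe_smul] at this
      exact this.symm
    conv_rhs => rw [h1]
    rw [map_sum, LinearMap.sum_apply, Finset.sum_eq_single k]
    · rw [map_smul, LinearMap.smul_apply, he, if_pos rfl, smul_eq_mul, mul_one]
    · intro l _ hl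
      rw [map_smul, LinearMap.smul_apply, he, if_neg, smul_zero]
      intro h2; exact hl (hinj h2).symm
    · intro h2; exact absurd (Finset.mem_univ _) h2
  let sf : Fin m → X.inv := fun j => ⟨s (f j : M), h.inv hv0 hv hb (f j).2⟩
  let cm : Matrix (Fin m) (Fin m) K := Matrix.of fun k j => f.repr (sf j) k
  have hcm : ∀ j, s (f j : M) = ∑ k, cm k j • (f k : M) := by
    intro j
    have := congrArg (fun y : X.inv => (y : M)) (f.sum_repr (sf j))
    simp only [Submodule.coe_sum, Submodule.coe_smul] at this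
    exact this.symm
  have hform : ∀ (j : Fin m) (y : M), y ∈ Submodule.span (Av v) (Set.range B) →
      form (f j : M) y ∈ Av v := by
    intro j y hy
    induction hy using Submodule.span_induction with
    | mem y hy =>
      obtain ⟨j0, rfl⟩ := hy
      rw [he]
      split_ifs
      · exact one_mem _
      · exact zero_mem _
    | zero => rw [map_zero]; exact zero_mem _
    | add x y _ _ hx hy => rw [map_add]; exact add_mem hx hy
    | smul a y _ hy =>
      have : form (f j : M) (a • y) = a * form (f j : M) y := (form (f j : M)).map_smul (a : K) y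
      rw [this]; exact mul_mem a.2 hy
  have hcmA : ∀ k j, cm k j ∈ Av v := by
    intro k j
    show f.repr (sf j) k ∈ Av v
    rw [hcoef]
    have h1 : form (s (f j : M)) (B (e k)) = sig (form (f j : M) (s (B (e k)))) := by
      rw [← h.form', h.invol' hss]
    show form (s (f j : M)) (B (e k)) ∈ Av v
    rw [h1]
    apply Av_sig hsig
    apply hform
    rw [hB]
    apply h.lat' hsig
    rw [← hB]
    exact Submodule.subset_span ⟨_, rfl⟩
  have hdet : cm.det ∈ Av v := by
    rw [Matrix.det_apply]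
    refine sum_mem fun σ _ => ?_
    rw [Units.smul_def]
    exact zsmul_mem (prod_mem fun i _ => hcmA _ _) _
  have hmul : cm * cm.map sig = 1 := by
    ext l j
    have h1 : (f j : M) = ∑ k, sig (cm k j) • ∑ l, cm l k • (f l : M) := by
      have h2 : s (s (f j : M)) = ∑ k, sig (cm k j) • s (f k : M) := by
        rw [hcm j]
        have hsum : ∀ (S : Finset (Fin m)) (u : Fin m → M), s (∑ k ∈ S, u k) = ∑ k ∈ S, s (u k) := by
          intro S u
          induction S using Finset.induction_on with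
          | empty => simp [h.zero]
          | insert a S ha ih => rw [Finset.sum_insert ha, Finset.sum_insert ha, h.add, ih]
        rw [hsum]
        refine Finset.sum_congr rfl fun k _ => h.smul _ _
      rw [h.invol' hss] at h2
      rw [h2]
      exact Finset.sum_congr rfl fun k _ => by rw [hcm k]
    have h3 : f j = ∑ l, (∑ k, cm l k * sig (cm k j)) • f l := by
      apply Subtype.ext
      rw [h1]
      simp only [Submodule.coe_sum, Submodule.coe_smul, Finset.smul_sum, Finset.sum_smul,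
        smul_smul]
      rw [Finset.sum_comm]
      refine Finset.sum_congr rfl fun k _ => Finset.sum_congr rfl fun l _ => ?_
      rw [mul_comm]
    have h4 := congrArg (fun y => f.repr y l) h3
    simp only [map_sum, map_smul, f.repr_self, Finsupp.coe_finsetSum, Finset.sum_apply,
      Finsupp.coe_smul, Pi.smul_apply, Finsupp.single_apply, smul_eq_mul, mul_ite, mul_one,
      mul_zero, Finset.sum_ite_eq', Finset.mem_univ, if_true] at h4
    rw [Matrix.mul_apply, Matrix.one_apply]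
    simp only [Matrix.map_apply]
    rw [← h4]
    by_cases hjl : j = l
    · rw [if_pos hjl, if_pos hjl.symm]
    · rw [if_neg hjl, if_neg (Ne.symm hjl)]
  have hd : cm.det * sig cm.det = 1 := by
    have h1 := congrArg Matrix.det hmul
    rw [Matrix.det_mul, Matrix.det_one] at h1
    rw [← h1]
    congr 1
    exact RingHom.map_det (sig : K →+* K) cm
  refine ⟨cm, hcm, hdet, ?_, left_ne_zero_of_mul_eq_one hd⟩
  rw [inv_eq_of_mul_eq_one_right hd]
  exact Av_sig hsig hdet

end inv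


/-! ### triple tensor products -/

section triple

variable {l1 l2 l3 : I → ℕ}
variable {V1 : Type} [AddCommGroup V1] [Module K V1] {J1 : Type} [Fintype J1] [DecidableEq J1]
variable {V2 : Type} [AddCommGroup V2] [Module K V2] {J2 : Type} [Fintype J2] [DecidableEq J2]
variable {V3 : Type} [AddCommGroup V3] [Module K V3] {J3 : Type} [Fintype J3] [DecidableEq J3]

/-- the tensor product basis -/
noncomputable def tbas (c1 : Canon C v bar l1 V1 J1) (c2 : Canon C v bar l2 V2 J2)
    (c3 : Canon C v bar l3 V3 J3) : Module.Basis (J1 × J2 × J3) K (V1 ⊗[K] (V2 ⊗[K] V3)) :=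
  c1.B.tensorProduct (c2.B.tensorProduct c3.B)

/-- depths of the tensor product basis -/
def tdp (c1 : Canon C v bar l1 V1 J1) (c2 : Canon C v bar l2 V2 J2)
    (c3 : Canon C v bar l3 V3 J3) (p : J1 × J2 × J3) : I → ℤ :=
  c1.dp p.1 + (c2.dp p.2.1 + c3.dp p.2.2)

theorem tbas_apply (c1 : Canon C v bar l1 V1 J1) (c2 : Canon C v bar l2 V2 J2)
    (c3 : Canon C v bar l3 V3 J3) (p : J1 × J2 × J3) :
    tbas c1 c2 c3 p = c1.B p.1 ⊗ₜ[K] (c2.B p.2.1 ⊗ₜ[K] c3.B p.2.2) := by
  obtain ⟨j1, j2, j3⟩ := p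
  rw [tbas, Module.Basis.tensorProduct_apply, Module.Basis.tensorProduct_apply]

theorem tbas_wsp (hv0 : v ≠ 0) (c1 : Canon C v bar l1 V1 J1) (c2 : Canon C v bar l2 V2 J2)
    (c3 : Canon C v bar l3 V3 J3) (p : J1 × J2 × J3) :
    tbas c1 c2 c3 p ∈ wsp C v (c1.X.tens (c2.X.tens c3.X)) (c1.L + (c2.L + c3.L))
      (tdp c1 c2 c3 p) := by
  rw [tbas_apply]
  exact wsp_tens hv0 (c1.B_wsp _) (wsp_tens hv0 (c2.B_wsp _) (c3.B_wsp _))

theorem triple_sop (hsig : sig v = -v) (hv0 : v ≠ 0) (hv : ∀ n : ℤ, n ≠ 0 → v ^ n ≠ 1)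
    {c1 : Canon C v bar l1 V1 J1} {c2 : Canon C v bar l2 V2 J2} {c3 : Canon C v bar l3 V3 J3}
    {s1 : V1 → V1} {s2 : V2 → V2} {s3 : V3 → V3}
    (h1 : SOp C v sig c1.X c1.L c1.form c1.B c1.dp s1)
    (h2 : SOp C v sig c2.X c2.L c2.form c2.B c2.dp s2)
    (h3 : SOp C v sig c3.X c3.L c3.form c3.B c3.dp s3) :
    ∃ s : V1 ⊗[K] (V2 ⊗[K] V3) → V1 ⊗[K] (V2 ⊗[K] V3),
      SOp C v sig (c1.X.tens (c2.X.tens c3.X)) (c1.L + (c2.L + c3.L)) (form3 c1 c2 c3)
        (tbas c1 c2 c3) (tdp c1 c2 c3) s ∧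
      ∀ (ν1 ν2 ν3 : I → ℤ), ∀ x1 ∈ c1.wsp ν1, ∀ x2 ∈ c2.wsp ν2, ∀ x3 ∈ c3.wsp ν3,
        s (x1 ⊗ₜ[K] (x2 ⊗ₜ[K] x3)) =
          sg K ((Lf C ν1 (ν2 + ν3) + lp C c1.L (ν2 + ν3)) + (Lf C ν2 ν3 + lp C c2.L ν3)) •
            (s1 x1 ⊗ₜ[K] (s2 x2 ⊗ₜ[K] s3 x3)) := by
  have hb23 : ∀ p : J2 × J3, c2.B.tensorProduct c3.B p ∈
      wsp C v (c2.X.tens c3.X) (c2.L + c3.L) (c2.dp p.1 + c3.dp p.2) := by
    rintro ⟨j2, j3⟩
    rw [Module.Basis.tensorProduct_apply]
    exact wsp_tens hv0 (c2.B_wsp _) (c3.B_wsp _)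
  have h23 := h2.tens h3 c2.rel c3.rel c2.isForm c3.isForm hsig hv0 hv c2.B_wsp c3.B_wsp
  have h123 := h1.tens h23 c1.rel (c2.rel.tens hv0 c3.rel) c1.isForm
    (c2.isForm.tens hv0 c2.rel c3.rel c3.isForm) hsig hv0 hv c1.B_wsp hb23
  refine ⟨_, h123, ?_⟩
  intro ν1 ν2 ν3 x1 hx1 x2 hx2 x3 hx3
  rw [stens_tmul h1 h23 hv0 hv c1.B_wsp hb23 hx1 (wsp_tens hv0 hx2 hx3),
    stens_tmul h2 h3 hv0 hv c2.B_wsp c3.B_wsp hx2 hx3, tmul_smul, smul_smul, ← sg_add]

variable {l1' l2' l3' : I → ℕ}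
variable {V1' : Type} [AddCommGroup V1'] [Module K V1'] {J1' : Type} [Fintype J1'] [DecidableEq J1']
variable {V2' : Type} [AddCommGroup V2'] [Module K V2'] {J2' : Type} [Fintype J2'] [DecidableEq J2']
variable {V3' : Type} [AddCommGroup V3'] [Module K V3'] {J3' : Type} [Fintype J3'] [DecidableEq J3']

theorem lp_of_wex {L' L n : I → ℤ} (h : ∀ i, wex C L' n i + wex C L 0 i = 0) (κ : I → ℤ) :
    lp C L' κ + lp C L κ = Lf C κ n + Lf C n κ := by
  rw [Lf_symm, ip_comm]
  unfold lp ip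
  rw [← Finset.sum_add_distrib, Finset.sum_comm]
  refine Finset.sum_congr rfl fun i _ => ?_
  have h1 := h i
  unfold wex at h1
  simp only [Pi.zero_apply, mul_zero, Finset.sum_const_zero, sub_zero] at h1
  have h2 : ∑ j, n j * (C.d j * C.a j i) * κ i = (∑ k, C.d i * C.a i k * n k) * κ i := by
    rw [Finset.sum_mul]
    refine Finset.sum_congr rfl fun j _ => ?_
    rw [C.symm j i]; ring
  rw [h2]
  linear_combination κ i * h1

theorem pairing_sign [CharZero K] (hvt : Transcendental ℚ v) (hsig : sig v = -v)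
    (hss : ∀ r, sig (sig r) = r)
    (c1 : Canon C v bar l1 V1 J1) (c2 : Canon C v bar l2 V2 J2) (c3 : Canon C v bar l3 V3 J3)
    (c1' : Canon C v bar l1' V1' J1') (c2' : Canon C v bar l2' V2' J2')
    (c3' : Canon C v bar l3' V3' J3')
    {D1 : V1' ≃ₗ[K] Module.Dual K V1} {D2 : V2' ≃ₗ[K] Module.Dual K V2}
    {D3 : V3' ≃ₗ[K] Module.Dual K V3}
    (hD1 : IsDuality c1' c1 D1) (hD2 : IsDuality c2' c2 D2) (hD3 : IsDuality c3' c3 D3) :
    ∃ (s : V1 ⊗[K] (V2 ⊗[K] V3) → V1 ⊗[K] (V2 ⊗[K] V3))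
      (s' : V3' ⊗[K] (V2' ⊗[K] V1') → V3' ⊗[K] (V2' ⊗[K] V1')),
      SOp C v sig (c1.X.tens (c2.X.tens c3.X)) (c1.L + (c2.L + c3.L)) (form3 c1 c2 c3)
        (tbas c1 c2 c3) (tdp c1 c2 c3) s ∧
      SOp C v sig (c3'.X.tens (c2'.X.tens c1'.X)) (c3'.L + (c2'.L + c1'.L)) (form3 c3' c2' c1')
        (tbas c3' c2' c1') (tdp c3' c2' c1') s' ∧
      ∀ η : I → ℤ, ∃ k ∈ Av v, k⁻¹ ∈ Av v ∧ k ≠ 0 ∧
        ∀ f ∈ wsp C v (c1.X.tens (c2.X.tens c3.X)) (c1.L + (c2.L + c3.L)) η, ∀ g,
          pairing D1 D2 D3 (s' g) (s f) = k * sig (pairing D1 D2 D3 g f) := by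
  have hv0 := ne_zero_of_tr hvt
  have hv := zpow_ne_one_of_tr hvt
  obtain ⟨s1, h1, hw1⟩ := exists_sop hvt hsig hss c1
  obtain ⟨s2, h2, hw2⟩ := exists_sop hvt hsig hss c2
  obtain ⟨s3, h3, hw3⟩ := exists_sop hvt hsig hss c3
  obtain ⟨s1', h1', hw1'⟩ := exists_sop hvt hsig hss c1'
  obtain ⟨s2', h2', hw2'⟩ := exists_sop hvt hsig hss c2'
  obtain ⟨s3', h3', hw3'⟩ := exists_sop hvt hsig hss c3'
  obtain ⟨k1, n1, ha1, hb1, hc1, hd1, he1, hf1⟩ := dual_sign hvt hsig hss hD1 h1' h1 hw1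
  obtain ⟨k2, n2, ha2, hb2, hc2, hd2, he2, hf2⟩ := dual_sign hvt hsig hss hD2 h2' h2 hw2
  obtain ⟨k3, n3, ha3, hb3, hc3, hd3, he3, hf3⟩ := dual_sign hvt hsig hss hD3 h3' h3 hw3
  obtain ⟨s, hs, hst⟩ := triple_sop hsig hv0 hv h1 h2 h3
  obtain ⟨s', hs', hst'⟩ := triple_sop hsig hv0 hv h3' h2' h1'
  refine ⟨s, s', hs, hs', fun η => ?_⟩
  set A : ℤ := Lf C n3 (n2 + n1) + lp C c3'.L (n2 + n1) + (Lf C n2 n1 + lp C c2'.L n1) with hA
  set e : ℤ := Lf C η (n1 + n2 + n3) + Lf C η η + (lp C c1.L η + lp C c2.L η + lp C c3.L η) + A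
    with he
  refine ⟨k1 * (k2 * k3) * sg K e, mul_mem (mul_mem ha1 (mul_mem ha2 ha3)) (sg_mem _), ?_, ?_, ?_⟩
  · rw [mul_inv, mul_inv, mul_inv, sg_inv]
    exact mul_mem (mul_mem hb1 (mul_mem hb2 hb3)) (sg_mem _)
  · exact mul_ne_zero (mul_ne_zero hc1 (mul_ne_zero hc2 hc3)) (sg_ne _)
  · intro f hf g
    refine wsp_induction (tbas c1 c2 c3) hv0 hv (tbas_wsp hv0 c1 c2 c3)
      (P := fun f => pairing D1 D2 D3 (s' g) (s f) =
        k1 * (k2 * k3) * sg K e * sig (pairing D1 D2 D3 g f)) ?_ ?_ ?_ ?_ hf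
    · rw [hs.zero]; simp
    · intro x y hx hy; rw [hs.add, map_add, hx, hy, map_add, map_add, mul_add]
    · intro r x hx
      rw [hs.smul, map_smul, hx, map_smul, smul_eq_mul, smul_eq_mul, map_mul]; ring
    · rintro ⟨j1, j2, j3⟩ hj
      refine basis_induction (tbas c3' c2' c1')
        (P := fun g => pairing D1 D2 D3 (s' g) (s (tbas c1 c2 c3 (j1, j2, j3))) =
          k1 * (k2 * k3) * sg K e *
            sig (pairing D1 D2 D3 g (tbas c1 c2 c3 (j1, j2, j3)))) ?_ ?_ ?_ ?_ g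
      · rw [hs'.zero]; simp
      · intro x y hx hy
        rw [hs'.add, map_add, LinearMap.add_apply, hx, hy, map_add, LinearMap.add_apply, map_add,
          mul_add]
      · intro r x hx
        rw [hs'.smul, map_smul, LinearMap.smul_apply, hx, map_smul, LinearMap.smul_apply,
          smul_eq_mul, smul_eq_mul, map_mul]; ring
      · rintro ⟨i3, i2, i1⟩
        rw [tbas_apply, tbas_apply]
        simp only []
        rw [hst _ _ _ _ (c1.B_wsp j1) _ (c2.B_wsp j2) _ (c3.B_wsp j3),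
          hst' _ _ _ _ (c3'.B_wsp i3) _ (c2'.B_wsp i2) _ (c1'.B_wsp i1),
          map_smul, map_smul, LinearMap.smul_apply, pairing_tmul, pairing_tmul,
          hf1 _ _ _ (c1'.B_wsp i1) _ (c1.B_wsp j1), hf2 _ _ _ (c2'.B_wsp i2) _ (c2.B_wsp j2),
          hf3 _ _ _ (c3'.B_wsp i3) _ (c3.B_wsp j3)]
        by_cases hz1 : D1 (c1'.B i1) (c1.B j1) = 0
        · rw [hz1]; simp
        by_cases hz2 : D2 (c2'.B i2) (c2.B j2) = 0
        · rw [hz2]; simp
        by_cases hz3 : D3 (c3'.B i3) (c3.B j3) = 0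
        · rw [hz3]; simp
        have g1 := hd1 _ _ _ (c1'.B_wsp i1) _ (c1.B_wsp j1) hz1
        have g2 := hd2 _ _ _ (c2'.B_wsp i2) _ (c2.B_wsp j2) hz2
        have g3 := hd3 _ _ _ (c3'.B_wsp i3) _ (c3.B_wsp j3) hz3
        have g1' : c1'.dp i1 = n1 - c1.dp j1 := by rw [← g1]; abel
        have g2' : c2'.dp i2 = n2 - c2.dp j2 := by rw [← g2]; abel
        have g3' : c3'.dp i3 = n3 - c3.dp j3 := by rw [← g3]; abel
        have hη : η = c1.dp j1 + (c2.dp j2 + c3.dp j3) := hj.symm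
        have hsgn : sg K e = sg K (
            (Lf C (c1.dp j1) (c2.dp j2 + c3.dp j3) + lp C c1.L (c2.dp j2 + c3.dp j3) +
              (Lf C (c2.dp j2) (c3.dp j3) + lp C c2.L (c3.dp j3))) +
            (Lf C (c3'.dp i3) (c2'.dp i2 + c1'.dp i1) + lp C c3'.L (c2'.dp i2 + c1'.dp i1) +
              (Lf C (c2'.dp i2) (c1'.dp i1) + lp C c2'.L (c1'.dp i1))) +
            (lp C c1.L (c1.dp j1) + Lf C (c1.dp j1) n1 + Lf C (c1.dp j1) (c1.dp j1)) +
            (lp C c2.L (c2.dp j2) + Lf C (c2.dp j2) n2 + Lf C (c2.dp j2) (c2.dp j2)) +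
            (lp C c3.L (c3.dp j3) + Lf C (c3.dp j3) n3 + Lf C (c3.dp j3) (c3.dp j3))) := by
          apply sg_congr
          rw [he, hA, g1', g2', g3', hη]
          have q1 := lp_of_wex he3 (c1.dp j1)
          have q2 := lp_of_wex he3 (c2.dp j2)
          have q3 := lp_of_wex he2 (c1.dp j1)
          simp only [Lf_add_left, Lf_add_right, lp_add_right, Lf_sub_right, Lf_sub_left,
            lp_sub_right]
          refine ⟨Lf C n3 (c1.dp j1) + Lf C n3 (c2.dp j2) + Lf C n2 (c1.dp j1) +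
            Lf C (c3.dp j3) n1 + Lf C (c3.dp j3) n2 + Lf C (c1.dp j1) n3 + Lf C (c2.dp j2) n3 +
            Lf C (c2.dp j2) n1 + Lf C (c1.dp j1) n2, ?_⟩
          linear_combination q1 + q2 + q3
        rw [hsgn, map_mul, map_mul]
        simp only [sg_add, smul_eq_mul]
        ring

theorem span_Av_of_Zm {M : Type} [AddCommGroup M] [Module K M] {J : Type} {B b : J → M}
    (h : Submodule.span (Zm v) (Set.range B) = Submodule.span (Zm v) (Set.range b)) :
    Submodule.span (Av v) (Set.range B) = Submodule.span (Av v) (Set.range b) := by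
  have key : ∀ {S : Set M} {x : M}, x ∈ Submodule.span (Zm v) S → x ∈ Submodule.span (Av v) S := by
    intro S x hx
    have hZ : ∀ a : K, a ∈ Zm v → a ∈ Av v := by
      intro a ha
      exact Subring.closure_mono (by simp) ha
    induction hx using Submodule.span_induction with
    | mem x hx => exact Submodule.subset_span hx
    | zero => exact zero_mem _
    | add x y _ _ hx hy => exact add_mem hx hy
    | smul a x _ hx =>
      have : a • x = (⟨a.1, hZ a.1 a.2⟩ : Av v) • x := rfl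
      rw [this]; exact Submodule.smul_mem _ _ hx
  apply le_antisymm
  · rw [Submodule.span_le]
    rintro _ ⟨j, rfl⟩
    apply key
    rw [← h]
    exact Submodule.subset_span ⟨j, rfl⟩
  · rw [Submodule.span_le]
    rintro _ ⟨j, rfl⟩
    apply key
    rw [h]
    exact Submodule.subset_span ⟨j, rfl⟩

theorem form3_nondeg [CharZero K] (hvt : Transcendental ℚ v)
    {c1 : Canon C v bar l1 V1 J1} {c2 : Canon C v bar l2 V2 J2} {c3 : Canon C v bar l3 V3 J3}
    (t : TCanon c1 c2 c3) (x : V1 ⊗[K] (V2 ⊗[K] V3))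
    (hx : ∀ j, form3 c1 c2 c3 x (t.B j) = 0) : x = 0 := by
  have hx' : ∀ y, form3 c1 c2 c3 x y = 0 := by
    intro y
    refine basis_induction t.B (P := fun y => form3 c1 c2 c3 x y = 0) (by simp) ?_ ?_ hx y
    · intro y z hy hz; rw [map_add, hy, hz, add_zero]
    · intro r y hy; rw [map_smul, hy, smul_zero]
  refine nondeg_tens c1.B (c2.B.tensorProduct c3.B) (c1.nondeg hvt) (f' :=
    LinearMap.BilinForm.tmul c2.form c3.form) ?_ x fun y y' => hx' _
  intro z hz
  exact nondeg_tens c2.B c3.B (c2.nondeg hvt) (c3.nondeg hvt) z fun y y' => hz _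

end triple

end Sign

open Polynomial in
/-- auxiliary: units of `ℤ[v,v⁻¹]` -/
theorem Av_unit {K : Type} [Field K] {v : K} [CharZero K] (hvt : Transcendental ℚ v) {r : K}
    (h1 : r ∈ Av v) (h2 : r⁻¹ ∈ Av v) (h0 : r ≠ 0) : ∃ k : ℤ, r = v ^ k ∨ r = -v ^ k := by
  have hv0 := ne_zero_of_tr hvt
  have key : ∀ r : K, r ∈ Av v → ∃ (P : ℤ[X]) (a : ℕ), r * v ^ a = aeval v P := by
    intro r hr
    unfold Av at hr
    induction hr using Subring.closure_induction with
    | mem x hx =>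
      rcases hx with rfl | hx
      · exact ⟨X, 0, by simp⟩
      · rw [Set.mem_singleton_iff.1 hx]
        exact ⟨1, 1, by simp [hv0]⟩
    | zero => exact ⟨0, 0, by simp⟩
    | one => exact ⟨1, 0, by simp⟩
    | add x y _ _ hx hy =>
      obtain ⟨P, a, hP⟩ := hx
      obtain ⟨Q, b, hQ⟩ := hy
      refine ⟨P * X ^ b + Q * X ^ a, a + b, ?_⟩
      rw [map_add, map_mul, map_mul, ← hP, ← hQ, map_pow, map_pow, aeval_X, pow_add]
      ring
    | neg x _ hx =>
      obtain ⟨P, a, hP⟩ := hx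
      exact ⟨-P, a, by rw [map_neg, ← hP, neg_mul]⟩
    | mul x y _ _ hx hy =>
      obtain ⟨P, a, hP⟩ := hx
      obtain ⟨Q, b, hQ⟩ := hy
      refine ⟨P * Q, a + b, ?_⟩
      rw [map_mul, ← hP, ← hQ, pow_add]
      ring
  have hinj : ∀ P : ℤ[X], aeval v P = 0 → P = 0 := by
    intro P hP
    have h3 : aeval v (P.map (Int.castRingHom ℚ)) = 0 := by
      rw [aeval_def, eval₂_map, ← hP, aeval_def]
      congr 1
      exact RingHom.ext_int _ _
    have h4 := (transcendental_iff.1 hvt) _ h3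
    exact (Polynomial.map_eq_zero_iff (RingHom.injective_int (Int.castRingHom ℚ))).1 h4
  obtain ⟨P, a, hP⟩ := key r h1
  obtain ⟨Q, b, hQ⟩ := key _ h2
  have hPQ : P * Q = X ^ (a + b) := by
    rw [← sub_eq_zero]
    apply hinj
    rw [map_sub, map_mul, ← hP, ← hQ, map_pow, aeval_X, pow_add]
    field_simp
    ring
  obtain ⟨i, -, hi⟩ := (dvd_prime_pow (Polynomial.prime_X (R := ℤ)) (a + b)).1 ⟨Q, hPQ.symm⟩
  obtain ⟨u, hu⟩ := hi.symm
  obtain ⟨z, hz, hzu⟩ := Polynomial.isUnit_iff.1 u.isUnit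
  rw [← hzu] at hu
  have h5 : r * v ^ a = v ^ i * (z : K) := by
    rw [hP, ← hu, map_mul, map_pow, aeval_X, aeval_C]
    simp
  refine ⟨(i : ℤ) - a, ?_⟩
  have hva : v ^ a ≠ 0 := pow_ne_zero _ hv0
  have h6 : r = v ^ ((i : ℤ) - a) * (z : K) := by
    rw [zpow_sub₀ hv0, zpow_natCast, zpow_natCast]
    field_simp
    exact h5
  rcases Int.isUnit_iff.1 hz with h | h
  · left; rw [h6, h]; simp
  · right; rw [h6, h]; simp

open Sign

section final

variable {I : Type} [Fintype I] [DecidableEq I] {K : Type} [Field K]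
variable {C : Cartan I} {v : K} {bar : K ≃+* K}
variable {l1 l2 l3 l1' l2' l3' : I → ℕ}
variable {V1 : Type} [AddCommGroup V1] [Module K V1] {J1 : Type} [Fintype J1] [DecidableEq J1]
variable {V2 : Type} [AddCommGroup V2] [Module K V2] {J2 : Type} [Fintype J2] [DecidableEq J2]
variable {V3 : Type} [AddCommGroup V3] [Module K V3] {J3 : Type} [Fintype J3] [DecidableEq J3]
variable {V1' : Type} [AddCommGroup V1'] [Module K V1'] {J1' : Type} [Fintype J1'] [DecidableEq J1']
variable {V2' : Type} [AddCommGroup V2'] [Module K V2'] {J2' : Type} [Fintype J2'] [DecidableEq J2']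
variable {V3' : Type} [AddCommGroup V3'] [Module K V3'] {J3' : Type} [Fintype J3'] [DecidableEq J3']

theorem sign_det_aux [CharZero K] (hvt : Transcendental ℚ v)
    (sig : K ≃+* K) (hsig : sig v = -v) (hss : ∀ r, sig (sig r) = r)
    {c1 : Canon C v bar l1 V1 J1} {c2 : Canon C v bar l2 V2 J2}
    {c3 : Canon C v bar l3 V3 J3} (t : TCanon c1 c2 c3)
    {c1' : Canon C v bar l1' V1' J1'} {c2' : Canon C v bar l2' V2' J2'}
    {c3' : Canon C v bar l3' V3' J3'} (t' : TCanon c3' c2' c1')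
    {D1 : V1' ≃ₗ[K] Module.Dual K V1} {D2 : V2' ≃ₗ[K] Module.Dual K V2}
    {D3 : V3' ≃ₗ[K] Module.Dual K V3}
    (hD1 : IsDuality c1' c1 D1) (hD2 : IsDuality c2' c2 D2) (hD3 : IsDuality c3' c3 D3)
    {m : ℕ} (f : Module.Basis (Fin m) K (c1.X.tens (c2.X.tens c3.X)).inv)
    (hf : ∀ j, IsDualCanon t (f j : V1 ⊗[K] (V2 ⊗[K] V3)))
    (g : Module.Basis (Fin m) K (c3'.X.tens (c2'.X.tens c1'.X)).inv)
    (hg : ∀ j, IsDualCanon t' (g j : V3' ⊗[K] (V2' ⊗[K] V1'))) :
    ∃ r ∈ Av v, r⁻¹ ∈ Av v ∧ r ≠ 0 ∧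
      sig (Matrix.det (Matrix.of fun i j => pairing D1 D2 D3 (g i).1 (f j).1)) =
        r * Matrix.det (Matrix.of fun i j => pairing D1 D2 D3 (g i).1 (f j).1) := by
  have hv0 := ne_zero_of_tr hvt
  have hv := zpow_ne_one_of_tr hvt
  obtain ⟨s, s', hs, hs', hk⟩ := pairing_sign hvt hsig hss c1 c2 c3 c1' c2' c3' hD1 hD2 hD3
  have htb : Submodule.span (Zm v) (Set.range t.B) =
      Submodule.span (Zm v) (Set.range (tbas c1 c2 c3)) := by
    rw [t.lattice]; congr 2; ext p; rw [tbas_apply]; rfl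
  have htb' : Submodule.span (Zm v) (Set.range t'.B) =
      Submodule.span (Zm v) (Set.range (tbas c3' c2' c1')) := by
    rw [t'.lattice]; congr 2; ext p; rw [tbas_apply]; rfl
  obtain ⟨cm, hcm, ha, hb, hc⟩ := inv_side hs hsig hss hv0 hv (tbas_wsp hv0 c1 c2 c3) t.B
    (span_Av_of_Zm htb) f hf (form3_nondeg hvt t)
  obtain ⟨cm', hcm', ha', hb', hc'⟩ := inv_side hs' hsig hss hv0 hv (tbas_wsp hv0 c3' c2' c1')
    t'.B (span_Av_of_Zm htb') g hg (form3_nondeg hvt t')
  -- a common constant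
  obtain ⟨k, hk1, hk2, hk3, hk4⟩ : ∃ k ∈ Av v, k⁻¹ ∈ Av v ∧ k ≠ 0 ∧ ∀ i j,
      pairing D1 D2 D3 (s' (g i).1) (s (f j).1) = k * sig (pairing D1 D2 D3 (g i).1 (f j).1) := by
    rcases Nat.eq_zero_or_pos m with hm | hm
    · subst hm
      exact ⟨1, one_mem _, by rw [inv_one]; exact one_mem _, one_ne_zero, fun i => i.elim0⟩
    · have hne : ((f ⟨0, hm⟩ : _) : V1 ⊗[K] (V2 ⊗[K] V3)) ≠ 0 := by
        intro h0
        exact f.ne_zero ⟨0, hm⟩ (Subtype.ext h0)
      obtain ⟨η, hη, hw⟩ := inv_wsp hv (tbas_wsp hv0 c1 c2 c3) (f ⟨0, hm⟩).2 hne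
      obtain ⟨k, hk1, hk2, hk3, hk4⟩ := hk η
      refine ⟨k, hk1, hk2, hk3, fun i j => hk4 _ ?_ _⟩
      intro i
      rw [((f j).2 i).2.2, hw i, zpow_zero, one_smul]
  set M : Matrix (Fin m) (Fin m) K :=
    Matrix.of fun i j => pairing D1 D2 D3 (g i).1 (f j).1 with hM
  have hmat : cm'.transpose * M * cm = k • M.map sig := by
    ext i j
    have h1 : k * sig (M i j) = pairing D1 D2 D3 (s' (g i).1) (s (f j).1) := (hk4 i j).symm
    rw [Matrix.smul_apply, Matrix.map_apply, smul_eq_mul, h1, hcm j, hcm' i, Matrix.mul_apply,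
      map_sum]
    refine Finset.sum_congr rfl fun l _ => ?_
    rw [map_smul, map_sum, LinearMap.sum_apply, Matrix.mul_apply, smul_eq_mul, mul_comm]
    congr 1
    refine Finset.sum_congr rfl fun p _ => ?_
    rw [map_smul, LinearMap.smul_apply, Matrix.transpose_apply, smul_eq_mul]
    rfl
  have hdet : cm'.det * M.det * cm.det = k ^ m * sig M.det := by
    have h1 := congrArg Matrix.det hmat
    rw [Matrix.det_mul, Matrix.det_mul, Matrix.det_transpose, Matrix.det_smul,
      Fintype.card_fin] at h1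
    rw [h1]
    congr 1
    exact (RingHom.map_det (sig : K →+* K) M).symm
  refine ⟨(k ^ m)⁻¹ * (cm'.det * cm.det), ?_, ?_, ?_, ?_⟩
  · rw [← inv_pow]
    exact mul_mem (pow_mem hk2 _) (mul_mem ha' ha)
  · rw [mul_inv, mul_inv, inv_inv]
    exact mul_mem (pow_mem hk1 _) (mul_mem hb' hb)
  · exact mul_ne_zero (inv_ne_zero (pow_ne_zero _ hk3)) (mul_ne_zero hc' hc)
  · have hkm : k ^ m ≠ 0 := pow_ne_zero _ hk3
    field_simp
    rw [mul_comm (sig M.det), ← hdet]
    ring

end final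

end Pool.Agent.Work.MP_8ad3a8_al
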