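import Mathlib
import Pool.Agent.Work.MP_8ad3a8_al.TBasic

set_option autoImplicit false
set_option linter.unusedSectionVars false
set_option linter.unusedVariables false

/-!
The matrix of invariant functionals on dual canonical invariants has a unit determinant in `RR v`.
-/

namespace Pool.Agent.Work.MP_8ad3a8_al

open TensorProduct Polynomial

section ring

variable {K : Type} [Field K] {v : K} {bar : K ≃+* K}

theorem RR_v : v ∈ RR v := Subring.subset_closure (Or.inl (by simp))
theorem RR_vinv : v⁻¹ ∈ RR v := Subring.subset_closure (Or.inl (by simp))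
theorem RR_vp1 : (v + 1)⁻¹ ∈ RR v := Subring.subset_closure (Or.inl (by simp))
theorem RR_qinv {n : ℤ} (hn : n ≠ 0) : (qint v n)⁻¹ ∈ RR v :=
  Subring.subset_closure (Or.inr ⟨n, hn, rfl⟩)

theorem RR_zpow (n : ℤ) : v ^ n ∈ RR v := by
  cases n with
  | ofNat n => rw [Int.ofNat_eq_natCast, zpow_natCast]; exact pow_mem RR_v n
  | negSucc n => rw [zpow_negSucc, ← inv_pow]; exact pow_mem RR_vinv _

theorem bar_qint_eq (hbar : bar v = v⁻¹) (n : ℤ) : bar (qint v n) = qint v n := by
  unfold qint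
  rw [map_div₀, map_sub, map_sub, map_zpow₀, map_zpow₀, map_inv₀, hbar, inv_inv, inv_zpow',
    inv_zpow', neg_neg, ← neg_sub (v ^ n), ← neg_sub v, neg_div_neg_eq]

/-- `bar r - r ∈ (v - 1) R` -/
theorem bar_sub_mem (hv0 : v ≠ 0) (hv1 : v + 1 ≠ 0) (hbar : bar v = v⁻¹) {r : K} (hr : r ∈ RR v) :
    ∃ s ∈ RR v, bar r - r = (v - 1) * s := by
  unfold RR at hr
  induction hr using Subring.closure_induction with
  | mem x hx =>
    rcases hx with hx | ⟨n, hn, rfl⟩
    · rcases hx with rfl | rfl | hx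
      · refine ⟨-((x + 1) * x⁻¹), neg_mem (mul_mem (add_mem RR_v (one_mem _)) RR_vinv), ?_⟩
        rw [hbar]; field_simp; ring
      · refine ⟨((v + 1) * v⁻¹), (mul_mem (add_mem RR_v (one_mem _)) RR_vinv), ?_⟩
        rw [map_inv₀, hbar]; field_simp; ring
      · rw [Set.mem_singleton_iff.1 hx]
        refine ⟨(v + 1)⁻¹, RR_vp1, ?_⟩
        have h1 : v⁻¹ + 1 ≠ 0 := by
          intro h
          apply hv1
          have := congrArg (fun t => v * t) h
          simp only [mul_add, mul_inv_cancel₀ hv0, mul_one, mul_zero] at this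
          rw [add_comm]; exact this
        rw [map_inv₀, map_add, map_one, hbar]
        field_simp
        rw [add_comm 1 v]
        field_simp
    · exact ⟨0, zero_mem _, by rw [map_inv₀, bar_qint_eq hbar]; ring⟩
  | zero => exact ⟨0, zero_mem _, by simp⟩
  | one => exact ⟨0, zero_mem _, by simp⟩
  | add x y _ _ hx hy =>
    obtain ⟨s, hs, h1⟩ := hx
    obtain ⟨t, ht, h2⟩ := hy
    exact ⟨s + t, add_mem hs ht, by rw [map_add, mul_add, ← h1, ← h2]; ring⟩
  | neg x _ hx =>
    obtain ⟨s, hs, h1⟩ := hx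
    exact ⟨-s, neg_mem hs, by rw [map_neg, mul_neg, ← h1]; ring⟩
  | mul x y hx0 hy0 hx hy =>
    obtain ⟨s, hs, h1⟩ := hx
    obtain ⟨t, ht, h2⟩ := hy
    have hx' : x ∈ RR v := hx0
    have hy' : y ∈ RR v := hy0
    refine ⟨(x + (v - 1) * s) * t + s * y, add_mem (mul_mem (add_mem hx' (mul_mem
      (sub_mem RR_v (one_mem _)) hs)) ht) (mul_mem hs hy'), ?_⟩
    have hbx : bar x = x + (v - 1) * s := by rw [← h1]; ring
    have hby : bar y = y + (v - 1) * t := by rw [← h2]; ring
    rw [map_mul, hbx, hby]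
    ring

theorem pow_sub_one_mem (hv1 : v - 1 ≠ 0) (n : ℕ) : (v ^ n - 1) / (v - 1) ∈ RR v := by
  have h : (v ^ n - 1) / (v - 1) = ∑ i ∈ Finset.range n, v ^ i := by
    rw [geom_sum_eq (sub_ne_zero.1 hv1)]
  rw [h]
  exact sum_mem fun i _ => pow_mem RR_v i

theorem zpow_sub_one_mem (hv0 : v ≠ 0) (hv1 : v - 1 ≠ 0) (n : ℤ) : (v ^ n - 1) / (v - 1) ∈ RR v := by
  rcases le_total 0 n with h | h
  · obtain ⟨m, rfl⟩ := Int.eq_ofNat_of_zero_le h
    rw [zpow_natCast]
    exact pow_sub_one_mem hv1 m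
  · obtain ⟨m, hm⟩ := Int.eq_ofNat_of_zero_le (neg_nonneg.2 h)
    have : (v ^ n - 1) / (v - 1) = -(v ^ n * ((v ^ m - 1) / (v - 1))) := by
      rw [← zpow_natCast v m, ← hm, zpow_neg, ← mul_div_assoc, mul_sub,
        mul_inv_cancel₀ (zpow_ne_zero _ hv0), ← neg_div]
      congr 1
      ring
    rw [this]
    exact neg_mem (mul_mem (RR_zpow n) (pow_sub_one_mem hv1 m))

theorem zpow_sub_one_inv_mem (hv0 : v ≠ 0) (hv : ∀ n : ℤ, n ≠ 0 → v ^ n ≠ 1) {n : ℤ} (hn : n ≠ 0) :
    ((v ^ n - 1) / (v - 1))⁻¹ ∈ RR v := by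
  have hv1 : v - 1 ≠ 0 := sub_ne_zero.2 (by simpa using hv 1 one_ne_zero)
  have hv2 : v + 1 ≠ 0 := by
    intro h
    apply hv 2 two_ne_zero
    have : v = -1 := by rw [← sub_eq_zero, sub_neg_eq_add, h]
    rw [this]; norm_num
  have hvv : v - v⁻¹ ≠ 0 := by
    intro h
    have : (v - 1) * (v + 1) = v * (v - v⁻¹) := by field_simp; ring
    rw [h, mul_zero] at this
    rcases mul_eq_zero.1 this with h | h
    exacts [hv1 h, hv2 h]
  have hn1 : v ^ n - 1 ≠ 0 := sub_ne_zero.2 (hv n hn)
  have hnn : v ^ n - v ^ (-n) ≠ 0 := by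
    intro h
    apply hv (2 * n) (by omega)
    have : v ^ n * (v ^ n - v ^ (-n)) = v ^ (2 * n) - 1 := by
      rw [mul_sub, ← zpow_add₀ hv0, ← zpow_add₀ hv0, add_neg_cancel, zpow_zero, two_mul]
    rw [h, mul_zero] at this
    rw [← sub_eq_zero, ← this]
  have : ((v ^ n - 1) / (v - 1))⁻¹ =
      (v ^ n + 1) * v ^ (-n) * (qint v n)⁻¹ * (v * (v + 1)⁻¹) := by
    unfold qint
    rw [inv_div, inv_div, div_eq_iff hn1, eq_comm]
    have h1 : (v - v⁻¹) * (v * (v + 1)⁻¹) = v - 1 := by
      field_simp; ring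
    have h2 : (v ^ n + 1) * v ^ (-n) * (v ^ n - 1) = v ^ n - v ^ (-n) := by
      rw [zpow_neg]
      have := zpow_ne_zero n hv0
      field_simp
      ring
    calc (v ^ n + 1) * v ^ (-n) * ((v - v⁻¹) / (v ^ n - v ^ (-n))) * (v * (v + 1)⁻¹) * (v ^ n - 1)
        = ((v ^ n + 1) * v ^ (-n) * (v ^ n - 1)) * ((v - v⁻¹) * (v * (v + 1)⁻¹)) /
          (v ^ n - v ^ (-n)) := by ring
      _ = v - 1 := by rw [h1, h2, mul_div_assoc, mul_comm, div_mul_cancel₀ _ hnn]
  rw [this]
  exact mul_mem (mul_mem (mul_mem (add_mem (RR_zpow n) (one_mem _)) (RR_zpow _)) (RR_qinv hn))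
    (mul_mem RR_v RR_vp1)

/-- `(v^a - v^b)/(v - 1)` is a unit of `R` -/
theorem zpow_sub_unit (hv0 : v ≠ 0) (hv : ∀ n : ℤ, n ≠ 0 → v ^ n ≠ 1) {a b : ℤ} (hab : a ≠ b) :
    (v - 1)⁻¹ * (v ^ a - v ^ b) ≠ 0 ∧ (v - 1)⁻¹ * (v ^ a - v ^ b) ∈ RR v ∧
      ((v - 1)⁻¹ * (v ^ a - v ^ b))⁻¹ ∈ RR v := by
  have hv1 : v - 1 ≠ 0 := sub_ne_zero.2 (by simpa using hv 1 one_ne_zero)
  have key : (v - 1)⁻¹ * (v ^ a - v ^ b) = v ^ b * ((v ^ (a - b) - 1) / (v - 1)) := by
    have : v ^ a = v ^ b * v ^ (a - b) := by rw [← zpow_add₀ hv0]; congr 1; ring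
    rw [this]; ring
  have hab' : a - b ≠ 0 := sub_ne_zero.2 hab
  rw [key]
  refine ⟨?_, mul_mem (RR_zpow _) (zpow_sub_one_mem hv0 hv1 _), ?_⟩
  · exact mul_ne_zero (zpow_ne_zero _ hv0) (div_ne_zero (sub_ne_zero.2 (hv _ hab')) hv1)
  · rw [mul_inv, ← zpow_neg]
    exact mul_mem (RR_zpow _) (zpow_sub_one_inv_mem hv0 hv hab')

end ring

section poly

variable {K : Type} [Field K] {W : Type} [AddCommGroup W] [Module K W]

theorem aeval_apply_of_eig {T : Module.End K W} {μ : K} {x : W} (hx : T x = μ • x) (p : K[X]) :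
    aeval T p x = eval μ p • x := by
  have hpow : ∀ n : ℕ, (T ^ n) x = μ ^ n • x := by
    intro n
    induction n with
    | zero => simp
    | succ n ih => rw [pow_succ', Module.End.mul_apply, ih, map_smul, hx, smul_smul, pow_succ]
  induction p using Polynomial.induction_on' with
  | add p q hp hq => rw [map_add, LinearMap.add_apply, hp, hq, eval_add, add_smul]
  | monomial n a =>
    rw [aeval_monomial, eval_monomial, Module.End.mul_apply, hpow, Module.algebraMap_end_apply,
      smul_smul]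

theorem dual_aeval_of_eig {T : Module.End K W} {μ : K} {φ : Module.Dual K W}
    (hφ : ∀ x, φ (T x) = μ * φ x) (p : K[X]) (x : W) :
    φ (aeval T p x) = eval μ p * φ x := by
  have hpow : ∀ n : ℕ, φ ((T ^ n) x) = μ ^ n * φ x := by
    intro n
    induction n with
    | zero => simp
    | succ n ih => rw [pow_succ', Module.End.mul_apply, hφ, ih, pow_succ]; ring
  induction p using Polynomial.induction_on' with
  | add p q hp hq => rw [map_add, LinearMap.add_apply, map_add, hp, hq, eval_add, add_mul]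
  | monomial n a =>
    rw [aeval_monomial, eval_monomial, Module.End.mul_apply]
    simp only [Module.algebraMap_end_apply, map_smul, smul_eq_mul, hpow]
    ring

theorem aeval_mem {T : Module.End K W} (N : Submodule K W) (hN : ∀ x ∈ N, T x ∈ N) (p : K[X])
    {x : W} (hx : x ∈ N) : aeval T p x ∈ N := by
  have hpow : ∀ n : ℕ, (T ^ n) x ∈ N := by
    intro n
    induction n with
    | zero => simpa
    | succ n ih => rw [pow_succ', Module.End.mul_apply]; exact hN _ ih
  induction p using Polynomial.induction_on' with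
  | add p q hp hq => rw [map_add, LinearMap.add_apply]; exact N.add_mem hp hq
  | monomial n a =>
    rw [aeval_monomial, Module.End.mul_apply, Module.algebraMap_end_apply]
    exact N.smul_mem _ (hpow n)

/-- the polynomial `∏ (c (X - θ))^n` -/
noncomputable def ppoly {ι : Type} (S : Finset ι) (c : K) (θ : ι → K) (n : ℕ) : K[X] :=
  ∏ η ∈ S, (Polynomial.C c * (X - Polynomial.C (θ η))) ^ n

theorem ppoly_eq {ι : Type} [DecidableEq ι] (S : Finset ι) (c : K) (θ : ι → K) (n : ℕ) {η : ι}
    (hη : η ∈ S) : ppoly S c θ n =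
      (Polynomial.C c * (X - Polynomial.C (θ η))) ^ n * ppoly (S.erase η) c θ n :=
  (Finset.mul_prod_erase S _ hη).symm

theorem aeval_pow_mul (T : Module.End K W) (c θ : K) (n : ℕ) (q : K[X]) (x : W) :
    aeval T ((Polynomial.C c * (X - Polynomial.C θ)) ^ n * q) x =
      c ^ n • ((T - θ • 1) ^ n) (aeval T q x) := by
  have h1 : aeval T (Polynomial.C c * (X - Polynomial.C θ)) = c • (T - θ • 1) := by
    rw [map_mul, map_sub, aeval_X, aeval_C, aeval_C, Algebra.algebraMap_eq_smul_one,
      Algebra.algebraMap_eq_smul_one, smul_mul_assoc, one_mul]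
  rw [map_mul, map_pow, h1, Module.End.mul_apply, _root_.smul_pow, LinearMap.smul_apply]

theorem eval_ppoly {ι : Type} (S : Finset ι) (c : K) (θ : ι → K) (n : ℕ) (μ : K) :
    eval μ (ppoly S c θ n) = ∏ η ∈ S, (c * (μ - θ η)) ^ n := by
  simp [ppoly, eval_prod]

theorem pow_ker {T : Module.End K W} [FiniteDimensional K W] {n : ℕ} {x : W}
    (h : (T ^ (n + Module.finrank K W)) x = 0) : (T ^ Module.finrank K W) x = 0 := by
  have := Module.End.ker_pow_eq_ker_pow_finrank_of_le (f := T)
    (m := n + Module.finrank K W) (by omega)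
  rw [← LinearMap.mem_ker, ← this, LinearMap.mem_ker, h]

end poly

section E

variable {I : Type} [Fintype I] [DecidableEq I] {K : Type} [Field K]
variable {C : Cartan I} {v : K} {bar : K ≃+* K}
variable {W : Type} [AddCommGroup W] [Module K W] {X : Ops I K W} {L : I → ℤ} {T : W →ₗ[K] W}

theorem T_wsp (hTK : ∀ i x, T (X.Kp i x) = X.Kp i (T x)) {κ : I → ℤ} {x : W}
    (hx : x ∈ wsp C v X L κ) : T x ∈ wsp C v X L κ := by
  intro i
  rw [← hTK, hx i, map_smul]

/-- `T (E_i x) = v^{h(κ - α_i) - h(κ)} E_i (T x)` -/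
theorem T_E_wsp (hv0 : v ≠ 0) (hr : IsRel C v X)
    (hTE : ∀ i x, T (X.E i x) = X.Kp i (X.E i (X.Kp i (T x))))
    (hTK : ∀ i x, T (X.Kp i x) = X.Kp i (T x))
    {κ : I → ℤ} {x : W} (hx : x ∈ wsp C v X L κ) (i : I) :
    T (X.E i x) = v ^ (hex C L (κ - sr i) - hex C L κ) • X.E i (T x) := by
  have h1 := T_wsp hTK hx
  have h2 := hr.E_wsp hv0 h1 i
  rw [hTE, h1 i, map_smul, map_smul, h2 i, smul_smul, ← zpow_add₀ hv0, wex_sub_sr]
  have h3 := hex_add_sr (C := C) L (κ - sr i) i
  rw [sub_add_cancel, wex_sub_sr, C.diag] at h3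
  congr 2
  rw [h3, C.diag]
  ring

theorem Ew_wsp (hv0 : v ≠ 0) (hr : IsRel C v X) {κ : I → ℤ} {x : W} (hx : x ∈ wsp C v X L κ)
    (w : List I) : Ew X w x ∈ wsp C v X L (κ - cw w) := by
  induction w with
  | nil => simpa using hx
  | cons i w ih =>
    rw [Ew_cons, cw_cons, ← sub_sub]
    exact hr.E_wsp hv0 ih i

theorem T_Ew_wsp (hv0 : v ≠ 0) (hr : IsRel C v X)
    (hTE : ∀ i x, T (X.E i x) = X.Kp i (X.E i (X.Kp i (T x))))
    (hTK : ∀ i x, T (X.Kp i x) = X.Kp i (T x))
    (w : List I) {κ : I → ℤ} {x : W} (hx : x ∈ wsp C v X L κ) :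
    T (Ew X w x) = v ^ (hex C L (κ - cw w) - hex C L κ) • Ew X w (T x) := by
  induction w with
  | nil => simp
  | cons i w ih =>
    rw [Ew_cons, T_E_wsp hv0 hr hTE hTK (Ew_wsp hv0 hr hx w) i, ih, map_smul, smul_smul,
      ← zpow_add₀ hv0, cw_cons, Ew_cons, ← sub_sub]
    congr 2
    ring

theorem Tpow_Ew_wsp (hv0 : v ≠ 0) (hr : IsRel C v X)
    (hTE : ∀ i x, T (X.E i x) = X.Kp i (X.E i (X.Kp i (T x))))
    (hTK : ∀ i x, T (X.Kp i x) = X.Kp i (T x))
    (w : List I) {κ : I → ℤ} (θ : K) (n : ℕ) {x : W} (hx : x ∈ wsp C v X L κ) :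
    ((T - (θ * v ^ (hex C L (κ - cw w) - hex C L κ)) • 1 : Module.End K W) ^ n) (Ew X w x) =
      (v ^ (hex C L (κ - cw w) - hex C L κ)) ^ n •
        Ew X w (((T - θ • 1 : Module.End K W) ^ n) x) := by
  induction n generalizing x with
  | zero => simp
  | succ n ih =>
    have h1 : (T - θ • 1 : Module.End K W) x ∈ wsp C v X L κ := by
      rw [LinearMap.sub_apply, LinearMap.smul_apply, Module.End.one_apply]
      exact Submodule.sub_mem _ (T_wsp hTK hx) (Submodule.smul_mem _ _ hx)
    have h2 : (T - (θ * v ^ (hex C L (κ - cw w) - hex C L κ)) • 1 : Module.End K W) (Ew X w x) =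
        v ^ (hex C L (κ - cw w) - hex C L κ) • Ew X w ((T - θ • 1 : Module.End K W) x) := by
      rw [LinearMap.sub_apply, LinearMap.smul_apply, Module.End.one_apply,
        T_Ew_wsp hv0 hr hTE hTK w hx, mul_comm θ, ← smul_smul, ← smul_sub, LinearMap.sub_apply,
        LinearMap.smul_apply, Module.End.one_apply, map_sub, map_smul]
    rw [pow_succ, Module.End.mul_apply, h2, map_smul, ih h1, smul_smul, ← pow_succ',
      pow_succ (T - θ • 1 : Module.End K W), Module.End.mul_apply]

variable {J : Type} [Fintype J] [DecidableEq J]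

theorem wsp_nonneg (hv0 : v ≠ 0) (hv : ∀ n : ℤ, n ≠ 0 → v ^ n ≠ 1) (wb : Module.Basis J K W)
    {dw : J → I → ℤ} (hdw : ∀ j i, 0 ≤ dw j i) (hwb : ∀ j, wb j ∈ wsp C v X L (dw j))
    {κ : I → ℤ} {x : W} (hx : x ∈ wsp C v X L κ) (hx0 : x ≠ 0) : ∀ i, 0 ≤ κ i := by
  have h1 : ∃ j, wb.repr x j ≠ 0 := by
    by_contra h
    push Not at h
    apply hx0
    apply wb.repr.injective
    ext j
    rw [h j]; simp
  obtain ⟨j, hj⟩ := h1
  have := (mem_wsp_iff_repr wb hv0 hv hwb κ x).1 hx j hj
  intro i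
  rw [← this]
  exact hdw j i

/-- the projection to the invariants: the image is killed by all `E i` -/
theorem P_sing (hv0 : v ≠ 0) (hv : ∀ n : ℤ, n ≠ 0 → v ^ n ≠ 1) (hr : IsRel C v X)
    (hTE : ∀ i x, T (X.E i x) = X.Kp i (X.E i (X.Kp i (T x))))
    (hTK : ∀ i x, T (X.Kp i x) = X.Kp i (T x))
    (hTs : ∀ η : I → ℤ, ∀ x ∈ wsp C v X L η, x ∈ X.sing →
      ∃ n : ℕ, ((T - (v ^ rho2 C η) • 1 : Module.End K W) ^ n) x = 0)
    (wb : Module.Basis J K W)
    {dw : J → I → ℤ} (hdw : ∀ j i, 0 ≤ dw j i) (hwb : ∀ j, wb j ∈ wsp C v X L (dw j))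
    {ν0 : I → ℤ} {S : Finset (I → ℤ)} (hS : ∀ η, η ∈ S ↔ (0 ≤ η ∧ η ≤ ν0) ∧ η ≠ ν0) (c : K)
    {x : W} (hx : x ∈ wsp C v X L ν0) :
    aeval T (ppoly S c (fun η => v ^ (rho2 C η + hex C L ν0 - hex C L η)) (Module.finrank K W)) x ∈
      X.sing := by
  classical
  have hfd : FiniteDimensional K W := wb.finiteDimensional_of_finite
  set θ : (I → ℤ) → K := fun η => v ^ (rho2 C η + hex C L ν0 - hex C L η) with hθ
  set n0 := Module.finrank K W with hn0
  set x1 := aeval T (ppoly S c θ n0) x with hx1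
  have hmem : ∀ p : K[X], aeval T p x ∈ wsp C v X L ν0 := fun p =>
    aeval_mem _ (fun y hy => T_wsp hTK hy) p hx
  -- all words of positive length kill `x1`
  have key : ∀ k : ℕ, ∀ w : List I, (hgt ν0).toNat + 1 ≤ w.length + k → w ≠ [] →
      Ew X w x1 = 0 := by
    intro k
    induction k with
    | zero =>
      intro w hw _
      by_contra hne
      have h1 := wsp_nonneg hv0 hv wb hdw hwb (Ew_wsp hv0 hr (hmem _) w) hne
      have h2 : 0 ≤ hgt (ν0 - cw w) := Finset.sum_nonneg fun i _ => h1 i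
      have h3 : hgt (ν0 - cw w) = hgt ν0 - w.length := by
        have : ∀ w : List I, hgt (cw w) = w.length := by
          intro w
          induction w with
          | nil => simp [hgt]
          | cons i w ih => rw [cw_cons, hgt_add, ih, hgt_sr]; simp
        have h4 := hgt_add (ν0 - cw w) (cw w)
        rw [sub_add_cancel, this] at h4
        omega
      omega
    | succ k ih =>
      intro w hw hw0
      by_contra hne
      have hη := wsp_nonneg hv0 hv wb hdw hwb (Ew_wsp hv0 hr (hmem _) w) hne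
      have hηS : ν0 - cw w ∈ S := by
        rw [hS]
        refine ⟨⟨hη, ?_⟩, ?_⟩
        · intro i
          simp [cw]
        · intro h
          have h5 : cw w = 0 := by
            have := congrArg (fun f => ν0 - f) h
            simpa using this
          cases w with
          | nil => exact hw0 rfl
          | cons i w =>
            have := congrFun h5 i
            simp [cw] at this
            omega
      have hsing : Ew X w x1 ∈ X.sing := by
        intro i
        have := ih (i :: w) (by simp; omega) (by simp)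
        rwa [Ew_cons] at this
      obtain ⟨n, hn⟩ := hTs _ _ (Ew_wsp hv0 hr (hmem _) w) hsing
      -- rewrite `x1`
      set x2 := aeval T (ppoly (S.erase (ν0 - cw w)) c θ n0) x with hx2
      have h6 : x1 = c ^ n0 • ((T - (θ (ν0 - cw w)) • 1 : Module.End K W) ^ n0) x2 := by
        rw [hx1, ppoly_eq S c θ n0 hηS, aeval_pow_mul]
      have h7 := Tpow_Ew_wsp (T := T) hv0 hr hTE hTK w (θ (ν0 - cw w)) n0
        (hmem (ppoly (S.erase (ν0 - cw w)) c θ n0))
      have h8 : θ (ν0 - cw w) * v ^ (hex C L (ν0 - cw w) - hex C L ν0) =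
          v ^ rho2 C (ν0 - cw w) := by
        rw [hθ]
        simp only
        rw [← zpow_add₀ hv0]
        congr 1
        ring
      rw [h8, ← hx2] at h7
      set s := v ^ (hex C L (ν0 - cw w) - hex C L ν0) with hs
      have hs0 : s ≠ 0 := zpow_ne_zero _ hv0
      have h9 : Ew X w x1 = (c ^ n0 * (s ^ n0)⁻¹) •
          ((T - (v ^ rho2 C (ν0 - cw w)) • 1 : Module.End K W) ^ n0) (Ew X w x2) := by
        rw [h7, smul_smul, mul_assoc, inv_mul_cancel₀ (pow_ne_zero _ hs0), mul_one, h6, map_smul]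
      have h10 : ((T - (v ^ rho2 C (ν0 - cw w)) • 1 : Module.End K W) ^ (n + n0))
          ((c ^ n0 * (s ^ n0)⁻¹) • Ew X w x2) = 0 := by
        rw [pow_add, Module.End.mul_apply, map_smul, ← h9, hn]
      have h11 := pow_ker h10
      rw [map_smul, ← hn0, ← h9] at h11
      exact hne h11
  intro i
  have := key ((hgt ν0).toNat) [i] (by simp [add_comm]) (List.cons_ne_nil _ _)
  simpa using this

theorem zp_aux (u : K) (hu0 : u ≠ 0) (r : ℤ) : u ^ (r + 1) = u ^ r * u ∧
    u ^ (r + 2) = u ^ r * u ^ 2 ∧ u ^ (r + 1 + 1) = u ^ r * u ^ 2 ∧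
    u ^ (r + 1 + 2) = u ^ r * u ^ 3 ∧ u ^ (2 * (r + 2)) = (u ^ r) ^ 2 * u ^ 4 := by
  have f2 : u ^ (r + 2) = u ^ r * u ^ 2 := by
    rw [zpow_add₀ hu0, zpow_ofNat]
  refine ⟨by rw [zpow_add₀ hu0, zpow_one], f2, ?_, ?_, ?_⟩
  · rw [← f2]; congr 1; ring
  · rw [add_assoc, zpow_add₀ hu0]; norm_num
  · have : u ^ (2 * (r + 2)) = u ^ (r * 2) * u ^ (4 : ℤ) := by
      rw [← zpow_add₀ hu0]; congr 1; ring
    rw [this, zpow_mul, zpow_ofNat, zpow_ofNat]

/-- a singular vector of weight `0` is killed by all `F i` -/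
theorem F_of_sing (hv0 : v ≠ 0) (hv : ∀ n : ℤ, n ≠ 0 → v ^ n ≠ 1) (hr : IsRel C v X)
    (wb : Module.Basis J K W)
    {dw : J → I → ℤ} (hdw : ∀ j i, 0 ≤ dw j i) (hwb : ∀ j, wb j ∈ wsp C v X L (dw j))
    {ν0 : I → ℤ} (hν0 : ∀ i, wex C L ν0 i = 0)
    {x : W} (hx : x ∈ wsp C v X L ν0) (hs : x ∈ X.sing) (i : I) : X.F i x = 0 := by
  by_contra hne
  set z := X.F i x with hz
  have hzw : ∀ r : ℕ, (X.F i ^ r) z ∈ wsp C v X L (ν0 + ((r : ℤ) + 1) • sr i) := by
    intro r
    induction r with
    | zero => simpa using hr.F_wsp hv0 hx i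
    | succ r ih =>
      rw [pow_succ', Module.End.mul_apply]
      have := hr.F_wsp hv0 ih i
      convert this using 2
      rw [add_assoc]
      congr 1
      push_cast
      rw [add_smul ((r : ℤ) + 1) 1 (sr i), one_smul]
  have hwex : ∀ r : ℤ, wex C L (ν0 + r • sr i) i = -(2 * r * C.d i) := by
    intro r
    have h1 := wex_eq (C := C) L (ν0 + r • sr i) i
    have h2 := wex_eq (C := C) L ν0 i
    rw [hν0, ip_comm] at h2
    have h3 : ip C (r • sr i) (sr i) = r * (2 * C.d i) := by
      rw [← ip_sr_sr i]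
      unfold ip
      rw [Finset.mul_sum]
      apply Finset.sum_congr rfl
      intro a _
      rw [Finset.mul_sum]
      apply Finset.sum_congr rfl
      intro b _
      simp only [Pi.smul_apply, smul_eq_mul]
      ring
    rw [ip_comm, ip_add_left, h3] at h1
    rw [h1]
    linarith
  -- `E F^{r+1} z` is a nonzero multiple of `F^r z`
  set u := v ^ C.d i with hu
  have hu0 : u ≠ 0 := zpow_ne_zero _ hv0
  have hd := C.d_pos i
  have hun : ∀ n : ℤ, n ≠ 0 → u ^ n - u ^ (-n) ≠ 0 := by
    intro n hn h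
    apply hv (C.d i * (2 * n)) (mul_ne_zero hd.ne' (by omega))
    rw [zpow_mul, ← hu]
    have : u ^ n * (u ^ n - u ^ (-n)) = u ^ (2 * n) - 1 := by
      rw [mul_sub, ← zpow_add₀ hu0, ← zpow_add₀ hu0, add_neg_cancel, zpow_zero, two_mul]
    rw [h, mul_zero] at this
    rw [← sub_eq_zero, ← this]
  have hu1 : u - u⁻¹ ≠ 0 := by
    have := hun 1 one_ne_zero
    rwa [zpow_one, zpow_neg_one] at this
  have hEF : ∀ r : ℕ, (u - u⁻¹) ^ 2 • X.E i ((X.F i ^ (r + 1)) z) =
      -((u ^ ((r : ℤ) + 1) - u ^ (-((r : ℤ) + 1))) * (u ^ ((r : ℤ) + 2) - u ^ (-((r : ℤ) + 2)))) •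
        (X.F i ^ r) z := by
    intro r
    induction r with
    | zero =>
      have hz0 : X.E i z = 0 := by
        rw [hz, hr.EF_wsp hv0 hv hx i i, hs i, map_zero, hν0]
        simp
      have h1 := hr.EF_wsp hv0 hv (hzw 0) i i
      rw [if_pos rfl, pow_zero, Module.End.one_apply, hz0, map_zero, zero_add, hwex] at h1
      rw [zero_add, pow_one, h1, pow_zero, Module.End.one_apply, smul_smul]
      congr 1
      have e1 : v ^ (-(2 * ((((0 : ℕ) : ℤ) + 1)) * C.d i)) = u ^ (-2 : ℤ) := by
        rw [hu, ← zpow_mul]; congr 1; push_cast; ring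
      have e2 : v ^ (-(-(2 * ((((0 : ℕ) : ℤ) + 1)) * C.d i))) = u ^ (2 : ℤ) := by
        rw [hu, ← zpow_mul]; congr 1; push_cast; ring
      rw [e1, e2, ← hu, zpow_neg v, ← hu]
      field_simp
      simp only [Nat.cast_zero, zero_add, zpow_neg, zpow_ofNat]
      field_simp
      ring
    | succ r ih =>
      have h1 := hr.EF_wsp hv0 hv (hzw (r + 1)) i i
      rw [if_pos rfl, hwex] at h1
      rw [pow_succ' (X.F i) (r + 1), Module.End.mul_apply, h1, smul_add, ← map_smul, ih, map_smul,
        ← Module.End.mul_apply (X.F i), ← pow_succ', smul_smul, ← add_smul]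
      congr 1
      have e1 : v ^ (-(2 * ((((r + 1 : ℕ) : ℤ) + 1)) * C.d i)) = u ^ (-(2 * ((r : ℤ) + 2))) := by
        rw [hu, ← zpow_mul]; congr 1; push_cast; ring
      have e2 : v ^ (-(-(2 * ((((r + 1 : ℕ) : ℤ) + 1)) * C.d i))) = u ^ (2 * ((r : ℤ) + 2)) := by
        rw [hu, ← zpow_mul]; congr 1; push_cast; ring
      rw [e1, e2, ← hu, zpow_neg v, ← hu]
      have hur := zpow_ne_zero (r : ℤ) hu0
      push_cast
      set U := u ^ (r : ℤ) with hU
      obtain ⟨f1, f2, f3, f4, f5⟩ := zp_aux u hu0 (r : ℤ)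
      rw [← hU] at f1 f2 f3 f4 f5
      rw [zpow_neg, zpow_neg, zpow_neg, zpow_neg, zpow_neg, f1, f2, f3, f4, f5]
      field_simp
      ring
  -- all `F^r z` are nonzero
  have hall : ∀ r : ℕ, (X.F i ^ r) z ≠ 0 := by
    intro r
    induction r with
    | zero => simpa using hne
    | succ r ih =>
      intro h0
      have h1 := hEF r
      rw [h0, map_zero, smul_zero] at h1
      rcases smul_eq_zero.1 h1.symm with h2 | h2
      · rw [neg_eq_zero] at h2
        rcases mul_eq_zero.1 h2 with h3 | h3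
        · exact hun ((r : ℤ) + 1) (by omega) h3
        · exact hun ((r : ℤ) + 2) (by omega) h3
      · exact ih h2
  -- but depths are bounded
  have hb : ∀ r : ℕ, ∃ j, dw j = ν0 + ((r : ℤ) + 1) • sr i := by
    intro r
    have h1 : ∃ j, wb.repr ((X.F i ^ r) z) j ≠ 0 := by
      by_contra h
      push Not at h
      apply hall r
      apply wb.repr.injective
      ext j
      rw [h j]; simp
    obtain ⟨j, hj⟩ := h1
    exact ⟨j, (mem_wsp_iff_repr wb hv0 hv hwb _ _).1 (hzw r) j hj⟩
  choose g hg using hb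
  have hginj : Function.Injective g := by
    intro r s h
    have h1 := congrFun ((hg r).symm.trans ((congrArg dw h).trans (hg s))) i
    simp [sr] at h1
    exact h1
  exact not_injective_infinite_finite g hginj

end E

section lattice

variable {I : Type} [Fintype I] [DecidableEq I] {K : Type} [Field K]
variable {C : Cartan I} {v : K} {bar : K ≃+* K}
variable {W : Type} [AddCommGroup W] [Module K W]
variable {J' : Type} [Fintype J'] [DecidableEq J']

theorem RR_smul {N : Submodule (RR v) W} {r : K} (hr : r ∈ RR v) {x : W} (hx : x ∈ N) :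
    r • x ∈ N := N.smul_mem ⟨r, hr⟩ hx

theorem exists_rep [FiniteDimensional K W] {form : LinearMap.BilinForm K W}
    (hn : ∀ x, (∀ y, form x y = 0) → x = 0) (φ : Module.Dual K W) :
    ∃ z, ∀ x, φ x = form z x := by
  have hinj : Function.Injective (form : W →ₗ[K] Module.Dual K W) := by
    rw [injective_iff_map_eq_zero]
    intro x hx
    exact hn x fun y => by rw [hx]; rfl
  have hsurj : Function.Surjective (form : W →ₗ[K] Module.Dual K W) :=
    (LinearMap.injective_iff_surjective_of_finrank_eq_finrank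
      (Subspace.dual_finrank_eq).symm).1 hinj
  obtain ⟨z, hz⟩ := hsurj φ
  exact ⟨z, fun x => by rw [hz]⟩

theorem det_mem {n : Type} [Fintype n] [DecidableEq n] {R : Subring K} (M : Matrix n n K)
    (h : ∀ i j, M i j ∈ R) : M.det ∈ R := by
  let M' : Matrix n n R := Matrix.of fun i j => ⟨M i j, h i j⟩
  have : M.det = R.subtype M'.det := by
    rw [RingHom.map_det]
    congr 1
  rw [this]
  exact M'.det.2

theorem adj_mem {n : Type} [Fintype n] [DecidableEq n] {R : Subring K} (M : Matrix n n K)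
    (h : ∀ i j, M i j ∈ R) (i j : n) : M.adjugate i j ∈ R := by
  let M' : Matrix n n R := Matrix.of fun i j => ⟨M i j, h i j⟩
  have h1 : M = R.subtype.mapMatrix M' := by
    ext i j
    rfl
  have : M.adjugate i j = R.subtype (M'.adjugate i j) := by
    rw [h1, ← RingHom.map_adjugate]
    rfl
  rw [this]
  exact (M'.adjugate i j).2

/-- the dual basis of a basis whose Gram matrix is invertible over `R` -/
theorem exists_dual {form : LinearMap.BilinForm K W} (hsymm : ∀ x y, form x y = form y x)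
    (hn : ∀ x, (∀ y, form x y = 0) → x = 0) (B : Module.Basis J' K W)
    (hG : ∀ i j, form (B i) (B j) ∈ RR v)
    (hGu : (Matrix.det (Matrix.of fun i j => form (B i) (B j)))⁻¹ ∈ RR v) :
    ∃ (Bs : J' → W) (Cm : J' → J' → K), (∀ i j, Cm i j ∈ RR v) ∧
      (∀ j, Bs j = ∑ i, Cm i j • B i) ∧
      (∀ j k, form (Bs j) (B k) = if j = k then 1 else 0) := by
  set G : Matrix J' J' K := Matrix.of fun i j => form (B i) (B j) with hGdef
  have hdet : G.det ≠ 0 := by
    intro h0
    obtain ⟨w, hw, hw'⟩ := Matrix.exists_vecMul_eq_zero_iff.2 h0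
    apply hw
    have h1 : ∑ i, w i • B i = 0 := by
      apply hn
      intro y
      have h2 : form (∑ i, w i • B i) = 0 := by
        apply B.ext
        intro k
        have h3 := congrFun hw' k
        rw [Matrix.vecMul, dotProduct] at h3
        rw [map_sum, LinearMap.sum_apply]
        simpa [hGdef] using h3
      rw [h2]; rfl
    funext i
    have h3 := congrArg (fun x => B.repr x i) h1
    simpa [Finsupp.single_apply] using h3
  set Cm : J' → J' → K := fun i j => G⁻¹ i j with hCm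
  refine ⟨fun j => ∑ i, Cm i j • B i, Cm, ?_, fun _ => rfl, ?_⟩
  · intro i j
    rw [hCm]
    simp only [Matrix.inv_def, Matrix.smul_apply, smul_eq_mul]
    rw [Ring.inverse_eq_inv']
    exact mul_mem hGu (adj_mem G (fun i j => hG i j) i j)
  · intro j k
    rw [map_sum, LinearMap.sum_apply]
    have h1 : (G * G⁻¹) k j = (1 : Matrix J' J' K) k j := by
      rw [Matrix.mul_nonsing_inv _ (isUnit_iff_ne_zero.2 hdet)]
    rw [Matrix.mul_apply, Matrix.one_apply] at h1
    rw [show (if j = k then (1 : K) else 0) = if k = j then 1 else 0 by simp [eq_comm], ← h1]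
    apply Finset.sum_congr rfl
    intro i _
    rw [map_smul, LinearMap.smul_apply, smul_eq_mul, hsymm, mul_comm]
    rfl

/-- `(v - 1)⁻¹ (T - v^e)` preserves the lattice -/
theorem T_lattice (hv0 : v ≠ 0) (hv : ∀ n : ℤ, n ≠ 0 → v ^ n ≠ 1)
    (hbb : ∀ r, bar (bar r) = r) (hbar : bar v = v⁻¹) {X : Ops I K W}
    {psi : W →+ W} (hp : IsBar bar X psi) {form : LinearMap.BilinForm K W}
    (hform : IsForm C v X form) (hn : ∀ x, (∀ y, form x y = 0) → x = 0)
    {T : W →ₗ[K] W} (hT : IsT bar psi form T)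
    (B : Module.Basis J' K W) (hpB : ∀ j, psi (B j) = B j)
    (hG : ∀ i j, form (B i) (B j) ∈ RR v)
    (hGu : (Matrix.det (Matrix.of fun i j => form (B i) (B j)))⁻¹ ∈ RR v) (e : ℤ)
    {x : W} (hx : x ∈ Submodule.span (RR v) (Set.range B)) :
    (v - 1)⁻¹ • (T x - v ^ e • x) ∈ Submodule.span (RR v) (Set.range B) := by
  have hv1 : v - 1 ≠ 0 := sub_ne_zero.2 (by simpa using hv 1 one_ne_zero)
  have hv2 : v + 1 ≠ 0 := by
    intro h
    apply hv 2 two_ne_zero
    have : v = -1 := by rw [← sub_eq_zero, sub_neg_eq_add, h]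
    rw [this]; norm_num
  obtain ⟨Bs, Cm, hCm, hBs, hdual⟩ := exists_dual hform.symm hn B hG hGu
  have hB : ∀ k, B k ∈ Submodule.span (RR v) (Set.range B) := fun k =>
    Submodule.subset_span ⟨k, rfl⟩
  have hTB : ∀ j, T (Bs j) = ∑ i, bar (Cm i j) • B i := by
    intro j
    have h1 : T (Bs j) = psi (Bs j) := by
      apply hT.uniq hp hn
      have h2 : form (Bs j) = B.coord j := by
        apply B.ext
        intro k
        rw [hdual, B.coord_apply, B.repr_self, Finsupp.single_apply]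
        simp [eq_comm]
      intro y
      rw [h2]
      have h3 : ∀ y : W, psi y = ∑ k, bar (B.repr y k) • B k := by
        intro y
        conv_lhs => rw [← B.sum_repr y]
        rw [map_sum]
        exact Finset.sum_congr rfl fun k _ => by rw [hp.smul, hpB]
      rw [h3, B.coord_apply, B.coord_apply]
      simp [Finsupp.single_apply, hbb]
    rw [h1, hBs, map_sum]
    exact Finset.sum_congr rfl fun k _ => by rw [hp.smul, hpB]
  have hBk : ∀ k, B k = ∑ j, form (B k) (B j) • Bs j := by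
    intro k
    apply form_uniq hn
    intro y
    have : form (B k) = form (∑ j, form (B k) (B j) • Bs j) := by
      apply B.ext
      intro l
      rw [map_sum, LinearMap.sum_apply]
      simp [hdual]
    rw [← this]
  have h1 : ∀ x ∈ Submodule.span (RR v) (Set.range B),
      (v - 1)⁻¹ • (T x - x) ∈ Submodule.span (RR v) (Set.range B) := by
    intro x hx
    induction hx using Submodule.span_induction with
    | mem x hx =>
      obtain ⟨k, rfl⟩ := hx
      have h2 : (v - 1)⁻¹ • (T (B k) - B k) = ∑ j, form (B k) (B j) •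
          ∑ i, ((v - 1)⁻¹ * (bar (Cm i j) - Cm i j)) • B i := by
        have h3 : T (B k) - B k = ∑ j, form (B k) (B j) • (T (Bs j) - Bs j) := by
          conv_lhs => rw [hBk k]
          rw [map_sum, ← Finset.sum_sub_distrib]
          apply Finset.sum_congr rfl
          intro j _
          rw [map_smul, smul_sub]
        rw [h3, Finset.smul_sum]
        apply Finset.sum_congr rfl
        intro j _
        rw [smul_comm, hTB, hBs, ← Finset.sum_sub_distrib, Finset.smul_sum]
        congr 1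
        apply Finset.sum_congr rfl
        intro i _
        rw [← sub_smul, smul_smul]
      rw [h2]
      refine Submodule.sum_mem _ fun j _ => RR_smul (hG _ _) (Submodule.sum_mem _ fun i _ =>
        RR_smul ?_ (hB i))
      obtain ⟨s, hs, hs'⟩ := bar_sub_mem hv0 hv2 hbar (hCm i j)
      rw [hs', ← mul_assoc, inv_mul_cancel₀ hv1, one_mul]
      exact hs
    | zero => simp
    | add x y _ _ hx hy =>
      have : (v - 1)⁻¹ • (T (x + y) - (x + y)) =
          (v - 1)⁻¹ • (T x - x) + (v - 1)⁻¹ • (T y - y) := by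
        rw [map_add, ← smul_add]; congr 1; abel
      rw [this]
      exact Submodule.add_mem _ hx hy
    | smul a x _ hx =>
      have : (v - 1)⁻¹ • (T (a • x) - a • x) = (a : K) • ((v - 1)⁻¹ • (T x - x)) := by
        rw [Subring.smul_def, map_smul, smul_comm (a : K), smul_sub (a : K)]
      rw [this]
      exact RR_smul a.2 hx
  have h4 : (v - 1)⁻¹ • (T x - v ^ e • x) =
      (v - 1)⁻¹ • (T x - x) + (-((v ^ e - 1) / (v - 1))) • x := by
    rw [div_eq_inv_mul, ← mul_neg, ← smul_smul, ← smul_add, neg_smul, sub_smul, one_smul]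
    congr 1
    abel
  rw [h4]
  exact Submodule.add_mem _ (h1 x hx) (RR_smul (neg_mem (zpow_sub_one_mem hv0 hv1 e)) hx)

theorem lp_eq_ip {L ν0 : I → ℤ} (h : ∀ i, wex C L ν0 i = 0) (κ : I → ℤ) :
    lp C L κ = ip C κ ν0 := by
  unfold lp ip
  apply Finset.sum_congr rfl
  intro i _
  have h1 := h i
  unfold wex at h1
  rw [← Finset.sum_congr rfl fun j _ => (mul_assoc (κ i) (C.d i * C.a i j) (ν0 j)).symm,
    ← Finset.mul_sum, ← sub_eq_zero.1 h1]
  ring

theorem exp_ne {L ν0 : I → ℤ} (h : ∀ i, wex C L ν0 i = 0) {η : I → ℤ} (hη : η ≤ ν0)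
    (hne : η ≠ ν0) : rho2 C ν0 ≠ rho2 C η + hex C L ν0 - hex C L η := by
  obtain ⟨κ, rfl⟩ : ∃ κ, ν0 = κ + η := ⟨ν0 - η, by simp⟩
  have hκ0 : κ ≠ 0 := by
    rintro rfl
    simp at hne
  have hκ : ∀ i, 0 ≤ κ i := by
    intro i
    have := hη i
    simp only [Pi.add_apply] at this
    omega
  have h1 := C.pos κ hκ0
  have h2 : 0 ≤ rho2 C κ := by
    unfold rho2
    apply Finset.sum_nonneg
    intro i _
    have := C.d_pos i
    have := hκ i
    positivity
  change 0 < ip C κ κ at h1
  have h3 : hex C L (κ + η) = - (ip C κ κ + 2 * ip C κ η + ip C η η) := by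
    unfold hex
    rw [lp_eq_ip h, ip_add_left, ip_add_right, ip_add_right, ip_comm η κ]
    ring
  have h4 : hex C L η = - ip C η η - 2 * ip C κ η := by
    unfold hex
    rw [lp_eq_ip h, ip_add_right, ip_comm η κ]
    ring
  rw [rho2_add, h3, h4]
  omega

/-- module U -/
theorem unit_det [CharZero K] (hvt : Transcendental ℚ v) (hbb : ∀ r, bar (bar r) = r)
    (hbar : bar v = v⁻¹)
    {W : Type} [AddCommGroup W] [Module K W] {X : Ops I K W} (hr : IsRel C v X) (L : I → ℤ)
    {psi : W →+ W} (hp : IsBar bar X psi) {form : LinearMap.BilinForm K W}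
    (hform : IsForm C v X form) (hn : ∀ x, (∀ y, form x y = 0) → x = 0)
    {T : W →ₗ[K] W} (hT : IsT bar psi form T)
    (hTs : ∀ η : I → ℤ, ∀ x ∈ wsp C v X L η, x ∈ X.sing →
      ∃ n : ℕ, ((T - (v ^ rho2 C η) • 1 : Module.End K W) ^ n) x = 0)
    (hTi : ∀ η : I → ℤ, ∀ x ∈ wsp C v X L η, x ∈ X.inv → T x = v ^ rho2 C η • x)
    {J J' : Type} [Fintype J] [DecidableEq J] [Fintype J'] [DecidableEq J']
    (wb : Module.Basis J K W) (dw : J → I → ℤ) (hdw : ∀ j i, 0 ≤ dw j i)
    (hwb : ∀ j, wb j ∈ wsp C v X L (dw j))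
    (B : Module.Basis J' K W) (hpB : ∀ j, psi (B j) = B j)
    (hspan : Submodule.span (RR v) (Set.range B) = Submodule.span (RR v) (Set.range wb))
    (hG : ∀ i j, form (B i) (B j) ∈ RR v)
    (hGu : (Matrix.det (Matrix.of fun i j => form (B i) (B j)))⁻¹ ∈ RR v)
    {m : ℕ} (f : Module.Basis (Fin m) K X.inv)
    (hf : ∀ j, ∃ j0, ∀ j', form (f j : W) (B j') = if j' = j0 then 1 else 0)
    (φ : Fin m → Module.Dual K W) (hφE : ∀ a i x, φ a (X.E i x) = 0)
    (hφF : ∀ a i x, φ a (X.F i x) = 0) (hφK : ∀ a i x, φ a (X.Kp i x) = φ a x)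
    (hφR : ∀ a j, φ a (B j) ∈ RR v)
    (y : Fin m → W) (hy : ∀ a, y a ∈ Submodule.span (RR v) (Set.range B))
    (hφy : ∀ a b, φ a (y b) = if a = b then 1 else 0) :
    Matrix.det (Matrix.of fun a j => φ a (f j : W)) ≠ 0 ∧
    Matrix.det (Matrix.of fun a j => φ a (f j : W)) ∈ RR v ∧
    (Matrix.det (Matrix.of fun a j => φ a (f j : W)))⁻¹ ∈ RR v := by
  classical
  have hv0 : v ≠ 0 := ne_zero_of_tr hvt
  have hv := zpow_ne_one_of_tr hvt
  have hfd : FiniteDimensional K W := wb.finiteDimensional_of_finite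
  rcases Nat.eq_zero_or_pos m with rfl | hm
  · simp [one_mem]
  have hTE := hT.E hv0 hbb hbar hr hp hform hn
  have hTK := hT.Kp hv0 hbb hbar hr hp hform hn
  have hTsymm := fun x y => hT.symm hbb hp hform hn x y
  -- the depth of weight zero
  obtain ⟨ν0, hν0, hν0p⟩ : ∃ ν0 : I → ℤ, (∀ i, wex C L ν0 i = 0) ∧ ∀ i, 0 ≤ ν0 i := by
    set x : W := (f ⟨0, hm⟩ : W) with hx
    have hx0 : x ≠ 0 := by
      intro h
      exact f.ne_zero ⟨0, hm⟩ (Subtype.ext h)
    have hxi : x ∈ X.inv := (f ⟨0, hm⟩).2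
    have h1 : ∃ j, wb.repr x j ≠ 0 := by
      by_contra h
      push Not at h
      apply hx0
      apply wb.repr.injective
      ext j
      rw [h j]; simp
    obtain ⟨j, hj⟩ := h1
    refine ⟨dw j, fun i => ?_, hdw j⟩
    -- compare coordinates
    have h2 : ∀ x : W, wb.repr (X.Kp i x) j = v ^ wex C L (dw j) i * wb.repr x j := by
      intro x
      have : (wb.coord j) ∘ₗ X.Kp i = v ^ wex C L (dw j) i • wb.coord j := by
        apply wb.ext
        intro k
        rw [LinearMap.comp_apply, hwb k i, map_smul, LinearMap.smul_apply, wb.coord_apply,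
          wb.repr_self, Finsupp.single_apply]
        by_cases hk : k = j
        · subst hk; rfl
        · simp [hk]
      exact LinearMap.congr_fun this x
    have h3 := h2 x
    rw [(hxi i).2.2] at h3
    by_contra hw
    apply hv _ hw
    exact mul_right_cancel₀ hj (by rw [one_mul]; exact h3.symm)
  have hinvw : ∀ x ∈ X.inv, x ∈ wsp C v X L ν0 := fun x hx i => by
    rw [(hx i).2.2, hν0, zpow_zero, one_smul]
  set S : Finset (I → ℤ) := (Finset.Icc 0 ν0).erase ν0 with hSdef
  have hS : ∀ η, η ∈ S ↔ (0 ≤ η ∧ η ≤ ν0) ∧ η ≠ ν0 := by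
    intro η
    rw [hSdef, Finset.mem_erase, Finset.mem_Icc, and_comm]
  set θ : (I → ℤ) → K := fun η => v ^ (rho2 C η + hex C L ν0 - hex C L η) with hθ
  set c : K := (v - 1)⁻¹ with hc
  set n0 := Module.finrank K W with hn0
  set pp := ppoly S c θ n0 with hpp
  -- the lattice
  have hB : ∀ k, B k ∈ Submodule.span (RR v) (Set.range B) := fun k =>
    Submodule.subset_span ⟨k, rfl⟩
  have hPlat : ∀ x ∈ Submodule.span (RR v) (Set.range B),
      aeval T pp x ∈ Submodule.span (RR v) (Set.range B) := by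
    have hfac : ∀ η, ∀ x ∈ Submodule.span (RR v) (Set.range B),
        aeval T (Polynomial.C c * (Polynomial.X - Polynomial.C (θ η)) : K[X]) x ∈
          Submodule.span (RR v) (Set.range B) := by
      intro η x hx
      have h1 := T_lattice hv0 hv hbb hbar hp hform hn hT B hpB hG hGu
        (rho2 C η + hex C L ν0 - hex C L η) hx
      convert h1 using 1
      rw [map_mul, map_sub, aeval_X, aeval_C, aeval_C, Module.End.mul_apply,
        Module.algebraMap_end_apply, LinearMap.sub_apply, Module.algebraMap_end_apply]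
    have hpow : ∀ η (n : ℕ), ∀ x ∈ Submodule.span (RR v) (Set.range B),
        aeval T ((Polynomial.C c * (Polynomial.X - Polynomial.C (θ η))) ^ n : K[X]) x ∈
          Submodule.span (RR v) (Set.range B) := by
      intro η n
      induction n with
      | zero => intro x hx; simpa using hx
      | succ n ih =>
        intro x hx
        rw [pow_succ, map_mul, Module.End.mul_apply]
        exact ih _ (hfac η x hx)
    rw [hpp, ppoly]
    refine Finset.prod_induction (fun η => (Polynomial.C c * (Polynomial.X - Polynomial.C (θ η))) ^ n0)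
      (fun q => ∀ x ∈ Submodule.span (RR v) (Set.range B),
        aeval T q x ∈ Submodule.span (RR v) (Set.range B)) ?_ ?_ ?_
    · intro p q hp hq x hx
      rw [map_mul, Module.End.mul_apply]
      exact hp _ (hq _ hx)
    · intro x hx; simpa using hx
    · intro η _
      exact hpow η n0
  -- the projection
  set pr : W →ₗ[K] W := wb.constr K (fun j => if dw j = ν0 then wb j else 0) with hpr
  have hprb : ∀ j, pr (wb j) = if dw j = ν0 then wb j else 0 := fun j => by
    rw [hpr, wb.constr_basis]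
  have hprlat : ∀ x ∈ Submodule.span (RR v) (Set.range B),
      pr x ∈ Submodule.span (RR v) (Set.range B) := by
    rw [hspan]
    intro x hx
    induction hx using Submodule.span_induction with
    | mem x hx =>
      obtain ⟨j, rfl⟩ := hx
      rw [hprb]
      split_ifs
      · exact Submodule.subset_span ⟨j, rfl⟩
      · exact Submodule.zero_mem _
    | zero => simp
    | add x y _ _ hx hy => rw [map_add]; exact Submodule.add_mem _ hx hy
    | smul a x _ hx =>
      rw [Subring.smul_def, map_smul]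
      exact RR_smul a.2 hx
  have hprw : ∀ x, pr x ∈ wsp C v X L ν0 := by
    intro x
    rw [← wb.sum_repr x, map_sum]
    refine Submodule.sum_mem _ fun j _ => ?_
    rw [map_smul, hprb]
    refine Submodule.smul_mem _ _ ?_
    split_ifs with h
    · rw [← h]; exact hwb j
    · exact Submodule.zero_mem _
  have hprid : ∀ x ∈ wsp C v X L ν0, pr x = x := by
    intro x hx
    have h1 := (mem_wsp_iff_repr wb hv0 hv hwb ν0 x).1 hx
    conv_lhs => rw [← wb.sum_repr x]
    conv_rhs => rw [← wb.sum_repr x]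
    rw [map_sum]
    apply Finset.sum_congr rfl
    intro j _
    rw [map_smul, hprb]
    by_cases h : wb.repr x j = 0
    · rw [h, zero_smul, zero_smul]
    · rw [if_pos (h1 j h)]
  have hφpr : ∀ a x, φ a (pr x) = φ a x := by
    intro a x
    have : φ a ∘ₗ pr = φ a := by
      apply wb.ext
      intro j
      rw [LinearMap.comp_apply, hprb]
      split_ifs with h
      · rfl
      · have h1 : ∃ i, wex C L (dw j) i ≠ 0 := by
          by_contra h2
          push Not at h2
          exact h (wex_inj (C := C) (L := L) fun i => by rw [h2, hν0])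
        obtain ⟨i, hi⟩ := h1
        have h2 := hφK a i (wb j)
        rw [hwb j i, map_smul, smul_eq_mul] at h2
        have h3 : (v ^ wex C L (dw j) i - 1) * φ a (wb j) = 0 := by
          rw [sub_mul, one_mul, h2, sub_self]
        rcases mul_eq_zero.1 h3 with h4 | h4
        · exact absurd (sub_eq_zero.1 h4) (hv _ hi)
        · rw [map_zero, h4]
    exact LinearMap.congr_fun this x
  -- the operator to the invariants
  have hQinv : ∀ x, aeval T pp (pr x) ∈ X.inv := by
    intro x i
    have h1 : aeval T pp (pr x) ∈ wsp C v X L ν0 :=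
      aeval_mem _ (fun y hy => T_wsp hTK hy) pp (hprw x)
    have h2 : aeval T pp (pr x) ∈ X.sing :=
      P_sing hv0 hv hr hTE hTK hTs wb hdw hwb hS c (hprw x)
    refine ⟨h2 i, F_of_sing hv0 hv hr wb hdw hwb hν0 h1 h2 i, ?_⟩
    rw [h1 i, hν0, zpow_zero, one_smul]
  -- eigenvalue property of the functionals
  have hφT : ∀ a x, φ a (T x) = v ^ rho2 C ν0 * φ a x := by
    intro a x
    obtain ⟨z, hz⟩ := exists_rep hn (φ a)
    have hzi : z ∈ X.inv := by
      intro i
      refine ⟨?_, ?_, ?_⟩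
      · apply hn
        intro y
        rw [hform.E, ← hz, map_smul, hφK, hφF, smul_zero]
      · apply hn
        intro y
        rw [hform.F, ← hz, map_smul, ← hφK a i (X.Km i _), hr.Kp_Km_apply, hφE, smul_zero]
      · apply form_uniq hn
        intro y
        rw [hform.Kp, ← hz, ← hz, hφK]
    rw [hz, hz, ← hTsymm, hTi ν0 z (hinvw z hzi) hzi, map_smul, LinearMap.smul_apply, smul_eq_mul]
  set u : K := eval (v ^ rho2 C ν0) pp with hu
  have hφQ : ∀ a x, φ a (aeval T pp (pr x)) = u * φ a x := by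
    intro a x
    rw [dual_aeval_of_eig (hφT a) pp (pr x), hφpr]
  have huu : u ≠ 0 ∧ u ∈ RR v ∧ u⁻¹ ∈ RR v := by
    rw [hu, hpp, eval_ppoly]
    refine Finset.prod_induction _ (fun u : K => u ≠ 0 ∧ u ∈ RR v ∧ u⁻¹ ∈ RR v) ?_ ?_ ?_
    · rintro a b ⟨ha, ha', ha''⟩ ⟨hb, hb', hb''⟩
      exact ⟨mul_ne_zero ha hb, mul_mem ha' hb', by rw [mul_inv]; exact mul_mem ha'' hb''⟩
    · exact ⟨one_ne_zero, one_mem _, by rw [inv_one]; exact one_mem _⟩
    · intro η hη
      have h1 := (hS η).1 hη
      have h2 := exp_ne hν0 h1.1.2 h1.2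
      obtain ⟨h3, h4, h5⟩ := zpow_sub_unit hv0 hv h2
      exact ⟨pow_ne_zero _ h3, pow_mem h4 _, by rw [← inv_pow]; exact pow_mem h5 _⟩
  -- the dual canonical invariants
  obtain ⟨Bs, Cm, hCm, hBs, hdual⟩ := exists_dual hform.symm hn B hG hGu
  choose e he using hf
  have hfBs : ∀ j, (f j : W) = Bs (e j) := by
    intro j
    apply form_uniq hn
    intro y
    have : form (f j : W) = form (Bs (e j)) := by
      apply B.ext
      intro k
      rw [he, hdual]
      simp [eq_comm]
    rw [this]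
  have hfe : ∀ j k, form (f j : W) (B (e k)) = if j = k then 1 else 0 := by
    intro j k
    rw [he]
    by_cases h : j = k
    · subst h; simp
    · rw [if_neg h, if_neg]
      intro h2
      apply h
      apply f.injective
      apply Subtype.ext
      rw [hfBs, hfBs, h2]
  have hfR : ∀ j, (f j : W) ∈ Submodule.span (RR v) (Set.range B) := by
    intro j
    rw [hfBs, hBs]
    exact Submodule.sum_mem _ fun i _ => RR_smul (hCm _ _) (hB i)
  have hexp : ∀ x ∈ X.inv, x = ∑ j, form x (B (e j)) • (f j : W) := by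
    intro x hx
    have h1 := congrArg Subtype.val (f.sum_repr ⟨x, hx⟩)
    rw [Submodule.coe_sum] at h1
    simp only [Submodule.coe_smul] at h1
    have h2 : ∀ k, form x (B (e k)) = f.repr ⟨x, hx⟩ k := by
      intro k
      have h3 := congrArg (fun z => form z (B (e k))) h1
      simp only [map_sum, LinearMap.sum_apply, map_smul, LinearMap.smul_apply, hfe, smul_eq_mul,
        mul_ite, mul_one, mul_zero] at h3
      rw [Finset.sum_ite_eq' Finset.univ k] at h3
      rw [← h3, if_pos (Finset.mem_univ k)]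
    simp only [h2]
    exact h1.symm
  have hformR : ∀ x ∈ Submodule.span (RR v) (Set.range B), ∀ k, form x (B k) ∈ RR v := by
    intro x hx k
    induction hx using Submodule.span_induction with
    | mem x hx => obtain ⟨j, rfl⟩ := hx; exact hG j k
    | zero => simp [zero_mem]
    | add x y _ _ hx hy => rw [map_add, LinearMap.add_apply]; exact add_mem hx hy
    | smul a x _ hx =>
      rw [Subring.smul_def, map_smul, LinearMap.smul_apply, smul_eq_mul]
      exact mul_mem a.2 hx
  have hφRR : ∀ a, ∀ x ∈ Submodule.span (RR v) (Set.range B), φ a x ∈ RR v := by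
    intro a x hx
    induction hx using Submodule.span_induction with
    | mem x hx => obtain ⟨j, rfl⟩ := hx; exact hφR a j
    | zero => simp [zero_mem]
    | add x y _ _ hx hy => rw [map_add]; exact add_mem hx hy
    | smul a' x _ hx =>
      rw [Subring.smul_def, map_smul, smul_eq_mul]
      exact mul_mem a'.2 hx
  -- the inverse matrix
  set M : Matrix (Fin m) (Fin m) K := Matrix.of fun a j => φ a (f j : W) with hM
  set Q : Matrix (Fin m) (Fin m) K :=
    Matrix.of fun j b => form (aeval T pp (pr (y b))) (B (e j)) with hQ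
  have hMQ : M * Q = u • (1 : Matrix (Fin m) (Fin m) K) := by
    ext a b
    rw [Matrix.mul_apply, Matrix.smul_apply, Matrix.one_apply, smul_eq_mul, ← hφy, ← hφQ]
    conv_rhs => rw [hexp _ (hQinv (y b))]
    rw [map_sum]
    apply Finset.sum_congr rfl
    intro j _
    rw [map_smul, smul_eq_mul, mul_comm]
    rfl
  have hdet : M.det * Q.det = u ^ m := by
    rw [← Matrix.det_mul, hMQ, Matrix.det_smul, Matrix.det_one, mul_one, Fintype.card_fin]
  have hum : u ^ m ≠ 0 := pow_ne_zero _ huu.1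
  have hMdet : M.det ≠ 0 := by
    intro h
    rw [h, zero_mul] at hdet
    exact hum hdet.symm
  refine ⟨hMdet, det_mem M fun a j => hφRR a _ (hfR j), ?_⟩
  have h1 : M.det⁻¹ = Q.det * (u⁻¹) ^ m := by
    rw [inv_pow, ← hdet, mul_inv, mul_comm, mul_assoc, inv_mul_cancel₀, mul_one]
    intro h
    rw [h, mul_zero] at hdet
    exact hum hdet.symm
  rw [h1]
  exact mul_mem (det_mem Q fun j b => hformR _ (hPlat _ (hprlat _ (hy b))) _)
    (pow_mem huu.2.2 m)

end lattice

end Pool.Agent.Work.MP_8ad3a8_al
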