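import Mathlib
import Pool.Agent.Work.MP_8ad3a8_al.BarInv
import Pool.Agent.Work.MP_8ad3a8_al.Sign
import Pool.Agent.Work.MP_8ad3a8_al.UnitDet
import Pool.Agent.Work.MP_8ad3a8_al.CanonG

set_option autoImplicit false
set_option linter.unusedSectionVars false

/-!
Assembly: the determinant of the matrix of trihedron coefficients is q-round.
-/

namespace Pool.Agent.Work.MP_8ad3a8_al

open TensorProduct

section lattice

variable {K : Type} [Field K] {v : K}
variable {W : Type} [AddCommGroup W] [Module K W] {J : Type} [Fintype J] [DecidableEq J]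

theorem repr_mem_of_span {A : Subring K} (b : Module.Basis J K W) {x : W}
    (hx : x ∈ Submodule.span A (Set.range b)) (j : J) : b.repr x j ∈ A := by
  induction hx using Submodule.span_induction with
  | mem x hx =>
    obtain ⟨k, rfl⟩ := hx
    rw [Module.Basis.repr_self, Finsupp.single_apply]
    split_ifs
    · exact Subring.one_mem _
    · exact Subring.zero_mem _
  | zero => rw [map_zero]; exact Subring.zero_mem _
  | add x y _ _ hx hy =>
    rw [map_add, Finsupp.add_apply]; exact Subring.add_mem _ hx hy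
  | smul a x _ hx =>
    have h1 : b.repr (a • x) = (a : K) • b.repr x := b.repr.map_smul (a : K) x
    have : b.repr (a • x) j = (a : K) * b.repr x j := by rw [h1]; rfl
    rw [this]; exact Subring.mul_mem _ a.2 hx

/-- Invertibility of the Gram matrix does not depend on the basis of the lattice. -/
theorem gram_inv_change (form : LinearMap.BilinForm K W) (b b' : Module.Basis J K W)
    (h1 : ∀ j, b j ∈ Submodule.span (RR v) (Set.range b'))
    (hG : Matrix.det (Matrix.of fun i j => form (b i) (b j)) ≠ 0)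
    (hGu : (Matrix.det (Matrix.of fun i j => form (b i) (b j)))⁻¹ ∈ RR v) :
    (Matrix.det (Matrix.of fun i j => form (b' i) (b' j)))⁻¹ ∈ RR v := by
  -- `G = Qᵀ G' Q`, `Q = b'.toMatrix b`
  have h2 : (Matrix.of fun i j => form (b i) (b j)) =
      (b'.toMatrix b).transpose * (Matrix.of fun i j => form (b' i) (b' j)) * b'.toMatrix b := by
    ext i j
    rw [Matrix.of_apply]
    conv_lhs => rw [← b'.sum_repr (b i), ← b'.sum_repr (b j)]
    simp only [map_sum, map_smul, LinearMap.sum_apply, LinearMap.smul_apply, smul_eq_mul,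
      Matrix.mul_apply, Matrix.transpose_apply, Matrix.of_apply, Module.Basis.toMatrix_apply,
      Finset.sum_mul, Finset.mul_sum]
    refine Finset.sum_congr rfl fun k _ => Finset.sum_congr rfl fun l _ => ?_
    ring
  have h3 := congrArg Matrix.det h2
  rw [Matrix.det_mul, Matrix.det_mul, Matrix.det_transpose] at h3
  have hQ : (b'.toMatrix b).det ∈ RR v := by
    apply det_mem
    intro i j
    exact repr_mem_of_span b' (h1 j) i
  set G' := Matrix.det (Matrix.of fun i j => form (b' i) (b' j)) with hG'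
  set G := Matrix.det (Matrix.of fun i j => form (b i) (b j)) with hGd
  set Q := (b'.toMatrix b).det with hQd
  have hG'0 : G' ≠ 0 := by
    intro h; apply hG; rw [h3, h]; ring
  have hQ0 : Q ≠ 0 := by
    intro h; apply hG; rw [h3, h]; ring
  have h4 : G'⁻¹ = Q * Q * G⁻¹ := by
    rw [h3]
    field_simp
  rw [h4]
  exact Subring.mul_mem _ (Subring.mul_mem _ hQ hQ) hGu

end lattice

section triple

variable {I : Type} [Fintype I] [DecidableEq I] {K : Type} [Field K]
variable {C : Cartan I} {v : K} {bar : K ≃+* K}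
variable {l1 l2 l3 l1' l2' l3' : I → ℕ}
variable {V1 : Type} [AddCommGroup V1] [Module K V1] {J1 : Type} [Fintype J1] [DecidableEq J1]
variable {V2 : Type} [AddCommGroup V2] [Module K V2] {J2 : Type} [Fintype J2] [DecidableEq J2]
variable {V3 : Type} [AddCommGroup V3] [Module K V3] {J3 : Type} [Fintype J3] [DecidableEq J3]
variable {V1' : Type} [AddCommGroup V1'] [Module K V1'] {J1' : Type} [Fintype J1'] [DecidableEq J1']
variable {V2' : Type} [AddCommGroup V2'] [Module K V2'] {J2' : Type} [Fintype J2'] [DecidableEq J2']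
variable {V3' : Type} [AddCommGroup V3'] [Module K V3'] {J3' : Type} [Fintype J3'] [DecidableEq J3']

/-- the tensor product basis as a basis -/
noncomputable def tbb (c1 : Canon C v bar l1 V1 J1) (c2 : Canon C v bar l2 V2 J2)
    (c3 : Canon C v bar l3 V3 J3) : Module.Basis (J1 × J2 × J3) K (V1 ⊗[K] (V2 ⊗[K] V3)) :=
  c1.B.tensorProduct (c2.B.tensorProduct c3.B)

theorem tbb_apply (c1 : Canon C v bar l1 V1 J1) (c2 : Canon C v bar l2 V2 J2)
    (c3 : Canon C v bar l3 V3 J3) (j : J1 × J2 × J3) : tbb c1 c2 c3 j = tb c1 c2 c3 j := by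
  obtain ⟨a, b, c⟩ := j
  simp [tbb, tb, Module.Basis.tensorProduct_apply]

theorem range_tbb (c1 : Canon C v bar l1 V1 J1) (c2 : Canon C v bar l2 V2 J2)
    (c3 : Canon C v bar l3 V3 J3) : Set.range (tbb c1 c2 c3) = Set.range (tb c1 c2 c3) := by
  congr 1
  funext j
  exact tbb_apply c1 c2 c3 j

theorem span_t {c1 : Canon C v bar l1 V1 J1} {c2 : Canon C v bar l2 V2 J2}
    {c3 : Canon C v bar l3 V3 J3} (t : TCanon c1 c2 c3) :
    Submodule.span (RR v) (Set.range t.B) = Submodule.span (RR v) (Set.range (tbb c1 c2 c3)) := by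
  rw [range_tbb]
  apply le_antisymm
  · refine Submodule.span_le.mpr ?_
    rintro x ⟨j, rfl⟩
    have h1 : t.B j ∈ Submodule.span (Zm v) (Set.range t.B) := Submodule.subset_span ⟨j, rfl⟩
    rw [t.lattice] at h1
    exact span_sub Zm_le_RR _ h1
  · refine Submodule.span_le.mpr ?_
    rintro x ⟨j, rfl⟩
    have h1 : tb c1 c2 c3 j ∈ Submodule.span (Zm v) (Set.range (tb c1 c2 c3)) :=
      Submodule.subset_span ⟨j, rfl⟩
    rw [← t.lattice] at h1
    exact span_sub Zm_le_RR _ h1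

theorem form3_tb (c1 : Canon C v bar l1 V1 J1) (c2 : Canon C v bar l2 V2 J2)
    (c3 : Canon C v bar l3 V3 J3) (i j : J1 × J2 × J3) :
    form3 c1 c2 c3 (tb c1 c2 c3 i) (tb c1 c2 c3 j) =
      c1.form (c1.B i.1) (c1.B j.1) * (c2.form (c2.B i.2.1) (c2.B j.2.1) *
        c3.form (c3.B i.2.2) (c3.B j.2.2)) := by
  unfold form3 tb
  rw [form_tens_apply, form_tens_apply]

theorem gram_tb (hv0 : v ≠ 0) (hv : ∀ n : ℤ, n ≠ 0 → v ^ n ≠ 1) (c1 : Canon C v bar l1 V1 J1)
    (c2 : Canon C v bar l2 V2 J2) (c3 : Canon C v bar l3 V3 J3) :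
    Matrix.det (Matrix.of fun i j => form3 c1 c2 c3 (tbb c1 c2 c3 i) (tbb c1 c2 c3 j)) ≠ 0 ∧
    (Matrix.det (Matrix.of fun i j =>
      form3 c1 c2 c3 (tbb c1 c2 c3 i) (tbb c1 c2 c3 j)))⁻¹ ∈ RR v := by
  have h1 : (Matrix.of fun i j => form3 c1 c2 c3 (tbb c1 c2 c3 i) (tbb c1 c2 c3 j)) =
      Matrix.kroneckerMap (· * ·) (Matrix.of fun i j => c1.form (c1.B i) (c1.B j))
        (Matrix.kroneckerMap (· * ·) (Matrix.of fun i j => c2.form (c2.B i) (c2.B j))
          (Matrix.of fun i j => c3.form (c3.B i) (c3.B j))) := by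
    ext i j
    rw [Matrix.of_apply, tbb_apply, tbb_apply, form3_tb]
    rfl
  obtain ⟨a1, b1⟩ := c1.gram_ne hv0 hv
  obtain ⟨a2, b2⟩ := c2.gram_ne hv0 hv
  obtain ⟨a3, b3⟩ := c3.gram_ne hv0 hv
  rw [h1, Matrix.det_kronecker, Matrix.det_kronecker]
  refine ⟨?_, ?_⟩
  · exact mul_ne_zero (pow_ne_zero _ a1)
      (pow_ne_zero _ (mul_ne_zero (pow_ne_zero _ a2) (pow_ne_zero _ a3)))
  · simp only [mul_inv, ← inv_pow, mul_pow]
    exact Subring.mul_mem _ (Subring.pow_mem _ b1 _) (Subring.mul_mem _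
      (Subring.pow_mem _ (Subring.pow_mem _ b2 _) _) (Subring.pow_mem _ (Subring.pow_mem _ b3 _) _))

theorem form3_R (c1 : Canon C v bar l1 V1 J1) (c2 : Canon C v bar l2 V2 J2)
    (c3 : Canon C v bar l3 V3 J3) {x y : V1 ⊗[K] (V2 ⊗[K] V3)}
    (hx : x ∈ Submodule.span (RR v) (Set.range (tbb c1 c2 c3)))
    (hy : y ∈ Submodule.span (RR v) (Set.range (tbb c1 c2 c3))) : form3 c1 c2 c3 x y ∈ RR v := by
  induction hx using Submodule.span_induction with
  | mem x hx =>
    obtain ⟨i, rfl⟩ := hx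
    induction hy using Submodule.span_induction with
    | mem y hy =>
      obtain ⟨j, rfl⟩ := hy
      rw [tbb_apply, tbb_apply, form3_tb]
      exact Subring.mul_mem _ (c1.form_R _ _) (Subring.mul_mem _ (c2.form_R _ _) (c3.form_R _ _))
    | zero => rw [map_zero]; exact Subring.zero_mem _
    | add x y _ _ hx hy => rw [map_add]; exact Subring.add_mem _ hx hy
    | smul a x _ hx =>
      have : form3 c1 c2 c3 (tbb c1 c2 c3 i) (a • x) = (a : K) * form3 c1 c2 c3 (tbb c1 c2 c3 i) x :=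
        (form3 c1 c2 c3 (tbb c1 c2 c3 i)).map_smul (a : K) x
      rw [this]; exact Subring.mul_mem _ a.2 hx
  | zero => rw [map_zero, LinearMap.zero_apply]; exact Subring.zero_mem _
  | add x y _ _ hx hy => rw [map_add, LinearMap.add_apply]; exact Subring.add_mem _ hx hy
  | smul a x _ hx =>
    have h1 : form3 c1 c2 c3 (a • x) = (a : K) • form3 c1 c2 c3 x :=
      (form3 c1 c2 c3).map_smul (a : K) x
    rw [h1, LinearMap.smul_apply, smul_eq_mul]; exact Subring.mul_mem _ a.2 hx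

theorem nondeg_form3 [CharZero K] (hvt : Transcendental ℚ v) (c1 : Canon C v bar l1 V1 J1)
    (c2 : Canon C v bar l2 V2 J2) (c3 : Canon C v bar l3 V3 J3) (x : V1 ⊗[K] (V2 ⊗[K] V3))
    (hx : ∀ y, form3 c1 c2 c3 x y = 0) : x = 0 := by
  refine nondeg_tens c1.B (c2.B.tensorProduct c3.B) (fun x h => c1.nondeg hvt x h) ?_ x
    (fun y y' => hx _)
  intro x h
  exact nondeg_tens c2.B c3.B (fun x h => c2.nondeg hvt x h) (fun x h => c3.nondeg hvt x h) x
    (fun y y' => h _)

variable {c1 : Canon C v bar l1 V1 J1} {c2 : Canon C v bar l2 V2 J2}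
  {c3 : Canon C v bar l3 V3 J3}
  {c1' : Canon C v bar l1' V1' J1'} {c2' : Canon C v bar l2' V2' J2'}
  {c3' : Canon C v bar l3' V3' J3'}
  {D1 : V1' ≃ₗ[K] Module.Dual K V1} {D2 : V2' ≃ₗ[K] Module.Dual K V2}
  {D3 : V3' ≃ₗ[K] Module.Dual K V3}

theorem pairing_R (hv0 : v ≠ 0) (hv : ∀ n : ℤ, n ≠ 0 → v ^ n ≠ 1)
    (hD1 : IsDuality c1' c1 D1) (hD2 : IsDuality c2' c2 D2) (hD3 : IsDuality c3' c3 D3)
    {z : V3' ⊗[K] (V2' ⊗[K] V1')} {y : V1 ⊗[K] (V2 ⊗[K] V3)}
    (hz : z ∈ Submodule.span (RR v) (Set.range (tbb c3' c2' c1')))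
    (hy : y ∈ Submodule.span (RR v) (Set.range (tbb c1 c2 c3))) :
    pairing D1 D2 D3 z y ∈ RR v := by
  induction hz using Submodule.span_induction with
  | mem x hx =>
    obtain ⟨i, rfl⟩ := hx
    induction hy using Submodule.span_induction with
    | mem y hy =>
      obtain ⟨j, rfl⟩ := hy
      rw [tbb_apply, tbb_apply, tb, tb, pairing_tmul]
      exact Subring.mul_mem _ (dual_R hD1 hv0 hv (c1'.B_VR _) (c1.B_VR _))
        (Subring.mul_mem _ (dual_R hD2 hv0 hv (c2'.B_VR _) (c2.B_VR _))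
          (dual_R hD3 hv0 hv (c3'.B_VR _) (c3.B_VR _)))
    | zero => rw [map_zero]; exact Subring.zero_mem _
    | add x y _ _ hx hy => rw [map_add]; exact Subring.add_mem _ hx hy
    | smul a x _ hx =>
      have : pairing D1 D2 D3 (tbb c3' c2' c1' i) (a • x) =
          (a : K) * pairing D1 D2 D3 (tbb c3' c2' c1' i) x :=
        (pairing D1 D2 D3 (tbb c3' c2' c1' i)).map_smul (a : K) x
      rw [this]; exact Subring.mul_mem _ a.2 hx
  | zero => rw [map_zero, LinearMap.zero_apply]; exact Subring.zero_mem _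
  | add x y _ _ hx hy => rw [map_add, LinearMap.add_apply]; exact Subring.add_mem _ hx hy
  | smul a x _ hx =>
    have h1 : pairing D1 D2 D3 (a • x) = (a : K) • pairing D1 D2 D3 x :=
      (pairing D1 D2 D3).map_smul (a : K) x
    rw [h1, LinearMap.smul_apply, smul_eq_mul]; exact Subring.mul_mem _ a.2 hx

theorem tmul_span {x1 : V1} {x2 : V2} {x3 : V3} (h1 : x1 ∈ c1.VR) (h2 : x2 ∈ c2.VR)
    (h3 : x3 ∈ c3.VR) :
    x1 ⊗ₜ[K] (x2 ⊗ₜ[K] x3) ∈ Submodule.span (RR v) (Set.range (tbb c1 c2 c3)) := by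
  have key : ∀ j1 j2, c1.B j1 ⊗ₜ[K] (c2.B j2 ⊗ₜ[K] x3) ∈
      Submodule.span (RR v) (Set.range (tbb c1 c2 c3)) := by
    intro j1 j2
    induction h3 using Submodule.span_induction with
    | mem x hx =>
      obtain ⟨j3, rfl⟩ := hx
      exact Submodule.subset_span ⟨(j1, j2, j3), tbb_apply _ _ _ _⟩
    | zero => simp
    | add x y _ _ hx hy =>
      rw [TensorProduct.tmul_add, TensorProduct.tmul_add]; exact Submodule.add_mem _ hx hy
    | smul a x _ hx =>
      have : c1.B j1 ⊗ₜ[K] (c2.B j2 ⊗ₜ[K] (a • x)) = a • (c1.B j1 ⊗ₜ[K] (c2.B j2 ⊗ₜ[K] x)) := by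
        show c1.B j1 ⊗ₜ[K] (c2.B j2 ⊗ₜ[K] ((a : K) • x)) = (a : K) • _
        rw [TensorProduct.tmul_smul, TensorProduct.tmul_smul]
      rw [this]; exact Submodule.smul_mem _ _ hx
  have key2 : ∀ j1, c1.B j1 ⊗ₜ[K] (x2 ⊗ₜ[K] x3) ∈
      Submodule.span (RR v) (Set.range (tbb c1 c2 c3)) := by
    intro j1
    induction h2 using Submodule.span_induction with
    | mem x hx =>
      obtain ⟨j2, rfl⟩ := hx
      exact key j1 j2
    | zero => simp
    | add x y _ _ hx hy =>
      rw [TensorProduct.add_tmul, TensorProduct.tmul_add]; exact Submodule.add_mem _ hx hy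
    | smul a x _ hx =>
      have : c1.B j1 ⊗ₜ[K] ((a • x) ⊗ₜ[K] x3) = a • (c1.B j1 ⊗ₜ[K] (x ⊗ₜ[K] x3)) := by
        show c1.B j1 ⊗ₜ[K] (((a : K) • x) ⊗ₜ[K] x3) = (a : K) • _
        rw [← TensorProduct.smul_tmul', TensorProduct.tmul_smul]
      rw [this]; exact Submodule.smul_mem _ _ hx
  induction h1 using Submodule.span_induction with
  | mem x hx =>
    obtain ⟨j1, rfl⟩ := hx
    exact key2 j1
  | zero => simp
  | add x y _ _ hx hy =>
    rw [TensorProduct.add_tmul]; exact Submodule.add_mem _ hx hy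
  | smul a x _ hx =>
    have : (a • x) ⊗ₜ[K] (x2 ⊗ₜ[K] x3) = a • (x ⊗ₜ[K] (x2 ⊗ₜ[K] x3)) := by
      show ((a : K) • x) ⊗ₜ[K] (x2 ⊗ₜ[K] x3) = (a : K) • _
      rw [← TensorProduct.smul_tmul']
    rw [this]; exact Submodule.smul_mem _ _ hx

/-- integral functionals on `W'` are represented by lattice vectors of `W` -/
theorem pairing_perfect (hv0 : v ≠ 0) (hv : ∀ n : ℤ, n ≠ 0 → v ^ n ≠ 1)
    (hD1 : IsDuality c1' c1 D1) (hD2 : IsDuality c2' c2 D2) (hD3 : IsDuality c3' c3 D3)
    (ℓ : V3' ⊗[K] (V2' ⊗[K] V1') →ₗ[K] K) (hℓ : ∀ q, ℓ (tbb c3' c2' c1' q) ∈ RR v) :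
    ∃ y ∈ Submodule.span (RR v) (Set.range (tbb c1 c2 c3)), ∀ z, pairing D1 D2 D3 z y = ℓ z := by
  choose y1 hy1 e1 using fun a => dual_perfect hD1 hv0 hv a
  choose y2 hy2 e2 using fun a => dual_perfect hD2 hv0 hv a
  choose y3 hy3 e3 using fun a => dual_perfect hD3 hv0 hv a
  refine ⟨∑ q : J3' × J2' × J1', ℓ (tbb c3' c2' c1' q) •
    (y1 q.2.2 ⊗ₜ[K] (y2 q.2.1 ⊗ₜ[K] y3 q.1)), ?_, ?_⟩
  · refine Submodule.sum_mem _ fun q _ => ?_
    exact Submodule.smul_mem _ (⟨_, hℓ q⟩ : RR v) (tmul_span (hy1 _) (hy2 _) (hy3 _))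
  · intro z
    have : (pairing D1 D2 D3).flip (∑ q : J3' × J2' × J1', ℓ (tbb c3' c2' c1' q) •
        (y1 q.2.2 ⊗ₜ[K] (y2 q.2.1 ⊗ₜ[K] y3 q.1))) = ℓ := by
      apply (tbb c3' c2' c1').ext
      intro p
      rw [LinearMap.flip_apply, map_sum, Finset.sum_eq_single p]
      · rw [map_smul, smul_eq_mul]
        conv_lhs => rw [tbb_apply c3' c2' c1' p, tb, pairing_tmul, e1, e2, e3]
        rw [if_pos rfl, if_pos rfl, if_pos rfl, tbb_apply]
        simp [tb]
      · intro q _ hq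
        rw [map_smul, tbb_apply c3' c2' c1' p, tb, pairing_tmul, e1, e2, e3, smul_eq_mul]
        have : ¬ (p.2.2 = q.2.2 ∧ p.2.1 = q.2.1 ∧ p.1 = q.1) := by
          rintro ⟨h1, h2, h3⟩
          exact hq (Prod.ext h3.symm (Prod.ext h2.symm h1.symm))
        by_cases h1 : p.2.2 = q.2.2
        · by_cases h2 : p.2.1 = q.2.1
          · have h3 : p.1 ≠ q.1 := fun h3 => this ⟨h1, h2, h3⟩
            rw [if_neg h3]; ring
          · rw [if_neg h2]; ring
        · rw [if_neg h1]; ring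
      · intro h; exact absurd (Finset.mem_univ _) h
    exact LinearMap.congr_fun this z

/-- The determinant of the matrix of trihedron coefficients is q-round. -/
theorem det_round [CharZero K] (hvt : Transcendental ℚ v) (hbb : ∀ r, bar (bar r) = r)
    (hbar : bar v = v⁻¹) (sig : K ≃+* K) (hsig : sig v = -v) (hss : ∀ r, sig (sig r) = r)
    (t : TCanon c1 c2 c3) (t' : TCanon c3' c2' c1')
    (hD1 : IsDuality c1' c1 D1) (hD2 : IsDuality c2' c2 D2) (hD3 : IsDuality c3' c3 D3)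
    {m : ℕ} (f : Module.Basis (Fin m) K (c1.X.tens (c2.X.tens c3.X)).inv)
    (hf : ∀ j, IsDualCanon t (f j : V1 ⊗[K] (V2 ⊗[K] V3)))
    (g : Module.Basis (Fin m) K (c3'.X.tens (c2'.X.tens c1'.X)).inv)
    (hg : ∀ j, IsDualCanon t' (g j : V3' ⊗[K] (V2' ⊗[K] V1'))) :
    IsQRound v (Matrix.det (Matrix.of fun i j => pairing D1 D2 D3 (g i).1 (f j).1)) := by
  have hv0 : v ≠ 0 := ne_zero_of_tr hvt
  have hv := zpow_ne_one_of_tr hvt
  have hr3 : IsRel C v (X3 c1 c2 c3) := IsRel.tens hv0 c1.rel (IsRel.tens hv0 c2.rel c3.rel)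
  have hform : IsForm C v (X3 c1 c2 c3) (form3 c1 c2 c3) :=
    IsForm.tens hv0 c1.rel (IsRel.tens hv0 c2.rel c3.rel) c1.isForm
      (IsForm.tens hv0 c2.rel c3.rel c2.isForm c3.isForm)
  have hform' : IsForm C v (X3 c3' c2' c1') (form3 c3' c2' c1') :=
    IsForm.tens hv0 c3'.rel (IsRel.tens hv0 c2'.rel c1'.rel) c3'.isForm
      (IsForm.tens hv0 c2'.rel c1'.rel c2'.isForm c1'.isForm)
  have hn := nondeg_form3 hvt c1 c2 c3
  have hn' := nondeg_form3 hvt c3' c2' c1'
  obtain ⟨T, hT⟩ := exists_T (C := C) (v := v) hbb t.B t.isBar hform hn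
  -- invariants are eigenvectors of `psi`
  have hpsi : ∀ j, ∀ η, (f j : V1 ⊗[K] (V2 ⊗[K] V3)) ∈
      wsp C v (X3 c1 c2 c3) (L3 c1 c2 c3) η → t.psi (f j) = v ^ rho2 C η • (f j).1 := by
    intro j η hη
    have h1 : t.psi (T (f j).1) = (f j).1 := by
      have : ∀ y, form3 c1 c2 c3 (t.psi (T (f j).1) - (f j).1) y = 0 := by
        intro y
        rw [map_sub, LinearMap.sub_apply, hT, bar_dualCanon hbb t (hf j), sub_self]
      exact sub_eq_zero.mp (hn _ this)
    have h2 := T_inv hvt hbb hbar t hD1 hT hη (f j).2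
    have h3 : t.psi (f j).1 = T (f j).1 := by
      rw [← h1, t.isBar.invol, h1]
    rw [h3, h2]
  -- bar invariance
  have hbarM : ∀ i j, bar (pairing D1 D2 D3 (g i).1 (f j).1) = pairing D1 D2 D3 (g i).1 (f j).1 :=
    fun i j => bar_pairing hvt hbb hbar t t' hD1 hD2 hD3 (f j).2 (hf j) (hpsi j) (g i).2 (hg i)
  set u := Matrix.det (Matrix.of fun i j => pairing D1 D2 D3 (g i).1 (f j).1) with hu
  have hbaru : bar u = u := by
    have h1 : bar u = ((Matrix.of fun i j => pairing D1 D2 D3 (g i).1 (f j).1).map bar).det :=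
      (bar : K →+* K).map_det _
    rw [h1, hu]
    congr 1
    ext i j
    exact hbarM i j
  -- the Gram matrix of `t'.B`
  have hG' : ∀ i j, form3 c3' c2' c1' (t'.B i) (t'.B j) ∈ RR v := by
    intro i j
    apply form3_R
    · rw [← span_t t']; exact Submodule.subset_span ⟨i, rfl⟩
    · rw [← span_t t']; exact Submodule.subset_span ⟨j, rfl⟩
  have hGu' : (Matrix.det (Matrix.of fun i j => form3 c3' c2' c1' (t'.B i) (t'.B j)))⁻¹ ∈ RR v := by
    obtain ⟨a, b⟩ := gram_tb hv0 hv c3' c2' c1'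
    refine gram_inv_change _ (tbb c3' c2' c1') t'.B ?_ a b
    intro j
    have h1 : tbb c3' c2' c1' j ∈ Submodule.span (RR v) (Set.range (tbb c3' c2' c1')) :=
      Submodule.subset_span ⟨j, rfl⟩
    rw [← span_t t'] at h1
    exact h1
  obtain ⟨Bs, Cm, hCm, hBs, hBsd⟩ := exists_dual hform'.symm hn' t'.B hG' hGu'
  choose e' he' using hg
  have hgB : ∀ a, (g a).1 = Bs (e' a) := by
    intro a
    have : ∀ y, form3 c3' c2' c1' ((g a).1 - Bs (e' a)) y = 0 := by
      intro y
      have h1 : form3 c3' c2' c1' ((g a).1 - Bs (e' a)) = 0 := by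
        apply t'.B.ext
        intro k
        rw [map_sub, LinearMap.sub_apply, he' a k, hBsd, LinearMap.zero_apply]
        by_cases hk : k = e' a
        · rw [if_pos hk, if_pos hk.symm, sub_self]
        · rw [if_neg hk, if_neg (Ne.symm hk), sub_self]
      rw [h1]; rfl
    exact sub_eq_zero.mp (hn' _ this)
  have hgR : ∀ a, (g a).1 ∈ Submodule.span (RR v) (Set.range (tbb c3' c2' c1')) := by
    intro a
    rw [hgB, hBs, ← span_t t']
    exact Submodule.sum_mem _ fun i _ =>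
      Submodule.smul_mem _ (⟨_, hCm i (e' a)⟩ : RR v) (Submodule.subset_span ⟨i, rfl⟩)
  have he'inj : Function.Injective e' := by
    intro a b hab
    have : g a = g b := Subtype.ext (by rw [hgB, hgB, hab])
    exact g.injective this
  -- the vectors `y`
  have hy : ∀ b : Fin m, ∃ y ∈ Submodule.span (RR v) (Set.range (tbb c1 c2 c3)),
      ∀ z, pairing D1 D2 D3 z y = form3 c3' c2' c1' z (t'.B (e' b)) := by
    intro b
    refine pairing_perfect hv0 hv hD1 hD2 hD3
      ((LinearMap.flip (form3 c3' c2' c1')) (t'.B (e' b))) ?_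
    intro q
    show form3 c3' c2' c1' (tbb c3' c2' c1' q) (t'.B (e' b)) ∈ RR v
    apply form3_R
    · exact Submodule.subset_span ⟨q, rfl⟩
    · rw [← span_t t']; exact Submodule.subset_span ⟨_, rfl⟩
  choose y hyR hyp using hy
  have hmain := unit_det hvt hbb hbar hr3 (L3 c1 c2 c3) t.isBar hform hn hT
    (fun η x hx hs => T_sing hvt hbb hbar t hT hx hs)
    (fun η x hx hs => T_inv hvt hbb hbar t hD1 hT hx hs)
    (tbb c1 c2 c3) (fun j => c1.dp j.1 + (c2.dp j.2.1 + c3.dp j.2.2))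
    (fun j i => add_nonneg (Int.natCast_nonneg _)
      (add_nonneg (Int.natCast_nonneg _) (Int.natCast_nonneg _)))
    (fun j => by
      rw [tbb_apply]
      exact wsp_tens hv0 (c1.B_wsp _) (wsp_tens hv0 (c2.B_wsp _) (c3.B_wsp _)))
    t.B t.psi_B (span_t t)
    (fun i j => by
      apply form3_R
      · rw [← span_t t]; exact Submodule.subset_span ⟨i, rfl⟩
      · rw [← span_t t]; exact Submodule.subset_span ⟨j, rfl⟩)
    (by
      obtain ⟨a, b⟩ := gram_tb hv0 hv c1 c2 c3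
      refine gram_inv_change _ (tbb c1 c2 c3) t.B ?_ a b
      intro j
      have h1 : tbb c1 c2 c3 j ∈ Submodule.span (RR v) (Set.range (tbb c1 c2 c3)) :=
        Submodule.subset_span ⟨j, rfl⟩
      rw [← span_t t] at h1
      exact h1)
    f hf (fun a => pairing D1 D2 D3 (g a).1)
    (by
      intro a i x
      have hgE : (X3 c3' c2' c1').E i (g a).1 = 0 := ((g a).2 i).1
      have h1 := pairing_E hD1 hD2 hD3 i (g a).1 ((X3 c1 c2 c3).Kp i x)
      rw [hr3.Km_Kp_apply, hgE, map_zero, LinearMap.zero_apply, eq_comm,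
        neg_eq_zero] at h1
      exact h1)
    (by
      intro a i x
      have hgF : (X3 c3' c2' c1').F i (g a).1 = 0 := ((g a).2 i).2.1
      have hgK : (X3 c3' c2' c1').Kp i (g a).1 = (g a).1 := ((g a).2 i).2.2
      have h1 := pairing_F hD1 hD2 hD3 i (g a).1 x
      have h2 := pairing_Kp hD1 hD2 hD3 i (g a).1 ((X3 c1 c2 c3).Kp i ((X3 c1 c2 c3).F i x))
      rw [hgF, map_zero, LinearMap.zero_apply, eq_comm, neg_eq_zero] at h1
      rw [hr3.Km_Kp_apply, hgK, h1] at h2
      exact h2.symm)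
    (by
      intro a i x
      have hgK : (X3 c3' c2' c1').Kp i (g a).1 = (g a).1 := ((g a).2 i).2.2
      have h2 := pairing_Kp hD1 hD2 hD3 i (g a).1 ((X3 c1 c2 c3).Kp i x)
      rw [hr3.Km_Kp_apply, hgK] at h2
      exact h2)
    (fun a j => pairing_R hv0 hv hD1 hD2 hD3 (hgR a) (by
      rw [← span_t t]; exact Submodule.subset_span ⟨j, rfl⟩))
    y (fun a => by
      have h1 := hyR a
      rw [← span_t t] at h1
      exact h1)
    (fun a b => by
      rw [hyp, he' a]
      by_cases hab : a = b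
      · rw [if_pos hab, if_pos (by rw [hab])]
      · rw [if_neg hab, if_neg]
        intro h
        exact hab (he'inj h.symm))
  obtain ⟨hu0, huR, huR'⟩ := hmain
  obtain ⟨r, hr1, hr2, hr0, hr⟩ := sign_det_aux hvt sig hsig hss t t' hD1 hD2 hD3 f hf g
    (fun j => ⟨e' j, he' j⟩)
  have hk : sig r * r = 1 := by
    have h1 : sig (sig u) = sig (r * u) := congrArg sig hr
    rw [hss, map_mul, hr, ← mul_assoc] at h1
    exact mul_right_cancel₀ hu0 (h1.symm.trans (one_mul u).symm)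
  have hr' : r = 1 ∨ r = -1 := by
    obtain ⟨k, hk'⟩ := Av_unit hvt hr1 hr2 hr0
    have h2 : r * r = v ^ (2 * k) := by
      rcases hk' with h | h
      · rw [h, ← zpow_add₀ hv0]; congr 1; ring
      · rw [h, neg_mul_neg, ← zpow_add₀ hv0]; congr 1; ring
    have h3 : sig r * sig r = v ^ (2 * k) := by
      rw [← map_mul, h2, map_zpow₀, hsig]
      exact Even.neg_zpow (even_two_mul k) v
    have h4 : v ^ (4 * k) = 1 := by
      have : (sig r * r) * (sig r * r) = 1 := by rw [hk, one_mul]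
      calc v ^ (4 * k) = v ^ (2 * k) * v ^ (2 * k) := by rw [← zpow_add₀ hv0]; congr 1; ring
        _ = (sig r * sig r) * (r * r) := by rw [h2, h3]
        _ = 1 := by rw [← this]; ring
    have hk0 : k = 0 := by
      by_contra hne
      exact hv (4 * k) (by omega) h4
    rw [hk0, zpow_zero] at hk'
    exact hk'
  refine isQRound_of_unit v hvt bar sig hbar hsig u hu0 huR huR' (Or.inl hbaru) ?_
  rcases hr' with h | h
  · left; rw [hr, h, one_mul]
  · right; rw [hr, h, neg_one_mul]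

end triple

end Pool.Agent.Work.MP_8ad3a8_al
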