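import Mathlib
import Pool.Agent.Work.MP_8ad3a8_al.Final

set_option autoImplicit false
set_option linter.unusedSectionVars false

/-!
The other Hopf structure: duals taken through the inverse antipode.
-/

namespace Pool.Agent.Work.MP_8ad3a8_al

open TensorProduct

section

variable {I : Type} [Fintype I] [DecidableEq I] {K : Type} [Field K]
variable {C : Cartan I} {v : K} {bar : K ≃+* K}
variable {lam lam' : I → ℕ}
variable {V : Type} [AddCommGroup V] [Module K V] {J : Type} [Fintype J] [DecidableEq J]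
variable {V' : Type} [AddCommGroup V'] [Module K V'] {J' : Type} [Fintype J'] [DecidableEq J']

/-- The operator acting by `v ^ (2ρ, κ)` on vectors of depth `κ`. -/
noncomputable def twist (c : Canon C v bar lam V J) (hv0 : v ≠ 0) : V ≃ₗ[K] V :=
  LinearEquiv.ofLinearMap
    (c.B.constr K fun j => v ^ rho2 C (c.dp j) • c.B j)
    (c.B.constr K fun j => v ^ (-rho2 C (c.dp j)) • c.B j)
    (c.B.ext fun j => by
      rw [LinearMap.comp_apply, Module.Basis.constr_basis, map_smul, Module.Basis.constr_basis,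
        smul_smul, ← zpow_add₀ hv0, neg_add_cancel, zpow_zero, one_smul]; rfl)
    (c.B.ext fun j => by
      rw [LinearMap.comp_apply, Module.Basis.constr_basis, map_smul, Module.Basis.constr_basis,
        smul_smul, ← zpow_add₀ hv0, add_neg_cancel, zpow_zero, one_smul]; rfl)

theorem twist_B (c : Canon C v bar lam V J) (hv0 : v ≠ 0) (j : J) :
    twist c hv0 (c.B j) = v ^ rho2 C (c.dp j) • c.B j :=
  c.B.constr_basis K (fun j => v ^ rho2 C (c.dp j) • c.B j) j

theorem twist_wsp (c : Canon C v bar lam V J) (hv0 : v ≠ 0)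
    (hv : ∀ n : ℤ, n ≠ 0 → v ^ n ≠ 1) {κ : I → ℤ} {x : V} (hx : x ∈ c.wsp κ) :
    twist c hv0 x = v ^ rho2 C κ • x := by
  have h1 := (mem_wsp_iff_repr (C := C) (L := c.L) c.B hv0 hv (dep := c.dp)
    (fun j => c.B_wsp j) κ x).mp hx
  conv_lhs => rw [← c.B.sum_repr x]
  conv_rhs => rw [← c.B.sum_repr x]
  rw [map_sum, Finset.smul_sum]
  refine Finset.sum_congr rfl fun j _ => ?_
  rw [map_smul, twist_B]
  by_cases hj : c.B.repr x j = 0
  · rw [hj, zero_smul, zero_smul, smul_zero]
  · rw [h1 j hj, smul_comm]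

theorem IsDualityInv.twist {c' : Canon C v bar lam' V' J'} {c : Canon C v bar lam V J}
    {D : V' ≃ₗ[K] Module.Dual K V} (hD : IsDualityInv c' c D) (hv0 : v ≠ 0)
    (hv : ∀ n : ℤ, n ≠ 0 → v ^ n ≠ 1) :
    IsDuality c' c (D.trans (twist c hv0).dualMap) := by
  have hap : ∀ x y, (D.trans (MP_8ad3a8_al.twist c hv0).dualMap) x y =
      D x (MP_8ad3a8_al.twist c hv0 y) := fun _ _ => rfl
  have hsr : ∀ i, rho2 C (sr i) = 2 * C.d i := ba_rho2_sr
  refine ⟨?_, ?_, ?_, ?_⟩
  · intro i x y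
    rw [hap, hap, hD.E]
    congr 1
    have key : c.X.Km i ∘ₗ c.X.E i ∘ₗ (MP_8ad3a8_al.twist c hv0).toLinearMap =
        (MP_8ad3a8_al.twist c hv0).toLinearMap ∘ₗ c.X.E i ∘ₗ c.X.Km i := by
      apply c.B.ext
      intro j
      have hE := IsRel.E_wsp c.rel hv0 (c.B_wsp j) i
      have hr : rho2 C (c.dp j - sr i) = rho2 C (c.dp j) - 2 * C.d i := by
        have := rho2_add (C := C) (c.dp j - sr i) (sr i)
        rw [sub_add_cancel, hsr] at this
        linarith
      simp only [LinearMap.comp_apply, LinearEquiv.coe_coe]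
      rw [twist_B, map_smul, map_smul, IsRel.Km_wsp c.rel hv0 (c.B_wsp j) i, map_smul, map_smul,
        IsRel.Km_wsp c.rel hv0 hE i, twist_wsp c hv0 hv hE, smul_smul, smul_smul,
        ← zpow_add₀ hv0, ← zpow_add₀ hv0, wex_sub_sr, C.diag, hr]
      congr 2
      ring
    have h2 := LinearMap.congr_fun key y
    exact congrArg (D x) h2
  · intro i x y
    rw [hap, hap, hD.F]
    congr 1
    have key : c.X.F i ∘ₗ c.X.Kp i ∘ₗ (MP_8ad3a8_al.twist c hv0).toLinearMap =
        (MP_8ad3a8_al.twist c hv0).toLinearMap ∘ₗ c.X.Kp i ∘ₗ c.X.F i := by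
      apply c.B.ext
      intro j
      have hF := IsRel.F_wsp c.rel hv0 (c.B_wsp j) i
      have hr : rho2 C (c.dp j + sr i) = rho2 C (c.dp j) + 2 * C.d i := by
        rw [rho2_add, hsr]
      simp only [LinearMap.comp_apply, LinearEquiv.coe_coe]
      rw [twist_B, map_smul, map_smul, c.B_wsp j i, map_smul, hF i, map_smul,
        twist_wsp c hv0 hv hF, smul_smul, smul_smul,
        ← zpow_add₀ hv0, ← zpow_add₀ hv0, wex_add_sr, C.diag, hr]
      congr 2
      ring
    have h2 := LinearMap.congr_fun key y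
    exact congrArg (D x) h2
  · intro i x y
    rw [hap, hap, hD.Kp]
    congr 1
    have key : c.X.Km i ∘ₗ (MP_8ad3a8_al.twist c hv0).toLinearMap =
        (MP_8ad3a8_al.twist c hv0).toLinearMap ∘ₗ c.X.Km i := by
      apply c.B.ext
      intro j
      simp only [LinearMap.comp_apply, LinearEquiv.coe_coe]
      rw [twist_B, map_smul, IsRel.Km_wsp c.rel hv0 (c.B_wsp j) i, map_smul, twist_B, smul_comm]
    exact LinearMap.congr_fun key y
  · obtain ⟨j, hj, hj'⟩ := hD.low
    refine ⟨j, hj, ?_⟩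
    apply c.B.ext
    intro k
    rw [hap, twist_B, map_smul, hj', Module.Basis.coord_apply, c.B.repr_self]
    by_cases hk : k = c.top
    · rw [hk, c.dp_top hv0 hv]
      have : rho2 C (0 : I → ℤ) = 0 := by simp [rho2]
      rw [this, zpow_zero, one_smul]
    · rw [Finsupp.single_eq_of_ne (Ne.symm hk), smul_zero]

end

section triple

variable {I : Type} [Fintype I] [DecidableEq I] {K : Type} [Field K]
variable {C : Cartan I} {v : K} {bar : K ≃+* K}
variable {l1 l2 l3 l1' l2' l3' : I → ℕ}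
variable {V1 : Type} [AddCommGroup V1] [Module K V1] {J1 : Type} [Fintype J1] [DecidableEq J1]
variable {V2 : Type} [AddCommGroup V2] [Module K V2] {J2 : Type} [Fintype J2] [DecidableEq J2]
variable {V3 : Type} [AddCommGroup V3] [Module K V3] {J3 : Type} [Fintype J3] [DecidableEq J3]
variable {V1' : Type} [AddCommGroup V1'] [Module K V1'] {J1' : Type} [Fintype J1'] [DecidableEq J1']
variable {V2' : Type} [AddCommGroup V2'] [Module K V2'] {J2' : Type} [Fintype J2'] [DecidableEq J2']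
variable {V3' : Type} [AddCommGroup V3'] [Module K V3'] {J3' : Type} [Fintype J3'] [DecidableEq J3']
variable {c1 : Canon C v bar l1 V1 J1} {c2 : Canon C v bar l2 V2 J2} {c3 : Canon C v bar l3 V3 J3}
variable {c1' : Canon C v bar l1' V1' J1'} {c2' : Canon C v bar l2' V2' J2'}
variable {c3' : Canon C v bar l3' V3' J3'}
variable {D1 : V1' ≃ₗ[K] Module.Dual K V1} {D2 : V2' ≃ₗ[K] Module.Dual K V2}
variable {D3 : V3' ≃ₗ[K] Module.Dual K V3}

/-- `q`-round numbers are bar invariant -/
theorem qint_bar (hbar : bar v = v⁻¹) (n : ℤ) : bar (qint v n) = qint v n := by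
  unfold qint
  rw [map_div₀, map_sub, map_sub, map_zpow₀, map_zpow₀, map_inv₀, hbar, inv_inv, inv_zpow',
    inv_zpow', neg_neg, ← neg_sub (v ^ n), ← neg_sub v, neg_div_neg_eq]

theorem qround_bar (hbar : bar v = v⁻¹) {x : K} (hx : IsQRound v x) : bar x = x := by
  obtain ⟨a, b, -, -, rfl⟩ := hx
  have h : ∀ l : List ℤ, bar (l.map (qint v)).prod = (l.map (qint v)).prod := by
    intro l
    induction l with
    | nil => simp
    | cons n l ih => rw [List.map_cons, List.prod_cons, map_mul, ih, qint_bar hbar]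
  rw [map_div₀, h, h]

/-- the weight of a vector of a triple tensor product fixed by all `K i` -/
theorem inv_depth (hv0 : v ≠ 0) (hv : ∀ n : ℤ, n ≠ 0 → v ^ n ≠ 1)
    {x : V1 ⊗[K] (V2 ⊗[K] V3)} (hx : ∀ i, (X3 c1 c2 c3).Kp i x = x) (hx0 : x ≠ 0) :
    ∃ κ : I → ℕ, (∀ i, wex C (L3 c1 c2 c3) (fun k => (κ k : ℤ)) i = 0) ∧
      x ∈ wsp C v (X3 c1 c2 c3) (L3 c1 c2 c3) (fun k => (κ k : ℤ)) := by
  have hb : ∀ j, tbb c1 c2 c3 j ∈ wsp C v (X3 c1 c2 c3) (L3 c1 c2 c3)
      (c1.dp j.1 + (c2.dp j.2.1 + c3.dp j.2.2)) := by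
    intro j
    rw [tbb_apply]
    exact wsp_tens hv0 (c1.B_wsp _) (wsp_tens hv0 (c2.B_wsp _) (c3.B_wsp _))
  have h1 : ∃ j, (tbb c1 c2 c3).repr x j ≠ 0 := by
    by_contra hne
    push Not at hne
    apply hx0
    apply (tbb c1 c2 c3).ext_elem
    intro j
    rw [hne j, map_zero, Finsupp.zero_apply]
  obtain ⟨j, hj⟩ := h1
  have h2 : ∀ i, wex C (L3 c1 c2 c3) (c1.dp j.1 + (c2.dp j.2.1 + c3.dp j.2.2)) i = 0 := by
    intro i
    have h3 := ba_repr_Kp (tbb c1 c2 c3) hb i x j
    rw [hx i] at h3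
    have h4 : v ^ wex C (L3 c1 c2 c3) (c1.dp j.1 + (c2.dp j.2.1 + c3.dp j.2.2)) i = 1 :=
      mul_right_cancel₀ hj (by rw [one_mul]; exact h3.symm)
    by_contra hne
    exact hv _ hne h4
  have h5 : (fun k => ((c1.dep j.1 k + (c2.dep j.2.1 k + c3.dep j.2.2 k) : ℕ) : ℤ)) =
      c1.dp j.1 + (c2.dp j.2.1 + c3.dp j.2.2) := by
    funext k
    simp [Canon.dp]
  refine ⟨fun k => c1.dep j.1 k + (c2.dep j.2.1 k + c3.dep j.2.2 k), ?_, ?_⟩
  · intro i
    rw [h5]
    exact h2 i
  · rw [h5]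
    intro i
    rw [h2 i, zpow_zero, one_smul]
    exact hx i

theorem pairing_twist (hv0 : v ≠ 0) (g : V3' ⊗[K] (V2' ⊗[K] V1')) (x : V1 ⊗[K] (V2 ⊗[K] V3)) :
    pairing (D1.trans (twist c1 hv0).dualMap) (D2.trans (twist c2 hv0).dualMap)
      (D3.trans (twist c3 hv0).dualMap) g x =
    pairing D1 D2 D3 g (TensorProduct.map (twist c1 hv0).toLinearMap
      (TensorProduct.map (twist c2 hv0).toLinearMap (twist c3 hv0).toLinearMap) x) := by
  have : pairing (D1.trans (twist c1 hv0).dualMap) (D2.trans (twist c2 hv0).dualMap)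
      (D3.trans (twist c3 hv0).dualMap) =
      (TensorProduct.map (twist c1 hv0).toLinearMap
      (TensorProduct.map (twist c2 hv0).toLinearMap (twist c3 hv0).toLinearMap)).dualMap ∘ₗ
        pairing D1 D2 D3 := by
    apply ext33
    intro z y x a b c
    simp only [LinearMap.comp_apply, LinearMap.dualMap_apply, pairing_tmul,
      TensorProduct.map_tmul]
    rfl
  exact LinearMap.congr_fun (LinearMap.congr_fun this g) x

theorem twist3_wsp (hv0 : v ≠ 0) (hv : ∀ n : ℤ, n ≠ 0 → v ^ n ≠ 1) {κ : I → ℤ}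
    {x : V1 ⊗[K] (V2 ⊗[K] V3)} (hx : x ∈ wsp C v (X3 c1 c2 c3) (L3 c1 c2 c3) κ) :
    TensorProduct.map (twist c1 hv0).toLinearMap
      (TensorProduct.map (twist c2 hv0).toLinearMap (twist c3 hv0).toLinearMap) x =
      v ^ rho2 C κ • x := by
  have hb : ∀ j, tbb c1 c2 c3 j ∈ wsp C v (X3 c1 c2 c3) (L3 c1 c2 c3)
      (c1.dp j.1 + (c2.dp j.2.1 + c3.dp j.2.2)) := by
    intro j
    rw [tbb_apply]
    exact wsp_tens hv0 (c1.B_wsp _) (wsp_tens hv0 (c2.B_wsp _) (c3.B_wsp _))
  have h1 := (mem_wsp_iff_repr (tbb c1 c2 c3) hv0 hv hb κ x).mp hx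
  conv_lhs => rw [← (tbb c1 c2 c3).sum_repr x]
  conv_rhs => rw [← (tbb c1 c2 c3).sum_repr x]
  rw [map_sum, Finset.smul_sum]
  refine Finset.sum_congr rfl fun j _ => ?_
  by_cases hj : (tbb c1 c2 c3).repr x j = 0
  · rw [hj, zero_smul, map_zero, smul_zero]
  · rw [map_smul, smul_comm, tbb_apply, tb, TensorProduct.map_tmul, TensorProduct.map_tmul,
      LinearEquiv.coe_coe, LinearEquiv.coe_coe, LinearEquiv.coe_coe, twist_B, twist_B, twist_B,
      TensorProduct.smul_tmul_smul, TensorProduct.smul_tmul_smul, ← h1 j hj,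
      rho2_add, rho2_add, zpow_add₀ hv0, zpow_add₀ hv0]

theorem det_op [CharZero K] (hvt : Transcendental ℚ v) (hbb : ∀ r, bar (bar r) = r)
    (hbar : bar v = v⁻¹) (sig : K ≃+* K) (hsig : sig v = -v) (hss : ∀ r, sig (sig r) = r)
    (t : TCanon c1 c2 c3) (t' : TCanon c3' c2' c1')
    (hD1 : IsDualityInv c1' c1 D1) (hD2 : IsDualityInv c2' c2 D2) (hD3 : IsDualityInv c3' c3 D3)
    {m : ℕ} (f : Module.Basis (Fin m) K (c1.X.tens (c2.X.tens c3.X)).inv)
    (hf : ∀ j, IsDualCanon t (f j : V1 ⊗[K] (V2 ⊗[K] V3)))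
    (g : Module.Basis (Fin m) K (c3'.X.tens (c2'.X.tens c1'.X)).inv)
    (hg : ∀ j, IsDualCanon t' (g j : V3' ⊗[K] (V2' ⊗[K] V1'))) :
    (∃ κ : I → ℕ, (m ≠ 0 → ∀ i, ∑ k, C.a i k * (κ k : ℤ) = l1 i + l2 i + l3 i) ∧
      IsQRound v (v ^ (2 * m * ∑ k, C.d k * (κ k : ℤ)) *
        Matrix.det (Matrix.of fun i j => pairing D1 D2 D3 (g i).1 (f j).1))) ∧
    (IsQRound v (Matrix.det (Matrix.of fun i j => pairing D1 D2 D3 (g i).1 (f j).1)) ↔
      m = 0 ∨ ∀ i, l1 i = 0 ∧ l2 i = 0 ∧ l3 i = 0) := by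
  have hv0 : v ≠ 0 := ne_zero_of_tr hvt
  have hv := zpow_ne_one_of_tr hvt
  have hround := det_round hvt hbb hbar sig hsig hss t t' (hD1.twist hv0 hv) (hD2.twist hv0 hv)
    (hD3.twist hv0 hv) f hf g hg
  rcases Nat.eq_zero_or_pos m with hm | hm
  · subst hm
    have h1 : Matrix.det (Matrix.of fun i j => pairing D1 D2 D3 (g i).1 (f j).1) = 1 :=
      Matrix.det_fin_zero
    rw [h1]
    refine ⟨⟨fun _ => 0, fun h => absurd rfl h, ?_⟩, ?_⟩
    · simpa using IsQRound.one v
    · exact ⟨fun _ => Or.inl rfl, fun _ => IsQRound.one v⟩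
  · obtain ⟨κ, hκ, hκ'⟩ := inv_depth (c1 := c1) (c2 := c2) (c3 := c3) hv0 hv
      (x := (f ⟨0, hm⟩).1) (fun i => ((f ⟨0, hm⟩).2 i).2.2)
      (fun h => f.ne_zero ⟨0, hm⟩ (Subtype.ext h))
    have hκf : ∀ j, (f j).1 ∈ wsp C v (X3 c1 c2 c3) (L3 c1 c2 c3) (fun k => (κ k : ℤ)) := by
      intro j i
      rw [hκ i, zpow_zero, one_smul]
      exact ((f j).2 i).2.2
    have hdet : Matrix.det (Matrix.of fun i j =>
        pairing (D1.trans (twist c1 hv0).dualMap) (D2.trans (twist c2 hv0).dualMap)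
          (D3.trans (twist c3 hv0).dualMap) (g i).1 (f j).1) =
        v ^ (2 * m * ∑ k, C.d k * (κ k : ℤ)) *
          Matrix.det (Matrix.of fun i j => pairing D1 D2 D3 (g i).1 (f j).1) := by
      have h1 : (Matrix.of fun i j =>
          pairing (D1.trans (twist c1 hv0).dualMap) (D2.trans (twist c2 hv0).dualMap)
            (D3.trans (twist c3 hv0).dualMap) (g i).1 (f j).1) =
          v ^ rho2 C (fun k => (κ k : ℤ)) •
            (Matrix.of fun i j => pairing D1 D2 D3 (g i).1 (f j).1) := by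
        ext i j
        rw [Matrix.of_apply, pairing_twist, twist3_wsp hv0 hv (hκf j), map_smul,
          Matrix.smul_apply, Matrix.of_apply]
      rw [h1, Matrix.det_smul, Fintype.card_fin, ← zpow_natCast, ← zpow_mul]
      congr 2
      unfold rho2
      rw [Finset.sum_mul, Finset.mul_sum]
      refine Finset.sum_congr rfl fun k _ => ?_
      ring
    rw [hdet] at hround
    have hsum : ∀ i, ∑ k, C.a i k * (κ k : ℤ) = l1 i + l2 i + l3 i := by
      intro i
      have h1 := hκ i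
      unfold wex L3 Canon.L at h1
      simp only [Pi.add_apply] at h1
      have h2 : ∑ k, C.d i * C.a i k * (κ k : ℤ) = C.d i * ∑ k, C.a i k * (κ k : ℤ) := by
        rw [Finset.mul_sum]
        refine Finset.sum_congr rfl fun k _ => ?_
        ring
      rw [h2, ← mul_sub] at h1
      rcases mul_eq_zero.mp h1 with h | h
      · exact absurd h (ne_of_gt (C.d_pos i))
      · linarith
    refine ⟨⟨κ, fun _ => hsum, hround⟩, ?_⟩
    constructor
    · intro h
      right
      set x := Matrix.det (Matrix.of fun i j => pairing D1 D2 D3 (g i).1 (f j).1) with hx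
      have hx0 : x ≠ 0 := h.ne_zero (tr_of_transcendental hvt)
      set N := 2 * (m : ℤ) * ∑ k, C.d k * (κ k : ℤ) with hN
      have h1 := qround_bar hbar h
      have h2 := qround_bar hbar hround
      rw [map_mul, h1, map_zpow₀, hbar] at h2
      have h3 : v ^ (2 * N) = 1 := by
        have h4 := mul_right_cancel₀ hx0 h2
        rw [inv_zpow'] at h4
        calc v ^ (2 * N) = v ^ N * v ^ N := by rw [← zpow_add₀ hv0]; congr 1; ring
          _ = v ^ (-N) * v ^ N := by rw [h4]
          _ = 1 := by rw [← zpow_add₀ hv0, neg_add_cancel, zpow_zero]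
      have hN0 : N = 0 := by
        by_contra hne
        exact hv (2 * N) (by omega) h3
      have hs : ∑ k, C.d k * (κ k : ℤ) = 0 := by
        rcases mul_eq_zero.mp hN0 with h | h
        · omega
        · exact h
      have hκ0 : ∀ k, κ k = 0 := by
        intro k
        have h5 := (Finset.sum_eq_zero_iff_of_nonneg (fun k _ =>
          mul_nonneg (le_of_lt (C.d_pos k)) (Int.natCast_nonneg (κ k)))).mp hs k
          (Finset.mem_univ k)
        rcases mul_eq_zero.mp h5 with h | h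
        · exact absurd h (ne_of_gt (C.d_pos k))
        · exact_mod_cast h
      intro i
      have h6 := hsum i
      simp only [hκ0, Nat.cast_zero, mul_zero, Finset.sum_const_zero] at h6
      omega
    · rintro (h | h)
      · omega
      · have hκ0 : (fun k => (κ k : ℤ)) = 0 := by
          apply wex_inj (C := C) (L := L3 c1 c2 c3)
          intro i
          rw [hκ i]
          simp [wex, L3, Canon.L, (h i).1, (h i).2.1, (h i).2.2]
        have hs : ∑ k, C.d k * (κ k : ℤ) = 0 := by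
          refine Finset.sum_eq_zero fun k _ => ?_
          have := congrFun hκ0 k
          simp only [Pi.zero_apply] at this
          rw [this, mul_zero]
        rw [hs, mul_zero, zpow_zero, one_mul] at hround
        exact hround

end triple

end Pool.Agent.Work.MP_8ad3a8_al
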