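import Mathlib
import Pool.Agent.Work.MP_8ad3a8_al.Op

set_option autoImplicit false
set_option linter.unusedSectionVars false

/-!
Bundled forms of the data of the main theorem.
-/

namespace Pool.Agent.Work.MP_8ad3a8_al

open TensorProduct

section

variable {I : Type} [Fintype I] [DecidableEq I] {K : Type} [Field K]
variable {C : Cartan I} {v : K} {bar : K ≃+* K}
variable {l1 l2 l3 l1' l2' l3' : I → ℕ}
variable {V1 : Type} [AddCommGroup V1] [Module K V1] {J1 : Type} [Fintype J1] [DecidableEq J1]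
variable {V2 : Type} [AddCommGroup V2] [Module K V2] {J2 : Type} [Fintype J2] [DecidableEq J2]
variable {V3 : Type} [AddCommGroup V3] [Module K V3] {J3 : Type} [Fintype J3] [DecidableEq J3]

/-- The basis of the space of invariants of `V1 ⊗ V2 ⊗ V3` formed by elements of the dual canonical
basis of the tensor product. -/
structure InvBasis (c1 : Canon C v bar l1 V1 J1) (c2 : Canon C v bar l2 V2 J2)
    (c3 : Canon C v bar l3 V3 J3) (m : ℕ) where
  t : TCanon c1 c2 c3
  f : Fin m → V1 ⊗[K] (V2 ⊗[K] V3)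
  indep : LinearIndependent K f
  span : Submodule.span K (Set.range f) = (c1.X.tens (c2.X.tens c3.X)).inv
  dual : ∀ j, IsDualCanon t (f j)

/-- the associated basis -/
noncomputable def InvBasis.bas {c1 : Canon C v bar l1 V1 J1} {c2 : Canon C v bar l2 V2 J2}
    {c3 : Canon C v bar l3 V3 J3} {m : ℕ} (F : InvBasis c1 c2 c3 m) :
    Module.Basis (Fin m) K (c1.X.tens (c2.X.tens c3.X)).inv :=
  (Module.Basis.span F.indep).map (LinearEquiv.ofEq _ _ F.span)

theorem InvBasis.bas_apply {c1 : Canon C v bar l1 V1 J1} {c2 : Canon C v bar l2 V2 J2}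
    {c3 : Canon C v bar l3 V3 J3} {m : ℕ} (F : InvBasis c1 c2 c3 m) (j : Fin m) :
    (F.bas j).1 = F.f j := by
  rw [InvBasis.bas, Module.Basis.map_apply]
  show ((Module.Basis.span F.indep j : Submodule.span K (Set.range F.f)) : _) = F.f j
  rw [Module.Basis.span_apply]

variable {V1' : Type} [AddCommGroup V1'] [Module K V1'] {J1' : Type} [Fintype J1'] [DecidableEq J1']
variable {V2' : Type} [AddCommGroup V2'] [Module K V2'] {J2' : Type} [Fintype J2'] [DecidableEq J2']
variable {V3' : Type} [AddCommGroup V3'] [Module K V3'] {J3' : Type} [Fintype J3'] [DecidableEq J3']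

/-- The determinant of the matrix of the trihedron pairing. -/
noncomputable def thetaDet (D1 : V1' ≃ₗ[K] Module.Dual K V1) (D2 : V2' ≃ₗ[K] Module.Dual K V2)
    (D3 : V3' ≃ₗ[K] Module.Dual K V3) {m : ℕ} (f : Fin m → V1 ⊗[K] (V2 ⊗[K] V3))
    (g : Fin m → V3' ⊗[K] (V2' ⊗[K] V1')) : K :=
  (Matrix.of fun i j => pairing D1 D2 D3 (g i) (f j)).det

end

end Pool.Agent.Work.MP_8ad3a8_al
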