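import Mathlib

set_option autoImplicit false

/-!
The automorphisms `q ↦ q⁻¹` and `q ↦ -q` of the field `ℂ(q)`.
-/

namespace Pool.Agent.Work.MP_8ad3a8_al

open Polynomial

theorem ratX_ne : (RatFunc.X : RatFunc ℂ) ≠ 0 := RatFunc.X_ne_zero

theorem ratX_tr : Transcendental ℂ (RatFunc.X : RatFunc ℂ) := RatFunc.transcendental_X

theorem ratX_inv_tr : Transcendental ℂ (RatFunc.X : RatFunc ℂ)⁻¹ := by
  intro h
  exact ratX_tr (by simpa using h.inv)

theorem ratX_neg_tr : Transcendental ℂ (-(RatFunc.X : RatFunc ℂ)) := by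
  intro h
  exact ratX_tr (by simpa using h.neg)

theorem ratX_trQ :
    @Transcendental ℚ (RatFunc ℂ) _ _ DivisionRing.toRatAlgebra RatFunc.X := by
  rintro ⟨p, hp, h⟩
  refine ratX_tr ⟨p.map (algebraMap ℚ ℂ), ?_, ?_⟩
  · exact (Polynomial.map_ne_zero_iff (algebraMap ℚ ℂ).injective).mpr hp
  · rw [aeval_def, eval₂_map]
    rw [aeval_def] at h
    have h2 : (algebraMap ℂ (RatFunc ℂ)).comp (algebraMap ℚ ℂ) =
        @algebraMap ℚ (RatFunc ℂ) _ _ DivisionRing.toRatAlgebra := Subsingleton.elim _ _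
    rw [h2]
    exact h

/-- The endomorphism of `ℂ(q)` sending `q` to `y`. -/
noncomputable def substHom (y : RatFunc ℂ) (hy : Transcendental ℂ y) :
    RatFunc ℂ →ₐ[ℂ] RatFunc ℂ :=
  RatFunc.liftAlgHom (aeval y)
    (nonZeroDivisors_le_comap_nonZeroDivisors_of_injective _
      (transcendental_iff_injective.mp hy))

theorem substHom_X (y : RatFunc ℂ) (hy : Transcendental ℂ y) :
    substHom y hy RatFunc.X = y := by
  have h := RatFunc.liftAlgHom_apply_div (aeval y)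
    (nonZeroDivisors_le_comap_nonZeroDivisors_of_injective _
      (transcendental_iff_injective.mp hy)) (X : ℂ[X]) 1
  rw [map_one, div_one, map_one, div_one, aeval_X, RatFunc.algebraMap_X] at h
  exact h

theorem ratHom_ext {f g : RatFunc ℂ →ₐ[ℂ] RatFunc ℂ} (h : f RatFunc.X = g RatFunc.X) : f = g := by
  have h1 : f.comp (Algebra.algHom ℂ ℂ[X] (RatFunc ℂ)) =
      g.comp (Algebra.algHom ℂ ℂ[X] (RatFunc ℂ)) := by
    apply Polynomial.algHom_ext
    show f (algebraMap ℂ[X] (RatFunc ℂ) X) = g (algebraMap ℂ[X] (RatFunc ℂ) X)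
    rw [RatFunc.algebraMap_X, h]
  ext x
  rw [← RatFunc.num_div_denom x, map_div₀, map_div₀]
  congr 1
  · exact DFunLike.congr_fun h1 x.num
  · exact DFunLike.congr_fun h1 x.denom

/-- The `ℂ`-linear automorphism `q ↦ q⁻¹` of `ℂ(q)`. -/
noncomputable def qbar : RatFunc ℂ ≃ₐ[ℂ] RatFunc ℂ :=
  AlgEquiv.ofAlgHom (substHom (RatFunc.X)⁻¹ ratX_inv_tr) (substHom (RatFunc.X)⁻¹ ratX_inv_tr)
    (ratHom_ext (by
      rw [AlgHom.comp_apply, substHom_X, map_inv₀, substHom_X, inv_inv]; rfl))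
    (ratHom_ext (by
      rw [AlgHom.comp_apply, substHom_X, map_inv₀, substHom_X, inv_inv]; rfl))

theorem qbar_X : qbar RatFunc.X = (RatFunc.X)⁻¹ := substHom_X _ ratX_inv_tr

theorem qbar_qbar (r : RatFunc ℂ) : qbar (qbar r) = r := qbar.symm_apply_apply r

/-- The `ℂ`-linear automorphism `q ↦ -q` of `ℂ(q)`. -/
noncomputable def qsig : RatFunc ℂ ≃ₐ[ℂ] RatFunc ℂ :=
  AlgEquiv.ofAlgHom (substHom (-RatFunc.X) ratX_neg_tr) (substHom (-RatFunc.X) ratX_neg_tr)
    (ratHom_ext (by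
      rw [AlgHom.comp_apply, substHom_X, map_neg, substHom_X, neg_neg]; rfl))
    (ratHom_ext (by
      rw [AlgHom.comp_apply, substHom_X, map_neg, substHom_X, neg_neg]; rfl))

theorem qsig_X : qsig RatFunc.X = -RatFunc.X := substHom_X _ ratX_neg_tr

theorem qsig_qsig (r : RatFunc ℂ) : qsig (qsig r) = r := qsig.symm_apply_apply r

end Pool.Agent.Work.MP_8ad3a8_al
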