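import Mathlib
import Pool.Agent.Work.MP_8ad3a8_al.Rat

set_option autoImplicit false

/-!
Fields isomorphic to `ℂ(q)`.
-/

namespace Pool.Agent.Work.MP_8ad3a8_al

open Polynomial

/-- `K` is the field `ℂ(q)` and `bar` its `ℂ`-linear automorphism `q ↦ q⁻¹`. -/
structure IsCq {K : Type} [Field K] (q : K) (bar : K ≃+* K) : Prop where
  iso : ∃ e : RatFunc ℂ ≃+* K, e RatFunc.X = q ∧ ∀ c : ℂ, bar (e (RatFunc.C c)) = e (RatFunc.C c)
  bar_q : bar q = q⁻¹

theorem isCq_self : IsCq (RatFunc.X : RatFunc ℂ) qbar.toRingEquiv where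
  iso := ⟨RingEquiv.refl _, rfl, fun c => qbar.commutes c⟩
  bar_q := qbar_X

variable {K : Type} [Field K] {q : K} {bar : K ≃+* K}

theorem IsCq.charZero (h : IsCq q bar) : CharZero K := by
  obtain ⟨e, -, -⟩ := h.iso
  have : CharZero (RatFunc ℂ) := charZero_of_injective_algebraMap
    (algebraMap ℂ (RatFunc ℂ)).injective
  exact charZero_of_injective_ringHom (f := e.toRingHom) e.injective

theorem IsCq.tr (h : IsCq q bar) [CharZero K] : Transcendental ℚ q := by
  obtain ⟨e, he, -⟩ := h.iso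
  rintro ⟨p, hp, h0⟩
  refine ratX_trQ ⟨p, hp, ?_⟩
  apply e.injective
  rw [map_zero, ← h0, ← he, aeval_def, aeval_def]
  have h1 := Polynomial.hom_eval₂ p (@algebraMap ℚ (RatFunc ℂ) _ _ DivisionRing.toRatAlgebra)
    e.toRingHom RatFunc.X
  have h2 : e.toRingHom.comp (@algebraMap ℚ (RatFunc ℂ) _ _ DivisionRing.toRatAlgebra) =
      algebraMap ℚ K := Subsingleton.elim _ _
  rw [h2] at h1
  exact h1

theorem IsCq.bar_bar (h : IsCq q bar) (r : K) : bar (bar r) = r := by
  obtain ⟨e, he, hc⟩ := h.iso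
  let f : RatFunc ℂ →ₐ[ℂ] RatFunc ℂ :=
    { toRingHom := ((e.trans bar).trans (bar.trans e.symm)).toRingHom
      commutes' := fun c => by
        show e.symm (bar (bar (e (RatFunc.C c)))) = RatFunc.C c
        rw [hc, hc, e.symm_apply_apply] }
  have hf : f = AlgHom.id ℂ _ := by
    apply ratHom_ext
    show e.symm (bar (bar (e RatFunc.X))) = RatFunc.X
    rw [he, h.bar_q, map_inv₀, h.bar_q, inv_inv, ← he, e.symm_apply_apply]
  have h1 : e.symm (bar (bar (e (e.symm r)))) = e.symm r := DFunLike.congr_fun hf (e.symm r)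
  rw [e.apply_symm_apply] at h1
  exact e.symm.injective h1

theorem IsCq.exists_sig (h : IsCq q bar) :
    ∃ sig : K ≃+* K, sig q = -q ∧ ∀ r, sig (sig r) = r := by
  obtain ⟨e, he, -⟩ := h.iso
  refine ⟨(e.symm.trans qsig.toRingEquiv).trans e, ?_, ?_⟩
  · show e (qsig (e.symm q)) = -q
    rw [← he, e.symm_apply_apply, qsig_X, map_neg]
  · intro r
    show e (qsig (e.symm (e (qsig (e.symm r))))) = r
    rw [e.symm_apply_apply, qsig_qsig, e.apply_symm_apply]

end Pool.Agent.Work.MP_8ad3a8_al
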