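import Mathlib
import Pool.Agent.Work.MP_8ad3a8_al.Basic

set_option autoImplicit false
set_option linter.unusedSectionVars false

/-!
Sanity check: for `sl₂` and the highest weights `(1, 1, 0)` all the data exist and the determinant
is `-[2]`.
-/

namespace Pool.Agent.Work.MP_8ad3a8_al.Example

open TensorProduct

/-- The Cartan matrix of `sl₂`. -/
def A1 : Cartan Unit where
  a _ _ := 2
  d _ := 1
  d_pos _ := one_pos
  diag _ := rfl
  off i j h := absurd (Subsingleton.elim i j) h
  symm _ _ := rfl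
  pos x hx := by
    have h : x () ≠ 0 := fun h => hx (funext fun _ => h)
    simp only [Finset.univ_unique, Finset.sum_singleton]
    have : 0 < x () * x () := mul_self_pos.mpr h
    show 0 < x () * (1 * 2) * x ()
    nlinarith

variable {K : Type} [Field K] {v : K} {bar : K ≃+* K}

theorem qfact_zero (u : K) : qfact u 0 = 1 := by simp [qfact]

theorem dpow_zero' {V : Type} [AddCommGroup V] [Module K V] (u : K) (T : Module.End K V) :
    dpow u T 0 = 1 := by simp [dpow, qfact]

/-- A semilinear map given on a basis. -/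
noncomputable def semi {V J : Type} [AddCommGroup V] [Module K V] [Fintype J]
    (bar : K ≃+* K) (b : Module.Basis J K V) (P : J → V) : V →+ V where
  toFun x := ∑ j, bar (b.repr x j) • P j
  map_zero' := by simp
  map_add' x y := by simp [add_smul, Finset.sum_add_distrib]

theorem semi_smul {V J : Type} [AddCommGroup V] [Module K V] [Fintype J]
    (b : Module.Basis J K V) (P : J → V) (r : K) (x : V) :
    semi bar b P (r • x) = bar r • semi bar b P x := by
  simp [semi, Finset.smul_sum, smul_smul]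

theorem semi_b {V J : Type} [AddCommGroup V] [Module K V] [Fintype J] [DecidableEq J]
    (b : Module.Basis J K V) (P : J → V) (j : J) : semi bar b P (b j) = P j := by
  show ∑ k, bar (b.repr (b j) k) • P k = P j
  rw [Finset.sum_eq_single j]
  · simp
  · intro k _ hk
    rw [b.repr_self, Finsupp.single_eq_of_ne hk, map_zero, zero_smul]
  · intro h
    exact absurd (Finset.mem_univ j) h

theorem semi_ext {V J : Type} [AddCommGroup V] [Module K V] [Fintype J] (b : Module.Basis J K V)
    {f g : V →+ V} {s : K → K} (hf : ∀ r x, f (r • x) = s r • f x)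
    (hg : ∀ r x, g (r • x) = s r • g x) (h : ∀ j, f (b j) = g (b j)) (x : V) : f x = g x := by
  rw [← b.sum_repr x, map_sum, map_sum]
  exact Finset.sum_congr rfl fun j _ => by rw [hf, hg, h]

theorem semi_ext' {V V' J : Type} [AddCommGroup V] [Module K V] [AddCommGroup V'] [Module K V']
    [Fintype J] (b : Module.Basis J K V) {f g : V → V'} {s : K → K}
    (fa : ∀ x y, f (x + y) = f x + f y) (ga : ∀ x y, g (x + y) = g x + g y)
    (hf : ∀ r x, f (r • x) = s r • f x)
    (hg : ∀ r x, g (r • x) = s r • g x) (h : ∀ j, f (b j) = g (b j)) (x : V) : f x = g x := by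
  have h1 : AddMonoidHom.mk' f fa x = AddMonoidHom.mk' g ga x := by
    rw [← b.sum_repr x, map_sum, map_sum]
    refine Finset.sum_congr rfl fun j _ => ?_
    show f _ = g _
    rw [hf, hg, h]
  exact h1

theorem semi_isBar {V J : Type} [AddCommGroup V] [Module K V] [Fintype J] [DecidableEq J]
    (hbb : ∀ r, bar (bar r) = r) (X : Ops Unit K V) (b : Module.Basis J K V) (P : J → V)
    (h0 : ∀ j, semi bar b P (P j) = b j)
    (hE : ∀ i j, semi bar b P (X.E i (b j)) = X.E i (P j))
    (hF : ∀ i j, semi bar b P (X.F i (b j)) = X.F i (P j))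
    (hK : ∀ i j, semi bar b P (X.Kp i (b j)) = X.Km i (P j)) : IsBar bar X (semi bar b P) where
  smul := semi_smul b P
  invol x := by
    refine semi_ext b (f := (semi bar b P).comp (semi bar b P)) (g := AddMonoidHom.id V)
      (s := fun r => r) ?_ ?_ ?_ x
    · intro r x
      show semi bar b P (semi bar b P (r • x)) = r • semi bar b P (semi bar b P x)
      rw [semi_smul, semi_smul, hbb]
    · intro r x; rfl
    · intro j
      show semi bar b P (semi bar b P (b j)) = b j
      rw [semi_b, h0]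
  E i x := by
    refine semi_ext b (f := (semi bar b P).comp (X.E i).toAddMonoidHom)
      (g := (X.E i).toAddMonoidHom.comp (semi bar b P)) (s := bar) ?_ ?_ ?_ x
    · intro r x
      show semi bar b P (X.E i (r • x)) = bar r • semi bar b P (X.E i x)
      rw [map_smul, semi_smul]
    · intro r x
      show X.E i (semi bar b P (r • x)) = bar r • X.E i (semi bar b P x)
      rw [semi_smul, map_smul]
    · intro j
      show semi bar b P (X.E i (b j)) = X.E i (semi bar b P (b j))
      rw [semi_b, hE]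
  F i x := by
    refine semi_ext b (f := (semi bar b P).comp (X.F i).toAddMonoidHom)
      (g := (X.F i).toAddMonoidHom.comp (semi bar b P)) (s := bar) ?_ ?_ ?_ x
    · intro r x
      show semi bar b P (X.F i (r • x)) = bar r • semi bar b P (X.F i x)
      rw [map_smul, semi_smul]
    · intro r x
      show X.F i (semi bar b P (r • x)) = bar r • X.F i (semi bar b P x)
      rw [semi_smul, map_smul]
    · intro j
      show semi bar b P (X.F i (b j)) = X.F i (semi bar b P (b j))
      rw [semi_b, hF]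
  Kp i x := by
    refine semi_ext b (f := (semi bar b P).comp (X.Kp i).toAddMonoidHom)
      (g := (X.Km i).toAddMonoidHom.comp (semi bar b P)) (s := bar) ?_ ?_ ?_ x
    · intro r x
      show semi bar b P (X.Kp i (r • x)) = bar r • semi bar b P (X.Kp i x)
      rw [map_smul, semi_smul]
    · intro r x
      show X.Km i (semi bar b P (r • x)) = bar r • X.Km i (semi bar b P x)
      rw [semi_smul, map_smul]
    · intro j
      show semi bar b P (X.Kp i (b j)) = X.Km i (semi bar b P (b j))
      rw [semi_b, hK]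

/-! ### The trivial representation -/

/-- trivial representation -/
def X0 : Ops Unit K K := ⟨fun _ => 0, fun _ => 0, fun _ => 1, fun _ => 1⟩

/-- basis of the trivial representation -/
noncomputable def b0 : Module.Basis Unit K K := Module.Basis.singleton Unit K

theorem b0_apply (j : Unit) : (b0 : Module.Basis Unit K K) j = 1 := by simp [b0]

theorem mon_X0 (w : List (Unit × ℕ)) : mon A1 v (X0 : Ops Unit K K) (b0 ()) w = 0 ∨
    mon A1 v (X0 : Ops Unit K K) (b0 ()) w = b0 () := by
  induction w with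
  | nil => right; rfl
  | cons p w ih =>
    rcases Nat.eq_zero_or_pos p.2 with h | h
    · have : mon A1 v (X0 : Ops Unit K K) (b0 ()) (p :: w) = mon A1 v X0 (b0 ()) w := by
        show dpow _ _ p.2 (mon A1 v X0 (b0 ()) w) = _
        rw [h, dpow_zero']; rfl
      rw [this]; exact ih
    · left
      show dpow _ _ p.2 (mon A1 v X0 (b0 ()) w) = _
      have : (X0 : Ops Unit K K).F p.1 ^ p.2 = 0 := by
        show (0 : Module.End K K) ^ p.2 = 0
        exact zero_pow (Nat.pos_iff_ne_zero.mp h)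
      rw [dpow, this, smul_zero]; rfl

/-- the canonical data of the trivial representation -/
noncomputable def c0 (hbb : ∀ r, bar (bar r) = r) :
    Canon A1 v bar (fun _ => 0) K Unit where
  X := X0
  rep :=
    { Kp_Km := fun _ => rfl
      Km_Kp := fun _ => rfl
      K_comm := fun _ _ => rfl
      K_E := fun _ _ => by simp [X0]
      K_F := fun _ _ => by simp [X0]
      E_F := fun _ _ => by simp [X0]
      serre_E := fun i j h => absurd (Subsingleton.elim i j) h
      serre_F := fun i j h => absurd (Subsingleton.elim i j) h }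
  B := b0
  top := ()
  top_E := fun _ => rfl
  top_K := fun _ => by simp [X0]
  irr := fun N _ => by
    by_cases h : N = ⊥
    · exact Or.inl h
    · right
      obtain ⟨x, hx, hx0⟩ := N.ne_bot_iff.mp h
      rw [eq_top_iff]
      intro y _
      have : y = (y * x⁻¹) • x := by rw [smul_eq_mul, inv_mul_cancel_right₀ hx0]
      rw [this]
      exact N.smul_mem _ hx
  dep := fun _ _ => 0
  wt := fun _ _ => by simp [X0, wex]
  psi := semi bar b0 b0
  isBar := by
    refine semi_isBar hbb _ _ _ (fun j => semi_b _ _ _) ?_ ?_ ?_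
    · intro i j; simp [X0]
    · intro i j; simp [X0]
    · intro i j
      show semi bar b0 b0 (b0 j) = b0 j
      rw [semi_b]
  form := LinearMap.mul K K
  isForm :=
    { symm := fun x y => by simp [mul_comm]
      E := fun _ _ _ => by simp [X0]
      F := fun _ _ _ => by simp [X0]
      Kp := fun _ _ _ => by simp [X0] }
  form_top := by simp [b0_apply]
  psi_B := fun j => semi_b _ _ _
  lattice := by
    apply le_antisymm
    · apply Submodule.span_le.mpr
      rintro _ ⟨j, rfl⟩
      exact Submodule.subset_span ⟨[], rfl⟩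
    · apply Submodule.span_le.mpr
      rintro _ ⟨w, rfl⟩
      rcases mon_X0 (v := v) w with h | h
      · rw [h]; exact Submodule.zero_mem _
      · rw [h]; exact Submodule.subset_span ⟨_, rfl⟩
  orth := fun j k => ⟨0, Subring.zero_mem _, by simp [b0_apply]⟩

/-! ### The two-dimensional representation -/

/-- basis of the two-dimensional representation -/
noncomputable def b1 : Module.Basis Bool K (Bool → K) := Pi.basisFun K Bool

/-- two-dimensional representation, `b1 false` is the highest weight vector -/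
noncomputable def X1 (v : K) : Ops Unit K (Bool → K) where
  E _ := b1.constr K fun j => if j then b1 false else 0
  F _ := b1.constr K fun j => if j then 0 else b1 true
  Kp _ := b1.constr K fun j => if j then v⁻¹ • b1 true else v • b1 false
  Km _ := b1.constr K fun j => if j then v • b1 true else v⁻¹ • b1 false

variable (v) in
theorem E_f (i : Unit) : (X1 v).E i (b1 false) = 0 := by
  simp [X1]

variable (v) in
theorem E_t (i : Unit) : (X1 v).E i (b1 true) = b1 false := by
  simp [X1]

variable (v) in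
theorem F_f (i : Unit) : (X1 v).F i (b1 false) = b1 true := by
  simp [X1]

variable (v) in
theorem F_t (i : Unit) : (X1 v).F i (b1 true) = 0 := by
  simp [X1]

variable (v) in
theorem Kp_f (i : Unit) : (X1 v).Kp i (b1 false) = v • b1 false := by
  simp [X1]

variable (v) in
theorem Kp_t (i : Unit) : (X1 v).Kp i (b1 true) = v⁻¹ • b1 true := by
  simp [X1]

variable (v) in
theorem Km_f (i : Unit) : (X1 v).Km i (b1 false) = v⁻¹ • b1 false := by
  simp [X1]

variable (v) in
theorem Km_t (i : Unit) : (X1 v).Km i (b1 true) = v • b1 true := by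
  simp [X1]

theorem ext1 {f g : Module.End K (Bool → K)} (h0 : f (b1 false) = g (b1 false))
    (h1 : f (b1 true) = g (b1 true)) : f = g := by
  apply b1.ext
  intro j
  cases j
  · exact h0
  · exact h1

theorem rel1 (hv0 : v ≠ 0) (hv1 : v - v⁻¹ ≠ 0) : IsURep A1 v (X1 v) where
  Kp_Km i := ext1 (by simp [Kp_f, Km_f, smul_smul, hv0]) (by simp [Kp_t, Km_t, smul_smul, hv0])
  Km_Kp i := ext1 (by simp [Kp_f, Km_f, smul_smul, hv0]) (by simp [Kp_t, Km_t, smul_smul, hv0])
  K_comm i j := rfl
  K_E i j := by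
    show _ = v ^ ((1 : ℤ) * 2) • _
    refine ext1 (by simp [Kp_f, E_f]) ?_
    simp only [Module.End.mul_apply, LinearMap.smul_apply, E_t, Kp_f, Kp_t, map_smul, smul_smul]
    congr 1
    rw [one_mul, zpow_ofNat, pow_two, mul_assoc, mul_inv_cancel₀ hv0, mul_one]
  K_F i j := by
    show _ = v ^ (-((1 : ℤ) * 2)) • _
    refine ext1 ?_ (by simp [Kp_t, F_t])
    simp only [Module.End.mul_apply, LinearMap.smul_apply, F_f, Kp_f, Kp_t, map_smul, smul_smul]
    congr 1
    rw [one_mul, zpow_neg, zpow_ofNat, pow_two, mul_inv, mul_assoc, inv_mul_cancel₀ hv0, mul_one]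
  E_F i j := by
    rw [if_pos (Subsingleton.elim i j)]
    show _ = (v ^ (1 : ℤ) - v ^ (-1 : ℤ))⁻¹ • _
    rw [zpow_one, zpow_neg_one]
    refine ext1 ?_ ?_
    · simp only [Module.End.mul_apply, LinearMap.smul_apply, LinearMap.sub_apply, E_f, F_f, E_t,
        Kp_f, Km_f, map_zero, sub_zero, ← sub_smul, smul_smul, inv_mul_cancel₀ hv1, one_smul]
    · simp only [Module.End.mul_apply, LinearMap.smul_apply, LinearMap.sub_apply, F_f, E_t, F_t,
        Kp_t, Km_t, map_zero, zero_sub, ← sub_smul, smul_smul]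
      have h : (v - v⁻¹)⁻¹ * (v⁻¹ - v) = -1 := by
        rw [← neg_sub v v⁻¹, mul_neg, inv_mul_cancel₀ hv1]
      rw [h, neg_smul, one_smul]
  serre_E i j h := absurd (Subsingleton.elim i j) h
  serre_F i j h := absurd (Subsingleton.elim i j) h

theorem F1_sq (i : Unit) : (X1 v).F i * (X1 v).F i = 0 :=
  ext1 (by simp [F_f, F_t]) (by simp [F_t])

theorem mon_X1 (hv1 : v - v⁻¹ ≠ 0) (w : List (Unit × ℕ)) :
    mon A1 v (X1 v) (b1 false) w = 0 ∨ mon A1 v (X1 v) (b1 false) w = b1 false ∨
      mon A1 v (X1 v) (b1 false) w = b1 true := by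
  induction w with
  | nil => right; left; rfl
  | cons p w ih =>
    have hq : dpow (v ^ (1 : ℤ)) ((X1 v).F p.1) 1 = (X1 v).F p.1 := by
      simp [dpow, qfact, qint, div_self hv1]
    have e : mon A1 v (X1 v) (b1 false) (p :: w) =
      dpow (v ^ (1 : ℤ)) ((X1 v).F p.1) p.2 (mon A1 v (X1 v) (b1 false) w) := rfl
    rw [e]
    rcases Nat.lt_or_ge p.2 2 with h | h
    · interval_cases p.2
      · rw [dpow_zero']; exact ih
      · rw [hq]
        rcases ih with h | h | h
        · left; rw [h, map_zero]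
        · right; right; rw [h, F_f]
        · left; rw [h, F_t]
    · left
      have : (X1 v).F p.1 ^ p.2 = 0 := by
        obtain ⟨n, hn⟩ := Nat.exists_eq_add_of_le h
        rw [hn, pow_add, pow_two, F1_sq, zero_mul]
      rw [dpow, this, smul_zero]; rfl

/-- contravariant form of the two-dimensional representation -/
noncomputable def form1 : LinearMap.BilinForm K (Bool → K) :=
  b1.constr K fun j => b1.coord j

theorem form1_apply (x y : Bool → K) : form1 x y = ∑ j, x j * y j := by
  simp [form1, Module.Basis.constr_apply_fintype, b1]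

theorem form1_b (j k : Bool) : form1 (b1 j) (b1 k) = if j = k then (1 : K) else 0 := by
  rw [form1, Module.Basis.constr_basis, Module.Basis.coord_apply, b1.repr_self,
    Finsupp.single_apply]
  simp [eq_comm]

theorem bil_ext1 {f g : LinearMap.BilinForm K (Bool → K)}
    (h : ∀ j k, f (b1 j) (b1 k) = g (b1 j) (b1 k)) : f = g :=
  b1.ext fun j => b1.ext fun k => h j k

theorem isForm1 (hv0 : v ≠ 0) : IsForm A1 v (X1 v) form1 where
  symm x y := by
    rw [form1_apply, form1_apply]
    exact Finset.sum_congr rfl fun j _ => mul_comm _ _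
  E i x y := by
    have : form1 ∘ₗ (X1 v).E i = form1.compl₂ (v ^ (1 : ℤ) • ((X1 v).Kp i * (X1 v).F i)) := by
      apply bil_ext1
      intro j k
      rw [zpow_one]
      cases j <;> cases k <;>
        simp [E_f, E_t, F_f, F_t, Kp_t, form1_b, hv0]
    exact LinearMap.congr_fun (LinearMap.congr_fun this x) y
  F i x y := by
    have : form1 ∘ₗ (X1 v).F i = form1.compl₂ (v ^ (1 : ℤ) • ((X1 v).Km i * (X1 v).E i)) := by
      apply bil_ext1
      intro j k
      rw [zpow_one]
      cases j <;> cases k <;>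
        simp [E_f, E_t, F_f, F_t, Km_f, form1_b, hv0]
    exact LinearMap.congr_fun (LinearMap.congr_fun this x) y
  Kp i x y := by
    have : form1 ∘ₗ (X1 v).Kp i = form1.compl₂ ((X1 v).Kp i) := by
      apply bil_ext1
      intro j k
      cases j <;> cases k <;>
        simp [Kp_f, Kp_t, form1_b]
    exact LinearMap.congr_fun (LinearMap.congr_fun this x) y

/-- the canonical data of the two-dimensional representation -/
noncomputable def c1 (hv0 : v ≠ 0) (hv1 : v - v⁻¹ ≠ 0) (hbb : ∀ r, bar (bar r) = r)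
    (hbar : bar v = v⁻¹) : Canon A1 v bar (fun _ => 1) (Bool → K) Bool where
  X := X1 v
  rep := rel1 hv0 hv1
  B := b1
  top := false
  top_E := E_f v
  top_K := fun i => by
    show _ = v ^ ((1 : ℤ) * ((1 : ℕ) : ℤ)) • _
    rw [Kp_f, Nat.cast_one, one_mul, zpow_one]
  irr := fun N hN => by
    by_cases h : N = ⊥
    · exact Or.inl h
    · right
      obtain ⟨x, hx, hx0⟩ := N.ne_bot_iff.mp h
      have hrep : x = x false • b1 false + x true • b1 true := by
        funext j
        cases j <;> simp [b1]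
      have h0 : (b1 false : Bool → K) ∈ N := by
        by_cases ht : x true = 0
        · have hf : x false ≠ 0 := by
            intro hf
            apply hx0
            rw [hrep, ht, hf, zero_smul, zero_smul, add_zero]
          rw [ht, zero_smul, add_zero] at hrep
          have h2 := N.smul_mem (x false)⁻¹ hx
          have h3 : (x false)⁻¹ • x = b1 false := by
            calc (x false)⁻¹ • x = (x false)⁻¹ • (x false • b1 false) := congrArg _ hrep
              _ = b1 false := by rw [smul_smul, inv_mul_cancel₀ hf, one_smul]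
          rwa [h3] at h2
        · have h1 := (hN () x hx).1
          rw [hrep, map_add, map_smul, map_smul, E_f, E_t, smul_zero, zero_add] at h1
          have := N.smul_mem (x true)⁻¹ h1
          rwa [smul_smul, inv_mul_cancel₀ ht, one_smul] at this
      have h1 : (b1 true : Bool → K) ∈ N := by
        have := (hN () _ h0).2.1
        rwa [F_f] at this
      rw [eq_top_iff, ← b1.span_eq]
      apply Submodule.span_le.mpr
      rintro _ ⟨j, rfl⟩
      cases j
      · exact h0
      · exact h1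
  dep := fun j _ => if j then 1 else 0
  wt := fun i j => by
    cases j
    · have h : wex A1 (fun _ => ((1 : ℕ) : ℤ)) (fun k => ((0 : ℕ) : ℤ)) i = 1 := by
        show (1 : ℤ) * ((1 : ℕ) : ℤ) - ∑ _k : Unit, (1 : ℤ) * 2 * ((0 : ℕ) : ℤ) = 1
        simp
      show _ = v ^ wex A1 (fun _ => ((1 : ℕ) : ℤ)) (fun k => ((0 : ℕ) : ℤ)) i • _
      rw [Kp_f, h, zpow_one]
    · have h : wex A1 (fun _ => ((1 : ℕ) : ℤ)) (fun k => ((1 : ℕ) : ℤ)) i = -1 := by
        show (1 : ℤ) * ((1 : ℕ) : ℤ) - ∑ _k : Unit, (1 : ℤ) * 2 * ((1 : ℕ) : ℤ) = -1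
        simp
      show _ = v ^ wex A1 (fun _ => ((1 : ℕ) : ℤ)) (fun k => ((1 : ℕ) : ℤ)) i • _
      rw [Kp_t, h, zpow_neg_one]
  psi := semi bar b1 b1
  isBar := by
    refine semi_isBar hbb _ _ _ (fun j => semi_b _ _ _) ?_ ?_ ?_
    · intro i j; cases j
      · rw [E_f, map_zero]
      · rw [E_t, semi_b]
    · intro i j; cases j
      · rw [F_f, semi_b]
      · rw [F_t, map_zero]
    · intro i j; cases j
      · rw [Kp_f, Km_f, semi_smul, semi_b, hbar]
      · rw [Kp_t, Km_t, semi_smul, semi_b, map_inv₀, hbar, inv_inv]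
  form := form1
  isForm := isForm1 hv0
  form_top := by rw [form1_b, if_pos rfl]
  psi_B := fun j => semi_b _ _ _
  lattice := by
    apply le_antisymm
    · apply Submodule.span_le.mpr
      rintro _ ⟨j, rfl⟩
      cases j
      · exact Submodule.subset_span ⟨[], rfl⟩
      · refine Submodule.subset_span ⟨[((), 1)], ?_⟩
        have hq : dpow (v ^ (1 : ℤ)) ((X1 v).F ()) 1 = (X1 v).F () := by
          simp [dpow, qfact, qint, div_self hv1]
        show dpow (v ^ (1 : ℤ)) ((X1 v).F ()) 1 (b1 false) = b1 true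
        rw [hq, F_f]
    · apply Submodule.span_le.mpr
      rintro _ ⟨w, rfl⟩
      rcases mon_X1 hv1 w with h | h | h
      · rw [h]; exact Submodule.zero_mem _
      · rw [h]; exact Submodule.subset_span ⟨_, rfl⟩
      · rw [h]; exact Submodule.subset_span ⟨_, rfl⟩
  orth := fun j k => ⟨0, Subring.zero_mem _, by rw [form1_b, mul_zero, add_zero]⟩

/-! ### The tensor product of two two-dimensional representations -/

/-- the tensor product of two copies of the two-dimensional representation -/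
structure Mod22 {W : Type} [AddCommGroup W] [Module K W] (v : K) (X : Ops Unit K W)
    (w : Bool × Bool → W) : Prop where
  Eff : ∀ i, X.E i (w (false, false)) = 0
  Eft : ∀ i, X.E i (w (false, true)) = w (false, false)
  Etf : ∀ i, X.E i (w (true, false)) = v • w (false, false)
  Ett : ∀ i, X.E i (w (true, true)) = v⁻¹ • w (false, true) + w (true, false)
  Fff : ∀ i, X.F i (w (false, false)) = w (true, false) + v⁻¹ • w (false, true)
  Fft : ∀ i, X.F i (w (false, true)) = w (true, true)
  Ftf : ∀ i, X.F i (w (true, false)) = v • w (true, true)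
  Ftt : ∀ i, X.F i (w (true, true)) = 0
  Kff : ∀ i, X.Kp i (w (false, false)) = (v * v) • w (false, false)
  Kft : ∀ i, X.Kp i (w (false, true)) = w (false, true)
  Ktf : ∀ i, X.Kp i (w (true, false)) = w (true, false)
  Ktt : ∀ i, X.Kp i (w (true, true)) = (v⁻¹ * v⁻¹) • w (true, true)
  Mff : ∀ i, X.Km i (w (false, false)) = (v⁻¹ * v⁻¹) • w (false, false)
  Mft : ∀ i, X.Km i (w (false, true)) = w (false, true)
  Mtf : ∀ i, X.Km i (w (true, false)) = w (true, false)
  Mtt : ∀ i, X.Km i (w (true, true)) = (v * v) • w (true, true)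

section W

variable {W : Type} [AddCommGroup W] [Module K W]

/-- elementary change of basis -/
def Q (r : K) (w : Bool × Bool → W) (j : Bool × Bool) : W :=
  if j = (true, false) then w (true, false) + r • w (false, true) else w j

theorem Q_tf (r : K) (w : Bool × Bool → W) :
    Q r w (true, false) = w (true, false) + r • w (false, true) := rfl

theorem Q_ff (r : K) (w : Bool × Bool → W) : Q r w (false, false) = w (false, false) := rfl

theorem Q_ft (r : K) (w : Bool × Bool → W) : Q r w (false, true) = w (false, true) := rfl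

theorem Q_tt (r : K) (w : Bool × Bool → W) : Q r w (true, true) = w (true, true) := rfl

theorem all22 {p : Bool × Bool → Prop} (h1 : p (false, false)) (h2 : p (false, true))
    (h3 : p (true, false)) (h4 : p (true, true)) (j : Bool × Bool) : p j := by
  obtain ⟨a, b⟩ := j
  cases a <;> cases b
  · exact h1
  · exact h2
  · exact h3
  · exact h4

theorem Q_comp (r : K) (b : Module.Basis (Bool × Bool) K W) :
    b.constr K (Q r b) ∘ₗ b.constr K (Q (-r) b) = LinearMap.id := by
  have h : ∀ s : K, ∀ j, b.constr K (Q s b) (b j) = Q s b j := fun s j => b.constr_basis K _ j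
  refine b.ext (all22 ?_ ?_ ?_ ?_)
  · rw [LinearMap.comp_apply, h, Q_ff, h, Q_ff]; rfl
  · rw [LinearMap.comp_apply, h, Q_ft, h, Q_ft]; rfl
  · rw [LinearMap.comp_apply, h, Q_tf, map_add, map_smul, h, h, Q_tf, Q_ft, neg_smul,
      add_neg_cancel_right]; rfl
  · rw [LinearMap.comp_apply, h, Q_tt, h, Q_tt]; rfl

/-- elementary change of basis as a linear equivalence -/
noncomputable def Qe (r : K) (b : Module.Basis (Bool × Bool) K W) : W ≃ₗ[K] W :=
  LinearEquiv.ofLinearMap (b.constr K (Q r b)) (b.constr K (Q (-r) b)) (Q_comp r b)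
    (by have := Q_comp (-r) b; rwa [neg_neg] at this)

/-- the new basis -/
noncomputable def Qb (r : K) (b : Module.Basis (Bool × Bool) K W) :
    Module.Basis (Bool × Bool) K W := b.map (Qe r b)

theorem Qb_apply (r : K) (b : Module.Basis (Bool × Bool) K W) (j : Bool × Bool) :
    Qb r b j = Q r b j := by
  rw [Qb, Module.Basis.map_apply]
  exact b.constr_basis K (Q r b) j

/-- bar involution -/
noncomputable def ps (bar : K ≃+* K) (v : K) (b : Module.Basis (Bool × Bool) K W) : W →+ W :=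
  semi bar b (Q (v⁻¹ - v) b)

theorem ps_b (b : Module.Basis (Bool × Bool) K W) (j : Bool × Bool) :
    ps bar v b (b j) = Q (v⁻¹ - v) b j := semi_b _ _ _

theorem ps_smul (b : Module.Basis (Bool × Bool) K W) (r : K) (x : W) :
    ps bar v b (r • x) = bar r • ps bar v b x := semi_smul _ _ _ _

theorem isBar22 (hbb : ∀ r, bar (bar r) = r) (hbar : bar v = v⁻¹)
    {X : Ops Unit K W} (b : Module.Basis (Bool × Bool) K W) (h : Mod22 v X b) :
    IsBar bar X (ps bar v b) := by
  have hi : bar v⁻¹ = v := by rw [map_inv₀, hbar, inv_inv]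
  refine semi_isBar hbb _ _ _ ?_ ?_ ?_ ?_
  · show ∀ j, ps bar v b (Q (v⁻¹ - v) b j) = b j
    refine all22 ?_ ?_ ?_ ?_
    · rw [Q_ff, ps_b, Q_ff]
    · rw [Q_ft, ps_b, Q_ft]
    · rw [Q_tf, map_add, ps_smul, ps_b, ps_b, Q_tf, Q_ft, map_sub, hi, hbar, add_assoc,
        ← add_smul]
      have : v⁻¹ - v + (v - v⁻¹) = 0 := by ring
      rw [this, zero_smul, add_zero]
    · rw [Q_tt, ps_b, Q_tt]
  · show ∀ i j, ps bar v b (X.E i (b j)) = X.E i (Q (v⁻¹ - v) b j)
    intro i
    refine all22 ?_ ?_ ?_ ?_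
    · rw [Q_ff, h.Eff, map_zero]
    · rw [Q_ft, h.Eft, ps_b, Q_ff]
    · rw [Q_tf, h.Etf, ps_smul, ps_b, Q_ff, hbar, map_add, map_smul, h.Etf, h.Eft, ← add_smul]
      congr 1
      ring
    · rw [Q_tt, h.Ett, map_add, ps_smul, ps_b, ps_b, Q_ft, Q_tf, hi]
      module
  · show ∀ i j, ps bar v b (X.F i (b j)) = X.F i (Q (v⁻¹ - v) b j)
    intro i
    refine all22 ?_ ?_ ?_ ?_
    · rw [Q_ff, h.Fff, map_add, ps_smul, ps_b, ps_b, Q_ft, Q_tf, hi]
      module
    · rw [Q_ft, h.Fft, ps_b, Q_tt]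
    · rw [Q_tf, h.Ftf, ps_smul, ps_b, Q_tt, hbar, map_add, map_smul, h.Ftf, h.Fft, ← add_smul]
      congr 1
      ring
    · rw [Q_tt, h.Ftt, map_zero]
  · show ∀ i j, ps bar v b (X.Kp i (b j)) = X.Km i (Q (v⁻¹ - v) b j)
    intro i
    refine all22 ?_ ?_ ?_ ?_
    · rw [Q_ff, h.Kff, h.Mff, ps_smul, ps_b, Q_ff, map_mul, hbar]
    · rw [Q_ft, h.Kft, h.Mft, ps_b, Q_ft]
    · rw [Q_tf, h.Ktf, map_add, map_smul, h.Mtf, h.Mft, ps_b, Q_tf]
    · rw [Q_tt, h.Ktt, h.Mtt, ps_smul, ps_b, Q_tt, map_mul, hi]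

theorem ps_Qb (hbar : bar v = v⁻¹) (b : Module.Basis (Bool × Bool) K W) :
    ∀ j, ps bar v b (Qb v⁻¹ b j) = Qb v⁻¹ b j := by
  have hi : bar v⁻¹ = v := by rw [map_inv₀, hbar, inv_inv]
  refine all22 ?_ ?_ ?_ ?_
  · rw [Qb_apply, Q_ff, ps_b, Q_ff]
  · rw [Qb_apply, Q_ft, ps_b, Q_ft]
  · rw [Qb_apply, Q_tf, map_add, ps_smul, ps_b, ps_b, Q_tf, Q_ft, hi]
    module
  · rw [Qb_apply, Q_tt, ps_b, Q_tt]

theorem span_Qb (b : Module.Basis (Bool × Bool) K W) :
    Submodule.span (Zm v) (Set.range (Qb v⁻¹ b)) = Submodule.span (Zm v) (Set.range b) := by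
  have hm : ∀ x ∈ Submodule.span (Zm v) (Set.range b),
      v⁻¹ • x ∈ Submodule.span (Zm v) (Set.range b) := by
    intro x hx
    exact Submodule.smul_mem _ (⟨v⁻¹, Subring.subset_closure rfl⟩ : Zm v) hx
  have hm' : ∀ x ∈ Submodule.span (Zm v) (Set.range (Qb v⁻¹ b)),
      v⁻¹ • x ∈ Submodule.span (Zm v) (Set.range (Qb v⁻¹ b)) := by
    intro x hx
    exact Submodule.smul_mem _ (⟨v⁻¹, Subring.subset_closure rfl⟩ : Zm v) hx
  have hs : ∀ j, b j ∈ Submodule.span (Zm v) (Set.range b) := fun j =>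
    Submodule.subset_span ⟨j, rfl⟩
  have hs' : ∀ j, Qb v⁻¹ b j ∈ Submodule.span (Zm v) (Set.range (Qb v⁻¹ b)) := fun j =>
    Submodule.subset_span ⟨j, rfl⟩
  have e1 : b (false, false) = Qb v⁻¹ b (false, false) := by rw [Qb_apply, Q_ff]
  have e2 : b (false, true) = Qb v⁻¹ b (false, true) := by rw [Qb_apply, Q_ft]
  have e3 : b (true, true) = Qb v⁻¹ b (true, true) := by rw [Qb_apply, Q_tt]
  have e4 : Qb v⁻¹ b (true, false) = b (true, false) + v⁻¹ • b (false, true) := by
    rw [Qb_apply, Q_tf]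
  apply le_antisymm
  · apply Submodule.span_le.mpr
    rintro _ ⟨j, rfl⟩
    revert j
    refine all22 ?_ ?_ ?_ ?_
    · rw [← e1]; exact hs _
    · rw [← e2]; exact hs _
    · rw [e4]; exact Submodule.add_mem _ (hs _) (hm _ (hs _))
    · rw [← e3]; exact hs _
  · apply Submodule.span_le.mpr
    rintro _ ⟨j, rfl⟩
    revert j
    refine all22 ?_ ?_ ?_ ?_
    · rw [e1]; exact hs' _
    · rw [e2]; exact hs' _
    · have : b (true, false) = Qb v⁻¹ b (true, false) - v⁻¹ • Qb v⁻¹ b (false, true) := by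
        rw [e4, ← e2, add_sub_cancel_right]
      rw [this]
      exact Submodule.sub_mem _ (hs' _) (hm' _ (hs' _))
    · rw [e3]; exact hs' _

theorem cong_Qb (b : Module.Basis (Bool × Bool) K W) :
    ∀ j, ∃ x ∈ Submodule.span (Zm v) (Set.range b), Qb v⁻¹ b j - b j = v⁻¹ • x := by
  refine all22 ?_ ?_ ?_ ?_
  · exact ⟨0, Submodule.zero_mem _, by rw [Qb_apply, Q_ff, sub_self, smul_zero]⟩
  · exact ⟨0, Submodule.zero_mem _, by rw [Qb_apply, Q_ft, sub_self, smul_zero]⟩
  · exact ⟨b (false, true), Submodule.subset_span ⟨_, rfl⟩, by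
      rw [Qb_apply, Q_tf, add_sub_cancel_left]⟩
  · exact ⟨0, Submodule.zero_mem _, by rw [Qb_apply, Q_tt, sub_self, smul_zero]⟩

end W

/-! ### The three tensor products -/

/-- basis of `V₁ ⊗ V₁` -/
noncomputable def b11 : Module.Basis (Bool × Bool) K ((Bool → K) ⊗[K] (Bool → K)) :=
  b1.tensorProduct b1

/-- basis of `V₁ ⊗ (V₁ ⊗ V₀)` -/
noncomputable def b110 : Module.Basis (Bool × Bool) K ((Bool → K) ⊗[K] ((Bool → K) ⊗[K] K)) :=
  (b1.tensorProduct (b1.tensorProduct b0)).reindex
    ⟨fun j => (j.1, j.2.1), fun j => (j.1, j.2, ()), fun _ => rfl, fun _ => rfl⟩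

/-- basis of `V₀ ⊗ (V₁ ⊗ V₁)` -/
noncomputable def b011 : Module.Basis (Bool × Bool) K (K ⊗[K] ((Bool → K) ⊗[K] (Bool → K))) :=
  (b0.tensorProduct (b1.tensorProduct b1)).reindex
    ⟨fun j => (j.2.1, j.2.2), fun j => ((), j.1, j.2), fun _ => rfl, fun _ => rfl⟩

theorem b11_apply (a b : Bool) : (b11 (K := K)) (a, b) = b1 a ⊗ₜ[K] b1 b := by
  simp [b11, Module.Basis.tensorProduct_apply]

theorem b110_apply (a b : Bool) : (b110 (K := K)) (a, b) = b1 a ⊗ₜ[K] (b1 b ⊗ₜ[K] (1 : K)) := by
  simp [b110, Module.Basis.tensorProduct_apply, b0_apply]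

theorem b011_apply (a b : Bool) : (b011 (K := K)) (a, b) = (1 : K) ⊗ₜ[K] (b1 a ⊗ₜ[K] b1 b) := by
  simp [b011, Module.Basis.tensorProduct_apply, b0_apply]

theorem X0_E (i : Unit) (x : K) : (X0 : Ops Unit K K).E i x = 0 := rfl
theorem X0_F (i : Unit) (x : K) : (X0 : Ops Unit K K).F i x = 0 := rfl
theorem X0_Kp (i : Unit) (x : K) : (X0 : Ops Unit K K).Kp i x = x := rfl
theorem X0_Km (i : Unit) (x : K) : (X0 : Ops Unit K K).Km i x = x := rfl

theorem mod11 (hv0 : v ≠ 0) : Mod22 v ((X1 v).tens (X1 v)) (b11 (K := K)) := by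
  constructor <;> intro i <;>
  simp only [b11_apply, tens_E, tens_F, tens_Kp, tens_Km, E_f, E_t, F_f, F_t, Kp_f, Kp_t, Km_f,
    Km_t, zero_tmul, tmul_zero, add_zero, zero_add, tmul_smul, ← smul_tmul', smul_smul, smul_zero,
    inv_mul_cancel₀ hv0, mul_inv_cancel₀ hv0, one_smul]

theorem mod110 (hv0 : v ≠ 0) :
    Mod22 v ((X1 v).tens ((X1 v).tens X0)) (b110 (K := K)) := by
  constructor <;> intro i <;>
  simp only [b110_apply, tens_E, tens_F, tens_Kp, tens_Km, E_f, E_t, F_f, F_t, Kp_f, Kp_t, Km_f,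
    Km_t, X0_E, X0_F, X0_Kp, X0_Km, zero_tmul, tmul_zero, add_zero, zero_add, tmul_smul,
    ← smul_tmul', smul_smul, smul_zero, inv_mul_cancel₀ hv0, mul_inv_cancel₀ hv0, one_smul]

theorem mod011 (hv0 : v ≠ 0) :
    Mod22 v ((X0 : Ops Unit K K).tens ((X1 v).tens (X1 v))) (b011 (K := K)) := by
  constructor <;> intro i <;>
  simp only [b011_apply, tens_E, tens_F, tens_Kp, tens_Km, E_f, E_t, F_f, F_t, Kp_f, Kp_t, Km_f,
    Km_t, X0_E, X0_F, X0_Kp, X0_Km, zero_tmul, tmul_zero, add_zero, zero_add, tmul_smul,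
    ← smul_tmul', smul_smul, smul_zero, inv_mul_cancel₀ hv0, mul_inv_cancel₀ hv0, one_smul, tmul_add]

section tcanon

variable (hv0 : v ≠ 0) (hv1 : v - v⁻¹ ≠ 0) (hbb : ∀ r, bar (bar r) = r) (hbar : bar v = v⁻¹)

theorem tb110 (a b : Bool) :
    tb (c1 hv0 hv1 hbb hbar) (c1 hv0 hv1 hbb hbar) (c0 (v := v) hbb) (a, b, ()) = b110 (a, b) := by
  rw [b110_apply]
  show b1 a ⊗ₜ[K] (b1 b ⊗ₜ[K] b0 ()) = _
  rw [b0_apply]

theorem tb011 (a b : Bool) :
    tb (c0 (v := v) hbb) (c1 hv0 hv1 hbb hbar) (c1 hv0 hv1 hbb hbar) ((), a, b) = b011 (a, b) := by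
  rw [b011_apply]
  show b0 () ⊗ₜ[K] (b1 a ⊗ₜ[K] b1 b) = _
  rw [b0_apply]

theorem range110 :
    Set.range (tb (c1 hv0 hv1 hbb hbar) (c1 hv0 hv1 hbb hbar) (c0 (v := v) hbb)) =
      Set.range (b110 (K := K)) := by
  ext x
  constructor
  · rintro ⟨⟨a, b, u⟩, rfl⟩
    exact ⟨(a, b), (tb110 hv0 hv1 hbb hbar a b).symm⟩
  · rintro ⟨⟨a, b⟩, rfl⟩
    exact ⟨(a, b, ()), tb110 hv0 hv1 hbb hbar a b⟩

theorem range011 :
    Set.range (tb (c0 (v := v) hbb) (c1 hv0 hv1 hbb hbar) (c1 hv0 hv1 hbb hbar)) =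
      Set.range (b011 (K := K)) := by
  ext x
  constructor
  · rintro ⟨⟨u, a, b⟩, rfl⟩
    exact ⟨(a, b), (tb011 hv0 hv1 hbb hbar a b).symm⟩
  · rintro ⟨⟨a, b⟩, rfl⟩
    exact ⟨((), a, b), tb011 hv0 hv1 hbb hbar a b⟩

/-- the canonical basis of `V₁ ⊗ (V₁ ⊗ V₀)` -/
noncomputable def t110 :
    TCanon (c1 hv0 hv1 hbb hbar) (c1 hv0 hv1 hbb hbar) (c0 (v := v) hbb) where
  psi23 := semi bar (b1.tensorProduct b0) (b1.tensorProduct b0)
  isBar23 := by
    have hi : bar v⁻¹ = v := by rw [map_inv₀, hbar, inv_inv]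
    have hb : ∀ (a : Bool) (u : Unit), ((b1 (K := K)).tensorProduct (b0 (K := K))) (a, u) =
        b1 a ⊗ₜ[K] (1 : K) := by
      intro a u
      simp [Module.Basis.tensorProduct_apply, b0_apply]
    refine semi_isBar hbb _ _ _ (fun j => semi_b _ _ _) ?_ ?_ ?_
    · rintro i ⟨a, u⟩
      show semi bar _ _ (((X1 v).tens X0).E i _) = ((X1 v).tens X0).E i _
      rw [hb, tens_E, X0_E, X0_Kp, tmul_zero, add_zero]
      cases a
      · rw [E_f, zero_tmul, map_zero]
      · rw [E_t, ← hb false u, semi_b]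
    · rintro i ⟨a, u⟩
      show semi bar _ _ (((X1 v).tens X0).F i _) = ((X1 v).tens X0).F i _
      rw [hb, tens_F, X0_F, tmul_zero, add_zero]
      cases a
      · rw [F_f, ← hb true u, semi_b]
      · rw [F_t, zero_tmul, map_zero]
    · rintro i ⟨a, u⟩
      show semi bar _ _ (((X1 v).tens X0).Kp i _) = ((X1 v).tens X0).Km i _
      rw [hb, tens_Kp, tens_Km, X0_Kp, X0_Km]
      cases a
      · rw [Kp_f, Km_f, ← smul_tmul', ← smul_tmul', semi_smul, ← hb false u, semi_b, hbar]
      · rw [Kp_t, Km_t, ← smul_tmul', ← smul_tmul', semi_smul, ← hb true u, semi_b, hi]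
  psi23_top y := by
    show semi bar _ _ (b1 false ⊗ₜ[K] y) = b1 false ⊗ₜ[K] semi bar b0 b0 y
    have hb : ((b1 (K := K)).tensorProduct (b0 (K := K))) (false, ()) =
        b1 false ⊗ₜ[K] (1 : K) := by
      simp [Module.Basis.tensorProduct_apply, b0_apply]
    have h1 : (b1 false : Bool → K) ⊗ₜ[K] y = y • (b1 false ⊗ₜ[K] (1 : K)) := by
      rw [← tmul_smul, smul_eq_mul, mul_one]
    have h2 : y = y • b0 () := by rw [b0_apply, smul_eq_mul, mul_one]
    rw [h1, semi_smul, ← hb, semi_b, hb]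
    conv_rhs => rw [h2]
    rw [semi_smul, semi_b, b0_apply, tmul_smul]
  psi := ps bar v b110
  isBar := isBar22 hbb hbar b110 (mod110 hv0)
  psi_top y := by
    have hb : ∀ (a : Bool) (u : Unit), ((b1 (K := K)).tensorProduct (b0 (K := K))) (a, u) =
        b1 a ⊗ₜ[K] (1 : K) := by
      intro a u
      simp [Module.Basis.tensorProduct_apply, b0_apply]
    show ps bar v b110 (b1 false ⊗ₜ[K] y) = b1 false ⊗ₜ[K]
      semi bar (b1.tensorProduct b0) (b1.tensorProduct b0) y
    refine semi_ext' (b1.tensorProduct b0) (s := bar)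
      (f := fun y => ps bar v b110 (b1 false ⊗ₜ[K] y))
      (g := fun y => b1 false ⊗ₜ[K] semi bar (b1.tensorProduct b0) (b1.tensorProduct b0) y)
      (fun x y => by simp only [tmul_add, map_add]) (fun x y => by simp only [tmul_add, map_add])
      ?_ ?_ ?_ y
    · intro r x
      show ps bar v b110 (b1 false ⊗ₜ[K] (r • x)) = bar r • ps bar v b110 (b1 false ⊗ₜ[K] x)
      rw [tmul_smul, ps_smul]
    · intro r x
      show b1 false ⊗ₜ[K] (semi bar _ _ (r • x)) = bar r • (b1 false ⊗ₜ[K] (semi bar _ _ x))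
      rw [semi_smul, tmul_smul]
    · rintro ⟨a, u⟩
      show ps bar v b110 (b1 false ⊗ₜ[K] _) = b1 false ⊗ₜ[K] (semi bar _ _ _)
      rw [semi_b, hb, ← b110_apply, ps_b]
      cases a
      · rw [Q_ff]
      · rw [Q_ft]
  B := (Qb v⁻¹ b110).reindex
    ⟨fun j => (j.1, j.2, ()), fun j => (j.1, j.2.1), fun _ => rfl, fun _ => rfl⟩
  psi_B j := by
    rw [Module.Basis.reindex_apply]
    exact ps_Qb hbar _ _
  lattice := by
    have h1 := span_Qb (v := v) (b110 (K := K))
    rw [range110, Module.Basis.range_reindex]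
    exact h1
  cong := by
    rintro ⟨a, b, u⟩
    rw [range110, Module.Basis.reindex_apply]
    obtain ⟨x, hx, hx'⟩ := cong_Qb (v := v) (b110 (K := K)) (a, b)
    refine ⟨x, hx, ?_⟩
    rw [← hx']
    congr 1
    exact tb110 hv0 hv1 hbb hbar a b

/-- the canonical basis of `V₀ ⊗ (V₁ ⊗ V₁)` -/
noncomputable def t011 :
    TCanon (c0 (v := v) hbb) (c1 hv0 hv1 hbb hbar) (c1 hv0 hv1 hbb hbar) where
  psi23 := ps bar v b11
  isBar23 := isBar22 hbb hbar b11 (mod11 hv0)
  psi23_top y := by
    show ps bar v b11 (b1 false ⊗ₜ[K] y) = b1 false ⊗ₜ[K] semi bar b1 b1 y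
    refine semi_ext' b1 (s := bar)
      (f := fun y => ps bar v b11 (b1 false ⊗ₜ[K] y))
      (g := fun y => b1 false ⊗ₜ[K] semi bar b1 b1 y)
      (fun x y => by simp only [tmul_add, map_add]) (fun x y => by simp only [tmul_add, map_add])
      ?_ ?_ ?_ y
    · intro r x
      show ps bar v b11 (b1 false ⊗ₜ[K] (r • x)) = bar r • ps bar v b11 (b1 false ⊗ₜ[K] x)
      rw [tmul_smul, ps_smul]
    · intro r x
      show b1 false ⊗ₜ[K] (semi bar _ _ (r • x)) = bar r • (b1 false ⊗ₜ[K] (semi bar _ _ x))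
      rw [semi_smul, tmul_smul]
    · intro a
      show ps bar v b11 (b1 false ⊗ₜ[K] _) = b1 false ⊗ₜ[K] (semi bar _ _ _)
      rw [semi_b, ← b11_apply, ps_b]
      cases a
      · rw [Q_ff]
      · rw [Q_ft]
  psi := ps bar v b011
  isBar := isBar22 hbb hbar b011 (mod011 hv0)
  psi_top y := by
    show ps bar v b011 (b0 () ⊗ₜ[K] y) = b0 () ⊗ₜ[K] ps bar v b11 y
    rw [b0_apply]
    refine semi_ext' b11 (s := bar)
      (f := fun y => ps bar v b011 ((1 : K) ⊗ₜ[K] y))
      (g := fun y => (1 : K) ⊗ₜ[K] ps bar v b11 y)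
      (fun x y => by simp only [tmul_add, map_add]) (fun x y => by simp only [tmul_add, map_add])
      ?_ ?_ ?_ y
    · intro r x
      show ps bar v b011 ((1 : K) ⊗ₜ[K] (r • x)) = bar r • ps bar v b011 ((1 : K) ⊗ₜ[K] x)
      rw [tmul_smul, ps_smul]
    · intro r x
      show (1 : K) ⊗ₜ[K] (ps bar v b11 (r • x)) = bar r • ((1 : K) ⊗ₜ[K] (ps bar v b11 x))
      rw [ps_smul, tmul_smul]
    · rintro ⟨a, b⟩
      show ps bar v b011 ((1 : K) ⊗ₜ[K] _) = (1 : K) ⊗ₜ[K] (ps bar v b11 _)
      rw [ps_b, b11_apply, ← b011_apply, ps_b]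
      cases a <;> cases b
      · rw [Q_ff, Q_ff, b011_apply, b11_apply]
      · rw [Q_ft, Q_ft, b011_apply, b11_apply]
      · rw [Q_tf, Q_tf, b011_apply, b011_apply, b11_apply, b11_apply, tmul_add, tmul_smul]
      · rw [Q_tt, Q_tt, b011_apply, b11_apply]
  B := (Qb v⁻¹ b011).reindex
    ⟨fun j => ((), j.1, j.2), fun j => (j.2.1, j.2.2), fun _ => rfl, fun _ => rfl⟩
  psi_B j := by
    rw [Module.Basis.reindex_apply]
    exact ps_Qb hbar _ _
  lattice := by
    have h1 := span_Qb (v := v) (b011 (K := K))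
    rw [range011, Module.Basis.range_reindex]
    exact h1
  cong := by
    rintro ⟨u, a, b⟩
    rw [range011, Module.Basis.reindex_apply]
    obtain ⟨x, hx, hx'⟩ := cong_Qb (v := v) (b011 (K := K)) (a, b)
    refine ⟨x, hx, ?_⟩
    rw [← hx']
    congr 1
    exact tb011 hv0 hv1 hbb hbar a b

end tcanon

end Pool.Agent.Work.MP_8ad3a8_al.Example
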