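import Mathlib
import Pool.Agent.Work.MP_8ad3a8_al.Example
import Pool.Agent.Work.MP_8ad3a8_al.Final

set_option autoImplicit false
set_option linter.unusedSectionVars false

/-!
Sanity check: for `sl₂` and the highest weights `(1, 1, 0)` the determinant is `-[2]`.
-/

namespace Pool.Agent.Work.MP_8ad3a8_al.Example

open TensorProduct

variable {K : Type} [Field K] {v : K} {bar : K ≃+* K}

section W

variable {W : Type} [AddCommGroup W] [Module K W]

theorem sum22 {M : Type} [AddCommMonoid M] (f : Bool × Bool → M) :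
    ∑ j, f j = f (false, false) + f (false, true) + f (true, false) + f (true, true) := by
  rw [Fintype.sum_prod_type]
  simp only [Fintype.sum_bool]
  abel

/-- the invariant vector -/
noncomputable def iv (v : K) (b : Module.Basis (Bool × Bool) K W) : W :=
  b (false, true) - v⁻¹ • b (true, false)

theorem iv_mem (hv0 : v ≠ 0) {X : Ops Unit K W} (b : Module.Basis (Bool × Bool) K W)
    (h : Mod22 v X b) : iv v b ∈ X.inv := by
  intro i
  refine ⟨?_, ?_, ?_⟩
  · rw [iv, map_sub, map_smul, h.Eft, h.Etf, smul_smul, inv_mul_cancel₀ hv0, one_smul, sub_self]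
  · rw [iv, map_sub, map_smul, h.Fft, h.Ftf, smul_smul, inv_mul_cancel₀ hv0, one_smul, sub_self]
  · rw [iv, map_sub, map_smul, h.Kft, h.Ktf]

theorem inv_eq (hv0 : v ≠ 0) (hv2 : v * v ≠ 1) {X : Ops Unit K W}
    (b : Module.Basis (Bool × Bool) K W) (h : Mod22 v X b) {x : W} (hx : x ∈ X.inv) :
    x = b.repr x (false, true) • iv v b := by
  have hK := (hx ()).2.2
  have hE := (hx ()).1
  have hs := b.sum_repr x
  rw [sum22] at hs
  set p := b.repr x (false, false) with hp
  set q := b.repr x (false, true) with hq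
  set r := b.repr x (true, false) with hr
  set s := b.repr x (true, true) with hs'
  rw [← hs] at hK hE
  simp only [map_add, map_smul, h.Kff, h.Kft, h.Ktf, h.Ktt, h.Eff, h.Eft, h.Etf, h.Ett] at hK hE
  have hK1 : b.repr (p • (v * v) • b (false, false) + q • b (false, true) + r • b (true, false) +
      s • (v⁻¹ * v⁻¹) • b (true, true)) = b.repr (p • b (false, false) + q • b (false, true) +
      r • b (true, false) + s • b (true, true)) := by rw [hK]
  have h1 := DFunLike.congr_fun hK1 (false, false)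
  have h2 := DFunLike.congr_fun hK1 (true, true)
  simp at h1 h2
  have hE1 : b.repr (p • (0 : W) + q • b (false, false) + r • v • b (false, false) +
      s • (v⁻¹ • b (false, true) + b (true, false))) = b.repr 0 := by rw [hE]
  have h3 := DFunLike.congr_fun hE1 (false, false)
  simp at h3
  have hp0 : p = 0 := by
    by_contra hne
    exact hv2 (mul_left_cancel₀ hne (by rw [mul_one]; exact h1))
  have hs0 : s = 0 := by
    by_contra hne
    have h4 : v⁻¹ * v⁻¹ = 1 := mul_left_cancel₀ hne (by rw [mul_one]; exact h2)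
    apply hv2
    have : v * v * (v⁻¹ * v⁻¹) = 1 := by field_simp
    rw [h4, mul_one] at this
    exact this
  have hr0 : r = -(q * v⁻¹) := by
    field_simp
    linear_combination h3
  rw [← hs, hp0, hs0, hr0, iv, zero_smul, zero_smul, zero_add, add_zero, smul_sub, smul_smul,
    neg_smul, sub_eq_add_neg]

/-- the basis of the space of invariants -/
noncomputable def ib (hv0 : v ≠ 0) (hv2 : v * v ≠ 1) {X : Ops Unit K W}
    (b : Module.Basis (Bool × Bool) K W) (h : Mod22 v X b) : Module.Basis (Fin 1) K X.inv :=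
  Module.Basis.mk (v := fun _ => (⟨iv v b, iv_mem hv0 b h⟩ : X.inv))
    (by
      rw [linearIndependent_unique_iff]
      intro h0
      have h1 : iv v b = 0 := congrArg Subtype.val h0
      have h2 := DFunLike.congr_fun (congrArg b.repr h1) (false, true)
      simp [iv] at h2)
    (by
      rintro ⟨x, hx⟩ -
      have h1 := inv_eq hv0 hv2 b h hx
      have h2 : (⟨x, hx⟩ : X.inv) = b.repr x (false, true) • ⟨iv v b, iv_mem hv0 b h⟩ :=
        Subtype.ext h1
      rw [h2]
      exact Submodule.smul_mem _ _ (Submodule.subset_span ⟨0, rfl⟩))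

theorem ib_apply (hv0 : v ≠ 0) (hv2 : v * v ≠ 1) {X : Ops Unit K W}
    (b : Module.Basis (Bool × Bool) K W) (h : Mod22 v X b) (j : Fin 1) :
    (ib hv0 hv2 b h j).1 = iv v b := by
  rw [ib, Module.Basis.mk_apply]

theorem form_iv (B : LinearMap.BilinForm K W) (b : Module.Basis (Bool × Bool) K W)
    (hB : ∀ i j, B (b i) (b j) = if i = j then 1 else 0) :
    ∀ j, B (iv v b) (Q v⁻¹ b j) = if j = (false, true) then 1 else 0 := by
  refine all22 ?_ ?_ ?_ ?_
  · rw [Q_ff, iv, map_sub, map_smul, LinearMap.sub_apply, LinearMap.smul_apply, hB, hB]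
    simp
  · rw [Q_ft, iv, map_sub, map_smul, LinearMap.sub_apply, LinearMap.smul_apply, hB, hB]
    simp
  · rw [Q_tf, iv, map_sub, map_smul, LinearMap.sub_apply, LinearMap.smul_apply, map_add, map_add,
      map_smul, map_smul, hB, hB, hB, hB]
    simp
  · rw [Q_tt, iv, map_sub, map_smul, LinearMap.sub_apply, LinearMap.smul_apply, hB, hB]
    simp

end W

section fin

variable (hv0 : v ≠ 0) (hv1 : v - v⁻¹ ≠ 0) (hbb : ∀ r, bar (bar r) = r) (hbar : bar v = v⁻¹)

theorem form110 (i j : Bool × Bool) :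
    form3 (c1 hv0 hv1 hbb hbar) (c1 hv0 hv1 hbb hbar) (c0 (v := v) hbb) (b110 i) (b110 j) =
      if i = j then 1 else 0 := by
  obtain ⟨a, b⟩ := i
  obtain ⟨c, d⟩ := j
  rw [b110_apply, b110_apply, form3, form_tens_apply, form_tens_apply]
  show form1 (b1 a) (b1 c) * (form1 (b1 b) (b1 d) * ((1 : K) * 1)) = _
  rw [form1_b, form1_b]
  cases a <;> cases b <;> cases c <;> cases d <;> simp

theorem form011 (i j : Bool × Bool) :
    form3 (c0 (v := v) hbb) (c1 hv0 hv1 hbb hbar) (c1 hv0 hv1 hbb hbar) (b011 i) (b011 j) =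
      if i = j then 1 else 0 := by
  obtain ⟨a, b⟩ := i
  obtain ⟨c, d⟩ := j
  rw [b011_apply, b011_apply, form3, form_tens_apply, form_tens_apply]
  show (1 : K) * 1 * (form1 (b1 a) (b1 c) * form1 (b1 b) (b1 d)) = _
  rw [form1_b, form1_b]
  cases a <;> cases b <;> cases c <;> cases d <;> simp

theorem dual110 : IsDualCanon (t110 hv0 hv1 hbb hbar) (iv v (b110 (K := K))) := by
  refine ⟨(false, true, ()), ?_⟩
  rintro ⟨a, b, u⟩
  have h := form_iv (v := v) _ b110 (form110 hv0 hv1 hbb hbar) (a, b)
  have h2 : (t110 hv0 hv1 hbb hbar).B (a, b, u) = Q v⁻¹ b110 (a, b) := by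
    show ((Qb v⁻¹ b110).reindex _) (a, b, u) = _
    rw [Module.Basis.reindex_apply, ← Qb_apply]
    rfl
  rw [h2, h]
  cases a <;> cases b <;> simp

theorem dual011 : IsDualCanon (t011 hv0 hv1 hbb hbar) (iv v (b011 (K := K))) := by
  refine ⟨((), false, true), ?_⟩
  rintro ⟨u, a, b⟩
  have h := form_iv (v := v) _ b011 (form011 hv0 hv1 hbb hbar) (a, b)
  have h2 : (t011 hv0 hv1 hbb hbar).B (u, a, b) = Q v⁻¹ b011 (a, b) := by
    show ((Qb v⁻¹ b011).reindex _) (u, a, b) = _
    rw [Module.Basis.reindex_apply, ← Qb_apply]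
    rfl
  rw [h2, h]
  cases a <;> cases b <;> simp

/-- duality of the trivial representation -/
noncomputable def D0 : K ≃ₗ[K] Module.Dual K K :=
  LinearEquiv.ofLinearMap (LinearMap.mul K K) (LinearMap.applyₗ (1 : K))
    (by ext; simp) (by ext; simp)

/-- duality of the two-dimensional representation -/
noncomputable def D1 (hv0 : v ≠ 0) : (Bool → K) ≃ₗ[K] Module.Dual K (Bool → K) :=
  LinearEquiv.ofLinearMap
    (b1.constr K fun j => if j then b1.coord false else (-v) • b1.coord true)
    (b1.dualBasis.constr K fun j => if j then (-v⁻¹) • b1 false else b1 true)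
    (b1.dualBasis.ext (by
      intro j
      rw [LinearMap.comp_apply, Module.Basis.constr_basis]
      cases j
      · simp
      · simp [smul_smul, hv0]))
    (b1.ext (by
      intro j
      rw [LinearMap.comp_apply, Module.Basis.constr_basis]
      have h1 : ∀ k : Bool, ((b1 (K := K)).dualBasis.constr K fun j : Bool =>
          (if j then (-v⁻¹) • b1 false else b1 true : Bool → K))
          ((b1 (K := K)).coord k) = (if k then (-v⁻¹) • b1 false else b1 true : Bool → K) := by
        intro k
        rw [← Module.Basis.coe_dualBasis, Module.Basis.constr_basis]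
      cases j
      · rw [if_neg (by simp), map_smul, h1, if_pos rfl, smul_smul, neg_mul_neg,
          mul_inv_cancel₀ hv0, one_smul]; rfl
      · rw [if_pos rfl, h1, if_neg (by simp)]; rfl))

theorem D1_f : D1 hv0 (b1 false) = (-v) • b1.coord true := by
  show b1.constr K _ (b1 false) = _
  rw [Module.Basis.constr_basis]; rfl

theorem D1_t : D1 hv0 (b1 true) = (b1.coord false : Module.Dual K (Bool → K)) := by
  show b1.constr K _ (b1 true) = _
  rw [Module.Basis.constr_basis]; rfl

theorem D0_apply (x y : K) : D0 x y = x * y := rfl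

theorem isDuality0 : IsDuality (c0 (v := v) hbb) (c0 (v := v) hbb) D0 where
  E i x y := by
    show D0 (0 : K) y = - D0 x (0 : K)
    rw [D0_apply, D0_apply, zero_mul, mul_zero, neg_zero]
  F i x y := by
    show D0 (0 : K) y = - D0 x (0 : K)
    rw [D0_apply, D0_apply, zero_mul, mul_zero, neg_zero]
  Kp i x y := rfl
  low := by
    refine ⟨(), fun i => rfl, ?_⟩
    show D0 (b0 ()) = b0.coord ()
    apply b0.ext
    intro j
    rw [D0_apply, Module.Basis.coord_apply, b0.repr_self, b0_apply, mul_one]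
    simp

theorem isDuality1 :
    IsDuality (c1 hv0 hv1 hbb hbar) (c1 hv0 hv1 hbb hbar) (D1 hv0) where
  E i x y := by
    have : (D1 hv0).toLinearMap ∘ₗ (X1 v).E i =
        - (((X1 v).E i * (X1 v).Km i).dualMap ∘ₗ (D1 hv0).toLinearMap) := by
      apply b1.ext; intro j
      apply b1.ext; intro k
      cases j <;> cases k <;>
      simp [E_f, E_t, Km_f, Km_t, D1_f, D1_t]
    exact LinearMap.congr_fun (LinearMap.congr_fun this x) y
  F i x y := by
    have : (D1 hv0).toLinearMap ∘ₗ (X1 v).F i =
        - (((X1 v).Kp i * (X1 v).F i).dualMap ∘ₗ (D1 hv0).toLinearMap) := by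
      apply b1.ext; intro j
      apply b1.ext; intro k
      cases j <;> cases k <;>
      simp [F_f, F_t, Kp_t, D1_f, D1_t, hv0]
    exact LinearMap.congr_fun (LinearMap.congr_fun this x) y
  Kp i x y := by
    have : (D1 hv0).toLinearMap ∘ₗ (X1 v).Kp i =
        ((X1 v).Km i).dualMap ∘ₗ (D1 hv0).toLinearMap := by
      apply b1.ext; intro j
      apply b1.ext; intro k
      cases j <;> cases k <;>
      simp [Kp_f, Kp_t, Km_f, Km_t, D1_f, D1_t]
    exact LinearMap.congr_fun (LinearMap.congr_fun this x) y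
  low := ⟨true, fun i => F_t v i, D1_t hv0⟩

theorem pair_val :
    pairing (D1 hv0) (D1 hv0) (D0 (K := K)) (iv v b011) (iv v b110) = -(v + v⁻¹) := by
  have hc : ∀ a b : Bool, (b1 : Module.Basis Bool K (Bool → K)).coord a (b1 b) =
      if a = b then 1 else 0 := by
    intro a b
    rw [Module.Basis.coord_apply, b1.repr_self, Finsupp.single_apply]
    simp [eq_comm]
  rw [iv, iv, b110_apply, b110_apply, b011_apply, b011_apply]
  simp only [map_sub, map_smul, LinearMap.sub_apply, LinearMap.smul_apply, pairing_tmul, D1_f,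
    D1_t, D0_apply, hc, smul_eq_mul]
  simp
  field_simp
  ring

theorem mod110' : Mod22 v ((c1 hv0 hv1 hbb hbar).X.tens
    ((c1 hv0 hv1 hbb hbar).X.tens (c0 (v := v) hbb).X)) (b110 (K := K)) := mod110 hv0

theorem mod011' : Mod22 v ((c0 (v := v) hbb).X.tens
    ((c1 hv0 hv1 hbb hbar).X.tens (c1 hv0 hv1 hbb hbar).X)) (b011 (K := K)) := mod011 hv0

/-- For `sl₂` and the highest weights `(1, 1, 0)` all the data of the main theorem exist, and the
determinant is `-[2]`. -/
theorem example_det (hv2 : v * v ≠ 1) :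
    ∃ (f : Module.Basis (Fin 1) K ((c1 hv0 hv1 hbb hbar).X.tens
        ((c1 hv0 hv1 hbb hbar).X.tens (c0 (v := v) hbb).X)).inv)
      (g : Module.Basis (Fin 1) K ((c0 (v := v) hbb).X.tens
        ((c1 hv0 hv1 hbb hbar).X.tens (c1 hv0 hv1 hbb hbar).X)).inv),
      (∀ j, IsDualCanon (t110 hv0 hv1 hbb hbar) (f j).1) ∧
      (∀ j, IsDualCanon (t011 hv0 hv1 hbb hbar) (g j).1) ∧
      IsDuality (c1 hv0 hv1 hbb hbar) (c1 hv0 hv1 hbb hbar) (D1 hv0) ∧
      IsDuality (c0 (v := v) hbb) (c0 (v := v) hbb) D0 ∧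
      Matrix.det (Matrix.of fun i j => pairing (D1 hv0) (D1 hv0) D0 (g i).1 (f j).1) =
        - qint v 2 := by
  refine ⟨ib hv0 hv2 b110 (mod110' hv0 hv1 hbb hbar), ib hv0 hv2 b011 (mod011' hv0 hv1 hbb hbar),
    ?_, ?_,
    isDuality1 hv0 hv1 hbb hbar, isDuality0 hbb, ?_⟩
  · intro j
    rw [ib_apply]
    exact dual110 hv0 hv1 hbb hbar
  · intro j
    rw [ib_apply]
    exact dual011 hv0 hv1 hbb hbar
  · rw [Matrix.det_fin_one, Matrix.of_apply, ib_apply, ib_apply, pair_val]
    have h1 : v ^ (2 : ℤ) - v ^ (-2 : ℤ) = (v + v⁻¹) * (v - v⁻¹) := by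
      rw [zpow_neg, zpow_ofNat]
      field_simp
      ring
    rw [qint, h1, mul_div_assoc, div_self hv1, mul_one]

end fin

end Pool.Agent.Work.MP_8ad3a8_al.Example
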